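import Pool.Agent.KS.Basic

/-!
Module Beta. The form of degree four of a Kuga-Satake structure.

Proof. `β v = ∑ a b, (G⁻¹) a b * ψ (t a (v 0)) (v 1) * ψ (t b (v 2)) (v 3)`. It is rational
(`K.rat`, `PData.hψQ`, `G⁻¹` rational). Let `c` be as in `K.alg`, `f b = ∑ a, c a b • t a`;
`C = cᵀ * G * c` satisfies `f b * f b' + f b' * f b = (2 * C b b') • 1`, so its entries are algebraic
(look at a diagonal matrix entry of the left hand side; entries of products of matrices with algebraic
entries are algebraic), and so are the entries of `C⁻¹`; `G⁻¹ = c * C⁻¹ * cᵀ`, so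
`β v = ∑ b b', (C⁻¹) b b' * ψ (f b (v 0)) (v 1) * ψ (f b' (v 2)) (v 3)`, which is algebraic on
algebraic vectors.
Symmetries: a functional `μ` on `End V` vanishing on the span of the `t a` is applied to the first
factor of the tensor identity; the second factors are linearly independent.
-/

namespace Pool.Agent.KS

open Module Matrix Pool.Agent.Helper7

section general

variable {V : Type} [AddCommGroup V] [Module ℂ V] {n : ℕ}

/-- the product of two bilinear forms -/
noncomputable def betaQuad (φ₁ φ₂ : V →ₗ[ℂ] V →ₗ[ℂ] ℂ) :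
    MultilinearMap ℂ (fun _ : Fin 4 => V) ℂ where
  toFun v := φ₁ (v 0) (v 1) * φ₂ (v 2) (v 3)
  map_update_add' := by
    intro inst v i x y
    have h0 : inst = instDecidableEqFin 4 := Subsingleton.elim _ _
    subst h0
    fin_cases i <;>
      simp [Function.update_of_ne, map_add, LinearMap.add_apply, add_mul, mul_add]
  map_update_smul' := by
    intro inst v i c x
    have h0 : inst = instDecidableEqFin 4 := Subsingleton.elim _ _
    subst h0
    fin_cases i <;>
      simp [Function.update_of_ne, map_smul, LinearMap.smul_apply, smul_eq_mul] <;> ring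

lemma betaQuad_apply (φ₁ φ₂ : V →ₗ[ℂ] V →ₗ[ℂ] ℂ) (v : Fin 4 → V) :
    betaQuad φ₁ φ₂ v = φ₁ (v 0) (v 1) * φ₂ (v 2) (v 3) := rfl

/-- the form of degree four -/
noncomputable def betaForm (ψ : V →ₗ[ℂ] V →ₗ[ℂ] ℂ) (H : Matrix (Fin n) (Fin n) ℂ)
    (t : Fin n → Module.End ℂ V) : MultilinearMap ℂ (fun _ : Fin 4 => V) ℂ :=
  ∑ a, ∑ b, H a b • betaQuad (ψ.comp (t a)) (ψ.comp (t b))

lemma betaForm_apply (ψ : V →ₗ[ℂ] V →ₗ[ℂ] ℂ) (H : Matrix (Fin n) (Fin n) ℂ)
    (t : Fin n → Module.End ℂ V) (v : Fin 4 → V) :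
    betaForm ψ H t v = ∑ a, ∑ b, H a b * (ψ (t a (v 0)) (v 1) * ψ (t b (v 2)) (v 3)) := by
  rw [betaForm, _root_.sum_apply]
  refine Finset.sum_congr rfl fun a _ => ?_
  rw [_root_.sum_apply]
  refine Finset.sum_congr rfl fun b _ => ?_
  rw [_root_.smul_apply, smul_eq_mul, betaQuad_apply]
  rfl

lemma beta_op_zero {ψ : V →ₗ[ℂ] V →ₗ[ℂ] ℂ} (hnd : ∀ u, (∀ v, ψ u v = 0) → u = 0)
    (A : Module.End ℂ V) (h : ∀ u v, ψ (A u) v = 0) : A = 0 := by
  apply LinearMap.ext
  intro u
  exact hnd _ (h u)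

/-- the elimination of the second factor -/
lemma beta_span {ψ : V →ₗ[ℂ] V →ₗ[ℂ] ℂ} (hnd : ∀ u, (∀ v, ψ u v = 0) → u = 0)
    {H : Matrix (Fin n) (Fin n) ℂ} (hH : H.det ≠ 0) (Y Z : Fin n → Module.End ℂ V)
    (hZ : ∀ x : Fin n → ℂ, ∑ b, x b • Z b = 0 → x = 0) (S : Submodule ℂ (Module.End ℂ V))
    (h : ∀ v2 v3, ∑ a, ∑ b, (H a b * ψ (Z b v2) v3) • Y a ∈ S) : ∀ a, Y a ∈ S := by
  by_contra hcon
  push Not at hcon
  obtain ⟨a0, ha0⟩ := hcon
  obtain ⟨μ, hμ1, hμ2⟩ := Submodule.exists_dual_map_eq_bot_of_notMem ha0 inferInstance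
  have hμS : ∀ y ∈ S, μ y = 0 := by
    intro y hy
    have : μ y ∈ Submodule.map μ S := Submodule.mem_map_of_mem hy
    rw [hμ2] at this
    exact (Submodule.mem_bot ℂ).1 this
  -- the combination of the `Z b` vanishes
  have h1 : ∑ b, (∑ a, H a b * μ (Y a)) • Z b = 0 := by
    apply beta_op_zero hnd
    intro v2 v3
    have h2 := hμS _ (h v2 v3)
    rw [map_sum] at h2
    rw [LinearMap.sum_apply, map_sum, LinearMap.sum_apply]
    rw [← h2]
    have h3 : ∀ a : Fin n, μ (∑ b, (H a b * ψ (Z b v2) v3) • Y a) =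
        ∑ b, (H a b * μ (Y a)) * ψ (Z b v2) v3 := by
      intro a
      rw [map_sum]
      refine Finset.sum_congr rfl fun b _ => ?_
      rw [map_smul, smul_eq_mul]
      ring
    rw [Finset.sum_congr rfl fun a _ => h3 a, Finset.sum_comm]
    refine Finset.sum_congr rfl fun b _ => ?_
    rw [LinearMap.smul_apply, map_smul, LinearMap.smul_apply, smul_eq_mul, Finset.sum_mul]
  have h4 := hZ _ h1
  have h5 : Matrix.vecMul (fun a => μ (Y a)) H = 0 := by
    funext b
    have := congrFun h4 b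
    rw [Matrix.vecMul, dotProduct]
    rw [← this]
    exact Finset.sum_congr rfl fun a _ => mul_comm _ _
  have h6 := Matrix.eq_zero_of_vecMul_eq_zero hH h5
  exact hμ1 (congrFun h6 a0)

end general

/-- the solution of a linear system with algebraic coefficients -/
lemma beta_alg_solve {N : Type} [Fintype N] [DecidableEq N] (g : Matrix N N ℂ)
    (hg : ∀ i j, IsAlgebraic ℚ (g i j)) (hdet : g.det ≠ 0) (s c : N → ℂ)
    (hs : ∀ i, IsAlgebraic ℚ (s i)) (h : ∀ i, ∑ l, g i l * c l = s i) :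
    ∀ l, IsAlgebraic ℚ (c l) := by
  obtain ⟨g0, hg0⟩ : ∃ g0 : Matrix N N (algebraicClosure ℚ ℂ),
      g0.map (algebraMap (algebraicClosure ℚ ℂ) ℂ) = g :=
    ⟨fun i j => ⟨g i j, mem_algebraicClosure_iff.mpr (hg i j)⟩, by ext i j; rfl⟩
  obtain ⟨s0, hs0⟩ : ∃ s0 : N → algebraicClosure ℚ ℂ, ∀ i, ((s0 i : algebraicClosure ℚ ℂ) : ℂ) = s i :=
    ⟨fun i => ⟨s i, mem_algebraicClosure_iff.mpr (hs i)⟩, fun i => rfl⟩
  have hd0 : g0.det ≠ 0 := by
    intro h0
    apply hdet
    rw [← hg0]
    have h1 := RingHom.map_det (algebraMap (algebraicClosure ℚ ℂ) ℂ) g0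
    rw [h0, map_zero] at h1
    exact h1.symm
  have hu : IsUnit g0.det := isUnit_iff_ne_zero.mpr hd0
  have hu' : IsUnit g := (Matrix.isUnit_iff_isUnit_det g).mpr (isUnit_iff_ne_zero.mpr hdet)
  obtain ⟨c0, hc0⟩ : ∃ c0 : N → algebraicClosure ℚ ℂ, g0.mulVec c0 = s0 :=
    ⟨g0⁻¹.mulVec s0, by rw [Matrix.mulVec_mulVec, Matrix.mul_nonsing_inv g0 hu, Matrix.one_mulVec]⟩
  have h2 : g.mulVec (fun l => ((c0 l : algebraicClosure ℚ ℂ) : ℂ)) = g.mulVec c := by
    funext i
    have e1 : g.mulVec c i = s i := h i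
    have e2 := congrFun hc0 i
    have e3 := congrArg (algebraMap (algebraicClosure ℚ ℂ) ℂ) e2
    rw [e1, ← hs0]
    change (algebraMap (algebraicClosure ℚ ℂ) ℂ) (g0.mulVec c0 i) = _ at e3
    rw [Matrix.mulVec, dotProduct, map_sum] at e3
    rw [Matrix.mulVec, dotProduct, ← hg0]
    refine Eq.trans ?_ e3
    exact Finset.sum_congr rfl fun l _ => by rw [map_mul]; rfl
  have h3 : (fun l => ((c0 l : algebraicClosure ℚ ℂ) : ℂ)) = c :=
    Matrix.mulVec_injective_of_isUnit hu' h2
  intro l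
  rw [← h3]
  exact mem_algebraicClosure_iff.mp (c0 l).2

lemma beta_reorder {n : ℕ} (c D : Matrix (Fin n) (Fin n) ℂ) (A B : Fin n → ℂ) :
    ∑ a, ∑ b, (∑ e, ∑ e', c a e * D e e' * c b e') * (A a * B b) =
      ∑ e, ∑ e', D e e' * ((∑ a, c a e * A a) * (∑ b, c b e' * B b)) := by
  have h1 : ∀ a b, (∑ e, ∑ e', c a e * D e e' * c b e') * (A a * B b) =
      ∑ e, ∑ e', (D e e' * (c a e * A a * (c b e' * B b))) := by
    intro a b
    rw [Finset.sum_mul]
    refine Finset.sum_congr rfl fun e _ => ?_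
    rw [Finset.sum_mul]
    refine Finset.sum_congr rfl fun e' _ => ?_
    ring
  have h2 : ∀ e e', D e e' * ((∑ a, c a e * A a) * (∑ b, c b e' * B b)) =
      ∑ a, ∑ b, (D e e' * (c a e * A a * (c b e' * B b))) := by
    intro e e'
    rw [Finset.sum_mul_sum, Finset.mul_sum]
    refine Finset.sum_congr rfl fun a _ => ?_
    rw [Finset.mul_sum]
  simp only [h1, h2]
  calc ∑ a, ∑ b, ∑ e, ∑ e', (D e e' * (c a e * A a * (c b e' * B b)))
      = ∑ a, ∑ e, ∑ b, ∑ e', (D e e' * (c a e * A a * (c b e' * B b))) :=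
        Finset.sum_congr rfl fun a _ => Finset.sum_comm
    _ = ∑ e, ∑ a, ∑ b, ∑ e', (D e e' * (c a e * A a * (c b e' * B b))) := Finset.sum_comm
    _ = ∑ e, ∑ a, ∑ e', ∑ b, (D e e' * (c a e * A a * (c b e' * B b))) :=
        Finset.sum_congr rfl fun e _ => Finset.sum_congr rfl fun a _ => Finset.sum_comm
    _ = ∑ e, ∑ e', ∑ a, ∑ b, (D e e' * (c a e * A a * (c b e' * B b))) :=
        Finset.sum_congr rfl fun e _ => Finset.sum_comm

section alg

variable {κ : Type} [Fintype κ] [DecidableEq κ]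

/-- a matrix with algebraic entries maps algebraic vectors to algebraic vectors -/
lemma beta_apply_alg (f : Module.End ℂ (κ → ℂ))
    (hf : ∀ i j, IsAlgebraic ℚ (f (Pi.single i 1) j)) (v : κ → ℂ)
    (hv : ∀ i, IsAlgebraic ℚ (v i)) (j : κ) : IsAlgebraic ℚ (f v j) := by
  have h1 : v = ∑ i, v i • (Pi.single i (1 : ℂ) : κ → ℂ) := by
    ext j; simp [Finset.sum_apply, Pi.single_apply]
  have h2 : f v j = ∑ i, v i * f (Pi.single i 1) j := by
    conv_lhs => rw [h1]
    rw [map_sum, Finset.sum_apply]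
    refine Finset.sum_congr rfl fun i _ => ?_
    rw [map_smul, Pi.smul_apply, smul_eq_mul]
  rw [h2]
  exact isAlg_sum _ _ fun i _ => (hv i).mul (hf i j)

end alg

theorem exists_beta {κ : Type} [Fintype κ] [DecidableEq κ] [Nonempty κ] {ϖ : ℂ}
    (P : PData κ ϖ) {n : ℕ} {G : Matrix (Fin n) (Fin n) ℚ} (hG : Gᵀ = G)
    (hnd : (bil (rm G)).Nondegenerate) {t : Fin n → Module.End ℂ (κ → ℂ)} (K : KSD P G t) :
    ∃ β : MultilinearMap ℂ (fun _ : Fin 4 => (κ → ℂ)) ℂ,
      (∀ v : Fin 4 → κ → ℂ, (∀ r, v r ∈ P.Q) → ∃ q : ℚ, β v = ϖ ^ 2 * q) ∧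
      (∀ v : Fin 4 → κ → ℂ, (∀ r j, IsAlgebraic ℚ (v r j)) → IsAlgebraic ℚ (β v)) ∧
      (∀ (X : Module.End ℂ (κ → ℂ)) (c : ℂ), (∀ u v, P.ψ (X u) v + P.ψ u (X v) = c * P.ψ u v) →
        actForm X β = (2 * c) • β → ∃ M, Act t X M) ∧
      ∀ g : Module.End ℂ (κ → ℂ), (∀ u v, P.ψ (g u) (g v) = P.ψ u v) →
        (∀ v : Fin 4 → κ → ℂ, β (fun r => g (v r)) = β v) →
          ∃ A : Module.End ℂ (Fin n → ℂ), ∀ x, g * tau t x = tau t (A x) * g := by
  classical
  -- the complex Gram matrix
  set Gc : Matrix (Fin n) (Fin n) ℂ := G.map ((↑) : ℚ → ℂ) with hGc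
  have hGc' : (rm G).map ((↑) : ℝ → ℂ) = Gc := by
    ext i j
    simp [rm, hGc]
  have hdet : Gc.det ≠ 0 := by
    rw [← hGc']
    exact LinearMap.BilinForm.nondegenerate_toBilin'_iff_det_ne_zero.1 hnd
  set H : Matrix (Fin n) (Fin n) ℂ := (G⁻¹).map ((↑) : ℚ → ℂ) with hHdef
  have hdetQ : G.det ≠ 0 := by
    intro h0
    apply hdet
    have h1 := RingHom.map_det (algebraMap ℚ ℂ) G
    rw [h0, map_zero] at h1
    exact h1.symm
  have hGH : Gc * H = 1 := by
    have h1 : (algebraMap ℚ ℂ).mapMatrix (G * G⁻¹) = 1 := by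
      rw [Matrix.mul_nonsing_inv G (isUnit_iff_ne_zero.2 hdetQ), map_one]
    rw [map_mul] at h1
    exact h1
  have hHG : H * Gc = 1 := by
    have h1 : (algebraMap ℚ ℂ).mapMatrix (G⁻¹ * G) = 1 := by
      rw [Matrix.nonsing_inv_mul G (isUnit_iff_ne_zero.2 hdetQ), map_one]
    rw [map_mul] at h1
    exact h1
  have hHdet : H.det ≠ 0 := by
    intro h0
    have h1 := congrArg Matrix.det hGH
    rw [Matrix.det_mul, h0, mul_zero, Matrix.det_one] at h1
    exact zero_ne_one h1
  have htau := tau_injective (t := t) K.cliff hnd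
  have hZ : ∀ x : Fin n → ℂ, ∑ b, x b • t b = 0 → x = 0 := by
    intro x hx
    apply htau
    rw [tau_apply, hx, map_zero]
  set S : Submodule ℂ (Module.End ℂ (κ → ℂ)) := LinearMap.range (tau t) with hS
  have htS : ∀ a, t a ∈ S := fun a => ⟨Pi.single a 1, tau_single a⟩
  refine ⟨betaForm P.ψ H t, ?_, ?_, ?_, ?_⟩
  · -- rationality
    intro v hv
    have h1 : ∀ a, ∃ q : ℚ, P.ψ (t a (v 0)) (v 1) = ϖ * q := fun a =>
      P.hψQ _ (K.rat a _ (hv 0)) _ (hv 1)
    have h2 : ∀ a, ∃ q : ℚ, P.ψ (t a (v 2)) (v 3) = ϖ * q := fun a =>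
      P.hψQ _ (K.rat a _ (hv 2)) _ (hv 3)
    choose q1 hq1 using h1
    choose q2 hq2 using h2
    refine ⟨∑ a, ∑ b, G⁻¹ a b * (q1 a * q2 b), ?_⟩
    rw [betaForm_apply]
    push_cast
    rw [Finset.mul_sum]
    refine Finset.sum_congr rfl fun a _ => ?_
    rw [Finset.mul_sum]
    refine Finset.sum_congr rfl fun b _ => ?_
    rw [hq1, hq2, hHdef, Matrix.map_apply]
    ring
  · -- algebraicity
    intro v hv
    obtain ⟨c, hc, hcalg⟩ := K.alg
    set f : Fin n → Module.End ℂ (κ → ℂ) := fun b => ∑ a, c a b • t a with hf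
    set C : Matrix (Fin n) (Fin n) ℂ := cᵀ * Gc * c with hCdef
    have hcdet : c.det ≠ 0 := isUnit_iff_ne_zero.1 ((Matrix.isUnit_iff_isUnit_det c).1 hc)
    have hCdet : C.det ≠ 0 := by
      rw [hCdef, Matrix.det_mul, Matrix.det_mul, Matrix.det_transpose]
      exact mul_ne_zero (mul_ne_zero hcdet hdet) hcdet
    have hff : ∀ b b', f b * f b' + f b' * f b = (2 * C b b') • 1 := by
      intro b b'
      have hfb : ∀ b, f b = tau t (fun a => c a b) := fun b => by rw [tau_apply]
      rw [hfb, hfb, tau_cliff K.cliff, bil_apply]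
      congr 2
      rw [hCdef, Matrix.mul_apply]
      simp only [Matrix.mul_apply, Matrix.transpose_apply, Finset.sum_mul]
      rw [Finset.sum_comm]
      refine Finset.sum_congr rfl fun j _ => Finset.sum_congr rfl fun i _ => ?_
      simp [rm, hGc]
    obtain ⟨k⟩ := (inferInstance : Nonempty κ)
    have hsingle : ∀ i j : κ, IsAlgebraic ℚ ((Pi.single i (1 : ℂ) : κ → ℂ) j) := by
      intro i j
      by_cases h : j = i
      · subst h; rw [Pi.single_eq_same]; exact isAlgebraic_one
      · rw [Pi.single_eq_of_ne h]; exact isAlgebraic_zero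
    have hCalg : ∀ b b', IsAlgebraic ℚ (C b b') := by
      intro b b'
      have h1 := congrFun (LinearMap.congr_fun (hff b b') (Pi.single k 1)) k
      rw [LinearMap.add_apply, Pi.add_apply, LinearMap.smul_apply, Pi.smul_apply, smul_eq_mul,
        Module.End.one_apply, Pi.single_eq_same, mul_one, Module.End.mul_apply,
        Module.End.mul_apply] at h1
      have h2 : IsAlgebraic ℚ (2 * C b b') := by
        rw [← h1]
        exact (beta_apply_alg (f b) (hcalg b) _ (fun i => beta_apply_alg (f b') (hcalg b') _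
          (hsingle k) i) k).add (beta_apply_alg (f b') (hcalg b') _
            (fun i => beta_apply_alg (f b) (hcalg b) _ (hsingle k) i) k)
      have h3 : C b b' = (2 : ℂ)⁻¹ * (2 * C b b') := by ring
      rw [h3]
      have h4 : IsAlgebraic ℚ (2 : ℂ) := by
        have := isAlgebraic_algebraMap (R := ℚ) (A := ℂ) 2
        simpa using this
      exact h4.inv.mul h2
    have hCu : IsUnit C.det := isUnit_iff_ne_zero.2 hCdet
    have hCinv : ∀ b b', IsAlgebraic ℚ (C⁻¹ b b') := by
      intro b b'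
      refine beta_alg_solve C hCalg hCdet (fun i => (1 : Matrix (Fin n) (Fin n) ℂ) i b')
        (fun l => C⁻¹ l b') ?_ ?_ b
      · intro i
        by_cases h : i = b'
        · subst h; rw [Matrix.one_apply_eq]; exact isAlgebraic_one
        · rw [Matrix.one_apply_ne h]; exact isAlgebraic_zero
      · intro i
        rw [← Matrix.mul_nonsing_inv C hCu, Matrix.mul_apply]
    have hH : H = c * C⁻¹ * cᵀ := by
      have hcu : IsUnit c.det := isUnit_iff_ne_zero.2 hcdet
      have hctu : IsUnit cᵀ.det := by rw [Matrix.det_transpose]; exact hcu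
      have h1 : Gc = (cᵀ)⁻¹ * C * c⁻¹ := by
        rw [hCdef]
        rw [Matrix.mul_assoc cᵀ Gc c, ← Matrix.mul_assoc (cᵀ)⁻¹ cᵀ, Matrix.nonsing_inv_mul _ hctu,
          Matrix.one_mul, Matrix.mul_assoc, Matrix.mul_nonsing_inv _ hcu, Matrix.mul_one]
      have h2 : Gc * (c * C⁻¹ * cᵀ) = 1 := by
        rw [h1]
        calc (cᵀ)⁻¹ * C * c⁻¹ * (c * C⁻¹ * cᵀ)
            = (cᵀ)⁻¹ * C * (c⁻¹ * c) * C⁻¹ * cᵀ := by simp only [Matrix.mul_assoc]
          _ = (cᵀ)⁻¹ * (C * C⁻¹) * cᵀ := by
              rw [Matrix.nonsing_inv_mul _ hcu, Matrix.mul_one]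
              simp only [Matrix.mul_assoc]
          _ = 1 := by
              rw [Matrix.mul_nonsing_inv _ hCu, Matrix.mul_one, Matrix.nonsing_inv_mul _ hctu]
      calc H = H * (Gc * (c * C⁻¹ * cᵀ)) := by rw [h2, Matrix.mul_one]
        _ = (H * Gc) * (c * C⁻¹ * cᵀ) := (Matrix.mul_assoc H Gc _).symm
        _ = c * C⁻¹ * cᵀ := by rw [hHG, Matrix.one_mul]
    have hβ : betaForm P.ψ H t v =
        ∑ e, ∑ e', C⁻¹ e e' * (P.ψ (f e (v 0)) (v 1) * P.ψ (f e' (v 2)) (v 3)) := by
      have hfe : ∀ (e : Fin n) (x y : κ → ℂ), P.ψ (f e x) y = ∑ a, c a e * P.ψ (t a x) y := by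
        intro e x y
        rw [hf]
        simp only [LinearMap.sum_apply, map_sum, LinearMap.smul_apply, map_smul, smul_eq_mul]
      have hHab : ∀ a b, H a b = ∑ e, ∑ e', c a e * C⁻¹ e e' * c b e' := by
        intro a b
        rw [hH, Matrix.mul_apply]
        simp only [Matrix.mul_apply, Matrix.transpose_apply, Finset.sum_mul]
        rw [Finset.sum_comm]
      rw [betaForm_apply]
      simp only [hfe, hHab]
      exact beta_reorder c C⁻¹ (fun a => P.ψ (t a (v 0)) (v 1)) (fun b => P.ψ (t b (v 2)) (v 3))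
    rw [hβ]
    refine isAlg_sum _ _ fun e _ => isAlg_sum _ _ fun e' _ => ?_
    exact (hCinv e e').mul ((psi_alg P.ψ P.hψalg _ _ (beta_apply_alg (f e) (hcalg e) _ (hv 0))
      (hv 1)).mul (psi_alg P.ψ P.hψalg _ _ (beta_apply_alg (f e') (hcalg e') _ (hv 2)) (hv 3)))
  · -- infinitesimal symmetries
    intro X c hX hβ
    have hmem : ∀ a, (X * t a - t a * X) ∈ S := by
      refine beta_span P.hψnd hHdet (fun a => X * t a - t a * X) t hZ S ?_
      intro v2 v3
      have hop : ∑ a, ∑ b, (H a b * P.ψ (t b v2) v3) • (X * t a - t a * X) +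
          ∑ a, ∑ b, (H a b * P.ψ ((X * t b - t b * X) v2) v3) • t a = 0 := by
        apply beta_op_zero P.hψnd
        intro v0 v1
        have h1 := congrArg (fun F : MultilinearMap ℂ (fun _ : Fin 4 => (κ → ℂ)) ℂ =>
          F ![v0, v1, v2, v3]) hβ
        simp only [actForm_apply, Fin.sum_univ_four, _root_.smul_apply, smul_eq_mul,
          betaForm_apply] at h1
        simp only [Function.update_self, Function.update_of_ne, ne_eq, Fin.reduceEq,
          not_false_eq_true, Matrix.cons_val_zero, Matrix.cons_val_one, Matrix.cons_val] at h1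
        have hX' : ∀ w y, P.ψ (X w) y = c * P.ψ w y - P.ψ w (X y) := fun w y => by
          rw [← hX w y]; ring
        rw [LinearMap.add_apply, map_add, LinearMap.add_apply]
        simp only [LinearMap.sum_apply, map_sum, LinearMap.smul_apply, map_smul, smul_eq_mul,
          LinearMap.sub_apply, Module.End.mul_apply, map_sub, hX']
        rw [Finset.mul_sum] at h1
        simp only [Finset.mul_sum] at h1
        simp only [← Finset.sum_add_distrib] at h1 ⊢
        have h3 : ∀ x y : ℂ, x = y → y - x = 0 := fun x y h => by rw [h, sub_self]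
        have h4 := h3 _ _ h1
        simp only [← Finset.sum_sub_distrib] at h4
        rw [← h4]
        refine Finset.sum_congr rfl fun a _ => Finset.sum_congr rfl fun b _ => ?_
        ring
      have h2 : ∑ a, ∑ b, (H a b * P.ψ ((X * t b - t b * X) v2) v3) • t a ∈ S :=
        S.sum_mem fun a _ => S.sum_mem fun b _ => S.smul_mem _ (htS a)
      have h3 := eq_neg_of_add_eq_zero_left hop
      rw [h3]
      exact S.neg_mem h2
    choose m hm using hmem
    refine ⟨Fintype.linearCombination ℂ m, fun x => ?_⟩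
    rw [Fintype.linearCombination_apply, map_sum, tau_apply, Finset.mul_sum, Finset.sum_mul,
      ← Finset.sum_sub_distrib]
    refine Finset.sum_congr rfl fun a _ => ?_
    rw [map_smul, hm, mul_smul_comm, smul_mul_assoc, smul_sub]
  · -- symmetries
    intro g hg hβ
    have hginj : Function.Injective g := by
      rw [injective_iff_map_eq_zero]
      intro u hu
      apply P.hψnd
      intro v
      rw [← hg u v, hu, map_zero, LinearMap.zero_apply]
    have hgsurj : Function.Surjective g := LinearMap.surjective_of_injective hginj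
    set ge : (κ → ℂ) ≃ₗ[ℂ] (κ → ℂ) := LinearEquiv.ofBijective g ⟨hginj, hgsurj⟩ with hge
    set g' : Module.End ℂ (κ → ℂ) := (ge.symm : (κ → ℂ) →ₗ[ℂ] (κ → ℂ)) with hg'def
    have hgg' : ∀ x, g (g' x) = x := fun x => ge.apply_symm_apply x
    have hg'g : ∀ x, g' (g x) = x := fun x => ge.symm_apply_apply x
    have hψg : ∀ w y, P.ψ w (g y) = P.ψ (g' w) y := fun w y => by
      rw [← hg (g' w) y, hgg']
    have hT : ∀ a, (g' * t a * g) ∈ S := by
      refine beta_span P.hψnd hHdet (fun a => g' * t a * g) (fun a => g' * t a * g) ?_ S ?_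
      · intro x hx
        apply hZ
        apply LinearMap.ext
        intro v
        have h1 := congrArg g (LinearMap.congr_fun hx (g' v))
        simp only [LinearMap.sum_apply, LinearMap.smul_apply, Module.End.mul_apply, hgg', map_sum,
          map_smul, LinearMap.zero_apply, map_zero] at h1
        rw [LinearMap.sum_apply, LinearMap.zero_apply, ← h1]
        rfl
      · intro v2 v3
        have hop : ∑ a, ∑ b, (H a b * P.ψ ((g' * t b * g) v2) v3) • (g' * t a * g) -
            ∑ a, ∑ b, (H a b * P.ψ (t b v2) v3) • t a = 0 := by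
          apply beta_op_zero P.hψnd
          intro v0 v1
          have h1 := hβ ![v0, v1, v2, v3]
          simp only [betaForm_apply, Matrix.cons_val_zero, Matrix.cons_val_one, Matrix.cons_val,
            hψg] at h1
          rw [LinearMap.sub_apply, map_sub, LinearMap.sub_apply]
          simp only [LinearMap.sum_apply, map_sum, LinearMap.smul_apply, map_smul, smul_eq_mul,
            Module.End.mul_apply]
          rw [sub_eq_zero]
          calc _ = ∑ a, ∑ b, H a b * (P.ψ (g' (t a (g v0))) v1 * P.ψ (g' (t b (g v2))) v3) :=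
                Finset.sum_congr rfl fun a _ => Finset.sum_congr rfl fun b _ => by ring
            _ = _ := h1
            _ = _ := Finset.sum_congr rfl fun a _ => Finset.sum_congr rfl fun b _ => by ring
        rw [sub_eq_zero] at hop
        rw [hop]
        exact S.sum_mem fun a _ => S.sum_mem fun b _ => S.smul_mem _ (htS a)
    choose m hm using hT
    set B : Module.End ℂ (Fin n → ℂ) := Fintype.linearCombination ℂ m with hB
    have hBt : ∀ x, tau t (B x) = g' * tau t x * g := by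
      intro x
      rw [hB, Fintype.linearCombination_apply, map_sum, tau_apply, Finset.mul_sum, Finset.sum_mul]
      refine Finset.sum_congr rfl fun a _ => ?_
      rw [map_smul, hm, mul_smul_comm, smul_mul_assoc]
    have hBinj : Function.Injective B := by
      rw [injective_iff_map_eq_zero]
      intro x hx
      apply htau
      rw [map_zero]
      apply LinearMap.ext
      intro v
      have h1 := hBt x
      rw [hx, map_zero] at h1
      have h2 := congrArg g (LinearMap.congr_fun h1 (g' v))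
      rw [LinearMap.zero_apply, map_zero, Module.End.mul_apply, Module.End.mul_apply, hgg',
        hgg'] at h2
      rw [← h2, LinearMap.zero_apply]
    have hBsurj : Function.Surjective B := LinearMap.surjective_of_injective hBinj
    set Be : (Fin n → ℂ) ≃ₗ[ℂ] (Fin n → ℂ) := LinearEquiv.ofBijective B ⟨hBinj, hBsurj⟩ with hBe
    refine ⟨(Be.symm : (Fin n → ℂ) →ₗ[ℂ] (Fin n → ℂ)), fun x => ?_⟩
    have h1 : B (Be.symm x) = x := Be.apply_symm_apply x
    have h2 := hBt (Be.symm x)
    rw [h1] at h2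
    apply LinearMap.ext
    intro v
    have h3 := congrArg g (LinearMap.congr_fun h2 v)
    rw [Module.End.mul_apply, Module.End.mul_apply, hgg'] at h3
    rw [Module.End.mul_apply, h3, Module.End.mul_apply]
    rfl

end Pool.Agent.KS
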