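import Pool.Agent.KS.Basic

/-!
Module Gam. A form `α` on `N` copies of `V = κ → ℂ` of degree `2 k` and a form `β` of degree `4` on
`V` give one form `γ` of degree `2 (k + 2)` on `N + 1` copies whose symmetries are symmetries of both.
-/

namespace Pool.Agent.KS

open Module Matrix Pool.Agent.Helper7 Pool.Agent.Ball

namespace Gam

section general

variable {W W' : Type} [AddCommGroup W] [Module ℂ W] [AddCommGroup W'] [Module ℂ W']

lemma upd_castAdd {p q : ℕ} [DecidableEq (Fin (p + q))] [DecidableEq (Fin p)]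
    (v : Fin (p + q) → W) (i : Fin p) (x : W) :
    (fun i' => Function.update v (Fin.castAdd q i) x (Fin.castAdd q i'))
      = Function.update (fun i' => v (Fin.castAdd q i')) i x := by
  funext i'
  by_cases h : i' = i
  · subst h
    rw [Function.update_self, Function.update_self]
  · rw [Function.update_of_ne h, Function.update_of_ne]
    intro h'
    exact h (Fin.castAdd_injective p q h')

lemma upd_natAdd {p q : ℕ} [DecidableEq (Fin (p + q))] [DecidableEq (Fin q)]
    (v : Fin (p + q) → W) (j : Fin q) (x : W) :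
    (fun j' => Function.update v (Fin.natAdd p j) x (Fin.natAdd p j'))
      = Function.update (fun j' => v (Fin.natAdd p j')) j x := by
  funext j'
  by_cases h : j' = j
  · subst h
    rw [Function.update_self, Function.update_self]
  · rw [Function.update_of_ne h, Function.update_of_ne]
    intro h'
    exact h (Fin.natAdd_injective q p h')

lemma upd_castAdd' {p q : ℕ} [DecidableEq (Fin (p + q))]
    (v : Fin (p + q) → W) (j : Fin q) (x : W) :
    (fun i' => Function.update v (Fin.natAdd p j) x (Fin.castAdd q i'))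
      = (fun i' => v (Fin.castAdd q i')) := by
  funext i'
  rw [Function.update_of_ne]
  intro h
  have := congrArg Fin.val h
  simp only [Fin.val_castAdd, Fin.val_natAdd] at this
  omega

lemma upd_natAdd' {p q : ℕ} [DecidableEq (Fin (p + q))]
    (v : Fin (p + q) → W) (i : Fin p) (x : W) :
    (fun j' => Function.update v (Fin.castAdd q i) x (Fin.natAdd p j'))
      = (fun j' => v (Fin.natAdd p j')) := by
  funext i'
  rw [Function.update_of_ne]
  intro h
  have := congrArg Fin.val h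
  simp only [Fin.val_castAdd, Fin.val_natAdd] at this
  omega

/-- the product of two multilinear forms -/
noncomputable def mprod {p q : ℕ} (a : MultilinearMap ℂ (fun _ : Fin p => W) ℂ)
    (b : MultilinearMap ℂ (fun _ : Fin q => W) ℂ) :
    MultilinearMap ℂ (fun _ : Fin (p + q) => W) ℂ where
  toFun v := a (fun i => v (Fin.castAdd q i)) * b (fun j => v (Fin.natAdd p j))
  map_update_add' := by
    intro _ v r x y
    induction r using Fin.addCases with
    | left i =>
      simp only [upd_castAdd, upd_natAdd', MultilinearMap.map_update_add]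
      ring
    | right j =>
      simp only [upd_castAdd', upd_natAdd, MultilinearMap.map_update_add]
      ring
  map_update_smul' := by
    intro _ v r c x
    induction r using Fin.addCases with
    | left i =>
      simp only [upd_castAdd, upd_natAdd', MultilinearMap.map_update_smul, smul_eq_mul]
      ring
    | right j =>
      simp only [upd_castAdd', upd_natAdd, MultilinearMap.map_update_smul, smul_eq_mul]
      ring

lemma mprod_apply {p q : ℕ} (a : MultilinearMap ℂ (fun _ : Fin p => W) ℂ)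
    (b : MultilinearMap ℂ (fun _ : Fin q => W) ℂ) (v : Fin (p + q) → W) :
    mprod a b v = a (fun i => v (Fin.castAdd q i)) * b (fun j => v (Fin.natAdd p j)) := rfl

lemma actForm_mprod {p q : ℕ} (M : Module.End ℂ W) (a : MultilinearMap ℂ (fun _ : Fin p => W) ℂ)
    (b : MultilinearMap ℂ (fun _ : Fin q => W) ℂ) :
    actForm M (mprod a b) = mprod (actForm M a) b + mprod a (actForm M b) := by
  ext v
  rw [_root_.add_apply, actForm_apply, Fin.sum_univ_add, mprod_apply, mprod_apply, actForm_apply,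
    actForm_apply, Finset.sum_mul, Finset.mul_sum]
  congr 1
  · refine Finset.sum_congr rfl fun i _ => ?_
    rw [mprod_apply, upd_castAdd, upd_natAdd']
  · refine Finset.sum_congr rfl fun j _ => ?_
    rw [mprod_apply, upd_castAdd', upd_natAdd]

/-- pullback -/
noncomputable def pull {p : ℕ} (g : W' →ₗ[ℂ] W) (a : MultilinearMap ℂ (fun _ : Fin p => W) ℂ) :
    MultilinearMap ℂ (fun _ : Fin p => W') ℂ := a.compLinearMap fun _ => g

lemma pull_apply {p : ℕ} (g : W' →ₗ[ℂ] W) (a : MultilinearMap ℂ (fun _ : Fin p => W) ℂ)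
    (v : Fin p → W') : pull g a v = a fun i => g (v i) := rfl

lemma actForm_pull {p : ℕ} (g : W' →ₗ[ℂ] W) (M' : Module.End ℂ W') (M : Module.End ℂ W)
    (h : ∀ w, g (M' w) = M (g w)) (a : MultilinearMap ℂ (fun _ : Fin p => W) ℂ) :
    actForm M' (pull g a) = pull g (actForm M a) := by
  ext v
  rw [actForm_apply, pull_apply, actForm_apply]
  refine Finset.sum_congr rfl fun r _ => ?_
  rw [pull_apply]
  congr 1
  funext i
  by_cases hi : i = r
  · subst hi
    rw [Function.update_self, Function.update_self, h]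
  · rw [Function.update_of_ne hi, Function.update_of_ne hi]

lemma mprod_smul_left {p q : ℕ} (c : ℂ) (a : MultilinearMap ℂ (fun _ : Fin p => W) ℂ)
    (b : MultilinearMap ℂ (fun _ : Fin q => W) ℂ) : mprod (c • a) b = c • mprod a b := by
  ext v
  rw [mprod_apply, _root_.smul_apply, _root_.smul_apply, mprod_apply, smul_eq_mul, smul_eq_mul,
    mul_assoc]

lemma mprod_smul_right {p q : ℕ} (c : ℂ) (a : MultilinearMap ℂ (fun _ : Fin p => W) ℂ)
    (b : MultilinearMap ℂ (fun _ : Fin q => W) ℂ) : mprod a (c • b) = c • mprod a b := by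
  ext v
  rw [mprod_apply, _root_.smul_apply, _root_.smul_apply, mprod_apply, smul_eq_mul, smul_eq_mul]
  ring

lemma pull_smul {p : ℕ} (g : W' →ₗ[ℂ] W) (c : ℂ) (a : MultilinearMap ℂ (fun _ : Fin p => W) ℂ) :
    pull g (c • a) = c • pull g a := by
  ext v
  rfl

/-- a bilinear form as a multilinear form -/
noncomputable def two (ψ : W →ₗ[ℂ] W →ₗ[ℂ] ℂ) : MultilinearMap ℂ (fun _ : Fin 2 => W) ℂ where
  toFun v := ψ (v 0) (v 1)
  map_update_add' := by
    intro _ v r x y
    fin_cases r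
    · simp [Function.update_of_ne (one_ne_zero : (1 : Fin 2) ≠ 0)]
    · simp [Function.update_of_ne (zero_ne_one : (0 : Fin 2) ≠ 1)]
  map_update_smul' := by
    intro _ v r c x
    fin_cases r
    · simp [Function.update_of_ne (one_ne_zero : (1 : Fin 2) ≠ 0)]
    · simp [Function.update_of_ne (zero_ne_one : (0 : Fin 2) ≠ 1)]

lemma two_apply (ψ : W →ₗ[ℂ] W →ₗ[ℂ] ℂ) (v : Fin 2 → W) : two ψ v = ψ (v 0) (v 1) := rfl

/-- powers of a bilinear form -/
noncomputable def tp (ψ : W →ₗ[ℂ] W →ₗ[ℂ] ℂ) : (k : ℕ) →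
    MultilinearMap ℂ (fun _ : Fin (2 * k) => W) ℂ
  | 0 => haveI : IsEmpty (Fin (2 * 0)) := inferInstanceAs (IsEmpty (Fin 0))
    MultilinearMap.constOfIsEmpty ℂ _ 1
  | k + 1 => mprod (tp ψ k) (two ψ)

lemma tp_zero (ψ : W →ₗ[ℂ] W →ₗ[ℂ] ℂ) (v : Fin (2 * 0) → W) : tp ψ 0 v = 1 := rfl

lemma tp_succ (ψ : W →ₗ[ℂ] W →ₗ[ℂ] ℂ) (k : ℕ) (v : Fin (2 * (k + 1)) → W) :
    tp ψ (k + 1) v = tp ψ k (fun i => v (Fin.castAdd 2 i)) *
      ψ (v (Fin.natAdd (2 * k) 0)) (v (Fin.natAdd (2 * k) 1)) := rfl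

lemma actForm_two (ψ : W →ₗ[ℂ] W →ₗ[ℂ] ℂ) (M : Module.End ℂ W) (c : ℂ)
    (h : ∀ u v, ψ (M u) v + ψ u (M v) = c * ψ u v) : actForm M (two ψ) = c • two ψ := by
  ext v
  rw [actForm_apply, Fin.sum_univ_two, two_apply, two_apply, _root_.smul_apply, two_apply,
    smul_eq_mul, ← h]
  simp

lemma actForm_tp (ψ : W →ₗ[ℂ] W →ₗ[ℂ] ℂ) (M : Module.End ℂ W) (c : ℂ)
    (h : ∀ u v, ψ (M u) v + ψ u (M v) = c * ψ u v) (k : ℕ) :
    actForm M (tp ψ k) = (k * c) • tp ψ k := by
  induction k with
  | zero =>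
    ext v
    rw [actForm_apply]
    simp
  | succ k ih =>
    have h1 : actForm M (tp ψ (k + 1)) = mprod (actForm M (tp ψ k)) (two ψ)
        + mprod (tp ψ k) (actForm M (two ψ)) := actForm_mprod M (tp ψ k) (two ψ)
    rw [h1, ih, actForm_two ψ M c h, mprod_smul_left, mprod_smul_right]
    show _ = _ • mprod (tp ψ k) (two ψ)
    push_cast
    module

lemma tp_const (ψ : W →ₗ[ℂ] W →ₗ[ℂ] ℂ) {u v : W} (h : ψ u v ≠ 0) (k : ℕ) :
    ∃ w : Fin (2 * k) → W, tp ψ k w ≠ 0 := by
  induction k with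
  | zero => exact ⟨fun _ => 0, by rw [tp_zero]; exact one_ne_zero⟩
  | succ k ih =>
    obtain ⟨w, hw⟩ := ih
    let w' : Fin (2 * k + 2) → W := Fin.append w ![u, v]
    refine ⟨w', ?_⟩
    rw [tp_succ]
    have h1 : (fun i => w' (Fin.castAdd 2 i)) = w := by
      funext i
      exact Fin.append_left _ _ _
    have h2 : w' (Fin.natAdd (2 * k) 0) = u := Fin.append_right _ _ _
    have h3 : w' (Fin.natAdd (2 * k) 1) = v := Fin.append_right _ _ _
    rw [h1, h2, h3]
    exact mul_ne_zero hw h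

lemma tp_inv (ψ : W →ₗ[ℂ] W →ₗ[ℂ] ℂ) (g : W → W) (h : ∀ u v, ψ (g u) (g v) = ψ u v) (k : ℕ)
    (w : Fin (2 * k) → W) : tp ψ k (fun i => g (w i)) = tp ψ k w := by
  induction k with
  | zero => rfl
  | succ k ih =>
    rw [tp_succ, tp_succ, h]
    congr 1
    exact ih fun i => w (Fin.castAdd 2 i)

end general

section data

variable {κ : Type} {N : ℕ}

/-- the first copies -/
def prL (κ : Type) (N : ℕ) : HW (fun _ : Unit => κ) (fun _ => N + 1) →ₗ[ℂ]
    HW (fun _ : Unit => κ) (fun _ => N) where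
  toFun v := fun i m => v i m.castSucc
  map_add' _ _ := rfl
  map_smul' _ _ := rfl

/-- the last copy -/
def laL (κ : Type) (N : ℕ) : HW (fun _ : Unit => κ) (fun _ => N + 1) →ₗ[ℂ] (κ → ℂ) where
  toFun v := v () (Fin.last N)
  map_add' _ _ := rfl
  map_smul' _ _ := rfl

/-- a vector with given components -/
def emb (x : HW (fun _ : Unit => κ) (fun _ => N)) (w : κ → ℂ) :
    HW (fun _ : Unit => κ) (fun _ => N + 1) :=
  fun i => Fin.snoc (α := fun _ => κ → ℂ) (x i) w

lemma prL_emb (x : HW (fun _ : Unit => κ) (fun _ => N)) (w : κ → ℂ) : prL κ N (emb x w) = x := by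
  funext i m
  exact congrFun (Fin.snoc_castSucc (α := fun _ => κ → ℂ) w (x i) m) |> funext

lemma laL_emb (x : HW (fun _ : Unit => κ) (fun _ => N)) (w : κ → ℂ) : laL κ N (emb x w) = w :=
  Fin.snoc_last (α := fun _ => κ → ℂ) w (x ())

variable [Fintype κ] [DecidableEq κ] {ϖ : ℂ} (P : PData κ ϖ)

lemma tp_rat (k : ℕ) (w : Fin (2 * k) → κ → ℂ) (hw : ∀ r, w r ∈ P.Q) :
    ∃ q : ℚ, tp P.ψ k w = ϖ ^ k * q := by
  induction k with
  | zero => exact ⟨1, by rw [tp_zero]; simp⟩
  | succ k ih =>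
    obtain ⟨q, hq⟩ := ih (fun i => w (Fin.castAdd 2 i)) fun r => hw _
    obtain ⟨q', hq'⟩ := P.hψQ _ (hw (Fin.natAdd (2 * k) 0)) _ (hw (Fin.natAdd (2 * k) 1))
    refine ⟨q * q', ?_⟩
    rw [tp_succ, hq, hq']
    push_cast
    ring

lemma tp_alg (k : ℕ) (w : Fin (2 * k) → κ → ℂ) (hw : ∀ r j, IsAlgebraic ℚ (w r j)) :
    IsAlgebraic ℚ (tp P.ψ k w) := by
  induction k with
  | zero => rw [tp_zero]; exact isAlgebraic_one
  | succ k ih =>
    rw [tp_succ]
    exact (ih (fun i => w (Fin.castAdd 2 i)) fun r => hw _).mul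
      (psi_alg P.ψ P.hψalg _ _ (hw _) (hw _))

end data

end Gam

open Gam in
theorem exists_gam {κ : Type} [Fintype κ] [DecidableEq κ] [Nonempty κ] {ϖ : ℂ}
    (P : PData κ ϖ) (N k : ℕ) (hk : 0 < k)
    (α : MultilinearMap ℂ (fun _ : Fin (2 * k) => HW (fun _ : Unit => κ) (fun _ => N)) ℂ)
    (hB : ∀ v : Fin (2 * k) → HW (fun _ : Unit => κ) (fun _ => N),
      (∀ r, IsRatP (fun _ => N) (fun _ : Unit => P) (v r)) → ∃ q : ℚ, α v = ϖ ^ k * q)
    (hA : ∀ v : Fin (2 * k) → HW (fun _ : Unit => κ) (fun _ => N),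
      (∀ r i m j, IsAlgebraic ℚ (v r i m j)) → IsAlgebraic ℚ (α v))
    (β : MultilinearMap ℂ (fun _ : Fin 4 => (κ → ℂ)) ℂ)
    (hβB : ∀ v : Fin 4 → κ → ℂ, (∀ r, v r ∈ P.Q) → ∃ q : ℚ, β v = ϖ ^ 2 * q)
    (hβA : ∀ v : Fin 4 → κ → ℂ, (∀ r j, IsAlgebraic ℚ (v r j)) → IsAlgebraic ℚ (β v)) :
    ∃ γ : MultilinearMap ℂ (fun _ : Fin (2 * (k + 2)) =>
        HW (fun _ : Unit => κ) (fun _ => N + 1)) ℂ,
      (∀ v : Fin (2 * (k + 2)) → HW (fun _ : Unit => κ) (fun _ => N + 1),
        (∀ r, IsRatP (fun _ => N + 1) (fun _ : Unit => P) (v r)) →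
          ∃ q : ℚ, γ v = ϖ ^ (k + 2) * q) ∧
      (∀ v : Fin (2 * (k + 2)) → HW (fun _ : Unit => κ) (fun _ => N + 1),
        (∀ r i m j, IsAlgebraic ℚ (v r i m j)) → IsAlgebraic ℚ (γ v)) ∧
      (∀ X : GG (fun _ : Unit => κ), IsInv (fun _ => N + 1) (fun _ : Unit => P) γ X →
        actForm (lift (fun _ => N) X.1) α = (k * X.2) • α ∧
        actForm (X.1 ()) β = (2 * X.2) • β) ∧
      ∀ g, IsGrp (fun _ => N + 1) (fun _ : Unit => P) γ g →
        ∀ v : Fin 4 → κ → ℂ, β (fun r => g () (v r)) = β v := by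
  let p4 : MultilinearMap ℂ (fun _ : Fin 4 => (κ → ℂ)) ℂ := tp P.ψ 2
  let γ1 : MultilinearMap ℂ (fun _ : Fin (2 * k + 4) =>
      HW (fun _ : Unit => κ) (fun _ => N + 1)) ℂ := mprod (pull (prL κ N) α) (pull (laL κ N) p4)
  let γ2 : MultilinearMap ℂ (fun _ : Fin (2 * k + 4) =>
      HW (fun _ : Unit => κ) (fun _ => N + 1)) ℂ :=
    mprod (pull (laL κ N) (tp P.ψ k)) (pull (laL κ N) β)
  have hne : ∃ u v : κ → ℂ, P.ψ u v ≠ 0 := by
    by_contra hcon
    push Not at hcon
    obtain ⟨i⟩ := ‹Nonempty κ›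
    have h1 := P.hψnd (Pi.single i 1) (hcon _)
    have h2 := congrFun h1 i
    rw [Pi.single_eq_same, Pi.zero_apply] at h2
    exact one_ne_zero h2
  obtain ⟨u0, v0, huv⟩ := hne
  obtain ⟨wk, hwk⟩ := tp_const P.ψ huv k
  obtain ⟨w4, hw4⟩ := tp_const P.ψ huv 2
  have hk2 : Nonempty (Fin (2 * k)) := ⟨⟨0, by omega⟩⟩
  refine ⟨γ1 + γ2, ?_, ?_, ?_, ?_⟩
  · intro v hv
    obtain ⟨q1, h1⟩ := hB (fun i => prL κ N (v (Fin.castAdd 4 i))) fun r i m => hv _ i _
    obtain ⟨q2, h2⟩ := tp_rat P 2 (fun i => laL κ N (v (Fin.natAdd (2 * k) i))) fun r => hv _ _ _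
    obtain ⟨q3, h3⟩ := tp_rat P k (fun i => laL κ N (v (Fin.castAdd 4 i))) fun r => hv _ _ _
    obtain ⟨q4, h4⟩ := hβB (fun i => laL κ N (v (Fin.natAdd (2 * k) i))) fun r => hv _ _ _
    refine ⟨q1 * q2 + q3 * q4, ?_⟩
    have h5 : (γ1 + γ2) v = α (fun i => prL κ N (v (Fin.castAdd 4 i)))
        * tp P.ψ 2 (fun i => laL κ N (v (Fin.natAdd (2 * k) i)))
        + tp P.ψ k (fun i => laL κ N (v (Fin.castAdd 4 i)))
        * β (fun i => laL κ N (v (Fin.natAdd (2 * k) i))) := rfl
    rw [h5, h1, h2, h3, h4]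
    push_cast
    ring
  · intro v hv
    have h5 : (γ1 + γ2) v = α (fun i => prL κ N (v (Fin.castAdd 4 i)))
        * tp P.ψ 2 (fun i => laL κ N (v (Fin.natAdd (2 * k) i)))
        + tp P.ψ k (fun i => laL κ N (v (Fin.castAdd 4 i)))
        * β (fun i => laL κ N (v (Fin.natAdd (2 * k) i))) := rfl
    rw [h5]
    refine IsAlgebraic.add (IsAlgebraic.mul ?_ ?_) (IsAlgebraic.mul ?_ ?_)
    · exact hA _ fun r i m j => hv _ _ _ _
    · exact tp_alg P 2 _ fun r j => hv _ _ _ _
    · exact tp_alg P k _ fun r j => hv _ _ _ _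
    · exact hβA _ fun r j => hv _ _ _ _
  · intro X hX
    have hpol := hX.pol ()
    have hform : actForm (lift (fun _ => N + 1) X.1) (γ1 + γ2)
        = (((k + 2 : ℕ) : ℂ) * X.2) • (γ1 + γ2) := hX.form
    have hpr : ∀ w, prL κ N (lift (fun _ => N + 1) X.1 w) = lift (fun _ => N) X.1 (prL κ N w) :=
      fun _ => rfl
    have hla : ∀ w, laL κ N (lift (fun _ => N + 1) X.1 w) = X.1 () (laL κ N w) := fun _ => rfl
    have h1 : actForm (lift (fun _ => N + 1) X.1) γ1
        = mprod (pull (prL κ N) (actForm (lift (fun _ => N) X.1) α)) (pull (laL κ N) p4)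
          + (2 * X.2) • γ1 := by
      show actForm _ (mprod (pull (prL κ N) α) (pull (laL κ N) p4)) = _
      rw [actForm_mprod, actForm_pull _ _ _ hpr, actForm_pull _ _ _ hla]
      congr 1
      have h2 : actForm (X.1 ()) p4 = (2 * X.2) • p4 := by
        have := actForm_tp P.ψ (X.1 ()) X.2 hpol 2
        push_cast at this
        exact this
      rw [h2, pull_smul, mprod_smul_right]
    have h2 : actForm (lift (fun _ => N + 1) X.1) γ2 = (k * X.2) • γ2
        + mprod (pull (laL κ N) (tp P.ψ k)) (pull (laL κ N) (actForm (X.1 ()) β)) := by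
      show actForm _ (mprod (pull (laL κ N) (tp P.ψ k)) (pull (laL κ N) β)) = _
      rw [actForm_mprod, actForm_pull _ _ _ hla, actForm_pull _ _ _ hla,
        actForm_tp P.ψ (X.1 ()) X.2 hpol k, pull_smul, mprod_smul_left]
    have hadd : actForm (lift (fun _ => N + 1) X.1) (γ1 + γ2)
        = actForm (lift (fun _ => N + 1) X.1) γ1 + actForm (lift (fun _ => N + 1) X.1) γ2 := by
      refine MultilinearMap.ext fun v => ?_
      rw [_root_.add_apply, actForm_apply, actForm_apply, actForm_apply, ← Finset.sum_add_distrib]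
      rfl
    rw [hadd, h1, h2] at hform
    have key : ∀ v : Fin (2 * k + 4) → HW (fun _ : Unit => κ) (fun _ => N + 1),
        (actForm (lift (fun _ => N) X.1) α (fun i => prL κ N (v (Fin.castAdd 4 i)))
          - (k * X.2) * α (fun i => prL κ N (v (Fin.castAdd 4 i))))
          * tp P.ψ 2 (fun i => laL κ N (v (Fin.natAdd (2 * k) i)))
        + tp P.ψ k (fun i => laL κ N (v (Fin.castAdd 4 i)))
          * (actForm (X.1 ()) β (fun i => laL κ N (v (Fin.natAdd (2 * k) i)))
            - (2 * X.2) * β (fun i => laL κ N (v (Fin.natAdd (2 * k) i)))) = 0 := by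
      intro v
      have h3 := DFunLike.congr_fun hform v
      have h4 : actForm (lift (fun _ => N) X.1) α (fun i => prL κ N (v (Fin.castAdd 4 i)))
          * tp P.ψ 2 (fun i => laL κ N (v (Fin.natAdd (2 * k) i)))
          + (2 * X.2) * (α (fun i => prL κ N (v (Fin.castAdd 4 i)))
            * tp P.ψ 2 (fun i => laL κ N (v (Fin.natAdd (2 * k) i))))
          + ((k * X.2) * (tp P.ψ k (fun i => laL κ N (v (Fin.castAdd 4 i)))
            * β (fun i => laL κ N (v (Fin.natAdd (2 * k) i))))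
          + tp P.ψ k (fun i => laL κ N (v (Fin.castAdd 4 i)))
            * actForm (X.1 ()) β (fun i => laL κ N (v (Fin.natAdd (2 * k) i))))
          = (((k + 2 : ℕ) : ℂ) * X.2) * (α (fun i => prL κ N (v (Fin.castAdd 4 i)))
            * tp P.ψ 2 (fun i => laL κ N (v (Fin.natAdd (2 * k) i)))
          + tp P.ψ k (fun i => laL κ N (v (Fin.castAdd 4 i)))
            * β (fun i => laL κ N (v (Fin.natAdd (2 * k) i)))) := h3
      push_cast at h4
      linear_combination h4
    constructor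
    · refine MultilinearMap.ext fun x => ?_
      let v : Fin (2 * k + 4) → HW (fun _ : Unit => κ) (fun _ => N + 1) :=
        Fin.append (fun i => emb (x i) 0) (fun i : Fin 4 => emb 0 (w4 i))
      have h3 := key v
      have h4 : (fun i => prL κ N (v (Fin.castAdd 4 i))) = x := by
        funext i
        show prL κ N (v (Fin.castAdd 4 i)) = x i
        rw [show v (Fin.castAdd 4 i) = emb (x i) 0 from Fin.append_left _ _ _, prL_emb]
      have h5 : (fun i => laL κ N (v (Fin.castAdd 4 i))) = fun _ : Fin (2 * k) => 0 := by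
        funext i
        show laL κ N (v (Fin.castAdd 4 i)) = 0
        rw [show v (Fin.castAdd 4 i) = emb (x i) 0 from Fin.append_left _ _ _, laL_emb]
      have h6 : (fun i => laL κ N (v (Fin.natAdd (2 * k) i))) = w4 := by
        funext i
        show laL κ N (v (Fin.natAdd (2 * k) i)) = w4 i
        rw [show v (Fin.natAdd (2 * k) i) = emb 0 (w4 i) from Fin.append_right _ _ _, laL_emb]
      have h7 : tp P.ψ k (fun _ : Fin (2 * k) => 0) = 0 := (tp P.ψ k).map_zero
      rw [h4, h5, h6, h7, zero_mul, add_zero] at h3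
      have h8 := (mul_eq_zero.mp h3).resolve_right hw4
      rw [_root_.smul_apply, smul_eq_mul]
      exact sub_eq_zero.mp h8
    · refine MultilinearMap.ext fun w => ?_
      let v : Fin (2 * k + 4) → HW (fun _ : Unit => κ) (fun _ => N + 1) :=
        Fin.append (fun i => emb 0 (wk i)) (fun i : Fin 4 => emb 0 (w i))
      have h3 := key v
      have h4 : (fun i => prL κ N (v (Fin.castAdd 4 i))) = fun _ : Fin (2 * k) => 0 := by
        funext i
        show prL κ N (v (Fin.castAdd 4 i)) = 0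
        rw [show v (Fin.castAdd 4 i) = emb 0 (wk i) from Fin.append_left _ _ _, prL_emb]
      have h5 : (fun i => laL κ N (v (Fin.castAdd 4 i))) = wk := by
        funext i
        show laL κ N (v (Fin.castAdd 4 i)) = wk i
        rw [show v (Fin.castAdd 4 i) = emb 0 (wk i) from Fin.append_left _ _ _, laL_emb]
      have h6 : (fun i => laL κ N (v (Fin.natAdd (2 * k) i))) = w := by
        funext i
        show laL κ N (v (Fin.natAdd (2 * k) i)) = w i
        rw [show v (Fin.natAdd (2 * k) i) = emb 0 (w i) from Fin.append_right _ _ _, laL_emb]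
      have h7 : α (fun _ : Fin (2 * k) => 0) = 0 := α.map_zero
      have h7' : actForm (lift (fun _ => N) X.1) α (fun _ : Fin (2 * k) => 0) = 0 :=
        (actForm (lift (fun _ => N) X.1) α).map_zero
      rw [h4, h5, h6, h7, h7', mul_zero, sub_zero, zero_mul, zero_add] at h3
      have h8 := (mul_eq_zero.mp h3).resolve_left hwk
      rw [_root_.smul_apply, smul_eq_mul]
      exact sub_eq_zero.mp h8
  · intro g hg w
    let v : Fin (2 * k + 4) → HW (fun _ : Unit => κ) (fun _ => N + 1) :=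
      Fin.append (fun i => emb 0 (wk i)) (fun i : Fin 4 => emb 0 (w i))
    have h3 := hg.form v
    have h0 : ∀ v : Fin (2 * k + 4) → HW (fun _ : Unit => κ) (fun _ => N + 1), (γ1 + γ2) v
        = α (fun i => prL κ N (v (Fin.castAdd 4 i)))
        * tp P.ψ 2 (fun i => laL κ N (v (Fin.natAdd (2 * k) i)))
        + tp P.ψ k (fun i => laL κ N (v (Fin.castAdd 4 i)))
        * β (fun i => laL κ N (v (Fin.natAdd (2 * k) i))) := fun _ => rfl
    have h4 : (fun i => prL κ N (v (Fin.castAdd 4 i))) = fun _ : Fin (2 * k) => 0 := by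
      funext i
      show prL κ N (v (Fin.castAdd 4 i)) = 0
      rw [show v (Fin.castAdd 4 i) = emb 0 (wk i) from Fin.append_left _ _ _, prL_emb]
    have h5 : (fun i => laL κ N (v (Fin.castAdd 4 i))) = wk := by
      funext i
      show laL κ N (v (Fin.castAdd 4 i)) = wk i
      rw [show v (Fin.castAdd 4 i) = emb 0 (wk i) from Fin.append_left _ _ _, laL_emb]
    have h6 : (fun i => laL κ N (v (Fin.natAdd (2 * k) i))) = w := by
      funext i
      show laL κ N (v (Fin.natAdd (2 * k) i)) = w i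
      rw [show v (Fin.natAdd (2 * k) i) = emb 0 (w i) from Fin.append_right _ _ _, laL_emb]
    have h4' : (fun i => prL κ N (lift (fun _ => N + 1) g (v (Fin.castAdd 4 i))))
        = fun _ : Fin (2 * k) => 0 := by
      funext i
      have : prL κ N (lift (fun _ => N + 1) g (v (Fin.castAdd 4 i)))
          = lift (fun _ => N) g (prL κ N (v (Fin.castAdd 4 i))) := rfl
      show prL κ N (lift (fun _ => N + 1) g (v (Fin.castAdd 4 i))) = 0
      rw [this, show v (Fin.castAdd 4 i) = emb 0 (wk i) from Fin.append_left _ _ _, prL_emb,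
        map_zero]
    have h5' : (fun i => laL κ N (lift (fun _ => N + 1) g (v (Fin.castAdd 4 i))))
        = fun i => g () (wk i) := by
      funext i
      have : laL κ N (lift (fun _ => N + 1) g (v (Fin.castAdd 4 i)))
          = g () (laL κ N (v (Fin.castAdd 4 i))) := rfl
      show laL κ N (lift (fun _ => N + 1) g (v (Fin.castAdd 4 i))) = g () (wk i)
      rw [this, show v (Fin.castAdd 4 i) = emb 0 (wk i) from Fin.append_left _ _ _, laL_emb]
    have h6' : (fun i => laL κ N (lift (fun _ => N + 1) g (v (Fin.natAdd (2 * k) i))))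
        = fun i => g () (w i) := by
      funext i
      have : laL κ N (lift (fun _ => N + 1) g (v (Fin.natAdd (2 * k) i)))
          = g () (laL κ N (v (Fin.natAdd (2 * k) i))) := rfl
      show laL κ N (lift (fun _ => N + 1) g (v (Fin.natAdd (2 * k) i))) = g () (w i)
      rw [this, show v (Fin.natAdd (2 * k) i) = emb 0 (w i) from Fin.append_right _ _ _, laL_emb]
    have h7 : α (fun _ : Fin (2 * k) => 0) = 0 := α.map_zero
    have h8 : α (fun i => prL κ N (lift (fun _ => N + 1) g (v (Fin.castAdd 4 i))))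
        * tp P.ψ 2 (fun i => laL κ N (lift (fun _ => N + 1) g (v (Fin.natAdd (2 * k) i))))
        + tp P.ψ k (fun i => laL κ N (lift (fun _ => N + 1) g (v (Fin.castAdd 4 i))))
        * β (fun i => laL κ N (lift (fun _ => N + 1) g (v (Fin.natAdd (2 * k) i))))
        = α (fun i => prL κ N (v (Fin.castAdd 4 i)))
        * tp P.ψ 2 (fun i => laL κ N (v (Fin.natAdd (2 * k) i)))
        + tp P.ψ k (fun i => laL κ N (v (Fin.castAdd 4 i)))
        * β (fun i => laL κ N (v (Fin.natAdd (2 * k) i))) := h3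
    rw [h4, h5, h6, h4', h5', h6', h7, zero_mul, zero_add, zero_mul, zero_add,
      tp_inv P.ψ (g ()) (hg.pol ()) k wk] at h8
    exact mul_left_cancel₀ hwk h8

end Pool.Agent.KS
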