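import Pool.Agent.KS.Final1
import Pool.Agent.KS.Gam
import Pool.Agent.KS.Beta

/-!
The spin algebra kills the classes on the powers of a Kuga-Satake variety.
-/

namespace Pool.Agent.KS

open Module Matrix Pool.Agent.Helper7 Pool.Agent.Ball Pool.Agent.Helper28.GPC

theorem kill_form {κ : Type} [Fintype κ] [DecidableEq κ] {ϖ : ℂ}
    (hϖ : ϖ ≠ 0) (P : PData κ ϖ) (hP : HNd P) {n : ℕ} (hn : 3 ≤ n) (hn5 : n ≠ 5)
    {G : Matrix (Fin n) (Fin n) ℚ} (hG : Gᵀ = G) (hsig : Sig2 (rm G) ∨ Sig2 (-(rm G)))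
    {t : Fin n → Module.End ℂ (κ → ℂ)} (K : KSD P G t) {N k : ℕ}
    (α : MultilinearMap ℂ (fun _ : Fin (2 * k) => HW (fun _ : Unit => κ) (fun _ => N)) ℂ)
    (hB : ∀ v : Fin (2 * k) → HW (fun _ : Unit => κ) (fun _ => N),
      (∀ r, IsRatP (fun _ => N) (fun _ : Unit => P) (v r)) → ∃ q : ℚ, α v = ϖ ^ k * q)
    (hA : ∀ v : Fin (2 * k) → HW (fun _ : Unit => κ) (fun _ => N),
      (∀ r i m j, IsAlgebraic ℚ (v r i m j)) → IsAlgebraic ℚ (α v)) (a b : Fin n) :
    actForm (lift (fun _ => N) (fun _ : Unit => t a * t b - t b * t a)) α = 0 := by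
  rcases Nat.eq_zero_or_pos k with rfl | hk
  · apply MultilinearMap.ext
    intro v
    rw [actForm_apply]
    exact Finset.sum_eq_zero fun r _ => Fin.elim0 r
  rcases isEmpty_or_nonempty κ with hκ | hκ
  · apply MultilinearMap.ext
    intro v
    rw [actForm_apply]
    refine Finset.sum_eq_zero fun r _ => ?_
    have h0 : lift (fun _ => N) (fun _ : Unit => t a * t b - t b * t a) (v r) =
        (0 : HW (fun _ : Unit => κ) (fun _ => N)) := by
      funext i m j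
      exact hκ.elim j
    rw [h0]
    exact α.map_update_zero _ _
  have hnd := nondeg_of_sig (rm G) (rm_symm hG) hsig
  obtain ⟨β, hβB, hβA, hβ1, hβ2⟩ := exists_beta P hG hnd K
  obtain ⟨γ, hγB, hγA, hγ1, hγ2⟩ := exists_gam P N k hk α hB hA β hβB hβA
  have hT : ∀ X : GG (fun _ : Unit => κ), IsInv (fun _ => N + 1) (fun _ : Unit => P) γ X →
      ∃ M, Act t (X.1 ()) M := fun X hX => hβ1 (X.1 ()) X.2 (hX.pol ()) (hγ1 X hX).2
  have hTg : ∀ g, IsGrp (fun _ => N + 1) (fun _ : Unit => P) γ g →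
      ∃ A : Module.End ℂ (Fin n → ℂ), ∀ x, g () * tau t x = tau t (A x) * g () :=
    fun g hg => hβ2 (g ()) (hg.pol ()) (hγ2 g hg)
  have h1 := biv_inv hϖ P hP hn hn5 hG hsig K γ hγB hγA hT hTg a b
  have h2 := (hγ1 _ h1).1
  rw [mul_zero, zero_smul] at h2
  exact h2

end Pool.Agent.KS
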