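import Pool.Agent.KS.Types
import Pool.Agent.KS.Final2
import Pool.Agent.Helper20.Hodge
import Pool.Agent.Helper8.D.HodgeStep
import Pool.Agent.Helper7.J9

/-!
Grothendieck classes on the powers of a Kuga-Satake variety are Hodge classes.
-/

namespace Pool.Agent.KS

open Module Matrix Pool.Agent.Helper7 Pool.Agent.Ball Pool.Agent.Helper28.GPC
open Pool.Agent.GPC (AbVar IsHodge IsGrothendieck Form)
open scoped ComplexConjugate

section av

variable (A : AbVar) {n : ℕ} (S : A.KugaSatake n)

/-- the operators of the structure, as linear maps -/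
noncomputable def lt (a : Fin n) : Module.End ℂ A.H1 := (S.linear a).mk' (S.t a)

lemma lt_apply (a : Fin n) (v : A.H1) : lt A S a v = S.t a v := rfl

lemma isFil_iff_hod' (v : A.H1) : A.IsFil v ↔ hod A v = 0 := hod_fil A

/-- the abstract structure -/
lemma ksd : KSD (pData A) S.G (lt A S) where
  rat a v hv := (mem_pData_Q A _).mpr (S.betti a v ((mem_pData_Q A v).mp hv))
  alg := by
    obtain ⟨c, hc, h⟩ := S.deRham
    refine ⟨c, hc, fun b i j => ?_⟩
    have h1 := h b (Pi.single i 1) (single_deRham A i) j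
    rw [LinearMap.sum_apply]
    exact h1
  cliff a b := by
    apply LinearMap.ext
    intro v
    exact S.clifford a b v
  cent f := by
    constructor
    · intro hf
      refine ⟨hf.rat, fun a b => ?_⟩
      apply LinearMap.ext
      intro v
      exact ((S.endo f).mp (isEnd_of_isDRB A f hf)).2.2 a b v
    · rintro ⟨h1, h2⟩
      apply isDRB_of_isEnd A f
      rw [S.endo]
      refine ⟨f.isLinear, fun v hv => (mem_pData_Q A _).mp (h1 v ((mem_pData_Q A v).mpr hv)),
        fun a b v => ?_⟩
      exact LinearMap.congr_fun (h2 a b) v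

/-- the Hodge projector in terms of the structure -/
lemma hod_eq : ∃ x : Fin n → ℂ, bil (rm S.G) x (star x) ≠ 0 ∧
    hod A = (1 / 2 : ℂ) • (1 : Module.End ℂ A.H1) - (1 / (4 * bil (rm S.G) x (star x)) : ℂ) •
      (tau (lt A S) x * tau (lt A S) (star x) - tau (lt A S) (star x) * tau (lt A S) x) := by
  obtain ⟨x, hx, h1, h2⟩ := S.hodge
  have K := ksd A S
  have hq : bil (rm S.G) x (star x) = ∑ a, ∑ b, x a * (S.G a b : ℂ) * conj (x b) := by
    rw [bil_apply]
    refine Finset.sum_congr rfl fun a _ => Finset.sum_congr rfl fun b _ => ?_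
    rw [rm, Matrix.map_apply]
    push_cast
    rfl
  rw [← hq] at hx
  refine ⟨x, hx, ?_⟩
  set q := bil (rm S.G) x (star x) with hqd
  set e := tau (lt A S) x with he
  set e' := tau (lt A S) (star x) with he'
  have hev : ∀ v, e v = ∑ a, x a • S.t a v := by
    intro v
    rw [he, tau_apply, LinearMap.sum_apply]
    rfl
  have e1 : ∀ v, A.IsFil (e v) := fun v => by rw [hev]; exact h1 v
  have e2 : ∀ v, A.IsFil v → e v = 0 := fun v hv => by rw [hev]; exact h2 v hv
  have e3 : ∀ v, e' (cB (pData A) v) = cB (pData A) (e v) := by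
    intro v
    rw [he, he', cB_tau K]
  have e4 : ∀ v, A.IsFil v → e' (cB (pData A) v) = 0 := by
    intro v hv
    rw [e3, e2 v hv, cB_zero]
  have hcl : ∀ v, e (e' v) + e' (e v) = (2 * q) • v := by
    intro v
    have h3 := LinearMap.congr_fun (tau_cliff K.cliff x (star x)) v
    exact h3
  apply LinearMap.ext
  intro v
  obtain ⟨u, u', hu, hu', rfl⟩ := exists_hodge A v
  rw [hod_add_cB A hu hu']
  show cB (pData A) u' = (1 / 2 : ℂ) • (u + cB (pData A) u') - (1 / (4 * q) : ℂ) •
    (e (e' (u + cB (pData A) u')) - e' (e (u + cB (pData A) u')))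
  have h5 : e (e' u) = (2 * q) • u := by
    have h6 := hcl u
    rw [e2 u hu, map_zero, add_zero] at h6
    exact h6
  have h7 : e' (e (cB (pData A) u')) = (2 * q) • cB (pData A) u' := by
    have h6 := hcl (cB (pData A) u')
    rw [e4 u' hu', map_zero, zero_add] at h6
    exact h6
  rw [map_add e', e4 u' hu', add_zero, h5, map_add e, e2 u hu, zero_add, h7, smul_sub, smul_smul,
    smul_smul]
  have h8 : 1 / (4 * q) * (2 * q) = 1 / 2 := by
    field_simp
    norm_num
  rw [h8]
  module

include S in
theorem main_ks (hn : 3 ≤ n) (hn5 : n ≠ 5) (N k : ℕ) (α : Form (fun _ : Unit => A) (fun _ => N) (2 * k))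
    (hα : IsGrothendieck (fun _ : Unit => A) (fun _ => N) k α) :
    IsHodge (fun _ : Unit => A) (fun _ => N) k α := by
  classical
  obtain ⟨hα1, hα2⟩ := hα
  refine ⟨hα2, fun v J hJ hv => ?_⟩
  obtain ⟨α', hα'⟩ : ∃ α' : MultilinearMap ℂ (fun _ : Fin (2 * k) =>
    HW (fun _ : Unit => Fin A.g ⊕ Fin A.g) (fun _ => N)) ℂ, α' = (α : MultilinearMap ℂ
      (fun _ : Fin (2 * k) => HW (fun _ : Unit => Fin A.g ⊕ Fin A.g) (fun _ => N)) ℂ) := ⟨_, rfl⟩
  have hB : ∀ v : Fin (2 * k) → HW (fun _ : Unit => Fin A.g ⊕ Fin A.g) (fun _ => N),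
      (∀ r, IsRatP (fun _ => N) (fun _ : Unit => pData A) (v r)) →
      ∃ q : ℚ, α' v = (2 * Real.pi * Complex.I) ^ k * q := by
    intro v hv
    rw [hα']
    apply hα2
    intro r i m
    exact (mem_pData_Q _ _).mp (hv r i m)
  have hA : ∀ v : Fin (2 * k) → HW (fun _ : Unit => Fin A.g ⊕ Fin A.g) (fun _ => N),
      (∀ r i m j, IsAlgebraic ℚ (v r i m j)) → IsAlgebraic ℚ (α' v) := by
    rw [hα']
    exact hα1
  have hϖ := Complex.two_pi_I_ne_zero
  have K := ksd A S
  have hkill := kill_form hϖ (pData A) (hnd_pData A) hn hn5 S.symm S.signature K α' hB hA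
  obtain ⟨x, hx, hhod⟩ := hod_eq A S
  -- linear combinations of elements of the spin algebra
  have hsum : ∀ (f : Fin n → Fin n → ℂ), actForm (lift (fun _ => N)
      (fun _ : Unit => ∑ a, ∑ b, f a b • (lt A S a * lt A S b - lt A S b * lt A S a))) α' = 0 := by
    intro f
    have h0 : ∀ (s : Finset (Fin n)) (F : Fin n → Module.End ℂ A.H1),
        (∀ a ∈ s, actForm (lift (fun _ => N) (fun _ : Unit => F a)) α' = 0) →
        actForm (lift (fun _ => N) (fun _ : Unit => ∑ a ∈ s, F a)) α' = 0 := by
      intro s F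
      induction s using Finset.induction_on with
      | empty =>
        intro _
        have e : (fun _ : Unit => ∑ a ∈ (∅ : Finset (Fin n)), F a) =
            (0 : (i : Unit) → Module.End ℂ (Fin A.g ⊕ Fin A.g → ℂ)) := by
          funext u; rw [Finset.sum_empty]; rfl
        rw [e, lift_zero, actForm_zero]
      | insert a s ha ih =>
        intro h
        have e : (fun _ : Unit => ∑ a ∈ insert a s, F a) =
            ((fun _ : Unit => F a) + (fun _ : Unit => ∑ a ∈ s, F a) :
              (i : Unit) → Module.End ℂ (Fin A.g ⊕ Fin A.g → ℂ)) := by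
          funext u; rw [Finset.sum_insert ha]; rfl
        rw [e, lift_add, actForm_add, h a (Finset.mem_insert_self a s),
          ih fun b hb => h b (Finset.mem_insert_of_mem hb), add_zero]
    refine h0 _ _ fun a _ => h0 _ _ fun b _ => ?_
    have e : (fun _ : Unit => f a b • (lt A S a * lt A S b - lt A S b * lt A S a)) =
        (f a b • (fun _ : Unit => lt A S a * lt A S b - lt A S b * lt A S a) :
          (i : Unit) → Module.End ℂ (Fin A.g ⊕ Fin A.g → ℂ)) := rfl
    rw [e, lift_smul, actForm_smul, hkill a b, smul_zero]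
  -- the Hodge projector
  have hact : actForm (lift (fun _ => N) (fun _ : Unit => hod A)) α' = (k : ℂ) • α' := by
    have e1 : (fun _ : Unit => hod A) = ((fun _ : Unit => (1 / 2 : ℂ) • (1 : Module.End ℂ A.H1)) +
        (-(1 / (4 * bil (rm S.G) x (star x))) : ℂ) • (fun _ : Unit => ∑ a, ∑ b, (x a * star (x b)) •
          (lt A S a * lt A S b - lt A S b * lt A S a)) :
          (i : Unit) → Module.End ℂ (Fin A.g ⊕ Fin A.g → ℂ)) := by
      funext u
      show hod A = (1 / 2 : ℂ) • (1 : Module.End ℂ A.H1) +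
        (-(1 / (4 * bil (rm S.G) x (star x))) : ℂ) • ∑ a, ∑ b, (x a * star (x b)) •
          (lt A S a * lt A S b - lt A S b * lt A S a)
      have e2 : ∑ a, ∑ b, (x a * star (x b)) • (lt A S a * lt A S b - lt A S b * lt A S a) =
          tau (lt A S) x * tau (lt A S) (star x) - tau (lt A S) (star x) * tau (lt A S) x := by
        rw [tau_apply, tau_apply, Finset.sum_mul_sum, Finset.sum_mul_sum,
          Finset.sum_comm (f := fun i j => (star x) i • lt A S i * x j • lt A S j),
          ← Finset.sum_sub_distrib]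
        refine Finset.sum_congr rfl fun a _ => ?_
        rw [← Finset.sum_sub_distrib]
        refine Finset.sum_congr rfl fun b _ => ?_
        rw [smul_mul_smul_comm, smul_mul_smul_comm, mul_comm ((star x) b)]
        exact smul_sub _ _ _
      rw [e2, hhod]
      module
    rw [e1, lift_add, actForm_add, lift_smul, actForm_smul, hsum, smul_zero, add_zero]
    have h3 := (Helper98.Ball.isInv_homothety (fun _ => N) (fun _ : Unit => pData A) α').form
    rw [mul_one] at h3
    exact h3
  have h4 := Helper8.zero_of_type α' (lift (fun _ => N) (fun _ : Unit => hod A)) (fun w => ?_) hact v J hJ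
    (fun r hr => ?_)
  · rw [hα'] at h4
    exact h4
  · funext i m
    rw [lift_apply, lift_apply]
    exact hod_idem A _
  · funext i m
    rw [lift_apply]
    exact (hod_fil A).mp (hv r hr i m)

end av

end Pool.Agent.KS
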