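import Pool.Agent.KS.Defs

/-!
Kuga-Satake structures: basic facts.
-/

namespace Pool.Agent.KS

open Module Matrix Pool.Agent.Helper7

section basic

variable {V : Type} [AddCommGroup V] [Module ℂ V] {n : ℕ} {t : Fin n → Module.End ℂ V}

lemma tau_single (a : Fin n) : tau t (Pi.single a 1) = t a := by
  rw [tau_apply, Finset.sum_eq_single a]
  · rw [Pi.single_eq_same, one_smul]
  · intro b _ hb
    rw [Pi.single_eq_of_ne hb, zero_smul]
  · intro h; exact absurd (Finset.mem_univ _) h

/-- the Clifford relation -/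
lemma tau_cliff {G : Matrix (Fin n) (Fin n) ℚ}
    (hc : ∀ a b, t a * t b + t b * t a = (2 * (G a b : ℂ)) • 1) (x y : Fin n → ℂ) :
    tau t x * tau t y + tau t y * tau t x = (2 * bil (rm G) x y) • 1 := by
  rw [tau_apply, tau_apply, Finset.sum_mul_sum, Finset.sum_mul_sum, Finset.sum_comm (f := fun i j =>
    y i • t i * x j • t j), ← Finset.sum_add_distrib, bil_apply, Finset.mul_sum, Finset.sum_smul]
  refine Finset.sum_congr rfl fun a _ => ?_
  rw [← Finset.sum_add_distrib, Finset.mul_sum, Finset.sum_smul]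
  refine Finset.sum_congr rfl fun b _ => ?_
  rw [smul_mul_smul_comm, smul_mul_smul_comm, mul_comm (y b), ← smul_add, hc, smul_smul]
  congr 1
  rw [rm, Matrix.map_apply]
  push_cast
  ring

lemma bil_symm {G : Matrix (Fin n) (Fin n) ℝ} (hG : Gᵀ = G) (x y : Fin n → ℂ) :
    bil G x y = bil G y x := by
  rw [bil_apply, bil_apply, Finset.sum_comm]
  refine Finset.sum_congr rfl fun a _ => Finset.sum_congr rfl fun b _ => ?_
  have h : G b a = G a b := by
    conv_lhs => rw [← hG]
    rfl
  rw [h]
  ring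

lemma bil_star (G : Matrix (Fin n) (Fin n) ℝ) (x y : Fin n → ℂ) :
    bil G (star x) (star y) = star (bil G x y) := by
  rw [bil_apply, bil_apply, star_sum]
  refine Finset.sum_congr rfl fun a _ => ?_
  rw [star_sum]
  refine Finset.sum_congr rfl fun b _ => ?_
  rw [Pi.star_apply, Pi.star_apply, star_mul', star_mul']
  congr 2
  exact (Complex.conj_ofReal _).symm

lemma bil_cx (G : Matrix (Fin n) (Fin n) ℝ) (x y : Fin n → ℝ) :
    bil G (cx x) (cx y) = ((x ⬝ᵥ (G *ᵥ y) : ℝ) : ℂ) := by
  rw [bil_apply, dotProduct]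
  push_cast
  refine Finset.sum_congr rfl fun a _ => ?_
  rw [Matrix.mulVec, dotProduct]
  push_cast
  rw [Finset.mul_sum]
  refine Finset.sum_congr rfl fun b _ => ?_
  unfold cx
  ring

/-- a vector is the sum of its real and imaginary parts -/
lemma cx_re_im (x : Fin n → ℂ) :
    x = cx (fun a => (x a).re) + Complex.I • cx (fun a => (x a).im) := by
  funext a
  show x a = ((x a).re : ℂ) + Complex.I * ((x a).im : ℂ)
  rw [mul_comm]
  exact (Complex.re_add_im (x a)).symm

lemma tau_injective [Nontrivial V] {G : Matrix (Fin n) (Fin n) ℚ}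
    (hc : ∀ a b, t a * t b + t b * t a = (2 * (G a b : ℂ)) • 1)
    (hnd : (bil (rm G)).Nondegenerate) : Function.Injective (tau t) := by
  rw [injective_iff_map_eq_zero]
  intro x hx
  apply hnd.1
  intro y
  have h1 := tau_cliff hc x y
  rw [hx, zero_mul, mul_zero, add_zero] at h1
  rcases smul_eq_zero.mp h1.symm with h2 | h2
  · simpa using h2
  · exact absurd h2 one_ne_zero

lemma Act.bracket {X Y : Module.End ℂ V} {M M' : Module.End ℂ (Fin n → ℂ)} (h : Act t X M)
    (h' : Act t Y M') : Act t (X * Y - Y * X) (M * M' - M' * M) := by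
  intro x
  have h1 := h x
  have h2 := h' x
  have h3 := h (M' x)
  have h4 := h' (M x)
  show _ = tau t (M (M' x) - M' (M x))
  rw [map_sub, ← h3, ← h4, ← h1, ← h2]
  noncomm_ring

lemma Act.add {X Y : Module.End ℂ V} {M M' : Module.End ℂ (Fin n → ℂ)} (h : Act t X M)
    (h' : Act t Y M') : Act t (X + Y) (M + M') := by
  intro x
  rw [LinearMap.add_apply, map_add, ← h x, ← h' x]
  noncomm_ring

lemma Act.smul {X : Module.End ℂ V} {M : Module.End ℂ (Fin n → ℂ)} (c : ℂ) (h : Act t X M) :
    Act t (c • X) (c • M) := by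
  intro x
  rw [LinearMap.smul_apply, map_smul, ← h x, smul_sub, smul_mul_assoc, mul_smul_comm]

lemma Act.unique {X : Module.End ℂ V} {M M' : Module.End ℂ (Fin n → ℂ)}
    (hinj : Function.Injective (tau t)) (h : Act t X M) (h' : Act t X M') : M = M' := by
  apply LinearMap.ext
  intro x
  apply hinj
  rw [← h x, ← h' x]

/-- the action is skew -/
lemma Act.skew [Nontrivial V] {G : Matrix (Fin n) (Fin n) ℚ}
    (hc : ∀ a b, t a * t b + t b * t a = (2 * (G a b : ℂ)) • 1)
    {X : Module.End ℂ V} {M : Module.End ℂ (Fin n → ℂ)} (h : Act t X M) (u v : Fin n → ℂ) :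
    bil (rm G) (M u) v + bil (rm G) u (M v) = 0 := by
  have h1 := tau_cliff hc (M u) v
  have h2 := tau_cliff hc u (M v)
  have h3 := tau_cliff hc u v
  have h4 : (2 * bil (rm G) (M u) v) • (1 : Module.End ℂ V) + (2 * bil (rm G) u (M v)) • 1 = 0 := by
    rw [← h1, ← h2, ← h u, ← h v]
    have h5 : X * (tau t u * tau t v + tau t v * tau t u) -
        (tau t u * tau t v + tau t v * tau t u) * X = 0 := by
      rw [h3, mul_smul_comm, smul_mul_assoc, mul_one, one_mul, sub_self]
    rw [← h5]
    noncomm_ring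
  rw [← add_smul] at h4
  rcases smul_eq_zero.mp h4 with h5 | h5
  · linear_combination h5 / 2
  · exact absurd h5 one_ne_zero

end basic

end Pool.Agent.KS
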