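import Pool.Agent.KS.Defs

/-!
Module CaseA. An irreducible Lie algebra of skew operators which contains a semisimple operator of
rank two contains all skew operators.
-/

namespace Pool.Agent.KS

open Module Matrix

namespace CaseA

variable {V : Type} [AddCommGroup V] [Module ℂ V]

/-- the hypotheses -/
structure Hyp (q : LinearMap.BilinForm ℂ V) (L : Submodule ℂ (Module.End ℂ V)) (e f : V) :
    Prop where
  hs : ∀ x y, q x y = q y x
  hbr : ∀ X ∈ L, ∀ Y ∈ L, X * Y - Y * X ∈ L
  hsk : ∀ X ∈ L, ∀ u v, q (X u) v + q u (X v) = 0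
  hirr : ∀ W : Submodule ℂ V, (∀ X ∈ L, ∀ w ∈ W, X w ∈ W) → W = ⊥ ∨ W = ⊤
  hee : q e e = 0
  hff : q f f = 0
  hef : q e f = 1
  hh : wed q e f ∈ L

variable {q : LinearMap.BilinForm ℂ V} {L : Submodule ℂ (Module.End ℂ V)} {e f : V}

lemma wed_swap (q : LinearMap.BilinForm ℂ V) (x y : V) : wed q y x = - wed q x y := by
  ext z
  simp only [wed_apply, LinearMap.neg_apply]
  abel

lemma wed_add (q : LinearMap.BilinForm ℂ V) (x y z : V) :
    wed q x (y + z) = wed q x y + wed q x z := by
  ext w
  simp only [wed_apply, LinearMap.add_apply, map_add]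
  module

lemma wed_sub (q : LinearMap.BilinForm ℂ V) (x y z : V) :
    wed q x (y - z) = wed q x y - wed q x z := by
  ext w
  simp only [wed_apply, LinearMap.sub_apply, map_sub]
  module

lemma wed_smul (q : LinearMap.BilinForm ℂ V) (x y : V) (c : ℂ) :
    wed q x (c • y) = c • wed q x y := by
  ext w
  simp only [wed_apply, LinearMap.smul_apply, map_smul, smul_eq_mul]
  module

lemma wed_self (q : LinearMap.BilinForm ℂ V) (x : V) : wed q x x = 0 := by
  ext w
  simp only [wed_apply, LinearMap.zero_apply]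
  abel

lemma wed_skew (hs : ∀ x y, q x y = q y x) (x y u v : V) :
    q (wed q x y u) v + q u (wed q x y v) = 0 := by
  simp only [wed_apply, map_sub, map_smul, LinearMap.sub_apply, LinearMap.smul_apply, smul_eq_mul]
  rw [hs u x, hs u y]
  ring

lemma br_wed (X : Module.End ℂ V) (hX : ∀ u v, q (X u) v + q u (X v) = 0) (x y : V) :
    X * wed q x y - wed q x y * X = wed q (X x) y + wed q x (X y) := by
  ext z
  simp only [LinearMap.sub_apply, Module.End.mul_apply, wed_apply, LinearMap.add_apply, map_sub,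
    map_smul]
  have h1 : q y (X z) = - q (X y) z := by linear_combination hX y z
  have h2 : q x (X z) = - q (X x) z := by linear_combination hX x z
  rw [h1, h2]
  module

/-- the projection to the orthogonal complement of `e, f` -/
noncomputable def pr (q : LinearMap.BilinForm ℂ V) (e f : V) : V →ₗ[ℂ] V :=
  LinearMap.id - (q f).smulRight e - (q e).smulRight f

lemma pr_apply (q : LinearMap.BilinForm ℂ V) (e f x : V) :
    pr q e f x = x - q f x • e - q e x • f := rfl

lemma pr_swap (q : LinearMap.BilinForm ℂ V) (e f x : V) : pr q f e x = pr q e f x := by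
  rw [pr_apply, pr_apply]
  abel

/-- the subspace `N` -/
def NS (q : LinearMap.BilinForm ℂ V) (L : Submodule ℂ (Module.End ℂ V)) (e f : V) :
    Submodule ℂ V where
  carrier := {u | q e u = 0 ∧ q f u = 0 ∧ wed q e u ∈ L}
  add_mem' := by
    rintro a b ⟨h1, h2, h3⟩ ⟨h4, h5, h6⟩
    refine ⟨by rw [map_add, h1, h4, add_zero], by rw [map_add, h2, h5, add_zero], ?_⟩
    rw [wed_add]
    exact L.add_mem h3 h6
  zero_mem' := by
    refine ⟨map_zero _, map_zero _, ?_⟩
    have : wed q e 0 = 0 := by
      ext z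
      simp [wed_apply]
    rw [this]
    exact L.zero_mem
  smul_mem' := by
    rintro c a ⟨h1, h2, h3⟩
    refine ⟨by rw [map_smul, h1, smul_zero], by rw [map_smul, h2, smul_zero], ?_⟩
    rw [wed_smul]
    exact L.smul_mem c h3

lemma mem_NS {u : V} : u ∈ NS q L e f ↔ q e u = 0 ∧ q f u = 0 ∧ wed q e u ∈ L := Iff.rfl

namespace Hyp

variable (H : Hyp q L e f)
include H

lemma swap : Hyp q L f e where
  hs := H.hs
  hbr := H.hbr
  hsk := H.hsk
  hirr := H.hirr
  hee := H.hff
  hff := H.hee
  hef := by rw [H.hs, H.hef]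
  hh := by
    rw [wed_swap]
    exact L.neg_mem H.hh

lemma hfe : q f e = 1 := by rw [H.hs, H.hef]

lemma e_ne : e ≠ 0 := by
  intro h
  have := H.hef
  rw [h, map_zero, LinearMap.zero_apply] at this
  exact zero_ne_one this

lemma q_e_pr (x : V) : q e (pr q e f x) = 0 := by
  rw [pr_apply, map_sub, map_sub, map_smul, map_smul, H.hee, H.hef]
  simp

lemma q_f_pr (x : V) : q f (pr q e f x) = 0 := by
  rw [pr_apply, map_sub, map_sub, map_smul, map_smul, H.hff, H.hfe]
  simp

lemma pr_of {x : V} (h1 : q e x = 0) (h2 : q f x = 0) : pr q e f x = x := by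
  rw [pr_apply, h1, h2]
  simp

lemma pr_e : pr q e f e = 0 := by
  rw [pr_apply, H.hee, H.hfe]
  simp

lemma pr_f : pr q e f f = 0 := by
  rw [pr_apply, H.hff, H.hef]
  simp

lemma q_self {X : Module.End ℂ V} (hX : X ∈ L) (x : V) : q x (X x) = 0 := by
  have h1 := H.hsk X hX x x
  rw [H.hs (X x) x] at h1
  linear_combination h1 / 2

/-- the `T0`-component of `X e` is in `N'` -/
lemma pr_Xe {X : Module.End ℂ V} (hX : X ∈ L) : pr q e f (X e) ∈ NS q L f e := by
  refine ⟨H.q_f_pr _, H.q_e_pr _, ?_⟩
  have hY := H.hbr _ H.hh _ hX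
  have hZ := H.hbr _ H.hh _ hY
  have h1 : wed q e f * X - X * wed q e f = wed q f (X e) - wed q e (X f) := by
    have := br_wed X (H.hsk X hX) e f
    rw [wed_swap q f (X e)] at this
    rw [← neg_sub, this]
    abel
  have h2 : wed q f (X e) - wed q e (X f)
      = wed q f (pr q e f (X e)) - wed q e (pr q e f (X f)) := by
    rw [pr_apply, pr_apply, wed_sub, wed_sub, wed_sub, wed_sub, wed_smul, wed_smul, wed_smul,
      wed_smul, wed_self, wed_self, wed_swap q e f, H.q_self hX e, H.q_self hX f]
    have h3 : q f (X e) = - q e (X f) := by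
      have := H.hsk X hX e f
      rw [H.hs (X e) f] at this
      linear_combination this
    rw [h3]
    module
  rw [h1, h2] at hY hZ
  have hh : ∀ x, pr q e f (X x) = pr q e f (X x) := fun _ => rfl
  have h4 : wed q e f * (wed q f (pr q e f (X e)) - wed q e (pr q e f (X f)))
      - (wed q f (pr q e f (X e)) - wed q e (pr q e f (X f))) * wed q e f
      = - wed q f (pr q e f (X e)) - wed q e (pr q e f (X f)) := by
    have h5 := br_wed (wed q e f) (wed_skew H.hs e f) f (pr q e f (X e))
    have h6 := br_wed (wed q e f) (wed_skew H.hs e f) e (pr q e f (X f))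
    have h7 : wed q e f f = -f := by
      rw [wed_apply, H.hff, H.hef]
      simp
    have h8 : wed q e f e = e := by
      rw [wed_apply, H.hee, H.hfe]
      simp
    have h9 : ∀ x, wed q e f (pr q e f x) = 0 := by
      intro x
      rw [wed_apply, H.q_e_pr, H.q_f_pr]
      simp
    have h10 : ∀ x, wed q x (0 : V) = 0 := by
      intro x
      ext z
      simp [wed_apply]
    have h11 : ∀ x y, wed q (-x) y = - wed q x y := by
      intro x y
      ext z
      simp only [wed_apply, map_neg, LinearMap.neg_apply]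
      module
    rw [h7, h9, h10, h11, add_zero] at h5
    rw [h8, h9, h10, add_zero] at h6
    have h12 : wed q e f * (wed q f (pr q e f (X e)) - wed q e (pr q e f (X f)))
      - (wed q f (pr q e f (X e)) - wed q e (pr q e f (X f))) * wed q e f
      = (wed q e f * wed q f (pr q e f (X e)) - wed q f (pr q e f (X e)) * wed q e f)
        - (wed q e f * wed q e (pr q e f (X f)) - wed q e (pr q e f (X f)) * wed q e f) := by
      rw [mul_sub, sub_mul]
      abel
    rw [h12, h5, h6]
  rw [h4] at hZ
  have h12 : wed q f (pr q e f (X e))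
      = (1 / 2 : ℂ) • ((wed q f (pr q e f (X e)) - wed q e (pr q e f (X f)))
        - (- wed q f (pr q e f (X e)) - wed q e (pr q e f (X f)))) := by
    module
  rw [h12]
  exact L.smul_mem _ (L.sub_mem hY hZ)

lemma pr_Xf {X : Module.End ℂ V} (hX : X ∈ L) : pr q e f (X f) ∈ NS q L e f := by
  rw [← pr_swap]
  exact H.swap.pr_Xe hX

/-- `N` is invariant up to the components in `e`, `f` -/
lemma pr_Xu {X : Module.End ℂ V} (hX : X ∈ L) {u : V} (hu : u ∈ NS q L e f) :
    pr q e f (X u) ∈ NS q L e f := by
  refine ⟨H.q_e_pr _, H.q_f_pr _, ?_⟩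
  obtain ⟨hu1, hu2, hu3⟩ := hu
  set s := pr q e f (X e) with hs
  obtain ⟨hs1, hs2, hs3⟩ := H.pr_Xe hX
  rw [← hs] at hs1 hs2 hs3
  have hA := H.hbr _ (L.add_mem hX hs3) _ hu3
  have h1 := br_wed X (H.hsk X hX) e u
  have h2 := br_wed (wed q f s) (wed_skew H.hs f s) e u
  have h3 : wed q f s e = - s := by
    rw [wed_apply, H.hs s e, hs2, H.hfe]
    simp
  have h4 : wed q f s u = q s u • f := by
    rw [wed_apply, hu2]
    simp
  have h5 : X e = s + q f (X e) • e := by
    rw [hs, pr_apply, H.q_self hX e]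
    module
  have h6 : (X + wed q f s) * wed q e u - wed q e u * (X + wed q f s)
      = q f (X e) • wed q e u + wed q e (X u) + q s u • wed q e f := by
    have h7 : (X + wed q f s) * wed q e u - wed q e u * (X + wed q f s)
        = (X * wed q e u - wed q e u * X) + (wed q f s * wed q e u - wed q e u * wed q f s) := by
      rw [add_mul, mul_add]
      abel
    rw [h7, h1, h2, h3, h4, wed_smul]
    have h8 : wed q (X e) u = wed q s u + q f (X e) • wed q e u := by
      conv_lhs => rw [h5]
      ext z
      simp only [wed_apply, LinearMap.add_apply, LinearMap.smul_apply, map_add, map_smul,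
        smul_eq_mul]
      module
    have h9 : wed q (-s) u = - wed q s u := by
      ext z
      simp only [wed_apply, map_neg, LinearMap.neg_apply]
      module
    rw [h8, h9]
    abel
  rw [h6] at hA
  have h10 : wed q e (pr q e f (X u)) = (q f (X e) • wed q e u + wed q e (X u)
      + q s u • wed q e f) - q f (X e) • wed q e u - (q s u + q e (X u)) • wed q e f := by
    rw [pr_apply, wed_sub, wed_sub, wed_smul, wed_smul, wed_self]
    module
  rw [h10]
  exact L.sub_mem (L.sub_mem hA (L.smul_mem _ hu3)) (L.smul_mem _ H.hh)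

lemma pr_Xu' {X : Module.End ℂ V} (hX : X ∈ L) {u : V} (hu : u ∈ NS q L f e) :
    pr q e f (X u) ∈ NS q L f e := by
  rw [← pr_swap]
  exact H.swap.pr_Xu hX hu

lemma decomp (x : V) : x = pr q e f x + q f x • e + q e x • f := by
  rw [pr_apply]
  module

/-- `N + N' = T0` -/
lemma pr_mem_sup (x : V) : pr q e f x ∈ NS q L e f ⊔ NS q L f e := by
  let W : Submodule ℂ V := (NS q L e f ⊔ NS q L f e).comap (pr q e f)
  have hW : W = ⊥ ∨ W = ⊤ := by
    apply H.hirr
    intro X hX w hw
    have hw' : pr q e f w ∈ NS q L e f ⊔ NS q L f e := hw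
    show pr q e f (X w) ∈ NS q L e f ⊔ NS q L f e
    obtain ⟨n, hn, n', hn', hnn⟩ := Submodule.mem_sup.mp hw'
    have h1 : pr q e f (X w) = pr q e f (X n) + pr q e f (X n') + q f w • pr q e f (X e)
        + q e w • pr q e f (X f) := by
      conv_lhs => rw [H.decomp w, ← hnn]
      simp only [map_add, map_smul]
    rw [h1]
    refine Submodule.add_mem _ (Submodule.add_mem _ (Submodule.add_mem _ ?_ ?_) ?_) ?_
    · exact Submodule.mem_sup_left (H.pr_Xu hX hn)
    · exact Submodule.mem_sup_right (H.pr_Xu' hX hn')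
    · exact Submodule.smul_mem _ _ (Submodule.mem_sup_right (H.pr_Xe hX))
    · exact Submodule.smul_mem _ _ (Submodule.mem_sup_left (H.pr_Xf hX))
  rcases hW with hW | hW
  · exfalso
    have he : e ∈ W := by
      show pr q e f e ∈ NS q L e f ⊔ NS q L f e
      rw [H.pr_e]
      exact Submodule.zero_mem _
    rw [hW, Submodule.mem_bot] at he
    exact H.e_ne he
  · have : x ∈ W := by
      rw [hW]
      exact Submodule.mem_top
    exact this

/-- `N'` is not totally isotropic -/
lemma exists_ne : ∃ v ∈ NS q L f e, ∃ v' ∈ NS q L f e, q v v' ≠ 0 := by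
  by_contra hcon
  push Not at hcon
  let W : Submodule ℂ V := LinearMap.ker (q e) ⊓ (NS q L f e).comap (pr q e f)
  have hW : W = ⊥ ∨ W = ⊤ := by
    apply H.hirr
    rintro X hX w ⟨hw1, hw2⟩
    have hw1' : q e w = 0 := hw1
    have hw2' : pr q e f w ∈ NS q L f e := hw2
    have h0 : w = pr q e f w + q f w • e := by
      conv_lhs => rw [H.decomp w, hw1']
      simp
    refine ⟨?_, ?_⟩
    · show q e (X w) = 0
      have h1 : q e (X w) = - q (X e) w := by linear_combination H.hsk X hX e w
      have h2 : X e = pr q e f (X e) + q f (X e) • e := by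
        conv_lhs => rw [H.decomp (X e), H.q_self hX e]
        simp
      have h3 : ∀ (s p : V) (c d : ℂ), q (s + c • e) (p + d • e)
          = q s p + d * q s e + c * q e p + c * d * q e e := by
        intro s p c d
        simp only [map_add, LinearMap.add_apply, map_smul, LinearMap.smul_apply, smul_eq_mul]
        ring
      have h4 : q (X e) w = 0 := by
        rw [h2, h0, h3, hcon _ (H.pr_Xe hX) _ hw2', H.q_e_pr,
          H.hs (pr q e f (X e)) e, H.q_e_pr, H.hee]
        ring
      rw [h1, h4, neg_zero]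
    · show pr q e f (X w) ∈ NS q L f e
      have h1 : pr q e f (X w) = pr q e f (X (pr q e f w)) + q f w • pr q e f (X e) := by
        conv_lhs => rw [h0]
        simp only [map_add, map_smul]
      rw [h1]
      exact Submodule.add_mem _ (H.pr_Xu' hX hw2') (Submodule.smul_mem _ _ (H.pr_Xe hX))
  rcases hW with hW | hW
  · have he : e ∈ W := by
      refine ⟨H.hee, ?_⟩
      show pr q e f e ∈ NS q L f e
      rw [H.pr_e]
      exact Submodule.zero_mem _
    rw [hW, Submodule.mem_bot] at he
    exact H.e_ne he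
  · have : f ∈ W := by
      rw [hW]
      exact Submodule.mem_top
    have h1 : q e f = 0 := this.1
    rw [H.hef] at h1
    exact one_ne_zero h1

/-- `wed u v` for `u` in `N`, `v` in `N'` -/
lemma wed_mem {u v : V} (hu : u ∈ NS q L e f) (hv : v ∈ NS q L f e) : wed q u v ∈ L := by
  obtain ⟨hu1, hu2, hu3⟩ := hu
  obtain ⟨hv1, hv2, hv3⟩ := hv
  have h1 := H.hbr _ hu3 _ hv3
  rw [br_wed (wed q e u) (wed_skew H.hs e u)] at h1
  have h2 : wed q e u f = - u := by
    rw [wed_apply, H.hs u f, hu2, H.hef]
    simp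
  have h3 : wed q e u v = q u v • e := by
    rw [wed_apply, hv2]
    simp
  have h4 : wed q (-u) v = - wed q u v := by
    ext z
    simp only [wed_apply, map_neg, LinearMap.neg_apply]
    module
  rw [h2, h3, h4, wed_smul, wed_swap q e f] at h1
  have h5 : wed q u v = - (-wed q u v + q u v • -wed q e f) - q u v • wed q e f := by
    module
  rw [h5]
  exact L.sub_mem (L.neg_mem h1) (L.smul_mem _ H.hh)

/-- if `N'` is not totally isotropic then `N ≤ N'` -/
lemma le_of_ne {u : V} (hu : u ∈ NS q L e f) : u ∈ NS q L f e := by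
  obtain ⟨v, hv, v', hv', hne⟩ := H.exists_ne
  have h1 := H.wed_mem hu hv
  have hv3' := hv'.2.2
  have h2 := H.hbr _ h1 _ hv3'
  rw [br_wed (wed q u v) (wed_skew H.hs u v)] at h2
  have h3 : wed q u v f = 0 := by
    rw [wed_apply, H.hs v f, hv.1, H.hs u f, hu.2.1]
    simp
  have h4 : wed q (0 : V) v' = 0 := by
    ext z
    simp [wed_apply]
  rw [h3, h4, zero_add, wed_apply, wed_sub, wed_smul, wed_smul] at h2
  have h5 : q v v' • wed q f u ∈ L := by
    have h6 : q v v' • wed q f u
        = (q v v' • wed q f u - q u v' • wed q f v) + q u v' • wed q f v := by module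
    rw [h6]
    exact L.add_mem h2 (L.smul_mem _ hv.2.2)
  refine ⟨hu.2.1, hu.1, ?_⟩
  have h7 : wed q f u = (q v v')⁻¹ • (q v v' • wed q f u) := by
    rw [smul_smul, inv_mul_cancel₀ hne, one_smul]
  rw [h7]
  exact L.smul_mem _ h5

lemma eq_NS : NS q L e f = NS q L f e :=
  le_antisymm (fun _ hu => H.le_of_ne hu) (fun _ hu => H.swap.le_of_ne hu)

lemma pr_mem (x : V) : pr q e f x ∈ NS q L e f := by
  have := H.pr_mem_sup x
  rwa [← H.eq_NS, sup_idem] at this

lemma wed_e_mem (y : V) : wed q e y ∈ L := by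
  rw [H.decomp y, wed_add, wed_add, wed_smul, wed_smul, wed_self, smul_zero, add_zero]
  exact L.add_mem (H.pr_mem y).2.2 (L.smul_mem _ H.hh)

lemma wed_f_mem (y : V) : wed q f y ∈ L := H.swap.wed_e_mem y

lemma wed_all (x y : V) : wed q x y ∈ L := by
  have h1 : wed q (pr q e f x) y ∈ L := by
    rw [H.decomp y, wed_add, wed_add, wed_smul, wed_smul, wed_swap q e, wed_swap q f]
    refine L.add_mem (L.add_mem ?_ (L.smul_mem _ (L.neg_mem (H.wed_e_mem _))))
      (L.smul_mem _ (L.neg_mem (H.wed_f_mem _)))
    exact H.wed_mem (H.pr_mem x) (by rw [← H.eq_NS]; exact H.pr_mem y)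
  have h2 : wed q x y = wed q (pr q e f x) y + q f x • wed q e y + q e x • wed q f y := by
    conv_lhs => rw [H.decomp x]
    ext z
    simp only [wed_apply, LinearMap.add_apply, LinearMap.smul_apply, map_add, map_smul,
      smul_eq_mul]
    module
  rw [h2]
  exact L.add_mem (L.add_mem h1 (L.smul_mem _ (H.wed_e_mem _))) (L.smul_mem _ (H.wed_f_mem _))

end Hyp

end CaseA

theorem caseA {V : Type} [AddCommGroup V] [Module ℂ V] [FiniteDimensional ℂ V]
    (q : LinearMap.BilinForm ℂ V) (hq : q.Nondegenerate) (hs : ∀ x y, q x y = q y x)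
    (L : Submodule ℂ (Module.End ℂ V)) (hbr : ∀ X ∈ L, ∀ Y ∈ L, X * Y - Y * X ∈ L)
    (hsk : ∀ X ∈ L, ∀ u v, q (X u) v + q u (X v) = 0)
    (hirr : ∀ W : Submodule ℂ V, (∀ X ∈ L, ∀ w ∈ W, X w ∈ W) → W = ⊥ ∨ W = ⊤)
    (e f : V) (hee : q e e = 0) (hff : q f f = 0) (hef : q e f = 1) (h : wed q e f ∈ L)
    (X : Module.End ℂ V) (hX : ∀ u v, q (X u) v + q u (X v) = 0) : X ∈ L := by
  have H : CaseA.Hyp q L e f := ⟨hs, hbr, hsk, hirr, hee, hff, hef, h⟩
  let b := Module.finBasis ℂ V
  let b' := q.dualBasis hq b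
  have hdual : ∀ z, ∑ i, q (b' i) z • b i = z := by
    intro z
    have : ∀ i, q (b' i) z = b.repr z i := by
      intro i
      have h1 : q (b' i) z = ∑ j, b.repr z j * q (b' i) (b j) := by
        conv_lhs => rw [← b.sum_repr z]
        rw [map_sum]
        simp only [map_smul, smul_eq_mul]
      rw [h1, Finset.sum_eq_single i]
      · rw [LinearMap.BilinForm.apply_dualBasis_left, if_pos rfl, mul_one]
      · intro j _ hj
        rw [LinearMap.BilinForm.apply_dualBasis_left, if_neg hj, mul_zero]
      · intro hi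
        exact absurd (Finset.mem_univ i) hi
    simp only [this]
    exact b.sum_repr z
  have hdual' : ∀ w, ∑ i, q (b i) w • b' i = w := by
    intro w
    have h1 : ∑ i, q (b i) w • b' i - w = 0 := by
      apply hq.1
      intro z
      have h2 : q (∑ i, q (b i) w • b' i) z = ∑ i, q (b i) w * q (b' i) z := by
        rw [map_sum, LinearMap.sum_apply]
        simp only [map_smul, LinearMap.smul_apply, smul_eq_mul]
      have h3 : q w z = ∑ i, q (b i) w * q (b' i) z := by
        rw [hs w z]
        conv_lhs => rw [← hdual z]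
        rw [map_sum, LinearMap.sum_apply]
        simp only [map_smul, LinearMap.smul_apply, smul_eq_mul]
        exact Finset.sum_congr rfl fun i _ => mul_comm _ _
      rw [map_sub, LinearMap.sub_apply, h2, h3, sub_self]
    exact sub_eq_zero.mp h1
  have hsum : X = (1 / 2 : ℂ) • ∑ i, wed q (X (b i)) (b' i) := by
    ext z
    rw [LinearMap.smul_apply, LinearMap.sum_apply]
    simp only [wed_apply]
    rw [Finset.sum_sub_distrib]
    have h1 : ∑ i, q (b' i) z • X (b i) = X z := by
      conv_rhs => rw [← hdual z]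
      rw [map_sum]
      simp only [map_smul]
    have h2 : ∑ i, q (X (b i)) z • b' i = - X z := by
      conv_rhs => rw [← hdual' (X z)]
      rw [← Finset.sum_neg_distrib]
      refine Finset.sum_congr rfl fun i _ => ?_
      have : q (X (b i)) z = - q (b i) (X z) := by linear_combination hX (b i) z
      rw [this, neg_smul]
    rw [h1, h2]
    module
  rw [hsum]
  exact L.smul_mem _ (L.sum_mem fun i _ => H.wed_all _ _)

end Pool.Agent.KS
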