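import Pool.Agent.KS.Defs

/-!
Module Grade. A space of operators stable under `ad B`, `B` diagonalisable, is graded.

Proof. Choose a basis of eigenvectors of `B` (`Basis.ofSpan`), eigenvalues `r i`. For `μ : ℂ` let
`p μ X` be the part of `X` with matrix entries `(i, j)`, `r i - r j = μ` (others replaced by `0`).
`p μ` is a polynomial in `ad B : X ↦ B * X - X * B` (Lagrange interpolation on the finite set of the
numbers `r i - r j`), so it preserves `L`; `ad B (p μ X) = μ • p μ X` and `X` is the sum of the
`p μ X`. (Alternatively: `ad B` is diagonalisable, so is its restriction to the stable subspace `L`: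
`Module.End.IsFinitelySemisimple`, or the sum of the eigenspaces intersected with `L`, see
`Submodule.iSup_eigenspace_inf...` / `Module.End.eigenspace_restrict...`.)
-/

namespace Pool.Agent.KS

open Module Matrix

/-- the bracket with `B` as a linear map -/
noncomputable def gradeAd {V : Type} [AddCommGroup V] [Module ℂ V] (B : Module.End ℂ V) :
    Module.End ℂ (Module.End ℂ V) := LinearMap.mulLeft ℂ B - LinearMap.mulRight ℂ B

lemma gradeAd_apply {V : Type} [AddCommGroup V] [Module ℂ V] (B X : Module.End ℂ V) :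
    gradeAd B X = B * X - X * B := rfl

/-- every operator is a combination of the matrix units of a basis -/
lemma grade_expand {V ι : Type} [AddCommGroup V] [Module ℂ V] [Fintype ι] [DecidableEq ι]
    (b : Basis ι ℂ V) (X : Module.End ℂ V) :
    X = ∑ j, ∑ i, b.repr (X (b j)) i • (b.coord j).smulRight (b i) := by
  apply b.ext
  intro k
  rw [LinearMap.sum_apply]
  have h1 : ∀ j ∈ Finset.univ, j ≠ k →
      (∑ i, b.repr (X (b j)) i • (b.coord j).smulRight (b i)) (b k) = 0 := by
    intro j _ hj
    rw [LinearMap.sum_apply]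
    refine Finset.sum_eq_zero fun i _ => ?_
    rw [LinearMap.smul_apply, LinearMap.smulRight_apply, Basis.coord_apply, Basis.repr_self,
      Finsupp.single_eq_of_ne (by tauto), zero_smul, smul_zero]
  rw [Finset.sum_eq_single k h1 (fun h => absurd (Finset.mem_univ k) h), LinearMap.sum_apply]
  have h2 : ∀ i, (b.repr (X (b k)) i • (b.coord k).smulRight (b i)) (b k)
      = b.repr (X (b k)) i • b i := by
    intro i
    rw [LinearMap.smul_apply, LinearMap.smulRight_apply, Basis.coord_apply, Basis.repr_self,
      Finsupp.single_eq_same, one_smul]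
  simp only [h2]
  exact (b.sum_repr (X (b k))).symm

/-- `ad B` is diagonalisable if `B` is. -/
lemma grade_top {V : Type} [AddCommGroup V] [Module ℂ V] [FiniteDimensional ℂ V]
    (B : Module.End ℂ V)
    (hBd : ∀ v : V, v ∈ Submodule.span ℂ {w | ∃ r : ℂ, B w = r • w}) :
    ⨆ μ : ℂ, (gradeAd B).genEigenspace μ 1 = ⊤ := by
  classical
  have hs : (⊤ : Submodule ℂ V) ≤ Submodule.span ℂ {w | ∃ r : ℂ, B w = r • w} :=
    fun v _ => hBd v
  set b := Basis.ofSpan hs with hb
  haveI : Fintype ((linearIndepOn_empty ℂ id).extend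
    (Set.empty_subset {w : V | ∃ r : ℂ, B w = r • w})) := FiniteDimensional.fintypeBasisIndex b
  have hev : ∀ i, ∃ r : ℂ, B (b i) = r • b i := by
    intro i
    have h := Basis.ofSpan_subset hs (Set.mem_range_self i)
    exact h
  choose r hr using hev
  rw [eq_top_iff]
  intro X _
  rw [grade_expand b X]
  refine Submodule.sum_mem _ fun j _ => Submodule.sum_mem _ fun i _ => Submodule.smul_mem _ _ ?_
  refine Submodule.mem_iSup_of_mem (r i - r j) ?_
  rw [Module.End.mem_genEigenspace_one, gradeAd_apply]
  apply b.ext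
  intro k
  have e : ∀ k', ((b.coord j).smulRight (b i)) (b k') = (if k' = j then (1 : ℂ) else 0) • b i := by
    intro k'
    rw [LinearMap.smulRight_apply, Basis.coord_apply, Basis.repr_self, Finsupp.single_apply]
  rw [LinearMap.sub_apply, Module.End.mul_apply, Module.End.mul_apply, LinearMap.smul_apply, hr k,
    map_smul, e k]
  by_cases hjk : k = j
  · subst hjk
    rw [if_pos rfl, one_smul, hr i, sub_smul]
  · rw [if_neg hjk, zero_smul, map_zero, smul_zero, smul_zero, sub_zero]

theorem grade {V : Type} [AddCommGroup V] [Module ℂ V] [FiniteDimensional ℂ V]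
    (L : Submodule ℂ (Module.End ℂ V)) (B : Module.End ℂ V)
    (hB : ∀ X ∈ L, B * X - X * B ∈ L)
    (hBd : ∀ v : V, v ∈ Submodule.span ℂ {w | ∃ r : ℂ, B w = r • w})
    (X : Module.End ℂ V) (hX : X ∈ L) :
    X ∈ Submodule.span ℂ {Y | Y ∈ L ∧ ∃ μ : ℂ, B * Y - Y * B = μ • Y} := by
  have h := Submodule.eq_iSup_inf_genEigenspace (p := L) (f := gradeAd B) 1
    (fun x hx => hB x hx) (grade_top B hBd)
  rw [h] at hX
  refine (iSup_le fun μ => ?_ : (⨆ μ : ℂ, L ⊓ (gradeAd B).genEigenspace μ 1) ≤ _) hX
  rintro Y ⟨hY1, hY2⟩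
  refine Submodule.subset_span ⟨hY1, μ, ?_⟩
  have h2 : Y ∈ (gradeAd B).genEigenspace μ 1 := hY2
  rw [Module.End.mem_genEigenspace_one, gradeAd_apply] at h2
  exact h2

end Pool.Agent.KS
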