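import Pool.Agent.KS.Defs
import Pool.Agent.KS.Grade

/-!
Module CaseB. `L` irreducible, stable under complex conjugation, containing
`B = wed e1 f1 + wed e2 f2`, with a definite complement.

Notation: `q = bil G`, `E1 = cx e1` etc. (real vectors of `ℂ^n`), `E` the span of `E1, E2`
(eigenvalue `1` of `B`), `E'` the span of `F1, F2` (eigenvalue `-1`), `T0` the orthogonal of `E + E'`
(eigenvalue `0`; `ℂ^n = E + T0 + E'`); on the real vectors of `T0` the form `G` is negative definite
(`hdef`).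

Proof. Let `L0 = {X ∈ L | ⁅B, X⁆ = 0}`; it preserves `E`, `T0`, `E'`.
(1) No line in `E` is stable under `L0`. Let `D` be such a line, `L1 = {X ∈ L | ⁅B, X⁆ = -X}`,
`L2 = {X ∈ L | ⁅B, X⁆ = -2 X}`. `ad B` has the eigenvalues `0, ±1, ±2` on skew operators, so `L` is
the sum of `L0` and the eigenspaces (explicit polynomials in `ad B`, or `KS.grade`). The subspace
`D + span (L1 D) + (span (L1 (L1 D)) + span (L2 D))` is stable under `L`: raising operators kill `D`
(eigenvalue `> 1`), and `R * X = X * R + ⁅R, X⁆` for `R` of degree `1` or `2` and `X ∈ L1, L2`, with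
`⁅R, X⁆ ∈ L` of smaller degree, and so on. Its intersection with `E` is `D`, it is neither zero nor
everything, a contradiction. (Other proof: by induction every product of elements of homogeneous
degree of `L` of total degree `0` applied to `D` lands in `D`; take the subspace spanned by all
products applied to `D`.)
(2) The image `A` of `L0` in `End E = M_2(ℂ)` is a Lie algebra without stable line, so it contains
all traceless matrices: let `A0` be the traceless parts; if `dim A0 ≤ 2` there is a common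
eigenvector (dimension `0`: clear; `1`: an eigenvector of a generator; `2`: `⁅A0, A0⁆` is spanned by
one `Z`; if `Z = 0` two commuting matrices have a common eigenvector; if `Z ≠ 0` then `⁅X, Z⁆ = λ Z`
for `X ∈ A0` and `λ ≠ 0` for some `X`, so `Z` is nilpotent and its kernel is a stable line); so
`A0 = sl_2` and `A ≥ ⁅A, A⁆ = ⁅A0, A0⁆ = sl_2`.
(3) So there is `H ∈ L0` with `H E1 = E1`, `H E2 = - E2`; replacing `H` by `(H + conj H) / 2` (`hconj`;
`E1, E2` are real) we may assume that `H` is real. By skewness `H F1 = - F1`, `H F2 = F2`, and `H`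
preserves `T0`. The eigenvalues of `H` on `T0` are purely imaginary: if `H z = ν z`, `z = x + i y`
with `x, y` real in `T0`, then `0 = q (H (star z)) z + q (star z) (H z) = (conj ν + ν) q (star z) z`
and `q (star z) z = G x x + G y y < 0`.
(4) There is `X ∈ L0` with `X E1 = 0`, `X E2 = E1`. `K = ad H` acts on the finite dimensional space
`L0`, which is the sum of its generalised eigenspaces (`Module.End.iSup_maxGenEigenspace_eq_top`);
write `X = ∑ X_μ`. The restriction to `E` is compatible with `ad` of `diag(1,-1)`, for which the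
matrix unit has eigenvalue `2`, so `X_2` restricted to `E` is the matrix unit (independence of
generalised eigenspaces). On `T0` the operator `X_2` is zero: it maps the generalised eigenspace of
`H|T0` of `ν` to the one of `ν + 2`, and `ν, ν + 2` cannot both be imaginary. So `X_2` is the operator
`E2 ↦ E1`, `F1 ↦ -F2`, `0` on `E1, F2, T0`, that is `wed E1 F2`; so `wed E1 F2 ∈ L`, in the same way
`wed E2 F1 ∈ L`, their bracket is `± (wed E1 F1 - wed E2 F2)`, so with `B` we get `wed E1 F1 ∈ L`.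
-/

set_option autoImplicit false

namespace Pool.Agent.KS

open Module Matrix

namespace CaseB

section gen

variable {V : Type} [AddCommGroup V] [Module ℂ V]

/-- two hyperbolic pairs -/
structure Fr (q : LinearMap.BilinForm ℂ V) (E1 E2 F1 F2 : V) : Prop where
  sym : ∀ x y, q x y = q y x
  e11 : q E1 E1 = 0
  e12 : q E1 E2 = 0
  e22 : q E2 E2 = 0
  f11 : q F1 F1 = 0
  f12 : q F1 F2 = 0
  f22 : q F2 F2 = 0
  m11 : q E1 F1 = 1
  m12 : q E1 F2 = 0
  m21 : q E2 F1 = 0
  m22 : q E2 F2 = 1

/-- the grading operator -/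
noncomputable def BB (q : LinearMap.BilinForm ℂ V) (E1 E2 F1 F2 : V) : Module.End ℂ V :=
  wed q E1 F1 + wed q E2 F2

/-- the projection on the span of `E1`, `E2` -/
noncomputable def Pp (q : LinearMap.BilinForm ℂ V) (E1 E2 F1 F2 : V) : Module.End ℂ V :=
  (q F1).smulRight E1 + (q F2).smulRight E2

variable {q : LinearMap.BilinForm ℂ V} {E1 E2 F1 F2 : V}

theorem BB_apply (z : V) : BB q E1 E2 F1 F2 z =
    q F1 z • E1 - q E1 z • F1 + (q F2 z • E2 - q E2 z • F2) := rfl

theorem Pp_apply (z : V) : Pp q E1 E2 F1 F2 z = q F1 z • E1 + q F2 z • E2 := rfl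

theorem Fr.swap (h : Fr q E1 E2 F1 F2) : Fr q E2 E1 F2 F1 where
  sym := h.sym
  e11 := h.e22
  e12 := by rw [h.sym]; exact h.e12
  e22 := h.e11
  f11 := h.f22
  f12 := by rw [h.sym]; exact h.f12
  f22 := h.f11
  m11 := h.m22
  m12 := h.m21
  m21 := h.m12
  m22 := h.m11

theorem Fr.e21 (h : Fr q E1 E2 F1 F2) : q E2 E1 = 0 := by rw [h.sym]; exact h.e12
theorem Fr.f21 (h : Fr q E1 E2 F1 F2) : q F2 F1 = 0 := by rw [h.sym]; exact h.f12
theorem Fr.n11 (h : Fr q E1 E2 F1 F2) : q F1 E1 = 1 := by rw [h.sym]; exact h.m11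
theorem Fr.n12 (h : Fr q E1 E2 F1 F2) : q F1 E2 = 0 := by rw [h.sym]; exact h.m21
theorem Fr.n21 (h : Fr q E1 E2 F1 F2) : q F2 E1 = 0 := by rw [h.sym]; exact h.m12
theorem Fr.n22 (h : Fr q E1 E2 F1 F2) : q F2 E2 = 1 := by rw [h.sym]; exact h.m22

theorem BB_E1 (h : Fr q E1 E2 F1 F2) : BB q E1 E2 F1 F2 E1 = E1 := by
  rw [BB_apply, h.n11, h.e11, h.n21, h.e21]; simp

theorem BB_E2 (h : Fr q E1 E2 F1 F2) : BB q E1 E2 F1 F2 E2 = E2 := by
  rw [BB_apply, h.n12, h.e12, h.n22, h.e22]; simp

theorem BB_F1 (h : Fr q E1 E2 F1 F2) : BB q E1 E2 F1 F2 F1 = -F1 := by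
  rw [BB_apply, h.f11, h.m11, h.f21, h.m21]; simp

theorem BB_F2 (h : Fr q E1 E2 F1 F2) : BB q E1 E2 F1 F2 F2 = -F2 := by
  rw [BB_apply, h.f12, h.m12, h.f22, h.m22]; simp

theorem BB_sq (h : Fr q E1 E2 F1 F2) (z : V) : BB q E1 E2 F1 F2 (BB q E1 E2 F1 F2 z) =
    q F1 z • E1 + q E1 z • F1 + (q F2 z • E2 + q E2 z • F2) := by
  conv_lhs => rw [BB_apply z]
  simp only [map_add, map_sub, map_smul, BB_E1 h, BB_E2 h, BB_F1 h, BB_F2 h]
  module

theorem BB_cube (h : Fr q E1 E2 F1 F2) (z : V) :
    BB q E1 E2 F1 F2 (BB q E1 E2 F1 F2 (BB q E1 E2 F1 F2 z)) = BB q E1 E2 F1 F2 z := by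
  conv_lhs => rw [BB_sq h z]
  simp only [map_add, map_smul, BB_E1 h, BB_E2 h, BB_F1 h, BB_F2 h]
  rw [BB_apply]
  module

theorem Pp_E1 (h : Fr q E1 E2 F1 F2) : Pp q E1 E2 F1 F2 E1 = E1 := by
  rw [Pp_apply, h.n11, h.n21]; simp

theorem Pp_E2 (h : Fr q E1 E2 F1 F2) : Pp q E1 E2 F1 F2 E2 = E2 := by
  rw [Pp_apply, h.n12, h.n22]; simp

theorem BB_Pp (h : Fr q E1 E2 F1 F2) (z : V) :
    BB q E1 E2 F1 F2 (Pp q E1 E2 F1 F2 z) = Pp q E1 E2 F1 F2 z := by
  rw [Pp_apply, map_add, map_smul, map_smul, BB_E1 h, BB_E2 h]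

theorem Pp_BB (h : Fr q E1 E2 F1 F2) (z : V) :
    Pp q E1 E2 F1 F2 (BB q E1 E2 F1 F2 z) = Pp q E1 E2 F1 F2 z := by
  rw [Pp_apply, Pp_apply, BB_apply]
  simp only [map_add, map_sub, map_smul, h.n11, h.n12, h.n21, h.n22, h.f11, h.f12, h.f21, h.f22,
    smul_eq_mul]
  module

theorem eq_Pp (h : Fr q E1 E2 F1 F2) {z : V} (hz : BB q E1 E2 F1 F2 z = z) :
    z = Pp q E1 E2 F1 F2 z := by
  have h1 := BB_sq h z
  rw [hz, hz] at h1
  have h2 := BB_apply (q := q) (E1 := E1) (E2 := E2) (F1 := F1) (F2 := F2) z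
  rw [hz] at h2
  have h3 : (2 : ℂ) • z = (2 : ℂ) • Pp q E1 E2 F1 F2 z := by
    have h4 : z + z = (q F1 z • E1 + q E1 z • F1 + (q F2 z • E2 + q E2 z • F2)) +
        (q F1 z • E1 - q E1 z • F1 + (q F2 z • E2 - q E2 z • F2)) := congrArg₂ (· + ·) h1 h2
    rw [Pp_apply, two_smul, h4]
    module
  exact smul_right_injective V (two_ne_zero) h3

theorem BB_zero (h : Fr q E1 E2 F1 F2) {z : V} (hz : BB q E1 E2 F1 F2 z = 0) :
    q E1 z = 0 ∧ q E2 z = 0 ∧ q F1 z = 0 ∧ q F2 z = 0 := by
  have h2 := BB_apply (q := q) (E1 := E1) (E2 := E2) (F1 := F1) (F2 := F2) z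
  rw [hz] at h2
  have k1 := congrArg (q E1) h2
  have k2 := congrArg (q E2) h2
  have k3 := congrArg (q F1) h2
  have k4 := congrArg (q F2) h2
  simp only [map_add, map_sub, map_smul, map_zero, smul_eq_mul, h.e11, h.e12, h.e21, h.e22, h.m11,
    h.m12, h.m21, h.m22, h.f11, h.f12, h.f21, h.f22, h.n11, h.n12, h.n21, h.n22] at k1 k2 k3 k4
  refine ⟨?_, ?_, ?_, ?_⟩
  · linear_combination k1
  · linear_combination k2
  · linear_combination -k3
  · linear_combination -k4

/-- `V` is spanned by eigenvectors of `B` -/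
theorem BB_span (h : Fr q E1 E2 F1 F2) (v : V) :
    v ∈ Submodule.span ℂ {w | ∃ r : ℂ, BB q E1 E2 F1 F2 w = r • w} := by
  set B := BB q E1 E2 F1 F2 with hBdef
  have h0 : v - B (B v) ∈ Submodule.span ℂ {w | ∃ r : ℂ, B w = r • w} := by
    apply Submodule.subset_span
    refine ⟨0, ?_⟩
    rw [map_sub, hBdef, BB_cube h, sub_self, zero_smul]
  have h1 : B (B v) + B v ∈ Submodule.span ℂ {w | ∃ r : ℂ, B w = r • w} := by
    apply Submodule.subset_span
    refine ⟨1, ?_⟩
    rw [map_add, hBdef, BB_cube h, one_smul, add_comm]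
  have h2 : B (B v) - B v ∈ Submodule.span ℂ {w | ∃ r : ℂ, B w = r • w} := by
    apply Submodule.subset_span
    refine ⟨-1, ?_⟩
    rw [map_sub, hBdef, BB_cube h]
    module
  have e : v = (v - B (B v)) + ((1 / 2 : ℂ) • (B (B v) + B v) + (1 / 2 : ℂ) • (B (B v) - B v)) := by
    module
  rw [e]
  exact Submodule.add_mem _ h0 (Submodule.add_mem _ (Submodule.smul_mem _ _ h1)
    (Submodule.smul_mem _ _ h2))

variable [FiniteDimensional ℂ V]

/-- no proper subspace of `E` is stable -/
theorem no_line (h : Fr q E1 E2 F1 F2) (L : Submodule ℂ (Module.End ℂ V))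
    (hbr : ∀ X ∈ L, ∀ Y ∈ L, X * Y - Y * X ∈ L)
    (hirr : ∀ W : Submodule ℂ V, (∀ X ∈ L, ∀ w ∈ W, X w ∈ W) → W = ⊥ ∨ W = ⊤)
    (hB : BB q E1 E2 F1 F2 ∈ L) (D : Submodule ℂ V) (hD0 : D ≠ ⊥)
    (hDE : ∀ d ∈ D, BB q E1 E2 F1 F2 d = d)
    (hDs : ∀ X ∈ L, BB q E1 E2 F1 F2 * X - X * BB q E1 E2 F1 F2 = 0 → ∀ d ∈ D, X d ∈ D) :
    E1 ∈ D ∧ E2 ∈ D := by
  set B := BB q E1 E2 F1 F2 with hBdef
  set P := Pp q E1 E2 F1 F2 with hPdef
  have hcube : ∀ z, B (B (B z)) = B z := fun z => BB_cube h z
  -- homogeneous elements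
  have hom : ∀ Y ∈ L, (∃ μ : ℂ, B * Y - Y * B = μ • Y) →
      (∀ d ∈ D, Y d ∈ D) ∨ (∀ v, P (Y v) = 0) := by
    rintro Y hY ⟨μ, hμ⟩
    have hYB : ∀ v, B (Y v) = Y (B v) + μ • Y v := by
      intro v
      have := LinearMap.congr_fun hμ v
      simp only [LinearMap.sub_apply, Module.End.mul_apply, LinearMap.smul_apply] at this
      rw [← this]; abel
    by_cases h0 : μ = 0
    · left
      exact hDs Y hY (by rw [hμ, h0, zero_smul])
    by_cases h1 : ∀ d ∈ D, Y d = 0
    · left
      intro d hd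
      rw [h1 d hd]; exact D.zero_mem
    right
    push Not at h1
    obtain ⟨d, hd, hYd⟩ := h1
    have e1 : B (Y d) = (1 + μ) • Y d := by
      rw [hYB, hDE d hd]; module
    have e2 := hcube (Y d)
    rw [e1, map_smul, e1, map_smul, map_smul, e1] at e2
    have e3 : ((1 + μ) * ((1 + μ) * (1 + μ)) - (1 + μ)) • Y d = 0 := by
      rw [sub_smul, mul_smul, mul_smul, e2, sub_self]
    have e4 := (smul_eq_zero.mp e3).resolve_right hYd
    have e5 : μ * ((1 + μ) * (μ + 2)) = 0 := by linear_combination e4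
    have e6 := (mul_eq_zero.mp e5).resolve_left h0
    -- `P Y (B + μ - 1) = 0`
    have g1 : ∀ v, P (Y (B v)) = (1 - μ) • P (Y v) := by
      intro v
      have k1 : P (B (Y v)) = P (Y v) := Pp_BB h (Y v)
      rw [hYB, map_add, map_smul] at k1
      rw [eq_sub_of_add_eq k1]
      module
    intro v
    have g2 := g1 (B (B v))
    rw [hcube, g1, g1, g1] at g2
    have g3 : ((1 - μ) * ((1 - μ) * (1 - μ)) - (1 - μ)) • P (Y v) = 0 := by
      rw [sub_smul, mul_smul, mul_smul, ← g2, sub_self]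
    refine (smul_eq_zero.mp g3).resolve_left ?_
    rcases mul_eq_zero.mp e6 with h2 | h2
    · have : μ = -1 := by linear_combination h2
      rw [this]; norm_num
    · have : μ = -2 := by linear_combination h2
      rw [this]; norm_num
  -- the filtration
  let S : ℕ → Submodule ℂ V := fun j => Nat.rec D
    (fun _ N => Submodule.span ℂ {y | ∃ X ∈ L, ∃ w ∈ N, y = X w}) j
  have hS0 : S 0 = D := rfl
  have hS1 : ∀ j, S (j + 1) = Submodule.span ℂ {y | ∃ X ∈ L, ∃ w ∈ S j, y = X w} := fun j => rfl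
  have hA : ∀ R ∈ L, (∀ d ∈ D, R d ∈ D) → ∀ j, ∀ w ∈ S j, R w ∈ S j := by
    intro R hR hRD j
    induction j with
    | zero => exact hRD
    | succ j ih =>
      intro w hw
      rw [hS1] at hw ⊢
      induction hw using Submodule.span_induction with
      | mem y hy =>
        obtain ⟨X, hX, w, hw, rfl⟩ := hy
        have e : R (X w) = X (R w) + (R * X - X * R) w := by
          simp only [LinearMap.sub_apply, Module.End.mul_apply]; abel
        rw [e]
        exact Submodule.add_mem _ (Submodule.subset_span ⟨X, hX, R w, ih w hw, rfl⟩)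
          (Submodule.subset_span ⟨_, hbr R hR X hX, w, hw, rfl⟩)
      | zero => rw [map_zero]; exact Submodule.zero_mem _
      | add x y _ _ hx hy => rw [map_add]; exact Submodule.add_mem _ hx hy
      | smul a x _ hx => rw [map_smul]; exact Submodule.smul_mem _ _ hx
  have hP : ∀ j, ∀ w ∈ S j, P w ∈ D := by
    intro j
    induction j with
    | zero =>
      intro w hw
      have : P w = w := (eq_Pp h (hDE w hw)).symm
      rw [this]; exact hw
    | succ j ih =>
      intro w hw
      rw [hS1] at hw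
      induction hw using Submodule.span_induction with
      | mem y hy =>
        obtain ⟨X, hX, w, hw, rfl⟩ := hy
        have hgr := grade L B (fun X hX => hbr B hB X hX) (BB_span h) X hX
        clear hX
        induction hgr using Submodule.span_induction with
        | mem Y hY =>
          rcases hom Y hY.1 hY.2 with h1 | h1
          · exact ih _ (hA Y hY.1 h1 j w hw)
          · rw [h1]; exact D.zero_mem
        | zero => simp
        | add X Y _ _ hX hY =>
          rw [LinearMap.add_apply, map_add]; exact D.add_mem hX hY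
        | smul a X _ hX =>
          rw [LinearMap.smul_apply, map_smul]; exact D.smul_mem _ hX
      | zero => rw [map_zero]; exact D.zero_mem
      | add x y _ _ hx hy => rw [map_add]; exact D.add_mem hx hy
      | smul a x _ hx => rw [map_smul]; exact D.smul_mem _ hx
  have hstab : ∀ X ∈ L, ∀ w ∈ (⨆ j, S j), X w ∈ ⨆ j, S j := by
    intro X hX w hw
    induction hw using Submodule.iSup_induction' with
    | mem j x hx =>
      have : X x ∈ S (j + 1) := Submodule.subset_span ⟨X, hX, x, hx, rfl⟩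
      exact (le_iSup S (j + 1)) this
    | zero => rw [map_zero]; exact Submodule.zero_mem _
    | add x y _ _ hx hy => rw [map_add]; exact Submodule.add_mem _ hx hy
  have hPU : ∀ w ∈ (⨆ j, S j), P w ∈ D := by
    intro w hw
    induction hw using Submodule.iSup_induction' with
    | mem j x hx => exact hP j x hx
    | zero => rw [map_zero]; exact D.zero_mem
    | add x y _ _ hx hy => rw [map_add]; exact D.add_mem hx hy
  rcases hirr _ hstab with h1 | h1
  · exfalso
    apply hD0
    rw [eq_bot_iff, ← h1]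
    exact le_iSup S 0
  · have m1 := hPU E1 (by rw [h1]; trivial)
    have m2 := hPU E2 (by rw [h1]; trivial)
    rw [hPdef, Pp_E1 h] at m1
    rw [hPdef, Pp_E2 h] at m2
    exact ⟨m1, m2⟩

end gen

/-! ### matrices of size two -/

theorem sl2 (A : Submodule ℂ (Matrix (Fin 2) (Fin 2) ℂ)) (h1 : (1 : Matrix (Fin 2) (Fin 2) ℂ) ∈ A)
    (hbr : ∀ X ∈ A, ∀ Y ∈ A, X * Y - Y * X ∈ A)
    (hno : ∀ v : Fin 2 → ℂ, v ≠ 0 → ∃ X ∈ A, ∀ c : ℂ, X *ᵥ v ≠ c • v) : A = ⊤ := by
  by_contra hne
  obtain ⟨f, hf0, hf⟩ := Submodule.exists_le_ker_of_lt_top A (lt_top_iff_ne_top.mpr hne)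
  have hfM : ∀ M : Matrix (Fin 2) (Fin 2) ℂ, f M = M 0 0 * f (Matrix.single 0 0 1) +
      M 0 1 * f (Matrix.single 0 1 1) + M 1 0 * f (Matrix.single 1 0 1) +
      M 1 1 * f (Matrix.single 1 1 1) := by
    intro M
    have e : M = M 0 0 • Matrix.single 0 0 1 + M 0 1 • Matrix.single 0 1 1 +
        M 1 0 • Matrix.single 1 0 1 + M 1 1 • Matrix.single 1 1 1 := by
      ext i j
      fin_cases i <;> fin_cases j <;> simp [Matrix.single]
    conv_lhs => rw [e]
    simp only [map_add, map_smul, smul_eq_mul]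
  set p := f (Matrix.single 0 0 1) with hp
  set qq := f (Matrix.single 0 1 1) with hqq
  set r := f (Matrix.single 1 0 1) with hr
  set s := f (Matrix.single 1 1 1) with hs
  have hA : ∀ M ∈ A, M 0 0 * p + M 0 1 * qq + M 1 0 * r + M 1 1 * s = 0 := by
    intro M hM
    rw [← hfM]; exact hf hM
  have hps : s = -p := by
    have := hA 1 h1
    simp at this
    linear_combination this
  have hpqr : ¬ (p = 0 ∧ qq = 0 ∧ r = 0) := by
    rintro ⟨k1, k2, k3⟩
    apply hf0
    ext M
    rw [hfM, hps, k1, k2, k3]; simp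
  have hA' : ∀ M ∈ A, p * (M 0 0 - M 1 1) + qq * M 0 1 + r * M 1 0 = 0 := by
    intro M hM
    have := hA M hM
    rw [hps] at this
    linear_combination this
  by_cases hdet : p ^ 2 + qq * r = 0
  · -- a common eigenvector in the kernel
    obtain ⟨v, hv0, hv⟩ : ∃ v : Fin 2 → ℂ, v ≠ 0 ∧ ∀ M ∈ A,
        v 0 * (M *ᵥ v) 1 = v 1 * (M *ᵥ v) 0 := by
      by_cases h2 : p = 0 ∧ qq = 0
      · refine ⟨![r, -p], ?_, ?_⟩
        · intro h3
          have := congrFun h3 0
          simp at this
          exact hpqr ⟨h2.1, h2.2, this⟩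
        · intro M hM
          have := hA' M hM
          simp [Matrix.mulVec, dotProduct, Fin.sum_univ_two]
          rw [h2.1]
          rw [h2.1, h2.2] at this
          linear_combination r * this
      · refine ⟨![p, qq], ?_, ?_⟩
        · intro h3
          have k0 := congrFun h3 0
          have k1 := congrFun h3 1
          simp at k0 k1
          exact h2 ⟨k0, k1⟩
        · intro M hM
          have := hA' M hM
          simp [Matrix.mulVec, dotProduct, Fin.sum_univ_two]
          linear_combination (-qq) * this + M 1 0 * hdet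
    obtain ⟨X, hX, hXv⟩ := hno v hv0
    by_cases h3 : v 0 = 0
    · have h4 : v 1 ≠ 0 := by
        intro h4
        apply hv0
        ext i; fin_cases i
        · exact h3
        · exact h4
      apply hXv ((X *ᵥ v) 1 / v 1)
      ext i
      fin_cases i
      · have := hv X hX
        rw [h3, zero_mul] at this
        have h5 := (mul_eq_zero.mp this.symm).resolve_left h4
        show (X *ᵥ v) 0 = _ * v 0
        rw [h5, h3, mul_zero]
      · show (X *ᵥ v) 1 = _ * v 1
        field_simp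
    · apply hXv ((X *ᵥ v) 0 / v 0)
      ext i
      fin_cases i
      · show (X *ᵥ v) 0 = _ * v 0
        field_simp
      · show (X *ᵥ v) 1 = _ * v 1
        have := hv X hX
        field_simp
        linear_combination this
  · -- all elements are proportional modulo scalars
    have hprop : ∀ M ∈ A, ∀ N ∈ A,
        M 0 1 * N 1 0 - N 0 1 * M 1 0 = 0 ∧
        (M 0 0 - M 1 1) * N 1 0 - (N 0 0 - N 1 1) * M 1 0 = 0 ∧
        (M 0 0 - M 1 1) * N 0 1 - (N 0 0 - N 1 1) * M 0 1 = 0 := by
      intro M hM N hN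
      have k1 := hA' M hM
      have k2 := hA' N hN
      have k3 := hA' _ (hbr M hM N hN)
      simp only [Matrix.sub_apply, Matrix.mul_apply, Fin.sum_univ_two] at k3
      set a := M 0 0 - M 1 1 with ha
      set a' := N 0 0 - N 1 1 with ha'
      set b := M 0 1
      set b' := N 0 1
      set c := M 1 0
      set c' := N 1 0
      -- cross product
      have k3' : 2 * p * (b * c' - b' * c) + qq * (a * b' - a' * b) - r * (a * c' - a' * c) = 0 := by
        rw [ha, ha']
        linear_combination k3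
      -- the plane relations
      have l1 : p * (a * b' - a' * b) = r * (b * c' - b' * c) := by
        linear_combination b' * k1 - b * k2
      have l2 : p * (a * c' - a' * c) = - qq * (b * c' - b' * c) := by
        linear_combination c' * k1 - c * k2
      have l3 : qq * (a * b' - a' * b) = - r * (a * c' - a' * c) := by
        linear_combination a * k2 - a' * k1
      have m1 : (p ^ 2 + qq * r) * (b * c' - b' * c) = 0 := by
        linear_combination (p / 2) * k3' - (qq / 2) * l1 + (r / 2) * l2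
      have m2 : (b * c' - b' * c) = 0 := (mul_eq_zero.mp m1).resolve_left hdet
      rw [m2] at l1 l2 k3'
      have m3 : (p ^ 2 + qq * r) * (a * c' - a' * c) = 0 := by
        linear_combination p * l2 - (qq / 2) * k3' + (qq / 2) * l3
      have m4 : (p ^ 2 + qq * r) * (a * b' - a' * b) = 0 := by
        linear_combination p * l1 + (r / 2) * k3' + (r / 2) * l3
      exact ⟨m2, (mul_eq_zero.mp m3).resolve_left hdet, (mul_eq_zero.mp m4).resolve_left hdet⟩
    by_cases hsc : ∃ M ∈ A, ¬ (M 0 0 - M 1 1 = 0 ∧ M 0 1 = 0 ∧ M 1 0 = 0)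
    · obtain ⟨M, hM, hM0⟩ := hsc
      obtain ⟨μ, hμ⟩ := Module.End.exists_eigenvalue (Matrix.toLin' M)
      obtain ⟨v, hv⟩ := hμ.exists_hasEigenvector
      have hv0 := hv.2
      have hvM : M *ᵥ v = μ • v := by
        have := hv.apply_eq_smul
        rwa [Matrix.toLin'_apply] at this
      obtain ⟨X, hX, hXv⟩ := hno v hv0
      obtain ⟨k1, k2, k3⟩ := hprop M hM X hX
      have u0 := congrFun hvM 0
      have u1 := congrFun hvM 1
      simp only [Matrix.mulVec, dotProduct, Fin.sum_univ_two, Pi.smul_apply, smul_eq_mul] at u0 u1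
      -- `X = t M + scalar`
      obtain ⟨t, t1, t2, t3⟩ : ∃ t : ℂ, X 0 1 = t * M 0 1 ∧ X 1 0 = t * M 1 0 ∧
          X 0 0 - X 1 1 = t * (M 0 0 - M 1 1) := by
        by_cases c1 : M 0 1 = 0
        · by_cases c2 : M 1 0 = 0
          · have c3 : M 0 0 - M 1 1 ≠ 0 := fun c3 => hM0 ⟨c3, c1, c2⟩
            refine ⟨(X 0 0 - X 1 1) / (M 0 0 - M 1 1), ?_, ?_, ?_⟩
            · rw [c1, mul_zero]
              rw [c1, mul_zero, sub_zero] at k3
              exact (mul_eq_zero.mp k3).resolve_left c3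
            · rw [c2, mul_zero]
              rw [c2, mul_zero, sub_zero] at k2
              exact (mul_eq_zero.mp k2).resolve_left c3
            · field_simp
          · refine ⟨X 1 0 / M 1 0, ?_, ?_, ?_⟩
            · field_simp
              linear_combination -k1
            · field_simp
            · field_simp
              linear_combination -k2
        · refine ⟨X 0 1 / M 0 1, ?_, ?_, ?_⟩
          · field_simp
          · field_simp
            linear_combination k1
          · field_simp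
            linear_combination -k3
      apply hXv (t * μ + (X 0 0 - t * M 0 0))
      ext i
      fin_cases i
      · simp only [Matrix.mulVec, dotProduct, Fin.sum_univ_two, Pi.smul_apply, smul_eq_mul,
          Fin.zero_eta, Fin.isValue]
        linear_combination v 1 * t1 + t * u0
      · simp only [Matrix.mulVec, dotProduct, Fin.sum_univ_two, Pi.smul_apply, smul_eq_mul,
          Fin.mk_one, Fin.isValue]
        linear_combination v 0 * t2 + t * u1 - v 1 * t3
    · push Not at hsc
      obtain ⟨X, hX, hXv⟩ := hno (fun _ => 1) (by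
        intro h
        have := congrFun h 0
        simp at this)
      obtain ⟨k1, k2, k3⟩ := hsc X hX
      apply hXv (X 0 0)
      ext i
      fin_cases i
      · simp [Matrix.mulVec, dotProduct, Fin.sum_univ_two, k2]
      · simp [Matrix.mulVec, dotProduct, Fin.sum_univ_two, k3]
        linear_combination -k1

section gen2

variable {V : Type} [AddCommGroup V] [Module ℂ V]
variable {q : LinearMap.BilinForm ℂ V} {E1 E2 F1 F2 : V}

/-- an injective operator on a stable subspace is surjective on it -/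
theorem surj_of_inj {M : Type} [AddCommGroup M] [Module ℂ M] [FiniteDimensional ℂ M]
    (T : Module.End ℂ M) (N : Submodule ℂ M) (hT : ∀ x ∈ N, T x ∈ N)
    (hinj : ∀ x ∈ N, T x = 0 → x = 0) (y : M) (hy : y ∈ N) : ∃ x ∈ N, T x = y := by
  have h1 : Function.Injective (T.restrict hT) := by
    rw [← LinearMap.ker_eq_bot, LinearMap.ker_eq_bot']
    intro x hx
    have : T x = 0 := congrArg Subtype.val hx
    exact Subtype.ext (hinj x x.2 this)
  obtain ⟨x, hx⟩ := LinearMap.injective_iff_surjective.mp h1 ⟨y, hy⟩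
  exact ⟨x, x.2, congrArg Subtype.val hx⟩

variable [FiniteDimensional ℂ V]

/-- the operators commuting with `B` induce everything on `E` -/
theorem surj (h : Fr q E1 E2 F1 F2) (L : Submodule ℂ (Module.End ℂ V))
    (hbr : ∀ X ∈ L, ∀ Y ∈ L, X * Y - Y * X ∈ L)
    (hirr : ∀ W : Submodule ℂ V, (∀ X ∈ L, ∀ w ∈ W, X w ∈ W) → W = ⊥ ∨ W = ⊤)
    (hB : BB q E1 E2 F1 F2 ∈ L) (a b c d : ℂ) :
    ∃ X ∈ L, BB q E1 E2 F1 F2 * X - X * BB q E1 E2 F1 F2 = 0 ∧ X E1 = a • E1 + c • E2 ∧
      X E2 = b • E1 + d • E2 := by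
  set B := BB q E1 E2 F1 F2 with hBdef
  have hE : ∀ X : Module.End ℂ V, B * X - X * B = 0 → ∀ v, B v = v →
      X v = q F1 (X v) • E1 + q F2 (X v) • E2 := by
    intro X hX v hv
    have h1 : B (X v) = X v := by
      have := LinearMap.congr_fun hX v
      simp only [LinearMap.sub_apply, Module.End.mul_apply, LinearMap.zero_apply, hv] at this
      exact sub_eq_zero.mp this
    exact eq_Pp h h1
  have hBE1 : B E1 = E1 := BB_E1 h
  have hBE2 : B E2 = E2 := BB_E2 h
  -- the image of `L0` in matrices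
  let Φ : Module.End ℂ V →ₗ[ℂ] Matrix (Fin 2) (Fin 2) ℂ :=
    { toFun := fun X => !![q F1 (X E1), q F1 (X E2); q F2 (X E1), q F2 (X E2)]
      map_add' := by
        intro X Y
        ext i j
        fin_cases i <;> fin_cases j <;> simp
      map_smul' := by
        intro r X
        ext i j
        fin_cases i <;> fin_cases j <;> simp }
  have hΦ : ∀ X, Φ X = !![q F1 (X E1), q F1 (X E2); q F2 (X E1), q F2 (X E2)] := fun X => rfl
  let L0 : Submodule ℂ (Module.End ℂ V) :=
    { carrier := {X | X ∈ L ∧ B * X - X * B = 0}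
      add_mem' := by
        rintro X Y ⟨h1, h2⟩ ⟨h3, h4⟩
        refine ⟨L.add_mem h1 h3, ?_⟩
        have : B * (X + Y) - (X + Y) * B = (B * X - X * B) + (B * Y - Y * B) := by noncomm_ring
        rw [this, h2, h4, add_zero]
      zero_mem' := ⟨L.zero_mem, by simp⟩
      smul_mem' := by
        rintro r X ⟨h1, h2⟩
        refine ⟨L.smul_mem r h1, ?_⟩
        rw [mul_smul_comm, smul_mul_assoc, ← smul_sub, h2, smul_zero] }
  have hmem0 : ∀ X, X ∈ L0 ↔ X ∈ L ∧ B * X - X * B = 0 := fun X => Iff.rfl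
  have hX1 : ∀ X ∈ L0, X E1 = Φ X 0 0 • E1 + Φ X 1 0 • E2 := fun X hX => hE X hX.2 E1 hBE1
  have hX2 : ∀ X ∈ L0, X E2 = Φ X 0 1 • E1 + Φ X 1 1 • E2 := fun X hX => hE X hX.2 E2 hBE2
  have htop : L0.map Φ = ⊤ := by
    apply sl2
    · refine ⟨B, ⟨hB, sub_self _⟩, ?_⟩
      rw [hΦ, hBE1, hBE2, h.n11, h.n12, h.n21, h.n22]
      ext i j
      fin_cases i <;> fin_cases j <;> simp
    · rintro _ ⟨X, hX, rfl⟩ _ ⟨Y, hY, rfl⟩
      refine ⟨X * Y - Y * X, ⟨hbr X hX.1 Y hY.1, ?_⟩, ?_⟩
      · have e : B * (X * Y - Y * X) - (X * Y - Y * X) * B =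
            (B * X - X * B) * Y + X * (B * Y - Y * B) - ((B * Y - Y * B) * X +
              Y * (B * X - X * B)) := by noncomm_ring
        rw [e, hX.2, hY.2]; simp
      · have a1 : (X * Y) E1 = Φ Y 0 0 • X E1 + Φ Y 1 0 • X E2 := by
          rw [Module.End.mul_apply, hX1 Y hY, map_add, map_smul, map_smul]
        have a2 : (X * Y) E2 = Φ Y 0 1 • X E1 + Φ Y 1 1 • X E2 := by
          rw [Module.End.mul_apply, hX2 Y hY, map_add, map_smul, map_smul]
        have a3 : (Y * X) E1 = Φ X 0 0 • Y E1 + Φ X 1 0 • Y E2 := by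
          rw [Module.End.mul_apply, hX1 X hX, map_add, map_smul, map_smul]
        have a4 : (Y * X) E2 = Φ X 0 1 • Y E1 + Φ X 1 1 • Y E2 := by
          rw [Module.End.mul_apply, hX2 X hX, map_add, map_smul, map_smul]
        have b1 : ∀ Z : Module.End ℂ V, q F1 (Z E1) = Φ Z 0 0 := fun Z => rfl
        have b2 : ∀ Z : Module.End ℂ V, q F1 (Z E2) = Φ Z 0 1 := fun Z => rfl
        have b3 : ∀ Z : Module.End ℂ V, q F2 (Z E1) = Φ Z 1 0 := fun Z => rfl
        have b4 : ∀ Z : Module.End ℂ V, q F2 (Z E2) = Φ Z 1 1 := fun Z => rfl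
        ext i j
        rw [Matrix.sub_apply, Matrix.mul_apply, Matrix.mul_apply, Fin.sum_univ_two,
          Fin.sum_univ_two]
        fin_cases i <;> fin_cases j
        · show q F1 ((X * Y - Y * X) E1) = _
          rw [LinearMap.sub_apply, a1, a3]
          simp only [map_add, map_sub, map_smul, smul_eq_mul, b1, b2, b3, b4, Fin.zero_eta,
            Fin.mk_one, Fin.isValue]
          ring
        · show q F1 ((X * Y - Y * X) E2) = _
          rw [LinearMap.sub_apply, a2, a4]
          simp only [map_add, map_sub, map_smul, smul_eq_mul, b1, b2, b3, b4, Fin.zero_eta,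
            Fin.mk_one, Fin.isValue]
          ring
        · show q F2 ((X * Y - Y * X) E1) = _
          rw [LinearMap.sub_apply, a1, a3]
          simp only [map_add, map_sub, map_smul, smul_eq_mul, b1, b2, b3, b4, Fin.zero_eta,
            Fin.mk_one, Fin.isValue]
          ring
        · show q F2 ((X * Y - Y * X) E2) = _
          rw [LinearMap.sub_apply, a2, a4]
          simp only [map_add, map_sub, map_smul, smul_eq_mul, b1, b2, b3, b4, Fin.zero_eta,
            Fin.mk_one, Fin.isValue]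
          ring
    · -- no common eigenvector
      intro v hv
      by_contra hcon
      push Not at hcon
      set w : V := v 0 • E1 + v 1 • E2 with hw
      have hw0 : w ≠ 0 := by
        intro h0
        apply hv
        have k1 := congrArg (q F1) h0
        have k2 := congrArg (q F2) h0
        rw [hw] at k1 k2
        simp only [map_add, map_smul, smul_eq_mul, h.n11, h.n12, h.n21, h.n22, map_zero] at k1 k2
        ext i
        fin_cases i
        · show v 0 = 0
          linear_combination k1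
        · show v 1 = 0
          linear_combination k2
      have hBw : B w = w := by rw [hw, map_add, map_smul, map_smul, hBE1, hBE2]
      obtain ⟨m1, m2⟩ := no_line h L hbr hirr hB (Submodule.span ℂ {w})
        (by rw [Ne, Submodule.span_singleton_eq_bot]; exact hw0)
        (by
          intro d hd
          obtain ⟨r, rfl⟩ := Submodule.mem_span_singleton.mp hd
          rw [map_smul]
          show r • B w = r • w
          rw [hBw])
        (by
          intro X hX hXB d hd
          obtain ⟨r, rfl⟩ := Submodule.mem_span_singleton.mp hd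
          have hX0 : X ∈ L0 := ⟨hX, hXB⟩
          obtain ⟨t, ht⟩ := hcon (Φ X) ⟨X, hX0, rfl⟩
          have u0 := congrFun ht 0
          have u1 := congrFun ht 1
          simp only [Matrix.mulVec, dotProduct, Fin.sum_univ_two, Pi.smul_apply, smul_eq_mul]
            at u0 u1
          rw [map_smul]
          apply Submodule.smul_mem
          rw [Submodule.mem_span_singleton]
          refine ⟨t, ?_⟩
          rw [hw, map_add, map_smul, map_smul, hX1 X hX0, hX2 X hX0]
          have e1 : v 0 • (Φ X 0 0 • E1 + Φ X 1 0 • E2) + v 1 • (Φ X 0 1 • E1 + Φ X 1 1 • E2) =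
              (Φ X 0 0 * v 0 + Φ X 0 1 * v 1) • E1 + (Φ X 1 0 * v 0 + Φ X 1 1 * v 1) • E2 := by
            module
          rw [e1, u0, u1]
          module)
      obtain ⟨r, hr⟩ := Submodule.mem_span_singleton.mp m1
      obtain ⟨r', hr'⟩ := Submodule.mem_span_singleton.mp m2
      have k1 := congrArg (q F1) hr
      have k2 := congrArg (q F2) hr
      have k3 := congrArg (q F1) hr'
      have k4 := congrArg (q F2) hr'
      rw [hw] at k1 k2 k3 k4
      simp only [map_add, map_smul, smul_eq_mul, h.n11, h.n12, h.n21, h.n22] at k1 k2 k3 k4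
      have z1 : r * v 0 = 1 := by linear_combination k1
      have z2 : r * v 1 = 0 := by linear_combination k2
      have z3 : r' * v 0 = 0 := by linear_combination k3
      have z4 : r' * v 1 = 1 := by linear_combination k4
      have : (1 : ℂ) = 0 := by
        linear_combination (-(r' * v 1)) * z1 - z4 + (r' * v 0) * z2
      exact one_ne_zero this
  have hmem : !![a, b; c, d] ∈ L0.map Φ := by rw [htop]; trivial
  obtain ⟨X, hX, hXΦ⟩ := hmem
  refine ⟨X, hX.1, hX.2, ?_, ?_⟩
  · rw [hX1 X hX, hXΦ]; simp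
  · rw [hX2 X hX, hXΦ]; simp

/-- the matrix unit is in `L` -/
theorem unit_mem (h : Fr q E1 E2 F1 F2) (L : Submodule ℂ (Module.End ℂ V))
    (hbr : ∀ X ∈ L, ∀ Y ∈ L, X * Y - Y * X ∈ L)
    (hsk : ∀ X ∈ L, ∀ u v, q (X u) v + q u (X v) = 0)
    (H : Module.End ℂ V) (hH : H ∈ L)
    (hHB : BB q E1 E2 F1 F2 * H - H * BB q E1 E2 F1 F2 = 0)
    (hE1 : H E1 = E1) (hE2 : H E2 = -E2) (hF1 : H F1 = -F1) (hF2 : H F2 = F2)
    (hev : ∀ z, BB q E1 E2 F1 F2 z = 0 → z ≠ 0 → ∀ ν : ℂ, H z = ν • z → ν.re = 0)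
    (X : Module.End ℂ V) (hX : X ∈ L)
    (hXB : BB q E1 E2 F1 F2 * X - X * BB q E1 E2 F1 F2 = 0)
    (hX1 : X E1 = 0) (hX2 : X E2 = E1) : wed q E1 F2 ∈ L := by
  set B := BB q E1 E2 F1 F2 with hBdef
  set U := wed q E1 F2 with hU
  have hUa : ∀ z, U z = q F2 z • E1 - q E1 z • F2 := fun z => rfl
  have hcube : ∀ z, B (B (B z)) = B z := fun z => BB_cube h z
  have comm : ∀ Y : Module.End ℂ V, B * Y - Y * B = 0 → ∀ z, B (Y z) = Y (B z) := by
    intro Y hY z
    have := LinearMap.congr_fun hY z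
    simp only [LinearMap.sub_apply, Module.End.mul_apply, LinearMap.zero_apply] at this
    exact sub_eq_zero.mp this
  have hXBz := comm X hXB
  have hHBz := comm H hHB
  -- values of `X` on `F1`, `F2`
  have hneg : ∀ z, B z = -z → z = q E1 z • F1 + q E2 z • F2 := by
    intro z hz
    have h1 := BB_apply (q := q) (E1 := E1) (E2 := E2) (F1 := F1) (F2 := F2) z
    rw [← hBdef, hz] at h1
    have h2 := BB_sq h z
    rw [← hBdef, hz, map_neg, hz, neg_neg] at h2
    have h3 : (2 : ℂ) • z = (2 : ℂ) • (q E1 z • F1 + q E2 z • F2) := by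
      have h4 : z - (-z) = (q F1 z • E1 + q E1 z • F1 + (q F2 z • E2 + q E2 z • F2)) -
        (q F1 z • E1 - q E1 z • F1 + (q F2 z • E2 - q E2 z • F2)) := congrArg₂ (· - ·) h2 h1
      rw [sub_neg_eq_add] at h4
      rw [two_smul, h4]
      module
    exact smul_right_injective V (two_ne_zero) h3
  have hXF1 : X F1 = -F2 := by
    have h1 : B (X F1) = -(X F1) := by rw [hXBz, hBdef, BB_F1 h, map_neg]
    rw [hneg _ h1]
    have k1 := hsk X hX E1 F1
    have k2 := hsk X hX E2 F1
    rw [hX1, map_zero, LinearMap.zero_apply, zero_add] at k1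
    rw [hX2, h.m11] at k2
    have k3 : q E2 (X F1) = -1 := by linear_combination k2
    rw [k1, k3]; simp
  have hXF2 : X F2 = 0 := by
    have h1 : B (X F2) = -(X F2) := by rw [hXBz, hBdef, BB_F2 h, map_neg]
    rw [hneg _ h1]
    have k1 := hsk X hX E1 F2
    have k2 := hsk X hX E2 F2
    rw [hX1, map_zero, LinearMap.zero_apply, zero_add] at k1
    rw [hX2, h.m12, zero_add] at k2
    rw [k1, k2]; simp
  -- the operators of `T0`
  let N : Submodule ℂ (Module.End ℂ V) :=
    { carrier := {Y | Y E1 = 0 ∧ Y E2 = 0 ∧ Y F1 = 0 ∧ Y F2 = 0 ∧ ∀ z, B (Y z) = 0}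
      add_mem' := by
        rintro Y Y' ⟨h1, h2, h3, h4, h5⟩ ⟨k1, k2, k3, k4, k5⟩
        refine ⟨?_, ?_, ?_, ?_, ?_⟩
        · rw [LinearMap.add_apply, h1, k1, add_zero]
        · rw [LinearMap.add_apply, h2, k2, add_zero]
        · rw [LinearMap.add_apply, h3, k3, add_zero]
        · rw [LinearMap.add_apply, h4, k4, add_zero]
        · intro z; rw [LinearMap.add_apply, map_add, h5, k5, add_zero]
      zero_mem' := by
        refine ⟨rfl, rfl, rfl, rfl, fun z => ?_⟩
        rw [LinearMap.zero_apply, map_zero]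
      smul_mem' := by
        rintro r Y ⟨h1, h2, h3, h4, h5⟩
        refine ⟨?_, ?_, ?_, ?_, ?_⟩
        · rw [LinearMap.smul_apply, h1, smul_zero]
        · rw [LinearMap.smul_apply, h2, smul_zero]
        · rw [LinearMap.smul_apply, h3, smul_zero]
        · rw [LinearMap.smul_apply, h4, smul_zero]
        · intro z; rw [LinearMap.smul_apply, map_smul, h5, smul_zero] }
  have hYB : ∀ Y ∈ N, ∀ z, Y (B z) = 0 := by
    rintro Y ⟨h1, h2, h3, h4, -⟩ z
    rw [hBdef, BB_apply]
    simp only [map_add, map_sub, map_smul, h1, h2, h3, h4, smul_zero, sub_zero, add_zero]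
  -- `ad H - 2`
  let K : Module.End ℂ (Module.End ℂ V) :=
    LinearMap.mulLeft ℂ H - LinearMap.mulRight ℂ H - (2 : ℂ) • LinearMap.id
  have hK : ∀ Y, K Y = H * Y - Y * H - (2 : ℂ) • Y := fun Y => rfl
  have hKN : ∀ Y ∈ N, K Y ∈ N := by
    rintro Y ⟨h1, h2, h3, h4, h5⟩
    have hKz : ∀ z, K Y z = H (Y z) - Y (H z) - (2 : ℂ) • Y z := fun z => rfl
    refine ⟨?_, ?_, ?_, ?_, ?_⟩
    · rw [hKz, hE1, h1]; simp
    · rw [hKz, hE2, map_neg, h2]; simp
    · rw [hKz, hF1, map_neg, h3]; simp
    · rw [hKz, hF2, h4]; simp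
    · intro z
      rw [hKz, map_sub, map_sub, map_smul, hHBz]
      simp [h5]
  have hKinj : ∀ Y ∈ N, K Y = 0 → Y = 0 := by
    intro Y hY hKY
    obtain ⟨h1, h2, h3, h4, h5⟩ := hY
    have hYBz := hYB Y ⟨h1, h2, h3, h4, h5⟩
    have hHY : ∀ z, H (Y z) = Y (H z) + (2 : ℂ) • Y z := by
      intro z
      have := LinearMap.congr_fun hKY z
      have h6 : K Y z = H (Y z) - Y (H z) - (2 : ℂ) • Y z := rfl
      rw [h6, LinearMap.zero_apply, sub_sub, sub_eq_zero] at this
      exact this
    by_contra hY0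
    have hR : ∀ x ∈ LinearMap.range Y, H x ∈ LinearMap.range Y := by
      rintro _ ⟨z, rfl⟩
      exact ⟨H z + (2 : ℂ) • z, by rw [map_add, map_smul, hHY]⟩
    have hRne : LinearMap.range Y ≠ ⊥ := by
      rw [Ne, LinearMap.range_eq_bot]; exact hY0
    have : Nontrivial (LinearMap.range Y) := (Submodule.nontrivial_iff_ne_bot).mpr hRne
    obtain ⟨ν, hν⟩ := Module.End.exists_eigenvalue (H.restrict hR)
    obtain ⟨⟨z, hz⟩, hzν⟩ := hν.exists_hasEigenvector
    have hz0 : z ≠ 0 := fun h0 => hzν.2 (Subtype.ext h0)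
    have hHz : H z = ν • z := congrArg Subtype.val hzν.apply_eq_smul
    obtain ⟨v, rfl⟩ := hz
    have hνre : ν.re = 0 := hev _ (h5 v) hz0 ν hHz
    -- `v0`
    set v0 := v - B (B v) with hv0
    have hYv0 : Y v0 = Y v := by rw [hv0, map_sub, hYBz, sub_zero]
    have hBv0 : B v0 = 0 := by rw [hv0, map_sub, hcube, sub_self]
    let T : Module.End ℂ V := H + (2 - ν) • LinearMap.id
    have hT : ∀ u, T u = H u + (2 - ν) • u := fun u => rfl
    let N0 : Submodule ℂ V := LinearMap.ker Y ⊓ LinearMap.ker B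
    have hTinj : ∀ u, B u = 0 → T u = 0 → u = 0 := by
      intro u hu hTu
      by_contra hu0
      have h6 : H u = (ν - 2) • u := by
        rw [hT] at hTu
        rw [eq_neg_of_add_eq_zero_left hTu]; module
      have := hev u hu hu0 _ h6
      rw [Complex.sub_re, hνre] at this
      norm_num at this
    obtain ⟨w, hw, hTw⟩ := surj_of_inj T N0
      (by
        rintro x ⟨hx1, hx2⟩
        have hx1' : Y x = 0 := hx1
        have hx2' : B x = 0 := hx2
        refine ⟨?_, ?_⟩
        · show Y (T x) = 0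
          have := hHY x
          rw [hx1', map_zero, smul_zero, add_zero] at this
          rw [hT, map_add, map_smul, ← this, hx1', smul_zero, add_zero]
        · show B (T x) = 0
          rw [hT, map_add, map_smul, hHBz, hx2', map_zero, smul_zero, add_zero])
      (fun x hx hTx => hTinj x hx.2 hTx) (T v0)
      (by
        refine ⟨?_, ?_⟩
        · show Y (T v0) = 0
          have h7 := hHY v0
          rw [hYv0, hHz] at h7
          rw [hT, map_add, map_smul, hYv0, eq_sub_of_add_eq h7.symm]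
          module
        · show B (T v0) = 0
          rw [hT, map_add, map_smul, hHBz, hBv0, map_zero, smul_zero, add_zero])
    have h8 : T (w - v0) = 0 := by rw [map_sub, hTw, sub_self]
    have h9 : B (w - v0) = 0 := by
      rw [map_sub, hBv0, sub_zero]; exact hw.2
    have h10 := hTinj _ h9 h8
    have h11 : Y v0 = 0 := by
      rw [← sub_eq_zero.mp h10]; exact hw.1
    rw [hYv0] at h11
    exact hz0 h11
  -- `X - U` is in `N`
  have hXU : X - U ∈ N := by
    have g1 : (X - U) E1 = 0 := by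
      rw [LinearMap.sub_apply, hUa, hX1, h.n21, h.e11]; simp
    have g2 : (X - U) E2 = 0 := by
      rw [LinearMap.sub_apply, hUa, hX2, h.n22, h.e12]; simp
    have g3 : (X - U) F1 = 0 := by
      rw [LinearMap.sub_apply, hUa, hXF1, h.f21, h.m11]; simp
    have g4 : (X - U) F2 = 0 := by
      rw [LinearMap.sub_apply, hUa, hXF2, h.f22, h.m12]; simp
    refine ⟨g1, g2, g3, g4, ?_⟩
    intro z
    have hUB : B (U z) = U (B z) := by
      rw [hUa, map_sub, map_smul, map_smul, hBdef, BB_E1 h, BB_F2 h, hUa, BB_apply]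
      simp only [map_add, map_sub, map_smul, smul_eq_mul, h.n11, h.n12, h.n21, h.n22, h.f11,
        h.f12, h.f21, h.f22, h.e11, h.e12, h.e21, h.e22, h.m11, h.m12, h.m21, h.m22]
      module
    rw [LinearMap.sub_apply, map_sub, hXBz, hUB, ← LinearMap.sub_apply, hBdef, BB_apply]
    simp only [map_add, map_sub, map_smul, g1, g2, g3, g4, smul_zero, sub_zero, add_zero]
  have hKU : K U = 0 := by
    have k1 : ∀ z, q F2 (H z) = - q F2 z := by
      intro z
      have := hsk H hH F2 z
      rw [hF2] at this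
      linear_combination this
    have k2 : ∀ z, q E1 (H z) = - q E1 z := by
      intro z
      have := hsk H hH E1 z
      rw [hE1] at this
      linear_combination this
    apply LinearMap.ext
    intro z
    have h6 : K U z = H (U z) - U (H z) - (2 : ℂ) • U z := rfl
    rw [h6, hUa, hUa, map_sub, map_smul, map_smul, hE1, hF2, k1, k2, LinearMap.zero_apply]
    module
  have hKX : K (X - U) ∈ L ⊓ N := by
    refine ⟨?_, hKN _ hXU⟩
    have : K (X - U) = (H * X - X * H) - (2 : ℂ) • X := by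
      rw [map_sub, hKU, sub_zero, hK]
    rw [this]
    exact L.sub_mem (hbr H hH X hX) (L.smul_mem _ hX)
  obtain ⟨Y, hY, hYK⟩ := surj_of_inj K (L ⊓ N)
    (by
      rintro Y ⟨h1, h2⟩
      refine ⟨?_, hKN Y h2⟩
      rw [hK]
      exact L.sub_mem (hbr H hH Y h1) (L.smul_mem _ h1))
    (fun Y hY h0 => hKinj Y hY.2 h0) _ hKX
  have h12 : Y - (X - U) = 0 := by
    apply hKinj _ (N.sub_mem hY.2 hXU)
    rw [map_sub, hYK, sub_self]
  have h13 : U = X - Y := by
    have := sub_eq_zero.mp h12
    rw [this]; abel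
  rw [h13]
  exact L.sub_mem hX hY.1

end gen2

end CaseB

theorem caseB {n : ℕ} (G : Matrix (Fin n) (Fin n) ℝ) (hG : Gᵀ = G)
    (hnd : (bil G).Nondegenerate) (L : Submodule ℂ (Module.End ℂ (Fin n → ℂ)))
    (hbr : ∀ X ∈ L, ∀ Y ∈ L, X * Y - Y * X ∈ L)
    (hsk : ∀ X ∈ L, ∀ u v, bil G (X u) v + bil G u (X v) = 0)
    (hconj : ∀ X ∈ L, ∃ X' ∈ L, ∀ v, X' v = star (X (star v)))
    (hirr : ∀ W : Submodule ℂ (Fin n → ℂ), (∀ X ∈ L, ∀ w ∈ W, X w ∈ W) → W = ⊥ ∨ W = ⊤)
    (e1 e2 f1 f2 : Fin n → ℝ) (h11 : e1 ⬝ᵥ (G *ᵥ e1) = 0) (h12 : e1 ⬝ᵥ (G *ᵥ e2) = 0)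
    (h22 : e2 ⬝ᵥ (G *ᵥ e2) = 0) (k11 : f1 ⬝ᵥ (G *ᵥ f1) = 0) (k12 : f1 ⬝ᵥ (G *ᵥ f2) = 0)
    (k22 : f2 ⬝ᵥ (G *ᵥ f2) = 0) (m11 : e1 ⬝ᵥ (G *ᵥ f1) = 1) (m12 : e1 ⬝ᵥ (G *ᵥ f2) = 0)
    (m21 : e2 ⬝ᵥ (G *ᵥ f1) = 0) (m22 : e2 ⬝ᵥ (G *ᵥ f2) = 1)
    (hdef : ∀ x : Fin n → ℝ, e1 ⬝ᵥ (G *ᵥ x) = 0 → e2 ⬝ᵥ (G *ᵥ x) = 0 → f1 ⬝ᵥ (G *ᵥ x) = 0 →
      f2 ⬝ᵥ (G *ᵥ x) = 0 → x ≠ 0 → x ⬝ᵥ (G *ᵥ x) < 0)
    (hB : wed (bil G) (cx e1) (cx f1) + wed (bil G) (cx e2) (cx f2) ∈ L) :
    wed (bil G) (cx e1) (cx f1) ∈ L := by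
  have hcx : ∀ x y : Fin n → ℝ, bil G (cx x) (cx y) = ((x ⬝ᵥ (G *ᵥ y) : ℝ) : ℂ) := by
    intro x y
    rw [bil_apply]
    simp only [cx, dotProduct, Matrix.mulVec]
    push_cast
    refine Finset.sum_congr rfl fun i _ => ?_
    rw [Finset.mul_sum]
    refine Finset.sum_congr rfl fun j _ => ?_
    ring
  have hsym : ∀ x y, bil G x y = bil G y x := by
    intro x y
    rw [bil_apply, bil_apply, Finset.sum_comm]
    refine Finset.sum_congr rfl fun i _ => Finset.sum_congr rfl fun j _ => ?_
    have : G j i = G i j := by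
      conv_lhs => rw [← hG]
      rfl
    rw [this]; ring
  have hstar : ∀ x y, bil G (star x) (star y) = star (bil G x y) := by
    intro x y
    rw [bil_apply, bil_apply, star_sum]
    refine Finset.sum_congr rfl fun i _ => ?_
    rw [star_sum]
    refine Finset.sum_congr rfl fun j _ => ?_
    simp only [Pi.star_apply, star_mul', Complex.star_def, Complex.conj_ofReal]
  have hscx : ∀ x : Fin n → ℝ, star (cx x) = cx x := by
    intro x
    funext i
    simp [cx]
  have hFr : CaseB.Fr (bil G) (cx e1) (cx e2) (cx f1) (cx f2) :=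
    { sym := hsym
      e11 := by rw [hcx, h11]; simp
      e12 := by rw [hcx, h12]; simp
      e22 := by rw [hcx, h22]; simp
      f11 := by rw [hcx, k11]; simp
      f12 := by rw [hcx, k12]; simp
      f22 := by rw [hcx, k22]; simp
      m11 := by rw [hcx, m11]; simp
      m12 := by rw [hcx, m12]; simp
      m21 := by rw [hcx, m21]; simp
      m22 := by rw [hcx, m22]; simp }
  set E1 := cx e1 with hE1
  set E2 := cx e2 with hE2
  set F1 := cx f1 with hF1
  set F2 := cx f2 with hF2
  set B := CaseB.BB (bil G) E1 E2 F1 F2 with hBdef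
  have hBL : B ∈ L := hB
  have sE1 : star E1 = E1 := hscx e1
  have sE2 : star E2 = E2 := hscx e2
  have sF1 : star F1 = F1 := hscx f1
  have sF2 : star F2 = F2 := hscx f2
  have hssmul : ∀ (r : ℂ) (v : Fin n → ℂ), star (r • v) = star r • star v := by
    intro r v
    funext i
    simp
  have hBstar : ∀ v, B (star v) = star (B v) := by
    intro v
    have g : ∀ w, star w = w → bil G w (star v) = star (bil G w v) := by
      intro w hw
      conv_lhs => rw [← hw]
      exact hstar w v
    rw [hBdef, CaseB.BB_apply, CaseB.BB_apply, star_add, star_sub, star_sub, hssmul, hssmul,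
      hssmul, hssmul, sE1, sE2, sF1, sF2, g _ sE1, g _ sE2, g _ sF1, g _ sF2]
  -- the form on `T0`
  have hdefC : ∀ z, B z = 0 → z ≠ 0 → bil G (star z) z ≠ 0 := by
    intro z hz hz0
    obtain ⟨q1, q2, q3, q4⟩ := CaseB.BB_zero hFr hz
    set x : Fin n → ℝ := fun i => (z i).re with hx
    set y : Fin n → ℝ := fun i => (z i).im with hy
    have hzxy : z = cx x + Complex.I • cx y := by
      funext i
      simp only [Pi.add_apply, Pi.smul_apply, cx, hx, hy, smul_eq_mul]
      rw [mul_comm]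
      exact (Complex.re_add_im (z i)).symm
    have key : ∀ w : Fin n → ℝ, bil G (cx w) z = 0 → w ⬝ᵥ (G *ᵥ x) = 0 ∧ w ⬝ᵥ (G *ᵥ y) = 0 := by
      intro w hw
      rw [hzxy, map_add, map_smul, hcx, hcx] at hw
      have r1 := congrArg Complex.re hw
      have r2 := congrArg Complex.im hw
      simp at r1 r2
      exact ⟨r1, r2⟩
    have a1 := key e1 q1
    have a2 := key e2 q2
    have a3 := key f1 q3
    have a4 := key f2 q4
    have hx0 : x ⬝ᵥ (G *ᵥ x) ≤ 0 := by
      by_cases h : x = 0
      · rw [h]; simp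
      · exact (hdef x a1.1 a2.1 a3.1 a4.1 h).le
    have hy0 : y ⬝ᵥ (G *ᵥ y) ≤ 0 := by
      by_cases h : y = 0
      · rw [h]; simp
      · exact (hdef y a1.2 a2.2 a3.2 a4.2 h).le
    have hlt : x ⬝ᵥ (G *ᵥ x) + y ⬝ᵥ (G *ᵥ y) < 0 := by
      by_cases h : x = 0
      · have h' : y ≠ 0 := by
          intro h'
          apply hz0
          rw [hzxy, h, h']
          funext i
          simp [cx]
        have := hdef y a1.2 a2.2 a3.2 a4.2 h'
        linarith
      · have := hdef x a1.1 a2.1 a3.1 a4.1 h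
        linarith
    have hval : bil G (star z) z = ((x ⬝ᵥ (G *ᵥ x) + y ⬝ᵥ (G *ᵥ y) : ℝ) : ℂ) := by
      have hsz : star z = cx x - Complex.I • cx y := by
        rw [hzxy, star_add, hssmul, hscx, hscx, Complex.star_def, Complex.conj_I]
        module
      have hxy : bil G (cx x) (cx y) = bil G (cx y) (cx x) := hsym _ _
      rw [hsz]
      conv_lhs => rw [hzxy]
      rw [map_add, map_smul, map_sub, map_smul, LinearMap.sub_apply, LinearMap.sub_apply,
        LinearMap.smul_apply, LinearMap.smul_apply, hxy, hcx, hcx, hcx]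
      simp only [smul_eq_mul]
      push_cast
      linear_combination (-(y ⬝ᵥ (G *ᵥ y) : ℝ) : ℂ) * Complex.I_sq
    rw [hval]
    exact_mod_cast hlt.ne
  -- the operator `H`
  obtain ⟨H', hH'L, hH'B, hH'1, hH'2⟩ := CaseB.surj hFr L hbr hirr hBL 1 0 0 (-1)
  obtain ⟨H'', hH''L, hH''⟩ := hconj H' hH'L
  have hH'1' : H' E1 = E1 := by rw [hH'1]; simp
  have hH'2' : H' E2 = -E2 := by rw [hH'2]; simp
  have hH'Bz : ∀ z, B (H' z) = H' (B z) := by
    intro z
    have := LinearMap.congr_fun hH'B z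
    simp only [LinearMap.sub_apply, Module.End.mul_apply, LinearMap.zero_apply] at this
    exact sub_eq_zero.mp this
  set H : Module.End ℂ (Fin n → ℂ) := (1 / 2 : ℂ) • (H' + H'') with hHdef
  have hHa : ∀ z, H z = (1 / 2 : ℂ) • (H' z + star (H' (star z))) := by
    intro z
    rw [hHdef, LinearMap.smul_apply, LinearMap.add_apply, hH'']
  have hHL : H ∈ L := L.smul_mem _ (L.add_mem hH'L hH''L)
  have hHE1 : H E1 = E1 := by
    rw [hHa, sE1, hH'1', sE1]; module
  have hHE2 : H E2 = -E2 := by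
    rw [hHa, sE2, hH'2', star_neg, sE2]; module
  have hHBz : ∀ z, B (H z) = H (B z) := by
    intro z
    rw [hHa, hHa, map_smul, map_add, hH'Bz, hBstar, hH'Bz, hBstar]
  have hHB : B * H - H * B = 0 := by
    apply LinearMap.ext
    intro z
    simp only [LinearMap.sub_apply, Module.End.mul_apply, LinearMap.zero_apply]
    rw [hHBz, sub_self]
  have hHstar : ∀ z, H (star z) = star (H z) := by
    intro z
    rw [hHa, hHa, star_star, hssmul, star_add, star_star]
    have : star (1 / 2 : ℂ) = 1 / 2 := by simp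
    rw [this, add_comm]
  have hneg : ∀ z, B z = -z → z = bil G E1 z • F1 + bil G E2 z • F2 := by
    intro z hz
    have h1 := CaseB.BB_apply (q := bil G) (E1 := E1) (E2 := E2) (F1 := F1) (F2 := F2) z
    rw [← hBdef, hz] at h1
    have h2 := CaseB.BB_sq hFr z
    rw [← hBdef, hz, map_neg, hz, neg_neg] at h2
    have h3 : (2 : ℂ) • z = (2 : ℂ) • (bil G E1 z • F1 + bil G E2 z • F2) := by
      have h4 : z - (-z) = (bil G F1 z • E1 + bil G E1 z • F1 +
        (bil G F2 z • E2 + bil G E2 z • F2)) - (bil G F1 z • E1 - bil G E1 z • F1 +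
        (bil G F2 z • E2 - bil G E2 z • F2)) := congrArg₂ (· - ·) h2 h1
      rw [sub_neg_eq_add] at h4
      rw [two_smul, h4]
      module
    exact smul_right_injective _ (two_ne_zero) h3
  have hHF1 : H F1 = -F1 := by
    have h1 : B (H F1) = -(H F1) := by rw [hHBz, hBdef, CaseB.BB_F1 hFr, map_neg]
    rw [hneg _ h1]
    have j1 := hsk H hHL E1 F1
    have j2 := hsk H hHL E2 F1
    rw [hHE1, hFr.m11] at j1
    rw [hHE2, map_neg, LinearMap.neg_apply, hFr.m21, neg_zero, zero_add] at j2
    have j3 : bil G E1 (H F1) = -1 := by linear_combination j1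
    rw [j2, j3]; simp
  have hHF2 : H F2 = F2 := by
    have h1 : B (H F2) = -(H F2) := by rw [hHBz, hBdef, CaseB.BB_F2 hFr, map_neg]
    rw [hneg _ h1]
    have j1 := hsk H hHL E1 F2
    have j2 := hsk H hHL E2 F2
    rw [hHE1, hFr.m12, zero_add] at j1
    rw [hHE2, map_neg, LinearMap.neg_apply, hFr.m22] at j2
    have j3 : bil G E2 (H F2) = 1 := by linear_combination j2
    rw [j1, j3]; simp
  have hev : ∀ z, B z = 0 → z ≠ 0 → ∀ ν : ℂ, H z = ν • z → ν.re = 0 := by
    intro z hz hz0 ν hν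
    have j1 := hsk H hHL (star z) z
    rw [hHstar, hν, hssmul, map_smul, LinearMap.smul_apply, map_smul, smul_eq_mul, smul_eq_mul,
      ← add_mul] at j1
    have j2 := (mul_eq_zero.mp j1).resolve_right (hdefC z hz hz0)
    have j3 := congrArg Complex.re j2
    simp at j3
    linarith
  -- the two matrix units
  obtain ⟨X, hX, hXB, hX1, hX2⟩ := CaseB.surj hFr L hbr hirr hBL 0 1 0 0
  have u1 := CaseB.unit_mem hFr L hbr hsk H hHL hHB hHE1 hHE2 hHF1 hHF2 hev X hX hXB
    (by rw [hX1]; simp) (by rw [hX2]; simp)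
  obtain ⟨Y, hY, hYB, hY1, hY2⟩ := CaseB.surj hFr L hbr hirr hBL 0 0 1 0
  have hBs : CaseB.BB (bil G) E2 E1 F2 F1 = B := by
    rw [hBdef]; unfold CaseB.BB; rw [add_comm]
  have u2 := CaseB.unit_mem hFr.swap L hbr hsk (-H) (L.neg_mem hHL)
    (by
      rw [hBs]
      apply LinearMap.ext
      intro z
      simp only [LinearMap.sub_apply, Module.End.mul_apply, LinearMap.zero_apply,
        LinearMap.neg_apply, map_neg]
      rw [hHBz, sub_self]) (by simp [hHE2]) (by simp [hHE1])
    (by simp [hHF2]) (by simp [hHF1])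
    (by
      intro z hz hz0 ν hν
      rw [hBs] at hz
      have := hev z hz hz0 (-ν) (by
        rw [LinearMap.neg_apply] at hν
        rw [neg_smul, ← hν, neg_neg])
      simpa using this)
    Y hY (by rw [hBs]; exact hYB) (by rw [hY2]; simp) (by rw [hY1]; simp)
  have hfin : wed (bil G) E1 F1 = (1 / 2 : ℂ) • (B + (wed (bil G) E1 F2 * wed (bil G) E2 F1 -
      wed (bil G) E2 F1 * wed (bil G) E1 F2)) := by
    apply LinearMap.ext
    intro z
    simp only [LinearMap.smul_apply, LinearMap.add_apply, LinearMap.sub_apply,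
      Module.End.mul_apply, hBdef, CaseB.BB_apply, wed_apply, map_sub, map_smul, smul_eq_mul,
      hFr.e11, hFr.e12, hFr.e21, hFr.e22, hFr.f11, hFr.f12, hFr.f21, hFr.f22, hFr.m11, hFr.m12,
      hFr.m21, hFr.m22, hFr.n11, hFr.n12, hFr.n21, hFr.n22]
    module
  rw [hfin]
  exact L.smul_mem _ (L.add_mem hBL (hbr _ u1 _ u2))

end Pool.Agent.KS
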