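import Pool.Agent.KS.CaseCAux

/-!
Module CaseC. `L` irreducible, stable under complex conjugation, containing
`B = a wed e1 f1 + b wed e2 f2` with `a, b ≠ 0`, `a ≠ b`, `a ≠ -b`, with a definite complement, and
`6 ≤ n`.

Notation: `q = bil G`, `E1 = cx e1` etc., `h1 = wed E1 F1`, `h2 = wed E2 F2`, `T0` the orthogonal of
`E1, E2, F1, F2`, on whose real vectors `G` is negative definite. By symmetry (exchange of `e1, f1`
with `e2, f2`, of `e1` with `f1`, of `e2` with `f2`) we may assume `0 < b < a`. The eigenvalues of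
`ad B` on skew operators: `a + b` (`wed E1 E2`), `a` (`wed E1 u`, `u ∈ T0`), `b` (`wed E2 u`),
`a - b` (`wed E1 F2`), their negatives (exchange `E` and `F`), and `0` (`h1, h2`, operators of `T0`).
`L` is the sum of the eigenspaces `L_μ` of `ad B` in `L` (`KS.grade`), all stable under conjugation,
and `L_μ ≠ 0` implies `L_(-μ) ≠ 0` (`KS.killing_pair`; skew operators have trace zero).
(a) If `L_(a+b) ≠ 0` then `wed E1 E2, wed F1 F2 ∈ L`, their bracket is `± (h1 + h2)`, and with `B` we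
get `h1 ∈ L`.
(b) If `a ≠ 2 b` and `L_(a-b) ≠ 0` then `wed E1 F2, wed F1 E2 ∈ L`, bracket `± (h1 - h2)`, `h1 ∈ L`.
(c) If `L_a ≠ 0`: `L_a` is the set of `wed E1 u`, `u ∈ N`, `L_(-a)` the set of `wed F1 v`, `v ∈ N'`,
`N, N' ≤ T0` non-zero subspaces stable under conjugation. (Here for `a = 2 b` this is `L_(2b)`.) As
in module CaseA, (2), `q u u' • v ∈ N` for `u, u' ∈ N`, `v ∈ N'`; `N` contains a real `u ≠ 0`, with
`q u u ≠ 0`, so `N' ≤ N`; take a real `v ≠ 0` in `N'`: the bracket of `wed E1 v` and `wed F1 v` is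
`± q v v • h1`, so `h1 ∈ L`.
(d) If `a ≠ 2 b` and `L_b ≠ 0`, in the same way `h2 ∈ L` (so `h1 = (B - b h2) / a ∈ L`).
(e) If `L = L_0` then `ℂ E1` is stable, a contradiction.
(f) The remaining case: `a = 2 b`, `L = L_0 + L_b + L_(-b)`, elements of `L_b`:
`wed E2 u + c wed E1 F2`. Not all `c` are zero: otherwise the orthogonal of `F1` (the vectors whose
`E1`-component is zero) is stable. In the same way not all `c'` are zero for `L_(-b)`
(`wed F2 v + c' wed F1 E2`; the orthogonal of `E1`). If `wed E2 u ∈ L` then the bracket with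
`X0 = wed E2 u0 + c0 wed E1 F2`, `c0 ≠ 0`, is `± c0 wed E1 u ∈ L_(2b) = 0`, so `u = 0`; so `L_b = ℂ X0`
and we may take `X0` real (`u0` real); in the same way `L_(-b) = ℂ X0'`,
`X0' = wed F2 v0 + c0' wed F1 E2`, real. For `Z ∈ L_0`, `⁅Z, X0⁆ ∈ ℂ X0` gives `Z u0 ∈ ℂ u0`, and
`Z v0 ∈ ℂ v0`. So the span of `E1, E2, u0, v0, F2, F1` is stable under `L`, so `T0` is spanned by
`u0, v0`; as `n ≥ 6`, `u0, v0` are independent. But `⁅X0, X0'⁆ ∈ L_0` maps `u0` to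
`± (q v0 u0 • u0 - q u0 u0 • v0)`, and `q u0 u0 ≠ 0`: a contradiction.
-/

namespace Pool.Agent.KS.CCx

open Module Matrix

lemma bilC_symm {n : ℕ} {G : Matrix (Fin n) (Fin n) ℝ} (hG : Gᵀ = G) (x y : Fin n → ℂ) :
    bil G x y = bil G y x := by
  rw [bil_apply, bil_apply, Finset.sum_comm]
  refine Finset.sum_congr rfl fun i _ => Finset.sum_congr rfl fun j _ => ?_
  have h1 : G j i = G i j := by conv_rhs => rw [← hG, Matrix.transpose_apply]
  rw [h1]; ring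

lemma bilC_star {n : ℕ} (G : Matrix (Fin n) (Fin n) ℝ) (x y : Fin n → ℂ) :
    bil G (star x) (star y) = star (bil G x y) := by
  rw [bil_apply, bil_apply, star_sum]
  refine Finset.sum_congr rfl fun i _ => ?_
  rw [star_sum]
  refine Finset.sum_congr rfl fun j _ => ?_
  simp only [Pi.star_apply, RCLike.star_def, map_mul, Complex.conj_ofReal]

lemma bilC_cx {n : ℕ} (G : Matrix (Fin n) (Fin n) ℝ) (x y : Fin n → ℝ) :
    bil G (cx x) (cx y) = ((x ⬝ᵥ (G *ᵥ y) : ℝ) : ℂ) := by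
  rw [bil_apply]
  simp only [dotProduct, Matrix.mulVec, Finset.mul_sum, Complex.ofReal_sum, cx]
  refine Finset.sum_congr rfl fun i _ => Finset.sum_congr rfl fun j _ => ?_
  push_cast; ring

lemma starC_cx {n : ℕ} (x : Fin n → ℝ) : star (cx x) = cx x := by
  ext i; simp [cx]

lemma exC_cx {n : ℕ} {x : Fin n → ℂ} (hx : star x = x) : ∃ y, x = cx y := by
  refine ⟨fun i => (x i).re, ?_⟩
  ext i
  have h1 := congrFun hx i
  rw [Pi.star_apply, RCLike.star_def] at h1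
  exact (Complex.conj_eq_iff_re.1 h1).symm

lemma sk_trace {V : Type} [AddCommGroup V] [Module ℂ V] {q : LinearMap.BilinForm ℂ V}
    [FiniteDimensional ℂ V] (hq : q.Nondegenerate)
    {X : Module.End ℂ V} (hX : CSk q X) : LinearMap.trace ℂ V X = 0 := by
  have h1 := LinearMap.trace_conj' X (q.toDual hq)
  have h2 := LinearMap.trace_transpose' (R := ℂ) X
  have h3 : (q.toDual hq).conj X = - Module.Dual.transpose (R := ℂ) X := by
    ext f v
    obtain ⟨w, rfl⟩ := (q.toDual hq).surjective f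
    simp only [LinearEquiv.conj_apply, LinearMap.comp_apply, LinearEquiv.coe_coe,
      LinearEquiv.symm_apply_apply, LinearMap.neg_apply, Module.Dual.transpose_apply,
      LinearMap.BilinForm.toDual_def]
    linear_combination hX w v
  rw [h3, map_neg] at h1
  rw [h2] at h1
  linear_combination (-1/2) * h1

lemma cB_span {V : Type} [AddCommGroup V] [Module ℂ V] {q : LinearMap.BilinForm ℂ V}
    {E1 E2 F1 F2 : V} (fr : CFr q E1 E2 F1 F2) (a b : ℝ) (v : V) :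
    v ∈ Submodule.span ℂ {w | ∃ r : ℂ, cB q E1 E2 F1 F2 a b w = r • w} := by
  rw [cpi_exp (q := q) (E1 := E1) (E2 := E2) (F1 := F1) (F2 := F2) v]
  refine Submodule.add_mem _ (Submodule.add_mem _ (Submodule.add_mem _ (Submodule.add_mem _
    (Submodule.smul_mem _ _ (Submodule.subset_span ⟨_, cB_E1 fr a b⟩))
    (Submodule.smul_mem _ _ (Submodule.subset_span ⟨_, cB_E2 fr a b⟩)))
    (Submodule.smul_mem _ _ (Submodule.subset_span ⟨_, cB_F1 fr a b⟩)))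
    (Submodule.smul_mem _ _ (Submodule.subset_span ⟨_, cB_F2 fr a b⟩)))
    (Submodule.subset_span ⟨0, ?_⟩)
  rw [cB_T (cpi_mem fr v), zero_smul]

end Pool.Agent.KS.CCx

namespace Pool.Agent.KS

open Module Matrix CCx

theorem caseC {n : ℕ} (hn : 6 ≤ n) (G : Matrix (Fin n) (Fin n) ℝ) (hG : Gᵀ = G)
    (hnd : (bil G).Nondegenerate) (L : Submodule ℂ (Module.End ℂ (Fin n → ℂ)))
    (hbr : ∀ X ∈ L, ∀ Y ∈ L, X * Y - Y * X ∈ L)
    (hsk : ∀ X ∈ L, ∀ u v, bil G (X u) v + bil G u (X v) = 0)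
    (hconj : ∀ X ∈ L, ∃ X' ∈ L, ∀ v, X' v = star (X (star v)))
    (hirr : ∀ W : Submodule ℂ (Fin n → ℂ), (∀ X ∈ L, ∀ w ∈ W, X w ∈ W) → W = ⊥ ∨ W = ⊤)
    (e1 e2 f1 f2 : Fin n → ℝ) (h11 : e1 ⬝ᵥ (G *ᵥ e1) = 0) (h12 : e1 ⬝ᵥ (G *ᵥ e2) = 0)
    (h22 : e2 ⬝ᵥ (G *ᵥ e2) = 0) (k11 : f1 ⬝ᵥ (G *ᵥ f1) = 0) (k12 : f1 ⬝ᵥ (G *ᵥ f2) = 0)
    (k22 : f2 ⬝ᵥ (G *ᵥ f2) = 0) (m11 : e1 ⬝ᵥ (G *ᵥ f1) = 1) (m12 : e1 ⬝ᵥ (G *ᵥ f2) = 0)
    (m21 : e2 ⬝ᵥ (G *ᵥ f1) = 0) (m22 : e2 ⬝ᵥ (G *ᵥ f2) = 1)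
    (hdef : ∀ x : Fin n → ℝ, e1 ⬝ᵥ (G *ᵥ x) = 0 → e2 ⬝ᵥ (G *ᵥ x) = 0 → f1 ⬝ᵥ (G *ᵥ x) = 0 →
      f2 ⬝ᵥ (G *ᵥ x) = 0 → x ≠ 0 → x ⬝ᵥ (G *ᵥ x) < 0)
    (a b : ℝ) (ha : 0 < b) (hab : b < a)
    (hB : (a : ℂ) • wed (bil G) (cx e1) (cx f1) + (b : ℂ) • wed (bil G) (cx e2) (cx f2) ∈ L) :
    wed (bil G) (cx e1) (cx f1) ∈ L ∨ wed (bil G) (cx e2) (cx f2) ∈ L := by
  by_contra hcon
  rw [not_or] at hcon
  obtain ⟨hc1, hc2⟩ := hcon
  have hfd : finrank ℂ (Fin n → ℂ) = n := by simp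
  -- the frame
  have hs := bilC_symm hG
  have fr : CFr (bil G) (cx e1) (cx e2) (cx f1) (cx f2) := by
    have l11 : bil G (cx e1) (cx e1) = 0 := by rw [bilC_cx, h11, Complex.ofReal_zero]
    have l12 : bil G (cx e1) (cx e2) = 0 := by rw [bilC_cx, h12, Complex.ofReal_zero]
    have l22 : bil G (cx e2) (cx e2) = 0 := by rw [bilC_cx, h22, Complex.ofReal_zero]
    have l33 : bil G (cx f1) (cx f1) = 0 := by rw [bilC_cx, k11, Complex.ofReal_zero]
    have l34 : bil G (cx f1) (cx f2) = 0 := by rw [bilC_cx, k12, Complex.ofReal_zero]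
    have l44 : bil G (cx f2) (cx f2) = 0 := by rw [bilC_cx, k22, Complex.ofReal_zero]
    have l13 : bil G (cx e1) (cx f1) = 1 := by rw [bilC_cx, m11, Complex.ofReal_one]
    have l14 : bil G (cx e1) (cx f2) = 0 := by rw [bilC_cx, m12, Complex.ofReal_zero]
    have l23 : bil G (cx e2) (cx f1) = 0 := by rw [bilC_cx, m21, Complex.ofReal_zero]
    have l24 : bil G (cx e2) (cx f2) = 1 := by rw [bilC_cx, m22, Complex.ofReal_one]
    exact ⟨hs, l11, l12, (hs _ _).trans l12, l22, l33, l34, (hs _ _).trans l34, l44, l13, l14,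
      l23, l24, (hs _ _).trans l13, (hs _ _).trans l23, (hs _ _).trans l14,
      (hs _ _).trans l24⟩
  have s1 := starC_cx e1
  have s2 := starC_cx e2
  have s3 := starC_cx f1
  have s4 := starC_cx f2
  have hB' : cB (bil G) (cx e1) (cx e2) (cx f1) (cx f2) a b ∈ L := hB
  have hB'' : cB (bil G) (cx f1) (cx f2) (cx e1) (cx e2) a b ∈ L := by
    rw [cB_symm]; exact L.neg_mem hB'
  -- definiteness
  have hdf : ∀ u, CT (bil G) (cx e1) (cx e2) (cx f1) (cx f2) u → star u = u →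
      bil G u u = 0 → u = 0 := by
    rintro u ⟨g1, g2, g3, g4⟩ hu huu
    obtain ⟨y, rfl⟩ := exC_cx hu
    by_contra hy
    rw [bilC_cx] at g1 g2 g3 g4 huu
    have hy0 : y ≠ 0 := fun h0 => hy (by rw [h0]; ext i; simp [cx])
    exact (hdef y (by exact_mod_cast g1) (by exact_mod_cast g2) (by exact_mod_cast g3)
      (by exact_mod_cast g4) hy0).ne (by exact_mod_cast huu)
  -- generalise
  generalize cx e1 = E1 at *
  generalize cx e2 = E2 at *
  generalize cx f1 = F1 at *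
  generalize cx f2 = F2 at *
  have hCTs : ∀ u, CT (bil G) E1 E2 F1 F2 u → CT (bil G) E1 E2 F1 F2 (star u) := by
    rintro u ⟨g1, g2, g3, g4⟩
    refine ⟨?_, ?_, ?_, ?_⟩
    · rw [← s1, bilC_star, g1, star_zero]
    · rw [← s2, bilC_star, g2, star_zero]
    · rw [← s3, bilC_star, g3, star_zero]
    · rw [← s4, bilC_star, g4, star_zero]
  have hst : ∀ (E F H u : Fin n → ℂ) (c : ℂ), star E = E → star F = F → star H = H →
      c • wed (bil G) E F + wed (bil G) H u ∈ L →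
      star c • wed (bil G) E F + wed (bil G) H (star u) ∈ L := by
    intro E F H u c hE hF hH hL
    obtain ⟨X', hX', hX''⟩ := hconj _ hL
    have h1 : X' = star c • wed (bil G) E F + wed (bil G) H (star u) := by
      apply LinearMap.ext
      intro v
      rw [hX'']
      have t1 : ∀ x, star x = x → star (bil G x (star v)) = bil G x v := fun x hx => by
        conv_rhs => rw [← star_star v]
        conv_rhs => rw [← hx]
        rw [bilC_star]
      have t2 : star (bil G u (star v)) = bil G (star u) v := by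
        rw [← bilC_star, star_star]
      simp only [LinearMap.add_apply, LinearMap.smul_apply, wed_apply, star_add, star_smul,
        star_sub, t1 _ hE, t1 _ hF, t1 _ hH, t2, hE, hF, hH]
    rw [← h1]; exact hX'
  have hst1 : ∀ (H u : Fin n → ℂ), star H = H → wed (bil G) H u ∈ L →
      wed (bil G) H (star u) ∈ L := by
    intro H u hH hL
    have h1 := hst H H H u 0 hH hH hH (by rw [zero_smul, zero_add]; exact hL)
    rwa [star_zero, zero_smul, zero_add] at h1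
  -- real elements
  have hreal : ∀ (H u : Fin n → ℂ), star H = H → wed (bil G) H u ∈ L → u ≠ 0 →
      CT (bil G) E1 E2 F1 F2 u →
      ∃ v, bil G v v ≠ 0 ∧ CT (bil G) E1 E2 F1 F2 v ∧ wed (bil G) H v ∈ L := by
    intro H u hH hL hu hT
    have hL' := hst1 H u hH hL
    have hT' := hCTs u hT
    by_cases h0 : u + star u = 0
    · have hv : CT (bil G) E1 E2 F1 F2 (Complex.I • u) := by
        obtain ⟨g1, g2, g3, g4⟩ := hT
        refine ⟨?_, ?_, ?_, ?_⟩ <;> simp [g1, g2, g3, g4]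
      refine ⟨Complex.I • u, fun h1 => hu ?_, hv, ?_⟩
      · have h2 : star (Complex.I • u) = Complex.I • u := by
          rw [star_smul, eq_neg_of_add_eq_zero_right h0, RCLike.star_def, Complex.conj_I, neg_smul,
            smul_neg, neg_neg]
        have h3 := hdf _ hv h2 h1
        exact (smul_eq_zero.1 h3).resolve_left Complex.I_ne_zero
      · rw [wed_smul_right]; exact L.smul_mem _ hL
    · have hv : CT (bil G) E1 E2 F1 F2 (u + star u) := by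
        obtain ⟨g1, g2, g3, g4⟩ := hT
        obtain ⟨k1, k2, k3, k4⟩ := hT'
        refine ⟨?_, ?_, ?_, ?_⟩ <;> simp [g1, g2, g3, g4, k1, k2, k3, k4]
      refine ⟨u + star u, fun h1 => h0 (hdf _ hv ?_ h1), hv, ?_⟩
      · rw [star_add, star_star, add_comm]
      · rw [wed_add_right]; exact L.add_mem hL hL'
  -- pairs
  have hbd := cB_span fr a b
  have htr : ∀ X ∈ L, LinearMap.trace ℂ (Fin n → ℂ) X = 0 := fun X hX =>
    sk_trace hnd (hsk X hX)
  have hpair : ∀ μ : ℂ, μ ≠ 0 → (∃ X ∈ L, X ≠ 0 ∧ cB (bil G) E1 E2 F1 F2 a b * X -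
      X * cB (bil G) E1 E2 F1 F2 a b = μ • X) → ∃ X ∈ L, X ≠ 0 ∧
      cB (bil G) E1 E2 F1 F2 a b * X - X * cB (bil G) E1 E2 F1 F2 a b = (-μ) • X := by
    rintro μ hμ ⟨X, hX, hX0, hXμ⟩
    exact killing_pair (by rw [hfd]; omega) L hbr htr hirr _ hB' hbd X hX hX0 μ hμ hXμ
  have hgr : ∀ X ∈ L, X ∈ Submodule.span ℂ {Y | Y ∈ L ∧ ∃ μ : ℂ,
      cB (bil G) E1 E2 F1 F2 a b * Y - Y * cB (bil G) E1 E2 F1 F2 a b = μ • Y} :=
    fun X hX => grade L _ (fun Y hY => hbr _ hB' Y hY) hbd X hX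
  have ha0 : (a : ℂ) ≠ 0 := by exact_mod_cast (ha.trans hab).ne'
  have hb0 : (b : ℂ) ≠ 0 := by exact_mod_cast ha.ne'
  have hab1 : (a : ℂ) + b ≠ 0 := by exact_mod_cast (by linarith : a + b ≠ 0)
  have hab2 : (a : ℂ) - b ≠ 0 := by exact_mod_cast (by linarith : a - b ≠ 0)
  have fr' := fr.symm
  have A1 : ¬ ∃ X ∈ L, X ≠ 0 ∧ cB (bil G) E1 E2 F1 F2 a b * X -
      X * cB (bil G) E1 E2 F1 F2 a b = ((a + b : ℝ) : ℂ) • X := by
    intro hex
    obtain ⟨Y, hY, hY0, hYμ⟩ := hpair _ (by push_cast; exact hab1) hex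
    obtain ⟨X, hX, hX0, hXμ⟩ := hex
    obtain ⟨p, rfl⟩ := shape_ab fr ha hab (hsk X hX) hXμ
    obtain ⟨r, rfl⟩ := shape_ab fr' ha hab (hsk Y hY) (neg_eig hYμ)
    have hp : p ≠ 0 := fun h0 => hX0 (by rw [h0, zero_smul])
    have hr : r ≠ 0 := fun h0 => hY0 (by rw [h0, zero_smul])
    have hX1 := (L.smul_mem_iff hp).1 hX
    have hY1 := (L.smul_mem_iff hr).1 hY
    have h1 := hbr _ hX1 _ hY1
    rw [wed_comm (wed_skew hs E1 E2), wed_apply, wed_apply, fr.m21, fr.m11, fr.m22, fr.m12,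
      zero_smul, zero_smul, one_smul, one_smul, zero_sub, sub_zero, wed_swap F1 E1,
      ← neg_one_smul ℂ E2, wed_smul_left] at h1
    apply hc1
    have h2 : wed (bil G) E1 F1 = ((a : ℂ) - b)⁻¹ • (cB (bil G) E1 E2 F1 F2 a b +
        (b : ℂ) • ((-1 : ℂ) • wed (bil G) E2 F2 + -wed (bil G) E1 F1)) := by
      have h3 : cB (bil G) E1 E2 F1 F2 a b +
        (b : ℂ) • ((-1 : ℂ) • wed (bil G) E2 F2 + -wed (bil G) E1 F1) =
        ((a : ℂ) - b) • wed (bil G) E1 F1 := by rw [cB]; module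
      rw [h3, smul_smul, inv_mul_cancel₀ hab2, one_smul]
    rw [h2]
    exact L.smul_mem _ (L.add_mem hB' (L.smul_mem _ h1))
  have A2 : ¬ ∃ X ∈ L, X ≠ 0 ∧ cB (bil G) E1 E2 F1 F2 a b * X -
      X * cB (bil G) E1 E2 F1 F2 a b = ((a : ℝ) : ℂ) • X := by
    intro hex
    obtain ⟨Y, hY, hY0, hYμ⟩ := hpair _ ha0 hex
    obtain ⟨X, hX, hX0, hXμ⟩ := hex
    obtain ⟨u, hu, rfl⟩ := shape_a fr ha hab (hsk X hX) hXμ
    obtain ⟨v, hv, rfl⟩ := shape_a fr' ha hab (hsk Y hY) (neg_eig hYμ)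
    obtain ⟨u', hu1, hu2, hu3⟩ := hreal _ _ s1 hX (fun h0 => hX0 (by rw [h0, wed_zero_right])) hu
    obtain ⟨v', hv1, hv2, hv3⟩ := hreal _ _ s3 hY (fun h0 => hY0 (by rw [h0, wed_zero_right]))
      hv.symm
    exact hc1 (case_null hs L hbr fr.e11 fr.m11 hu2.1 hu2.2.2.1 hv2.1 hv2.2.2.1 hu1 hv1 hu3 hv3)
  have A3 : a ≠ 2 * b → ¬ ∃ X ∈ L, X ≠ 0 ∧ cB (bil G) E1 E2 F1 F2 a b * X -
      X * cB (bil G) E1 E2 F1 F2 a b = ((b : ℝ) : ℂ) • X := by
    intro h2b hex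
    obtain ⟨Y, hY, hY0, hYμ⟩ := hpair _ hb0 hex
    obtain ⟨X, hX, hX0, hXμ⟩ := hex
    obtain ⟨p, u, hu, hp, rfl⟩ := shape_b fr ha hab (hsk X hX) hXμ
    obtain ⟨r, v, hv, hr, rfl⟩ := shape_b fr' ha hab (hsk Y hY) (neg_eig hYμ)
    rw [hp h2b, zero_smul, zero_add] at hX hX0
    rw [hr h2b, zero_smul, zero_add] at hY hY0
    obtain ⟨u', hu1, hu2, hu3⟩ := hreal _ _ s2 hX (fun h0 => hX0 (by rw [h0, wed_zero_right])) hu
    obtain ⟨v', hv1, hv2, hv3⟩ := hreal _ _ s4 hY (fun h0 => hY0 (by rw [h0, wed_zero_right]))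
      hv.symm
    exact hc2 (case_null hs L hbr fr.e22 fr.m22 hu2.2.1 hu2.2.2.2 hv2.2.1 hv2.2.2.2 hu1 hv1 hu3
      hv3)
  have A4 : a ≠ 2 * b → ¬ ∃ X ∈ L, X ≠ 0 ∧ cB (bil G) E1 E2 F1 F2 a b * X -
      X * cB (bil G) E1 E2 F1 F2 a b = ((a - b : ℝ) : ℂ) • X := by
    intro h2b hex
    obtain ⟨Y, hY, hY0, hYμ⟩ := hpair _ (by push_cast; exact hab2) hex
    obtain ⟨X, hX, hX0, hXμ⟩ := hex
    obtain ⟨p, rfl⟩ := shape_d fr ha hab h2b (hsk X hX) hXμ
    obtain ⟨r, rfl⟩ := shape_d fr' ha hab h2b (hsk Y hY) (neg_eig hYμ)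
    have hp : p ≠ 0 := fun h0 => hX0 (by rw [h0, zero_smul])
    have hr : r ≠ 0 := fun h0 => hY0 (by rw [h0, zero_smul])
    have hX1 := (L.smul_mem_iff hp).1 hX
    have hY1 := (L.smul_mem_iff hr).1 hY
    have h1 := hbr _ hX1 _ hY1
    rw [wed_comm (wed_skew hs E1 F2), wed_apply, wed_apply, fr.f21, fr.m11, fr.n22, fr.e12,
      zero_smul, zero_smul, one_smul, one_smul, zero_sub, sub_zero, wed_swap F1 E1,
      ← neg_one_smul ℂ F2, wed_smul_left, wed_swap F2 E2] at h1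
    apply hc1
    have h2 : wed (bil G) E1 F1 = ((a : ℂ) + b)⁻¹ • (cB (bil G) E1 E2 F1 F2 a b +
        (-b : ℂ) • ((-1 : ℂ) • -wed (bil G) E2 F2 + -wed (bil G) E1 F1)) := by
      have h3 : cB (bil G) E1 E2 F1 F2 a b +
        (-b : ℂ) • ((-1 : ℂ) • -wed (bil G) E2 F2 + -wed (bil G) E1 F1) =
        ((a : ℂ) + b) • wed (bil G) E1 F1 := by rw [cB]; module
      rw [h3, smul_smul, inv_mul_cancel₀ hab1, one_smul]
    rw [h2]
    exact L.smul_mem _ (L.add_mem hB' (L.smul_mem _ h1))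
  have hP : ∀ Y ∈ L, ∀ μ : ℂ,
      cB (bil G) E1 E2 F1 F2 a b * Y - Y * cB (bil G) E1 E2 F1 F2 a b = μ • Y →
      Y ≠ 0 → μ = 0 ∨ (a = 2 * b ∧ (μ = b ∨ μ = -b)) := by
    intro Y hY μ hμ hY0
    rcases shape_other fr (hsk Y hY) hμ hY0 with h | (h | h) | (h | h) | (h | h) | (h | h)
    · exact Or.inl h
    · subst h
      exact absurd ⟨Y, hY, hY0, hμ⟩ A1
    · subst h
      have h1 := hpair _ (neg_ne_zero.2 (by push_cast; exact hab1)) ⟨Y, hY, hY0, hμ⟩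
      rw [neg_neg] at h1
      exact absurd h1 A1
    · subst h
      exact absurd ⟨Y, hY, hY0, hμ⟩ A2
    · subst h
      have h1 := hpair _ (neg_ne_zero.2 ha0) ⟨Y, hY, hY0, hμ⟩
      rw [neg_neg] at h1
      exact absurd h1 A2
    · by_cases h2b : a = 2 * b
      · exact Or.inr ⟨h2b, Or.inl h⟩
      · subst h
        exact absurd ⟨Y, hY, hY0, hμ⟩ (A3 h2b)
    · by_cases h2b : a = 2 * b
      · exact Or.inr ⟨h2b, Or.inr h⟩
      · subst h
        have h1 := hpair _ (neg_ne_zero.2 hb0) ⟨Y, hY, hY0, hμ⟩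
        rw [neg_neg] at h1
        exact absurd h1 (A3 h2b)
    · by_cases h2b : a = 2 * b
      · exact Or.inr ⟨h2b, Or.inl (by rw [h, h2b]; push_cast; ring)⟩
      · subst h
        exact absurd ⟨Y, hY, hY0, hμ⟩ (A4 h2b)
    · by_cases h2b : a = 2 * b
      · exact Or.inr ⟨h2b, Or.inr (by rw [h, h2b]; push_cast; ring)⟩
      · subst h
        have h1 := hpair _ (neg_ne_zero.2 (by push_cast; exact hab2)) ⟨Y, hY, hY0, hμ⟩
        rw [neg_neg] at h1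
        exact absurd h1 (A4 h2b)
  have hgr' : ∀ X ∈ L, X ∈ Submodule.span ℂ {Y | Y ∈ L ∧ ∃ μ : ℂ,
      cB (bil G) F1 F2 E1 E2 a b * Y - Y * cB (bil G) F1 F2 E1 E2 a b = μ • Y} :=
    fun X hX => grade L _ (fun Y hY => hbr _ hB'' Y hY) (cB_span fr' a b) X hX
  have hP' : ∀ Y ∈ L, ∀ μ : ℂ,
      cB (bil G) F1 F2 E1 E2 a b * Y - Y * cB (bil G) F1 F2 E1 E2 a b = μ • Y →
      Y ≠ 0 → μ = 0 ∨ (a = 2 * b ∧ (μ = b ∨ μ = -b)) := by
    intro Y hY μ hμ hY0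
    rcases hP Y hY (-μ) (neg_eig (by rw [neg_neg]; exact hμ)) hY0 with h1 | ⟨h2, h1 | h1⟩
    · exact Or.inl (neg_eq_zero.1 h1)
    · exact Or.inr ⟨h2, Or.inr (by rw [← h1, neg_neg])⟩
    · exact Or.inr ⟨h2, Or.inl (neg_injective h1)⟩
  have hwt : ∀ u, CT (bil G) E1 E2 F1 F2 u → cB (bil G) E1 E2 F1 F2 a b * wed (bil G) E1 u -
      wed (bil G) E1 u * cB (bil G) E1 E2 F1 F2 a b = ((a : ℝ) : ℂ) • wed (bil G) E1 u := by
    intro u hu
    rw [wed_comm (cB_skew fr a b), cB_E1 fr, cB_T hu, wed_zero_right, wed_smul_left, add_zero]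
  have hwt' : ∀ u, CT (bil G) F1 F2 E1 E2 u → cB (bil G) F1 F2 E1 E2 a b * wed (bil G) F1 u -
      wed (bil G) F1 u * cB (bil G) F1 F2 E1 E2 a b = ((a : ℝ) : ℂ) • wed (bil G) F1 u := by
    intro u hu
    rw [wed_comm (cB_skew fr' a b), cB_E1 fr', cB_T hu, wed_zero_right, wed_smul_left, add_zero]
  have hno : ∀ u, CT (bil G) E1 E2 F1 F2 u → wed (bil G) E1 u ∈ L → u = 0 := by
    intro u hu hL
    by_contra hu0
    refine A2 ⟨_, hL, fun h0 => hu0 ?_, hwt u hu⟩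
    have h1 := congrArg (fun T : Module.End ℂ (Fin n → ℂ) => T F1) h0
    simp only [wed_apply, LinearMap.zero_apply, hs u F1, hu.2.2.1, fr.m11, zero_smul, one_smul,
      zero_sub, neg_eq_zero] at h1
    exact h1
  have hno' : ∀ u, CT (bil G) F1 F2 E1 E2 u → wed (bil G) F1 u ∈ L → u = 0 := by
    intro u hu hL
    by_contra hu0
    have h2 := neg_eig (q := bil G) (E1 := F1) (E2 := F2) (F1 := E1) (F2 := E2) (a := a) (b := b)
      (X := wed (bil G) F1 u) (μ := -((a : ℝ) : ℂ)) (by rw [neg_neg]; exact hwt' u hu)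
    have h3 := hpair _ (neg_ne_zero.2 ha0) ⟨_, hL, fun h0 => hu0 ?_, h2⟩
    · rw [neg_neg] at h3
      exact A2 h3
    · have h1 := congrArg (fun T : Module.End ℂ (Fin n → ℂ) => T E1) h0
      simp only [wed_apply, LinearMap.zero_apply, hs u E1, hu.2.2.1, fr'.m11, zero_smul, one_smul,
        zero_sub, neg_eq_zero] at h1
      exact h1
  obtain ⟨h2b, u0, hu0, hu0L⟩ := long_part fr ha hab L hsk hirr hgr hP
  obtain ⟨-, v0, hv0, hv0L⟩ := long_part fr' ha hab L hsk hirr hgr' hP'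
  have hu0s : star u0 = u0 := by
    have h1 := hst E1 F2 E2 u0 1 s1 s4 s2 (by rw [one_smul]; exact hu0L)
    have h2 := uniq_raise fr L hbr hno hu0 hu0L (hCTs u0 hu0) h1
    rw [h2, star_one, one_smul]
  have hfin := last_case fr ha hab h2b L hbr hsk hirr hgr hP hno hno' hu0 hu0L hv0 hv0L
    (hdf u0 hu0 hu0s)
  rw [hfd] at hfin
  omega

end Pool.Agent.KS
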