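import Pool.Agent.KS.Kill

/-!
Auxiliary algebra for module CaseC: the shape of the eigenvectors of `ad B` in the skew operators.
-/

namespace Pool.Agent.KS.CCx

open Module Matrix

section alg

variable {V : Type} [AddCommGroup V] [Module ℂ V]

/-- skew operators -/
def CSk (q : LinearMap.BilinForm ℂ V) (X : Module.End ℂ V) : Prop :=
  ∀ u v, q (X u) v + q u (X v) = 0

/-- frames -/
structure CFr (q : LinearMap.BilinForm ℂ V) (E1 E2 F1 F2 : V) : Prop where
  s : ∀ x y, q x y = q y x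
  e11 : q E1 E1 = 0
  e12 : q E1 E2 = 0
  e21 : q E2 E1 = 0
  e22 : q E2 E2 = 0
  f11 : q F1 F1 = 0
  f12 : q F1 F2 = 0
  f21 : q F2 F1 = 0
  f22 : q F2 F2 = 0
  m11 : q E1 F1 = 1
  m12 : q E1 F2 = 0
  m21 : q E2 F1 = 0
  m22 : q E2 F2 = 1
  n11 : q F1 E1 = 1
  n12 : q F1 E2 = 0
  n21 : q F2 E1 = 0
  n22 : q F2 E2 = 1

variable {q : LinearMap.BilinForm ℂ V} {E1 E2 F1 F2 : V}

lemma CFr.symm (h : CFr q E1 E2 F1 F2) : CFr q F1 F2 E1 E2 :=
  ⟨h.s, h.f11, h.f12, h.f21, h.f22, h.e11, h.e12, h.e21, h.e22, h.n11, h.n12, h.n21, h.n22,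
    h.m11, h.m12, h.m21, h.m22⟩

/-- the orthogonal of the frame -/
def CT (q : LinearMap.BilinForm ℂ V) (E1 E2 F1 F2 : V) (x : V) : Prop :=
  q E1 x = 0 ∧ q E2 x = 0 ∧ q F1 x = 0 ∧ q F2 x = 0

lemma CT.symm {x : V} (h : CT q E1 E2 F1 F2 x) : CT q F1 F2 E1 E2 x :=
  ⟨h.2.2.1, h.2.2.2, h.1, h.2.1⟩

/-- the projection to the orthogonal of the frame -/
noncomputable def cpi (q : LinearMap.BilinForm ℂ V) (E1 E2 F1 F2 : V) : Module.End ℂ V :=
  1 - (q F1).smulRight E1 - (q F2).smulRight E2 - (q E1).smulRight F1 - (q E2).smulRight F2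

lemma cpi_apply (x : V) : cpi q E1 E2 F1 F2 x =
    x - q F1 x • E1 - q F2 x • E2 - q E1 x • F1 - q E2 x • F2 := rfl

lemma cpi_exp (x : V) : x = q F1 x • E1 + q F2 x • E2 + q E1 x • F1 + q E2 x • F2 +
    cpi q E1 E2 F1 F2 x := by
  rw [cpi_apply]; abel

lemma cpi_mem (h : CFr q E1 E2 F1 F2) (x : V) : CT q E1 E2 F1 F2 (cpi q E1 E2 F1 F2 x) := by
  simp only [CT, cpi_apply, map_sub, map_smul, smul_eq_mul, h.e11, h.e12, h.e21, h.e22, h.f11,
    h.f12, h.f21, h.f22, h.m11, h.m12, h.m21, h.m22, h.n11, h.n12, h.n21, h.n22]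
  refine ⟨by ring, by ring, by ring, by ring⟩

lemma cpi_of_mem {x : V} (hx : CT q E1 E2 F1 F2 x) : cpi q E1 E2 F1 F2 x = x := by
  obtain ⟨h1, h2, h3, h4⟩ := hx
  simp [cpi_apply, h1, h2, h3, h4]

lemma wed_add_right (x y y' : V) : wed q x (y + y') = wed q x y + wed q x y' := by
  ext z; simp only [wed_apply, LinearMap.add_apply, map_add, add_smul, smul_add]; abel

lemma wed_smul_right (c : ℂ) (x y : V) : wed q x (c • y) = c • wed q x y := by
  ext z; simp only [wed_apply, LinearMap.smul_apply, map_smul, smul_eq_mul]; module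

lemma wed_smul_left (c : ℂ) (x y : V) : wed q (c • x) y = c • wed q x y := by
  ext z; simp only [wed_apply, LinearMap.smul_apply, map_smul, smul_eq_mul]; module

lemma wed_sub_right (x y y' : V) : wed q x (y - y') = wed q x y - wed q x y' := by
  ext z; simp only [wed_apply, LinearMap.sub_apply, map_sub, sub_smul, smul_sub]; abel

lemma wed_neg_right (x y : V) : wed q x (-y) = - wed q x y := by
  ext z; simp only [wed_apply, LinearMap.neg_apply, map_neg, neg_smul, smul_neg]; abel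

lemma wed_self (x : V) : wed q x x = 0 := by
  ext z; simp only [wed_apply, sub_self, LinearMap.zero_apply]

lemma wed_swap (x y : V) : wed q x y = - wed q y x := by
  ext z; simp only [wed_apply, LinearMap.neg_apply]; abel

lemma wed_zero_right (x : V) : wed q x 0 = 0 := by
  ext z; simp [wed_apply]

lemma wed_zero_left (x : V) : wed q 0 x = 0 := by
  ext z; simp [wed_apply]

lemma wed_skew (hs : ∀ x y, q x y = q y x) (x y : V) : CSk q (wed q x y) := by
  intro u v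
  simp only [wed_apply, map_sub, map_smul, LinearMap.sub_apply, LinearMap.smul_apply, smul_eq_mul]
  rw [hs u x, hs u y]; ring

/-- commutators with `wed` -/
lemma wed_comm {X : Module.End ℂ V} (hX : CSk q X) (x y : V) :
    X * wed q x y - wed q x y * X = wed q (X x) y + wed q x (X y) := by
  ext z
  simp only [wed_apply, LinearMap.sub_apply, Module.End.mul_apply, map_sub, map_smul,
    LinearMap.add_apply]
  have h1 : q y (X z) = - q (X y) z := by linear_combination hX y z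
  have h2 : q x (X z) = - q (X x) z := by linear_combination hX x z
  rw [h1, h2]
  module

/-- the expansion of a skew operator -/
lemma sk_expand (h : CFr q E1 E2 F1 F2) {X : Module.End ℂ V} (hX : CSk q X) :
    X = (-q (X F1) F2) • wed q E1 E2 + (-q (X E1) E2) • wed q F1 F2 +
      (-q (X F1) E2) • wed q E1 F2 + (-q (X E1) F2) • wed q F1 E2 +
      (-q (X F1) E1) • wed q E1 F1 + (-q (X F2) E2) • wed q E2 F2 +
      wed q E1 (-cpi q E1 E2 F1 F2 (X F1)) + wed q E2 (-cpi q E1 E2 F1 F2 (X F2)) +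
      wed q F1 (-cpi q E1 E2 F1 F2 (X E1)) + wed q F2 (-cpi q E1 E2 F1 F2 (X E2)) +
      cpi q E1 E2 F1 F2 * X * cpi q E1 E2 F1 F2 := by
  have hself : ∀ u, q (X u) u = 0 := fun u => by
    have h1 := hX u u
    rw [h.s u (X u)] at h1
    linear_combination (1 / 2) * h1
  have hsw : ∀ u v, q (X u) v = - q (X v) u := fun u v => by
    have h1 := hX u v
    rw [h.s u (X v)] at h1
    linear_combination h1
  ext z
  have hz := cpi_exp (q := q) (E1 := E1) (E2 := E2) (F1 := F1) (F2 := F2) z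
  set P := cpi q E1 E2 F1 F2 with hP
  have hPm := cpi_mem h z
  rw [← hP] at hPm
  have hX1 := cpi_exp (q := q) (E1 := E1) (E2 := E2) (F1 := F1) (F2 := F2) (X E1)
  have hX2 := cpi_exp (q := q) (E1 := E1) (E2 := E2) (F1 := F1) (F2 := F2) (X E2)
  have hX3 := cpi_exp (q := q) (E1 := E1) (E2 := E2) (F1 := F1) (F2 := F2) (X F1)
  have hX4 := cpi_exp (q := q) (E1 := E1) (E2 := E2) (F1 := F1) (F2 := F2) (X F2)
  have hX5 := cpi_exp (q := q) (E1 := E1) (E2 := E2) (F1 := F1) (F2 := F2) (X (P z))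
  rw [← hP] at hX1 hX2 hX3 hX4 hX5
  have hE : X z = q F1 z • X E1 + q F2 z • X E2 + q E1 z • X F1 + q E2 z • X F2 + X (P z) := by
    conv_lhs => rw [hz]
    simp only [map_add, map_smul]
  have hPa : ∀ w, q w (P z) = q (P w) z := fun w => by
    simp only [hP, cpi_apply, map_sub, map_smul, LinearMap.sub_apply, LinearMap.smul_apply,
      smul_eq_mul]
    rw [h.s w E1, h.s w E2, h.s w F1, h.s w F2]
    ring
  have hPb : ∀ w, q w (X (P z)) = - q (P (X w)) z := fun w => by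
    rw [← hPa]
    linear_combination hX w (P z)
  rw [hPb, hPb, hPb, hPb] at hX5
  rw [show q F1 (X E1) = - q (X F1) E1 by linear_combination hX F1 E1, h.s F2 (X E1),
    h.s E1 (X E1), hself E1, h.s E2 (X E1)] at hX1
  rw [show q F1 (X E2) = - q (X F1) E2 by linear_combination hX F1 E2,
    show q F2 (X E2) = - q (X F2) E2 by linear_combination hX F2 E2, h.s E1 (X E2), hsw E2 E1,
    h.s E2 (X E2), hself E2] at hX2
  rw [h.s F1 (X F1), hself F1, h.s F2 (X F1), h.s E1 (X F1), h.s E2 (X F1)] at hX3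
  rw [h.s F1 (X F2), hsw F2 F1, h.s F2 (X F2), hself F2,
    show q E1 (X F2) = - q (X E1) F2 by linear_combination hX E1 F2, h.s E2 (X F2)] at hX4
  simp only [LinearMap.add_apply, LinearMap.smul_apply, wed_apply, map_neg, LinearMap.neg_apply,
    Module.End.mul_apply]
  linear_combination (norm := module) hE + q F1 z • hX1 + q F2 z • hX2 + q E1 z • hX3 +
    q E2 z • hX4 + hX5

/-- the grading operator -/
noncomputable def cB (q : LinearMap.BilinForm ℂ V) (E1 E2 F1 F2 : V) (a b : ℝ) :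
    Module.End ℂ V := (a : ℂ) • wed q E1 F1 + (b : ℂ) • wed q E2 F2

lemma cB_symm (a b : ℝ) : cB q F1 F2 E1 E2 a b = - cB q E1 E2 F1 F2 a b := by
  rw [cB, cB, wed_swap F1 E1, wed_swap F2 E2]; module

lemma cB_apply (a b : ℝ) (z : V) : cB q E1 E2 F1 F2 a b z =
    (a : ℂ) • (q F1 z • E1 - q E1 z • F1) + (b : ℂ) • (q F2 z • E2 - q E2 z • F2) := rfl

lemma cB_E1 (h : CFr q E1 E2 F1 F2) (a b : ℝ) : cB q E1 E2 F1 F2 a b E1 = (a : ℂ) • E1 := by
  rw [cB_apply, h.n11, h.e11, h.n21, h.e21]; module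

lemma cB_E2 (h : CFr q E1 E2 F1 F2) (a b : ℝ) : cB q E1 E2 F1 F2 a b E2 = (b : ℂ) • E2 := by
  rw [cB_apply, h.n12, h.e12, h.n22, h.e22]; module

lemma cB_F1 (h : CFr q E1 E2 F1 F2) (a b : ℝ) : cB q E1 E2 F1 F2 a b F1 = (-a : ℂ) • F1 := by
  rw [cB_apply, h.f11, h.m11, h.f21, h.m21]; module

lemma cB_F2 (h : CFr q E1 E2 F1 F2) (a b : ℝ) : cB q E1 E2 F1 F2 a b F2 = (-b : ℂ) • F2 := by
  rw [cB_apply, h.f12, h.m12, h.f22, h.m22]; module

lemma cB_T {x : V} (hx : CT q E1 E2 F1 F2 x) (a b : ℝ) : cB q E1 E2 F1 F2 a b x = 0 := by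
  rw [cB_apply, hx.1, hx.2.1, hx.2.2.1, hx.2.2.2]; module

lemma cB_skew (h : CFr q E1 E2 F1 F2) (a b : ℝ) : CSk q (cB q E1 E2 F1 F2 a b) := by
  intro u v
  have h1 := wed_skew h.s E1 F1 u v
  have h2 := wed_skew h.s E2 F2 u v
  simp only [cB, LinearMap.add_apply, LinearMap.smul_apply, map_add, map_smul, smul_eq_mul]
  linear_combination (a : ℂ) * h1 + (b : ℂ) * h2

lemma cpi_cB (h : CFr q E1 E2 F1 F2) (a b : ℝ) (x : V) :
    cpi q E1 E2 F1 F2 (cB q E1 E2 F1 F2 a b x) = 0 := by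
  rw [cB_apply, cpi_apply]
  simp only [map_add, map_sub, map_smul, smul_eq_mul, h.e11, h.e12, h.e21, h.e22, h.f11,
    h.f12, h.f21, h.f22, h.m11, h.m12, h.m21, h.m22, h.n11, h.n12, h.n21, h.n22]
  module

/-- the pairing of weight vectors -/
lemma sk_pair (h : CFr q E1 E2 F1 F2) {a b : ℝ} {X : Module.End ℂ V} {μ : ℂ}
    (hμ : cB q E1 E2 F1 F2 a b * X - X * cB q E1 E2 F1 F2 a b = μ • X) {v w : V} {r s : ℂ}
    (hv : cB q E1 E2 F1 F2 a b v = r • v) (hw : cB q E1 E2 F1 F2 a b w = s • w) :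
    (μ + r + s) * q (X v) w = 0 := by
  have h1 := congrArg (fun T : Module.End ℂ V => q (T v) w) hμ
  simp only [LinearMap.sub_apply, Module.End.mul_apply, LinearMap.smul_apply, hv, map_smul,
    map_sub, smul_eq_mul] at h1
  have h2 := cB_skew h a b (X v) w
  rw [hw, map_smul, smul_eq_mul] at h2
  linear_combination h2 - h1

lemma sk_proj (h : CFr q E1 E2 F1 F2) {a b : ℝ} {X : Module.End ℂ V} {μ : ℂ}
    (hμ : cB q E1 E2 F1 F2 a b * X - X * cB q E1 E2 F1 F2 a b = μ • X) {v : V} {r : ℂ}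
    (hv : cB q E1 E2 F1 F2 a b v = r • v) : (μ + r) • cpi q E1 E2 F1 F2 (X v) = 0 := by
  have h1 := congrArg (fun T : Module.End ℂ V => cpi q E1 E2 F1 F2 (T v)) hμ
  simp only [LinearMap.sub_apply, Module.End.mul_apply, LinearMap.smul_apply, hv, map_smul,
    map_sub, cpi_cB h] at h1
  linear_combination (norm := module) -h1

/-- the shape of the eigenvectors of the adjoint action -/
theorem sk_shape (h : CFr q E1 E2 F1 F2) {a b : ℝ} {X : Module.End ℂ V} (hX : CSk q X) {μ : ℂ}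
    (hμ : cB q E1 E2 F1 F2 a b * X - X * cB q E1 E2 F1 F2 a b = μ • X) (hμ0 : μ ≠ 0) :
    ∃ (p1 p2 p3 p4 : ℂ) (u1 u2 v1 v2 : V), CT q E1 E2 F1 F2 u1 ∧ CT q E1 E2 F1 F2 u2 ∧
      CT q E1 E2 F1 F2 v1 ∧ CT q E1 E2 F1 F2 v2 ∧ (μ - a - b) * p1 = 0 ∧ (μ + a + b) * p2 = 0 ∧
      (μ - a + b) * p3 = 0 ∧ (μ + a - b) * p4 = 0 ∧ (μ - a) • u1 = 0 ∧ (μ - b) • u2 = 0 ∧
      (μ + a) • v1 = 0 ∧ (μ + b) • v2 = 0 ∧
      X = p1 • wed q E1 E2 + p2 • wed q F1 F2 + p3 • wed q E1 F2 + p4 • wed q F1 E2 +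
        wed q E1 u1 + wed q E2 u2 + wed q F1 v1 + wed q F2 v2 := by
  have hE1 := cB_E1 h a b
  have hE2 := cB_E2 h a b
  have hF1 := cB_F1 h a b
  have hF2 := cB_F2 h a b
  have hneg : ∀ x, CT q E1 E2 F1 F2 x → CT q E1 E2 F1 F2 (-x) := fun x hx => by
    obtain ⟨h1, h2, h3, h4⟩ := hx
    refine ⟨?_, ?_, ?_, ?_⟩ <;> simp [h1, h2, h3, h4]
  have hz : ∀ x : V, (0 : V) = μ • cpi q E1 E2 F1 F2 (X (cpi q E1 E2 F1 F2 x)) := fun x => by
    have h1 := sk_proj h hμ (v := cpi q E1 E2 F1 F2 x) (r := 0)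
      (by rw [cB_T (cpi_mem h x), zero_smul])
    rw [add_zero] at h1
    exact h1.symm
  have hP : cpi q E1 E2 F1 F2 * X * cpi q E1 E2 F1 F2 = 0 := by
    ext x
    exact (smul_eq_zero.1 (hz x).symm).resolve_left hμ0
  have hd1 : q (X F1) E1 = 0 := by
    have h1 := sk_pair h hμ hF1 hE1
    have h2 : μ * q (X F1) E1 = 0 := by linear_combination h1
    exact (mul_eq_zero.1 h2).resolve_left hμ0
  have hd2 : q (X F2) E2 = 0 := by
    have h1 := sk_pair h hμ hF2 hE2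
    have h2 : μ * q (X F2) E2 = 0 := by linear_combination h1
    exact (mul_eq_zero.1 h2).resolve_left hμ0
  refine ⟨-q (X F1) F2, -q (X E1) E2, -q (X F1) E2, -q (X E1) F2, _, _, _, _,
    hneg _ (cpi_mem h (X F1)), hneg _ (cpi_mem h (X F2)), hneg _ (cpi_mem h (X E1)),
    hneg _ (cpi_mem h (X E2)), ?_, ?_, ?_, ?_, ?_, ?_, ?_, ?_, ?_⟩
  · linear_combination - sk_pair h hμ hF1 hF2
  · linear_combination - sk_pair h hμ hE1 hE2
  · linear_combination - sk_pair h hμ hF1 hE2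
  · linear_combination - sk_pair h hμ hE1 hF2
  · linear_combination (norm := module) - sk_proj h hμ hF1
  · linear_combination (norm := module) - sk_proj h hμ hF2
  · linear_combination (norm := module) - sk_proj h hμ hE1
  · linear_combination (norm := module) - sk_proj h hμ hE2
  · conv_lhs => rw [sk_expand h hX, hP, hd1, hd2]
    module

/-- the shape of the centraliser of the grading operator -/
theorem sk_zero (h : CFr q E1 E2 F1 F2) {a b : ℝ} (hb : 0 < b) (hab : b < a)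
    {X : Module.End ℂ V} (hX : CSk q X)
    (hμ : cB q E1 E2 F1 F2 a b * X - X * cB q E1 E2 F1 F2 a b = 0) :
    ∃ c d : ℂ, X E1 = c • E1 ∧ X E2 = d • E2 ∧ X F1 = (-c) • F1 ∧ X F2 = (-d) • F2 ∧
      ∀ x, CT q E1 E2 F1 F2 x → CT q E1 E2 F1 F2 (X x) := by
  have hE1 := cB_E1 h a b
  have hE2 := cB_E2 h a b
  have hF1 := cB_F1 h a b
  have hF2 := cB_F2 h a b
  have hμ' : cB q E1 E2 F1 F2 a b * X - X * cB q E1 E2 F1 F2 a b = (0 : ℂ) • X := by
    rw [hμ, zero_smul]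
  have ha0 : (a : ℂ) ≠ 0 := by exact_mod_cast (hb.trans hab).ne'
  have hb0 : (b : ℂ) ≠ 0 := by exact_mod_cast hb.ne'
  have hab1 : (a : ℂ) + b ≠ 0 := by exact_mod_cast (by linarith : a + b ≠ 0)
  have hab2 : (a : ℂ) - b ≠ 0 := by exact_mod_cast (by linarith : a - b ≠ 0)
  have k1 : q (X F1) F2 = 0 := by
    refine (mul_eq_zero.1 (?_ : ((a : ℂ) + b) * q (X F1) F2 = 0)).resolve_left hab1
    linear_combination - sk_pair h hμ' hF1 hF2
  have k2 : q (X E1) E2 = 0 := by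
    refine (mul_eq_zero.1 (?_ : ((a : ℂ) + b) * q (X E1) E2 = 0)).resolve_left hab1
    linear_combination sk_pair h hμ' hE1 hE2
  have k3 : q (X F1) E2 = 0 := by
    refine (mul_eq_zero.1 (?_ : ((a : ℂ) - b) * q (X F1) E2 = 0)).resolve_left hab2
    linear_combination - sk_pair h hμ' hF1 hE2
  have k4 : q (X E1) F2 = 0 := by
    refine (mul_eq_zero.1 (?_ : ((a : ℂ) - b) * q (X E1) F2 = 0)).resolve_left hab2
    linear_combination sk_pair h hμ' hE1 hF2
  have k5 : cpi q E1 E2 F1 F2 (X F1) = 0 := by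
    refine (smul_eq_zero.1 (?_ : (a : ℂ) • _ = (0 : V))).resolve_left ha0
    linear_combination (norm := module) - sk_proj h hμ' hF1
  have k6 : cpi q E1 E2 F1 F2 (X F2) = 0 := by
    refine (smul_eq_zero.1 (?_ : (b : ℂ) • _ = (0 : V))).resolve_left hb0
    linear_combination (norm := module) - sk_proj h hμ' hF2
  have k7 : cpi q E1 E2 F1 F2 (X E1) = 0 := by
    refine (smul_eq_zero.1 (?_ : (a : ℂ) • _ = (0 : V))).resolve_left ha0
    linear_combination (norm := module) sk_proj h hμ' hE1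
  have k8 : cpi q E1 E2 F1 F2 (X E2) = 0 := by
    refine (smul_eq_zero.1 (?_ : (b : ℂ) • _ = (0 : V))).resolve_left hb0
    linear_combination (norm := module) sk_proj h hμ' hE2
  have hexp := sk_expand h hX
  simp only [k1, k2, k3, k4, k5, k6, k7, k8, neg_zero, wed_zero_right, neg_zero (G := V)] at hexp
  have hexp' : ∀ z, X z = (-q (X F1) E1) • (q F1 z • E1 - q E1 z • F1) +
      (-q (X F2) E2) • (q F2 z • E2 - q E2 z • F2) +
      cpi q E1 E2 F1 F2 (X (cpi q E1 E2 F1 F2 z)) := fun z => by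
    have h1 := congrArg (fun T : Module.End ℂ V => T z) hexp
    simp only [LinearMap.add_apply, LinearMap.smul_apply, wed_apply, Module.End.mul_apply,
      zero_smul, zero_add, add_zero] at h1
    exact h1
  have c1 : cpi q E1 E2 F1 F2 E1 = 0 := by
    rw [cpi_apply, h.n11, h.e11, h.n21, h.e21]; module
  have c2 : cpi q E1 E2 F1 F2 E2 = 0 := by
    rw [cpi_apply, h.n12, h.e12, h.n22, h.e22]; module
  have c3 : cpi q E1 E2 F1 F2 F1 = 0 := by
    rw [cpi_apply, h.f11, h.m11, h.f21, h.m21]; module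
  have c4 : cpi q E1 E2 F1 F2 F2 = 0 := by
    rw [cpi_apply, h.f12, h.m12, h.f22, h.m22]; module
  refine ⟨-q (X F1) E1, -q (X F2) E2, ?_, ?_, ?_, ?_, fun x hx => ?_⟩
  · refine (hexp' E1).trans ?_; rw [c1, h.n11, h.e11, h.n21, h.e21, map_zero, map_zero]; module
  · refine (hexp' E2).trans ?_; rw [c2, h.n12, h.e12, h.n22, h.e22, map_zero, map_zero]; module
  · refine (hexp' F1).trans ?_; rw [c3, h.f11, h.m11, h.f21, h.m21, map_zero, map_zero]; module
  · refine (hexp' F2).trans ?_; rw [c4, h.f12, h.m12, h.f22, h.m22, map_zero, map_zero]; module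
  · rw [hexp' x, hx.1, hx.2.1, hx.2.2.1, hx.2.2.2]
    have h1 := cpi_mem h (X (cpi q E1 E2 F1 F2 x))
    simpa using h1

/-- cancel a non-zero real number -/
lemma kz {r : ℝ} (hr : r ≠ 0) {c p : ℂ} (hc : c = (r : ℂ)) (h : c * p = 0) : p = 0 := by
  rw [hc] at h
  exact (mul_eq_zero.1 h).resolve_left (by exact_mod_cast hr)

lemma kzv {r : ℝ} (hr : r ≠ 0) {c : ℂ} {p : V} (hc : c = (r : ℂ)) (h : c • p = 0) : p = 0 := by
  rw [hc] at h
  exact (smul_eq_zero.1 h).resolve_left (by exact_mod_cast hr)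

lemma shape_ab (h : CFr q E1 E2 F1 F2) {a b : ℝ} (hb : 0 < b) (hab : b < a)
    {X : Module.End ℂ V} (hX : CSk q X)
    (hμ : cB q E1 E2 F1 F2 a b * X - X * cB q E1 E2 F1 F2 a b = ((a + b : ℝ) : ℂ) • X) :
    ∃ p : ℂ, X = p • wed q E1 E2 := by
  obtain ⟨p1, p2, p3, p4, u1, u2, v1, v2, -, -, -, -, -, h2, h3, h4, h5, h6, h7, h8, hXX⟩ :=
    sk_shape h hX hμ (by exact_mod_cast (by linarith : 0 < a + b).ne')
  have h2' := kz (r := 2 * a + 2 * b) (by linarith) (by push_cast; ring) h2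
  have h3' := kz (r := 2 * b) (by linarith) (by push_cast; ring) h3
  have h4' := kz (r := 2 * a) (by linarith) (by push_cast; ring) h4
  have h5' := kzv (r := b) (by linarith) (by push_cast; ring) h5
  have h6' := kzv (r := a) (by linarith) (by push_cast; ring) h6
  have h7' := kzv (r := 2 * a + b) (by linarith) (by push_cast; ring) h7
  have h8' := kzv (r := a + 2 * b) (by linarith) (by push_cast; ring) h8
  subst h2' h3' h4' h5' h6' h7' h8'
  refine ⟨p1, hXX.trans ?_⟩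
  simp only [wed_zero_right]
  module

lemma shape_a (h : CFr q E1 E2 F1 F2) {a b : ℝ} (hb : 0 < b) (hab : b < a)
    {X : Module.End ℂ V} (hX : CSk q X)
    (hμ : cB q E1 E2 F1 F2 a b * X - X * cB q E1 E2 F1 F2 a b = ((a : ℝ) : ℂ) • X) :
    ∃ u, CT q E1 E2 F1 F2 u ∧ X = wed q E1 u := by
  obtain ⟨p1, p2, p3, p4, u1, u2, v1, v2, hu1, -, -, -, h1, h2, h3, h4, h5, h6, h7, h8, hXX⟩ :=
    sk_shape h hX hμ (by exact_mod_cast (by linarith : 0 < a).ne')
  have h1' := kz (r := -b) (by linarith) (by push_cast; ring) h1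
  have h2' := kz (r := 2 * a + b) (by linarith) (by push_cast; ring) h2
  have h3' := kz (r := b) (by linarith) (by ring) h3
  have h4' := kz (r := 2 * a - b) (by linarith) (by push_cast; ring) h4
  have h6' := kzv (r := a - b) (by linarith) (by push_cast; ring) h6
  have h7' := kzv (r := 2 * a) (by linarith) (by push_cast; ring) h7
  have h8' := kzv (r := a + b) (by linarith) (by push_cast; ring) h8
  subst h1' h2' h3' h4' h6' h7' h8'
  refine ⟨u1, hu1, hXX.trans ?_⟩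
  simp only [wed_zero_right]
  module

lemma shape_b (h : CFr q E1 E2 F1 F2) {a b : ℝ} (hb : 0 < b) (hab : b < a)
    {X : Module.End ℂ V} (hX : CSk q X)
    (hμ : cB q E1 E2 F1 F2 a b * X - X * cB q E1 E2 F1 F2 a b = ((b : ℝ) : ℂ) • X) :
    ∃ (p : ℂ) (u : V), CT q E1 E2 F1 F2 u ∧ (a ≠ 2 * b → p = 0) ∧
      X = p • wed q E1 F2 + wed q E2 u := by
  obtain ⟨p1, p2, p3, p4, u1, u2, v1, v2, -, hu2, -, -, h1, h2, h3, h4, h5, h6, h7, h8, hXX⟩ :=
    sk_shape h hX hμ (by exact_mod_cast (by linarith : 0 < b).ne')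
  have h1' := kz (r := -a) (by linarith) (by push_cast; ring) h1
  have h2' := kz (r := 2 * b + a) (by linarith) (by push_cast; ring) h2
  have h4' := kz (r := a) (by linarith) (by ring) h4
  have h5' := kzv (r := b - a) (by linarith) (by push_cast; ring) h5
  have h7' := kzv (r := a + b) (by linarith) (by push_cast; ring) h7
  have h8' := kzv (r := 2 * b) (by linarith) (by push_cast; ring) h8
  subst h1' h2' h4' h5' h7' h8'
  refine ⟨p3, u2, hu2, fun hab2 => kz (r := 2 * b - a) (fun h0 => hab2 (by linarith))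
    (by push_cast; ring) h3, hXX.trans ?_⟩
  simp only [wed_zero_right]
  module

lemma shape_d (h : CFr q E1 E2 F1 F2) {a b : ℝ} (hb : 0 < b) (hab : b < a)
    (h2b : a ≠ 2 * b) {X : Module.End ℂ V} (hX : CSk q X)
    (hμ : cB q E1 E2 F1 F2 a b * X - X * cB q E1 E2 F1 F2 a b = ((a - b : ℝ) : ℂ) • X) :
    ∃ p : ℂ, X = p • wed q E1 F2 := by
  obtain ⟨p1, p2, p3, p4, u1, u2, v1, v2, -, hu2, -, -, h1, h2, h3, h4, h5, h6, h7, h8, hXX⟩ :=
    sk_shape h hX hμ (by exact_mod_cast (by linarith : 0 < a - b).ne')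
  have h1' := kz (r := - (2 * b)) (by linarith) (by push_cast; ring) h1
  have h2' := kz (r := 2 * a) (by linarith) (by push_cast; ring) h2
  have h4' := kz (r := 2 * a - 2 * b) (by linarith) (by push_cast; ring) h4
  have h5' := kzv (r := - b) (by linarith) (by push_cast; ring) h5
  have h6' := kzv (r := a - 2 * b) (fun h0 => h2b (by linarith)) (by push_cast; ring) h6
  have h7' := kzv (r := 2 * a - b) (by linarith) (by push_cast; ring) h7
  have h8' := kzv (r := a) (by linarith) (by push_cast; ring) h8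
  subst h1' h2' h4' h5' h6' h7' h8'
  refine ⟨p3, hXX.trans ?_⟩
  simp only [wed_zero_right]
  module

lemma shape_other (h : CFr q E1 E2 F1 F2) {a b : ℝ} {X : Module.End ℂ V} (hX : CSk q X) {μ : ℂ}
    (hμ : cB q E1 E2 F1 F2 a b * X - X * cB q E1 E2 F1 F2 a b = μ • X) (hX0 : X ≠ 0) :
    μ = 0 ∨ (μ = ((a + b : ℝ) : ℂ) ∨ μ = -((a + b : ℝ) : ℂ)) ∨
      (μ = ((a : ℝ) : ℂ) ∨ μ = -((a : ℝ) : ℂ)) ∨ (μ = ((b : ℝ) : ℂ) ∨ μ = -((b : ℝ) : ℂ)) ∨
      (μ = ((a - b : ℝ) : ℂ) ∨ μ = -((a - b : ℝ) : ℂ)) := by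
  by_contra hcon
  simp only [not_or] at hcon
  obtain ⟨c0, ⟨c1, c2⟩, ⟨c3, c4⟩, ⟨c5, c6⟩, ⟨c7, c8⟩⟩ := hcon
  obtain ⟨p1, p2, p3, p4, u1, u2, v1, v2, -, hu2, -, -, h1, h2, h3, h4, h5, h6, h7, h8, hXX⟩ :=
    sk_shape h hX hμ c0
  push_cast at c1 c2 c3 c4 c5 c6 c7 c8
  have h1' := (mul_eq_zero.1 h1).resolve_left (fun h0 => c1 (by linear_combination h0))
  have h2' := (mul_eq_zero.1 h2).resolve_left (fun h0 => c2 (by linear_combination h0))
  have h3' := (mul_eq_zero.1 h3).resolve_left (fun h0 => c7 (by linear_combination h0))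
  have h4' := (mul_eq_zero.1 h4).resolve_left (fun h0 => c8 (by linear_combination h0))
  have h5' := (smul_eq_zero.1 h5).resolve_left (fun h0 => c3 (by linear_combination h0))
  have h6' := (smul_eq_zero.1 h6).resolve_left (fun h0 => c5 (by linear_combination h0))
  have h7' := (smul_eq_zero.1 h7).resolve_left (fun h0 => c4 (by linear_combination h0))
  have h8' := (smul_eq_zero.1 h8).resolve_left (fun h0 => c6 (by linear_combination h0))
  subst h1' h2' h3' h4' h5' h6' h7' h8'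
  apply hX0
  rw [hXX]
  simp only [wed_zero_right]
  module

/-- the swapped frame -/
lemma neg_eig {a b : ℝ} {X : Module.End ℂ V} {μ : ℂ}
    (hμ : cB q E1 E2 F1 F2 a b * X - X * cB q E1 E2 F1 F2 a b = -μ • X) :
    cB q F1 F2 E1 E2 a b * X - X * cB q F1 F2 E1 E2 a b = μ • X := by
  rw [cB_symm, neg_mul, mul_neg, sub_neg_eq_add, ← neg_neg (μ • X), ← neg_smul, ← hμ]
  abel

/-- two opposite nilpotent elements -/
theorem case_null (hs : ∀ x y, q x y = q y x) (L : Submodule ℂ (Module.End ℂ V))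
    (hbr : ∀ X ∈ L, ∀ Y ∈ L, X * Y - Y * X ∈ L) {E F u v : V} (hEE : q E E = 0) (hEF : q E F = 1) (hEu : q E u = 0) (hFu : q F u = 0) (hEv : q E v = 0)
    (hFv : q F v = 0) (huu : q u u ≠ 0) (hvv : q v v ≠ 0) (hu : wed q E u ∈ L)
    (hv : wed q F v ∈ L) : wed q E F ∈ L := by
  have k1 := hbr _ hu _ hv
  have k2 := hbr _ k1 _ hu
  rw [wed_comm (wed_skew hs E u)] at k1 k2
  have e1 : wed q (wed q E u F) v + wed q F (wed q E u v) = - wed q u v - q u v • wed q E F := by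
    rw [wed_apply, wed_apply, hs u F, hFu, hEF, hEv, wed_swap E F]
    rw [zero_smul, zero_smul, zero_sub, sub_zero, wed_smul_right, ← neg_one_smul ℂ (1 • u),
      one_smul, wed_smul_left]
    module
  rw [e1] at k1 k2
  have e2 : CSk q (- wed q u v - q u v • wed q E F) := by
    intro x y
    have h1 := wed_skew hs u v x y
    have h2 := wed_skew hs E F x y
    simp only [LinearMap.sub_apply, LinearMap.smul_apply, LinearMap.neg_apply, map_sub, map_smul,
      map_neg, smul_eq_mul]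
    linear_combination -h1 - q u v * h2
  rw [wed_comm e2] at k2
  have e3 : (- wed q u v - q u v • wed q E F) E = (-q u v) • E := by
    simp only [LinearMap.sub_apply, LinearMap.smul_apply, LinearMap.neg_apply, wed_apply]
    rw [hs v E, hEv, hs u E, hEu, hs F E, hEF, hEE]
    module
  have e4 : (- wed q u v - q u v • wed q E F) u = (-q u v) • u + q u u • v := by
    simp only [LinearMap.sub_apply, LinearMap.smul_apply, LinearMap.neg_apply, wed_apply]
    rw [hs v u, hFu, hEu]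
    module
  rw [e3, e4, wed_smul_left, wed_add_right, wed_smul_right, wed_smul_right] at k2
  have k3 : wed q E v ∈ L := by
    have h1 : wed q E v = (q u u)⁻¹ • (((-q u v) • wed q E u + ((-q u v) • wed q E u +
        q u u • wed q E v)) + (2 * q u v) • wed q E u) := by
      have h2 : ((-q u v) • wed q E u + ((-q u v) • wed q E u +
        q u u • wed q E v)) + (2 * q u v) • wed q E u = q u u • wed q E v := by module
      rw [h2, smul_smul, inv_mul_cancel₀ huu, one_smul]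
    rw [h1]
    exact L.smul_mem _ (L.add_mem k2 (L.smul_mem _ hu))
  have k4 := hbr _ k3 _ hv
  rw [wed_comm (wed_skew hs E v), wed_apply, wed_apply, hs v F, hFv, hEF, hEv, zero_smul,
    zero_sub, one_smul, zero_smul, sub_zero, wed_smul_right, wed_swap (-v) v, wed_neg_right,
    wed_self, neg_zero, neg_zero, zero_add, wed_swap F E] at k4
  have h3 : wed q E F = (-(q v v)⁻¹) • (q v v • -wed q E F) := by
    rw [smul_smul, neg_mul, inv_mul_cancel₀ hvv]
    module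
  rw [h3]
  exact L.smul_mem _ k4

/-- if only few weights occur then a raising operator with non-zero long part exists -/
theorem long_part (h : CFr q E1 E2 F1 F2) {a b : ℝ} (hb : 0 < b) (hab : b < a)
    (L : Submodule ℂ (Module.End ℂ V)) (hsk : ∀ X ∈ L, CSk q X)
    (hirr : ∀ W : Submodule ℂ V, (∀ X ∈ L, ∀ w ∈ W, X w ∈ W) → W = ⊥ ∨ W = ⊤)
    (hgr : ∀ X ∈ L, X ∈ Submodule.span ℂ {Y | Y ∈ L ∧ ∃ μ : ℂ,
      cB q E1 E2 F1 F2 a b * Y - Y * cB q E1 E2 F1 F2 a b = μ • Y})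
    (hP : ∀ Y ∈ L, ∀ μ : ℂ, cB q E1 E2 F1 F2 a b * Y - Y * cB q E1 E2 F1 F2 a b = μ • Y →
      Y ≠ 0 → μ = 0 ∨ (a = 2 * b ∧ (μ = b ∨ μ = -b))) :
    a = 2 * b ∧ ∃ u, CT q E1 E2 F1 F2 u ∧ wed q E1 F2 + wed q E2 u ∈ L := by
  by_contra hcon
  have hE1 : E1 ≠ 0 := fun h0 => by
    have := h.m11
    rw [h0, map_zero, LinearMap.zero_apply] at this
    exact zero_ne_one this
  have hF1 : F1 ≠ 0 := fun h0 => by
    have := h.m11
    rw [h0, map_zero] at this
    exact zero_ne_one this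
  have hst : ∀ X ∈ L, ∀ w ∈ LinearMap.ker (q F1), X w ∈ LinearMap.ker (q F1) := by
    intro X hX w hw
    have hX' := hgr X hX
    clear hX
    rw [LinearMap.mem_ker] at hw ⊢
    induction hX' using Submodule.span_induction with
    | zero => simp
    | add x y _ _ hx hy => rw [LinearMap.add_apply, map_add, hx, hy, add_zero]
    | smul c x _ hx => rw [LinearMap.smul_apply, map_smul, hx, smul_zero]
    | mem Y hY =>
      obtain ⟨hYL, μ, hμ⟩ := hY
      by_cases hY0 : Y = 0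
      · rw [hY0]; simp
      rcases hP Y hYL μ hμ hY0 with h0 | ⟨h2b, h1 | h1⟩
      · rw [h0, zero_smul] at hμ
        obtain ⟨c, d, -, -, h3, -, -⟩ := sk_zero h hb hab (hsk Y hYL) hμ
        have h4 := hsk Y hYL F1 w
        rw [h3, map_smul, LinearMap.smul_apply, hw, smul_zero, zero_add] at h4
        exact h4
      · rw [h1] at hμ
        obtain ⟨p, u, hu, -, hYY⟩ := shape_b h hb hab (hsk Y hYL) hμ
        have hp : p = 0 := by
          by_contra hp
          refine hcon ⟨h2b, p⁻¹ • u, ?_, ?_⟩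
          · obtain ⟨h5, h6, h7, h8⟩ := hu
            refine ⟨?_, ?_, ?_, ?_⟩ <;> simp [h5, h6, h7, h8]
          · rw [wed_smul_right, ← one_smul ℂ (wed q E1 F2), ← inv_mul_cancel₀ hp, mul_smul,
              ← smul_add, ← hYY]
            exact L.smul_mem _ hYL
        rw [hYY, hp, zero_smul, zero_add, wed_apply, map_sub, map_smul, map_smul, h.n12, hu.2.2.1]
        simp
      · rw [h1] at hμ
        obtain ⟨p, u, hu, -, hYY⟩ := shape_b h.symm hb hab (hsk Y hYL) (neg_eig hμ)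
        rw [hYY, LinearMap.add_apply, LinearMap.smul_apply, wed_apply, wed_apply]
        simp only [map_add, map_sub, map_smul, h.n12, h.f11, h.f12, hu.1]
        simp
  rcases hirr _ hst with h1 | h1
  · have h2 : F1 ∈ LinearMap.ker (q F1) := h.f11
    rw [h1, Submodule.mem_bot] at h2
    exact hF1 h2
  · have h2 : E1 ∈ LinearMap.ker (q F1) := h1 ▸ Submodule.mem_top
    rw [LinearMap.mem_ker, h.n11] at h2
    exact one_ne_zero h2

/-- uniqueness of the raising operator -/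
theorem uniq_raise (h : CFr q E1 E2 F1 F2) (L : Submodule ℂ (Module.End ℂ V))
    (hbr : ∀ X ∈ L, ∀ Y ∈ L, X * Y - Y * X ∈ L)
    (hno : ∀ u, CT q E1 E2 F1 F2 u → wed q E1 u ∈ L → u = 0) {u0 : V}
    (hu0 : CT q E1 E2 F1 F2 u0) (h0 : wed q E1 F2 + wed q E2 u0 ∈ L) {c : ℂ} {u : V}
    (hu : CT q E1 E2 F1 F2 u) (h1 : c • wed q E1 F2 + wed q E2 u ∈ L) : u = c • u0 := by
  have h2 : CT q E1 E2 F1 F2 (u - c • u0) := by
    obtain ⟨h5, h6, h7, h8⟩ := hu
    obtain ⟨k5, k6, k7, k8⟩ := hu0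
    refine ⟨?_, ?_, ?_, ?_⟩ <;> simp [h5, h6, h7, h8, k5, k6, k7, k8]
  have h3 : wed q E2 (u - c • u0) ∈ L := by
    have h4 := L.sub_mem h1 (L.smul_mem c h0)
    have h5 : wed q E2 (u - c • u0) = c • wed q E1 F2 + wed q E2 u -
        c • (wed q E1 F2 + wed q E2 u0) := by
      rw [wed_sub_right, wed_smul_right]; module
    rw [h5]; exact h4
  set u' := u - c • u0 with hu'
  have h4 := hbr _ h3 _ h0
  have h5 : wed q E2 u' * (wed q E1 F2 + wed q E2 u0) - (wed q E1 F2 + wed q E2 u0) * wed q E2 u' =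
      (wed q E2 u' * wed q E1 F2 - wed q E1 F2 * wed q E2 u') +
      (wed q E2 u' * wed q E2 u0 - wed q E2 u0 * wed q E2 u') := by
    rw [mul_add, add_mul]; abel
  have h6 : wed q E2 u' E1 = 0 := by
    rw [wed_apply, h.s u' E1, h2.1, h.e21]; module
  have h7 : wed q E2 u' F2 = -u' := by
    rw [wed_apply, h.s u' F2, h2.2.2.2, h.m22]; module
  have h8 : wed q E2 u' E2 = 0 := by
    rw [wed_apply, h.s u' E2, h2.2.1, h.e22]; module
  have h9 : wed q E2 u' u0 = q u' u0 • E2 := by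
    rw [wed_apply, hu0.2.1]; module
  rw [h5, wed_comm (wed_skew h.s E2 u'), wed_comm (wed_skew h.s E2 u'), h6, h7, h8, h9,
    wed_zero_left, wed_zero_left, wed_neg_right, wed_smul_right, wed_self, smul_zero, add_zero,
    add_zero, zero_add] at h4
  have h10 := hno u' h2 (by simpa using L.neg_mem h4)
  exact sub_eq_zero.1 h10

/-- the operators of weight zero act on `u0` by a scalar -/
theorem zero_raise (h : CFr q E1 E2 F1 F2) {a b : ℝ} (hb : 0 < b) (hab : b < a)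
    (L : Submodule ℂ (Module.End ℂ V))
    (hbr : ∀ X ∈ L, ∀ Y ∈ L, X * Y - Y * X ∈ L) (hsk : ∀ X ∈ L, CSk q X)
    (hno : ∀ u, CT q E1 E2 F1 F2 u → wed q E1 u ∈ L → u = 0) {u0 : V}
    (hu0 : CT q E1 E2 F1 F2 u0) (h0 : wed q E1 F2 + wed q E2 u0 ∈ L) {Z : Module.End ℂ V}
    (hZ : Z ∈ L) (hμ : cB q E1 E2 F1 F2 a b * Z - Z * cB q E1 E2 F1 F2 a b = 0) :
    ∃ k : ℂ, Z u0 = k • u0 := by
  obtain ⟨c, d, h1, h2, h3, h4, h5⟩ := sk_zero h hb hab (hsk Z hZ) hμ
  have h6 := hbr _ hZ _ h0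
  have h7 : Z * (wed q E1 F2 + wed q E2 u0) - (wed q E1 F2 + wed q E2 u0) * Z =
      (c - d) • wed q E1 F2 + wed q E2 (d • u0 + Z u0) := by
    rw [mul_add, add_mul, add_sub_add_comm, wed_comm (hsk Z hZ), wed_comm (hsk Z hZ), h1, h2, h4,
      wed_smul_left, wed_smul_right, wed_smul_left, wed_add_right, wed_smul_right]
    module
  rw [h7] at h6
  have h8 : CT q E1 E2 F1 F2 (d • u0 + Z u0) := by
    obtain ⟨k5, k6, k7, k8⟩ := hu0
    obtain ⟨l5, l6, l7, l8⟩ := h5 u0 ⟨k5, k6, k7, k8⟩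
    refine ⟨?_, ?_, ?_, ?_⟩ <;> simp [l5, l6, l7, l8, k5, k6, k7, k8]
  have h9 := uniq_raise h L hbr hno hu0 h0 h8 h6
  refine ⟨c - 2 * d, ?_⟩
  linear_combination (norm := module) h9

lemma raise_weight (h : CFr q E1 E2 F1 F2) {a b : ℝ} (h2b : a = 2 * b) {u0 : V}
    (hu0 : CT q E1 E2 F1 F2 u0) :
    cB q E1 E2 F1 F2 a b * (wed q E1 F2 + wed q E2 u0) -
      (wed q E1 F2 + wed q E2 u0) * cB q E1 E2 F1 F2 a b =
      ((b : ℝ) : ℂ) • (wed q E1 F2 + wed q E2 u0) := by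
  have h1 := cB_skew h a b
  rw [mul_add, add_mul, add_sub_add_comm, wed_comm h1, wed_comm h1, cB_E1 h, cB_E2 h, cB_F2 h,
    cB_T hu0, wed_smul_left, wed_smul_right, wed_smul_left, wed_zero_right, h2b]
  push_cast
  module

/-- the spanning argument: everything lives in a space of dimension at most five -/
theorem small_span (h : CFr q E1 E2 F1 F2) {a b : ℝ} (hb : 0 < b) (hab : b < a)
    (L : Submodule ℂ (Module.End ℂ V)) (hsk : ∀ X ∈ L, CSk q X)
    (hirr : ∀ W : Submodule ℂ V, (∀ X ∈ L, ∀ w ∈ W, X w ∈ W) → W = ⊥ ∨ W = ⊤)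
    (hgr : ∀ X ∈ L, X ∈ Submodule.span ℂ {Y | Y ∈ L ∧ ∃ μ : ℂ,
      cB q E1 E2 F1 F2 a b * Y - Y * cB q E1 E2 F1 F2 a b = μ • Y})
    (hP : ∀ Y ∈ L, ∀ μ : ℂ, cB q E1 E2 F1 F2 a b * Y - Y * cB q E1 E2 F1 F2 a b = μ • Y →
      Y ≠ 0 → μ = 0 ∨ (a = 2 * b ∧ (μ = b ∨ μ = -b))) {w : V}
    (hw0 : ∀ Z ∈ L, cB q E1 E2 F1 F2 a b * Z - Z * cB q E1 E2 F1 F2 a b = 0 →
      ∃ k : ℂ, Z w = k • w)
    (hw1 : ∀ (c : ℂ) (u : V), CT q E1 E2 F1 F2 u → c • wed q E1 F2 + wed q E2 u ∈ L →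
      ∃ k : ℂ, u = k • w)
    (hw2 : ∀ (c : ℂ) (u : V), CT q F1 F2 E1 E2 u → c • wed q F1 E2 + wed q F2 u ∈ L →
      ∃ k : ℂ, u = k • w) : finrank ℂ V ≤ 5 := by
  set W := Submodule.span ℂ (Set.range ![E1, E2, F1, F2, w]) with hW
  have m1 : E1 ∈ W := Submodule.subset_span ⟨0, rfl⟩
  have m2 : E2 ∈ W := Submodule.subset_span ⟨1, rfl⟩
  have m3 : F1 ∈ W := Submodule.subset_span ⟨2, rfl⟩
  have m4 : F2 ∈ W := Submodule.subset_span ⟨3, rfl⟩
  have m5 : w ∈ W := Submodule.subset_span ⟨4, rfl⟩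
  have hwed : ∀ x y z, x ∈ W → y ∈ W → wed q x y z ∈ W := fun x y z hx hy => by
    rw [wed_apply]
    exact W.sub_mem (W.smul_mem _ hx) (W.smul_mem _ hy)
  have hst : ∀ X ∈ L, ∀ x ∈ W, X x ∈ W := by
    intro X hX x hx
    have hX' := hgr X hX
    clear hX
    induction hX' using Submodule.span_induction with
    | zero => simp
    | add y z _ _ hy hz => rw [LinearMap.add_apply]; exact W.add_mem hy hz
    | smul c y _ hy => rw [LinearMap.smul_apply]; exact W.smul_mem _ hy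
    | mem Y hY =>
      obtain ⟨hYL, μ, hμ⟩ := hY
      by_cases hY0 : Y = 0
      · rw [hY0]; simp
      rcases hP Y hYL μ hμ hY0 with h0 | ⟨h2b, h1 | h1⟩
      · rw [h0, zero_smul] at hμ
        obtain ⟨c, d, h1, h2, h3, h4, -⟩ := sk_zero h hb hab (hsk Y hYL) hμ
        obtain ⟨k, hk⟩ := hw0 Y hYL hμ
        have hle : W ≤ W.comap Y := by
          rw [hW, Submodule.span_le]
          rintro _ ⟨i, rfl⟩
          show Y _ ∈ W
          fin_cases i
          · show Y E1 ∈ W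
            rw [h1]; exact W.smul_mem _ m1
          · show Y E2 ∈ W
            rw [h2]; exact W.smul_mem _ m2
          · show Y F1 ∈ W
            rw [h3]; exact W.smul_mem _ m3
          · show Y F2 ∈ W
            rw [h4]; exact W.smul_mem _ m4
          · show Y w ∈ W
            rw [hk]; exact W.smul_mem _ m5
        exact hle hx
      · rw [h1] at hμ
        obtain ⟨p, u, hu, -, hYY⟩ := shape_b h hb hab (hsk Y hYL) hμ
        obtain ⟨k, hk⟩ := hw1 p u hu (hYY ▸ hYL)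
        rw [hYY, LinearMap.add_apply, LinearMap.smul_apply]
        exact W.add_mem (W.smul_mem _ (hwed _ _ _ m1 m4))
          (hwed _ _ _ m2 (by rw [hk]; exact W.smul_mem _ m5))
      · rw [h1] at hμ
        obtain ⟨p, u, hu, -, hYY⟩ := shape_b h.symm hb hab (hsk Y hYL) (neg_eig hμ)
        obtain ⟨k, hk⟩ := hw2 p u hu (hYY ▸ hYL)
        rw [hYY, LinearMap.add_apply, LinearMap.smul_apply]
        exact W.add_mem (W.smul_mem _ (hwed _ _ _ m3 m2))
          (hwed _ _ _ m4 (by rw [hk]; exact W.smul_mem _ m5))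
  have hE1 : E1 ≠ 0 := fun h0 => by
    have := h.m11
    rw [h0, map_zero, LinearMap.zero_apply] at this
    exact zero_ne_one this
  rcases hirr W hst with h1 | h1
  · rw [h1, Submodule.mem_bot] at m1
    exact absurd m1 hE1
  · have h2 := finrank_range_le_card (R := ℂ) ![E1, E2, F1, F2, w]
    rw [Set.finrank, ← hW, h1, finrank_top, Fintype.card_fin] at h2
    exact h2

/-- the last case -/
theorem last_case (h : CFr q E1 E2 F1 F2) {a b : ℝ} (hb : 0 < b) (hab : b < a) (h2b : a = 2 * b)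
    (L : Submodule ℂ (Module.End ℂ V)) (hbr : ∀ X ∈ L, ∀ Y ∈ L, X * Y - Y * X ∈ L)
    (hsk : ∀ X ∈ L, CSk q X)
    (hirr : ∀ W : Submodule ℂ V, (∀ X ∈ L, ∀ w ∈ W, X w ∈ W) → W = ⊥ ∨ W = ⊤)
    (hgr : ∀ X ∈ L, X ∈ Submodule.span ℂ {Y | Y ∈ L ∧ ∃ μ : ℂ,
      cB q E1 E2 F1 F2 a b * Y - Y * cB q E1 E2 F1 F2 a b = μ • Y})
    (hP : ∀ Y ∈ L, ∀ μ : ℂ, cB q E1 E2 F1 F2 a b * Y - Y * cB q E1 E2 F1 F2 a b = μ • Y →
      Y ≠ 0 → μ = 0 ∨ (a = 2 * b ∧ (μ = b ∨ μ = -b)))
    (hno : ∀ u, CT q E1 E2 F1 F2 u → wed q E1 u ∈ L → u = 0)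
    (hno' : ∀ u, CT q F1 F2 E1 E2 u → wed q F1 u ∈ L → u = 0) {u0 v0 : V}
    (hu0 : CT q E1 E2 F1 F2 u0) (h0 : wed q E1 F2 + wed q E2 u0 ∈ L)
    (hv0 : CT q F1 F2 E1 E2 v0) (h0' : wed q F1 E2 + wed q F2 v0 ∈ L)
    (huu : q u0 u0 = 0 → u0 = 0) : finrank ℂ V ≤ 5 := by
  have hz1 : ∀ Z ∈ L, cB q E1 E2 F1 F2 a b * Z - Z * cB q E1 E2 F1 F2 a b = 0 →
      ∃ k : ℂ, Z u0 = k • u0 := fun Z hZ hμ => zero_raise h hb hab L hbr hsk hno hu0 h0 hZ hμ
  have hz2 : ∀ Z ∈ L, cB q E1 E2 F1 F2 a b * Z - Z * cB q E1 E2 F1 F2 a b = 0 →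
      ∃ k : ℂ, Z v0 = k • v0 := fun Z hZ hμ => by
    have hμ' : cB q F1 F2 E1 E2 a b * Z - Z * cB q F1 F2 E1 E2 a b = 0 := by
      have h1 := neg_eig (a := a) (b := b) (X := Z) (μ := 0) (q := q) (E1 := E1) (E2 := E2)
        (F1 := F1) (F2 := F2) (by rw [hμ]; simp)
      rw [h1, zero_smul]
    exact zero_raise h.symm hb hab L hbr hsk hno' hv0 h0' hZ hμ'
  by_cases hu : u0 = 0
  · refine small_span h hb hab L hsk hirr hgr hP (w := v0) hz2 (fun c u hcu hL => ⟨0, ?_⟩)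
      (fun c u hcu hL => ⟨c, uniq_raise h.symm L hbr hno' hv0 h0' hcu hL⟩)
    rw [uniq_raise h L hbr hno hu0 h0 hcu hL, hu, smul_zero, zero_smul]
  · have hq : q u0 u0 ≠ 0 := fun h1 => hu (huu h1)
    have hB1 := raise_weight h h2b hu0
    have hB2 := raise_weight h.symm h2b hv0
    set X := wed q E1 F2 + wed q E2 u0 with hX
    set X' := wed q F1 E2 + wed q F2 v0 with hX'
    have hB3 : cB q E1 E2 F1 F2 a b * X' - X' * cB q E1 E2 F1 F2 a b = -((b : ℝ) : ℂ) • X' := by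
      rw [cB_symm, neg_mul, mul_neg] at hB2
      rw [neg_smul, ← hB2]
      abel
    have hB4 : cB q E1 E2 F1 F2 a b * (X * X' - X' * X) -
        (X * X' - X' * X) * cB q E1 E2 F1 F2 a b = 0 := by
      have h1 : cB q E1 E2 F1 F2 a b * (X * X' - X' * X) -
          (X * X' - X' * X) * cB q E1 E2 F1 F2 a b =
          (cB q E1 E2 F1 F2 a b * X - X * cB q E1 E2 F1 F2 a b) * X' +
          X * (cB q E1 E2 F1 F2 a b * X' - X' * cB q E1 E2 F1 F2 a b) -
          (cB q E1 E2 F1 F2 a b * X' - X' * cB q E1 E2 F1 F2 a b) * X -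
          X' * (cB q E1 E2 F1 F2 a b * X - X * cB q E1 E2 F1 F2 a b) := by noncomm_ring
      rw [h1, hB1, hB3]
      simp only [smul_mul_assoc, mul_smul_comm]
      module
    obtain ⟨k, hk⟩ := hz1 _ (hbr _ h0 _ h0') hB4
    have e1 : X' u0 = q v0 u0 • F2 := by
      rw [hX', LinearMap.add_apply, wed_apply, wed_apply, hu0.2.1, hu0.2.2.1, hu0.2.2.2]
      module
    have e2 : X F2 = - u0 := by
      rw [hX, LinearMap.add_apply, wed_apply, wed_apply, h.f22, h.m12, h.s u0 F2, hu0.2.2.2,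
        h.m22]
      module
    have e3 : X u0 = q u0 u0 • E2 := by
      rw [hX, LinearMap.add_apply, wed_apply, wed_apply, hu0.1, hu0.2.1, hu0.2.2.2]
      module
    have e4 : X' E2 = - v0 := by
      rw [hX', LinearMap.add_apply, wed_apply, wed_apply, h.e22, h.n12, h.s v0 E2, hv0.2.2.2,
        h.n22]
      module
    have e5 : q u0 u0 • v0 = (k + q v0 u0) • u0 := by
      rw [LinearMap.sub_apply, Module.End.mul_apply, Module.End.mul_apply, e1, e3, map_smul,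
        map_smul, e2, e4] at hk
      linear_combination (norm := module) hk
    have e6 : v0 = ((q u0 u0)⁻¹ * (k + q v0 u0)) • u0 := by
      rw [mul_smul, ← e5, smul_smul, inv_mul_cancel₀ hq, one_smul]
    refine small_span h hb hab L hsk hirr hgr hP (w := u0) hz1
      (fun c u hcu hL => ⟨c, uniq_raise h L hbr hno hu0 h0 hcu hL⟩)
      (fun c u hcu hL => ⟨c * ((q u0 u0)⁻¹ * (k + q v0 u0)), ?_⟩)
    rw [uniq_raise h.symm L hbr hno' hv0 h0' hcu hL, mul_smul, ← e6]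

end alg

end Pool.Agent.KS.CCx
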