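import Pool.Agent.KS.Basic
import Pool.Agent.Helper7.Conseq

/-!
Module Cent. The commutant of the symmetries and of the even Clifford algebra.

Proof of `comm_products`. The bilinear form `(u, v) ↦ ψ (f u) v` satisfies the hypothesis of
`bilin_of_inv` (`f` commutes with `X`, `IsInv.pol`), so `ψ (f u) v = ∑ c l * ψ (F l u) v` with
de Rham-Betti endomorphisms `F l` (`IsDRB P P`); so `f = ∑ c l • F l` (`P.hψnd`), and the `F l` commute
with `t a * t b` by `K.cent`.
Proof of `comm_of_products`. Write `f = ∑ c l • F l` with `c` linearly independent over `ℚ` and `F l`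
rational (`exists_rat_decomp` applied to the matrix entries of `f` in the basis `P.bB`, compare
`exists_decomp` in Helper7/Descent). As `t a * t b` is rational, `∑ c l • (F l * (t a * t b) -
(t a * t b) * F l) = 0` gives, looking at the (rational) matrix entries in the basis `P.bB`, that each
`F l` commutes with `t a * t b`. By `K.cent` `F l` is de Rham-Betti, so it commutes with `X.1 ()`
(`IsInv.comm`).
-/

set_option autoImplicit false

namespace Pool.Agent.KS

open Module Matrix Pool.Agent.Helper7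

variable {κ : Type} [Fintype κ] [DecidableEq κ] {ϖ : ℂ}
    (hϖ : ϖ ≠ 0) (P : PData κ ϖ) {n : ℕ} {G : Matrix (Fin n) (Fin n) ℚ}
    {t : Fin n → Module.End ℂ (κ → ℂ)} (K : KSD P G t) {N k : ℕ}
    (γ : MultilinearMap ℂ (fun _ : Fin (2 * k) => HW (fun _ : Unit => κ) (fun _ => N)) ℂ)
    (hB : ∀ v : Fin (2 * k) → HW (fun _ : Unit => κ) (fun _ => N),
      (∀ r, IsRatP (fun _ => N) (fun _ : Unit => P) (v r)) → ∃ q : ℚ, γ v = ϖ ^ k * q)
    (hA : ∀ v : Fin (2 * k) → HW (fun _ : Unit => κ) (fun _ => N),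
      (∀ r i m j, IsAlgebraic ℚ (v r i m j)) → IsAlgebraic ℚ (γ v))

/-- rational decomposition of an endomorphism -/
lemma cent_decomp (f : Module.End ℂ (κ → ℂ)) : ∃ (m : ℕ) (c : Fin m → ℂ)
    (F : Fin m → Module.End ℂ (κ → ℂ)), LinearIndependent ℚ c ∧
      (∀ l, ∀ v ∈ P.Q, F l v ∈ P.Q) ∧ f = ∑ l, c l • F l := by
  obtain ⟨m, c, y, hc, hy⟩ := exists_rat_decomp (X := P.ι × P.ι)
    (fun t => P.bB.repr (f (P.bB t.2)) t.1)
  let F : Fin m → Module.End ℂ (κ → ℂ) := fun l =>
    P.bB.constr ℂ (fun q => ∑ p, (y l (p, q) : ℂ) • P.bB p)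
  have hFb : ∀ l q, F l (P.bB q) = ∑ p, (y l (p, q) : ℂ) • P.bB p :=
    fun l q => Basis.constr_basis _ _ _ _
  refine ⟨m, c, F, hc, ?_, ?_⟩
  · intro l v hv
    unfold PData.Q at hv
    induction hv using Submodule.span_induction with
    | mem x hx =>
      obtain ⟨q, rfl⟩ := hx
      rw [hFb]
      exact Submodule.sum_mem _ fun p _ => P.rat_smul_mem _ _ (P.basis_mem p)
    | zero => rw [map_zero]; exact Submodule.zero_mem _
    | add x y _ _ hx hy => rw [map_add]; exact Submodule.add_mem _ hx hy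
    | smul a x _ hx =>
      have h1 : a • x = (a : ℂ) • x := by
        rw [← algebraMap_smul ℂ a x]; rfl
      rw [h1, map_smul]
      exact P.rat_smul_mem _ _ hx
  · apply P.bB.ext
    intro q
    rw [LinearMap.sum_apply]
    simp only [LinearMap.smul_apply, hFb, Finset.smul_sum, smul_smul]
    rw [Finset.sum_comm]
    conv_lhs => rw [← P.bB.sum_repr (f (P.bB q))]
    refine Finset.sum_congr rfl fun p _ => ?_
    rw [← Finset.sum_smul]
    congr 1
    exact hy (p, q)

/-- the rational components of the commutant of a rational endomorphism commute with it -/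
lemma cent_comm {m : ℕ} {c : Fin m → ℂ} {F : Fin m → Module.End ℂ (κ → ℂ)}
    (hc : LinearIndependent ℚ c) (hF : ∀ l, ∀ v ∈ P.Q, F l v ∈ P.Q)
    {T : Module.End ℂ (κ → ℂ)} (hT : ∀ v ∈ P.Q, T v ∈ P.Q)
    (hf : (∑ l, c l • F l) * T = T * ∑ l, c l • F l) (l : Fin m) : F l * T = T * F l := by
  apply P.bB.ext
  intro q
  have h2 := vec_eq_zero_of_indep P.bB c hc
    (fun l => F l (T (P.bB q)) - T (F l (P.bB q))) (fun l =>
      Submodule.sub_mem _ (hF l _ (hT _ (P.basis_mem q))) (hT _ (hF l _ (P.basis_mem q)))) (by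
      have h3 := LinearMap.congr_fun hf (P.bB q)
      simp only [Module.End.mul_apply, LinearMap.sum_apply, LinearMap.smul_apply, map_sum,
        map_smul] at h3
      simp only [smul_sub, Finset.sum_sub_distrib]
      rw [h3, sub_self]) l
  exact sub_eq_zero.mp h2

include hϖ K hB hA in
theorem comm_products (f : Module.End ℂ (κ → ℂ))
    (hf : ∀ X : GG (fun _ : Unit => κ), IsInv (fun _ => N) (fun _ : Unit => P) γ X →
      X.1 () * f = f * X.1 ()) (a b : Fin n) : f * (t a * t b) = t a * t b * f := by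
  obtain ⟨m, c, F, hF, hβ⟩ := bilin_of_inv (fun _ => N) (fun _ : Unit => P) γ hϖ hB hA () ()
    (P.ψ ∘ₗ f) (by
      intro X hX u v
      have h1 := hX.pol () (f u) v
      have h2 : X.1 () (f u) = f (X.1 () u) := LinearMap.congr_fun (hf X hX) u
      rw [h2] at h1
      exact h1)
  have hsum : f = ∑ l, c l • F l := by
    apply LinearMap.ext
    intro u
    rw [← sub_eq_zero]
    apply P.hψnd
    intro v
    have h3 : P.ψ (f u) v = ∑ l, c l * P.ψ (F l u) v := hβ u v
    rw [map_sub, LinearMap.sub_apply, h3, LinearMap.sum_apply, map_sum, LinearMap.sum_apply]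
    simp only [LinearMap.smul_apply, map_smul, smul_eq_mul, sub_self]
  rw [hsum, Finset.sum_mul, Finset.mul_sum]
  refine Finset.sum_congr rfl fun l _ => ?_
  rw [smul_mul_assoc, mul_smul_comm, ((K.cent (F l)).1 (hF l)).2 a b]

include K in
theorem comm_of_products (f : Module.End ℂ (κ → ℂ))
    (hf : ∀ a b, f * (t a * t b) = t a * t b * f) (X : GG (fun _ : Unit => κ))
    (hX : IsInv (fun _ => N) (fun _ : Unit => P) γ X) : X.1 () * f = f * X.1 () := by
  obtain ⟨m, c, F, hc, hF, hsum⟩ := cent_decomp P f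
  have hFc : ∀ l a b, F l * (t a * t b) = t a * t b * F l := by
    intro l a b
    refine cent_comm P hc hF (T := t a * t b) ?_ ?_ l
    · intro v hv
      exact K.rat a _ (K.rat b v hv)
    · rw [← hsum]
      exact hf a b
  have hD : ∀ l, IsDRB P P (F l) := fun l => (K.cent (F l)).2 ⟨hF l, hFc l⟩
  rw [hsum, Finset.sum_mul, Finset.mul_sum]
  refine Finset.sum_congr rfl fun l _ => ?_
  rw [smul_mul_assoc, mul_smul_comm]
  congr 1
  apply LinearMap.ext
  intro v
  exact hX.comm () () (F l) (hD l) v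

end Pool.Agent.KS
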