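import Pool.Agent.Helper98.Ball.M2

/-!
Kuga-Satake structures: common definitions.
-/

namespace Pool.Agent.KS

open Module Matrix Pool.Agent.Helper7

section basic

variable {V : Type} [AddCommGroup V] [Module ℂ V]

/-- the skew operator of two vectors -/
noncomputable def wed (q : LinearMap.BilinForm ℂ V) (x y : V) : Module.End ℂ V :=
  (q y).smulRight x - (q x).smulRight y

lemma wed_apply (q : LinearMap.BilinForm ℂ V) (x y z : V) :
    wed q x y z = q y z • x - q x z • y := rfl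

variable {n : ℕ}

/-- linear combinations of operators -/
noncomputable def tau (t : Fin n → Module.End ℂ V) : (Fin n → ℂ) →ₗ[ℂ] Module.End ℂ V :=
  Fintype.linearCombination ℂ t

lemma tau_apply (t : Fin n → Module.End ℂ V) (x : Fin n → ℂ) : tau t x = ∑ a, x a • t a :=
  Fintype.linearCombination_apply ℂ t x

/-- the operator `X` acts on the span of the `t a` by `M` -/
def Act (t : Fin n → Module.End ℂ V) (X : Module.End ℂ V) (M : Module.End ℂ (Fin n → ℂ)) : Prop :=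
  ∀ x, X * tau t x - tau t x * X = tau t (M x)

end basic

section forms

variable {n : ℕ}

/-- the complex bilinear form of a real matrix -/
noncomputable def bil (G : Matrix (Fin n) (Fin n) ℝ) : LinearMap.BilinForm ℂ (Fin n → ℂ) :=
  Matrix.toBilin' (G.map ((↑) : ℝ → ℂ))

lemma bil_apply (G : Matrix (Fin n) (Fin n) ℝ) (x y : Fin n → ℂ) :
    bil G x y = ∑ i, ∑ j, x i * (G i j : ℂ) * y j :=
  Matrix.toBilin'_apply _ _ _

/-- a real vector as a complex vector -/
def cx (x : Fin n → ℝ) : Fin n → ℂ := fun i => (x i : ℂ)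

/-- the form has signature `(2, n - 2)` -/
def Sig2 (G : Matrix (Fin n) (Fin n) ℝ) : Prop :=
  ∃ W W' : Submodule ℝ (Fin n → ℝ), finrank ℝ W = 2 ∧ finrank ℝ W' + 2 = n ∧
    (∀ w ∈ W, w ≠ 0 → 0 < w ⬝ᵥ (G *ᵥ w)) ∧ ∀ w ∈ W', w ≠ 0 → w ⬝ᵥ (G *ᵥ w) < 0

end forms

section data

variable {κ : Type} [Fintype κ] [DecidableEq κ] {ϖ : ℂ} {n : ℕ}

/-- Kuga-Satake structures on de Rham-Betti data -/
structure KSD (P : PData κ ϖ) (G : Matrix (Fin n) (Fin n) ℚ)
    (t : Fin n → Module.End ℂ (κ → ℂ)) : Prop where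
  rat : ∀ a, ∀ v ∈ P.Q, t a v ∈ P.Q
  alg : ∃ c : Matrix (Fin n) (Fin n) ℂ, IsUnit c ∧
    ∀ b i j, IsAlgebraic ℚ ((∑ a, c a b • t a) (Pi.single i 1) j)
  cliff : ∀ a b, t a * t b + t b * t a = (2 * (G a b : ℂ)) • 1
  cent : ∀ f : Module.End ℂ (κ → ℂ), IsDRB P P f ↔
    (∀ v ∈ P.Q, f v ∈ P.Q) ∧ ∀ a b, f * (t a * t b) = t a * t b * f

/-- the real matrix of a rational matrix -/
noncomputable def rm (G : Matrix (Fin n) (Fin n) ℚ) : Matrix (Fin n) (Fin n) ℝ :=
  G.map ((↑) : ℚ → ℝ)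

end data

end Pool.Agent.KS
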