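import Pool.Agent.KS.Basic
import Pool.Agent.Helper65.Ball.M1
import Pool.Agent.Helper20.Ball.M3
import Pool.Agent.Helper8.B.Hyper
import Pool.Agent.Helper98.Ball.M2

/-!
The symmetries contain an element acting on the span of the `t a` by a non-zero real diagonalisable
operator with real eigenvalues.
-/

open scoped ComplexConjugate

namespace Pool.Agent.KS

open Module Matrix Pool.Agent.Helper7 Pool.Agent.Ball Pool.Agent.Helper98.Ball
  Pool.Agent.Helper28.GPC

section one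

variable {κ : Type} [Fintype κ] [DecidableEq κ] {ϖ : ℂ} {P : PData κ ϖ} {n : ℕ}
  {G : Matrix (Fin n) (Fin n) ℚ} {t : Fin n → Module.End ℂ (κ → ℂ)}

lemma cB_tau (K : KSD P G t) (x : Fin n → ℂ) (v : κ → ℂ) :
    cB P (tau t x v) = tau t (star x) (cB P v) := by
  rw [tau_apply, tau_apply, LinearMap.sum_apply, LinearMap.sum_apply, cB_sum]
  refine Finset.sum_congr rfl fun a _ => ?_
  rw [LinearMap.smul_apply, LinearMap.smul_apply, cB_smul, cB_comm P _ (K.rat a)]
  rfl

omit [DecidableEq κ] in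
/-- one-parameter groups act through one-parameter groups -/
lemma ex_tau {X : Module.End ℂ (κ → ℂ)} {M : Module.End ℂ (Fin n → ℂ)} (h : Act t X M) (s : ℝ)
    (x : Fin n → ℂ) (v : κ → ℂ) :
    ex X s (tau t x v) = tau t (ex M s x) (ex X s v) := by
  have hX : LipschitzWith ‖LinearMap.toContinuousLinearMap X‖₊ (fun w => X w) :=
    (LinearMap.toContinuousLinearMap X).lipschitz
  have d0 : ∀ (w : κ → ℂ) (s : ℝ),
      HasDerivAt (fun s : ℝ => ex X (s : ℂ) w) (X (ex X (s : ℂ) w)) s := by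
    intro w s
    have h1 := (ex_deriv X w (s : ℂ)).scomp s (Complex.ofRealCLM.hasDerivAt (x := s))
    simpa [Function.comp_def] using h1
  have d1 : ∀ s : ℝ, HasDerivAt (fun s : ℝ => ex M (s : ℂ) x) (M (ex M (s : ℂ) x)) s := by
    intro s
    have h1 := (ex_deriv M x (s : ℂ)).scomp s (Complex.ofRealCLM.hasDerivAt (x := s))
    simpa [Function.comp_def] using h1
  have d2 : ∀ s : ℝ, HasDerivAt (fun s : ℝ => tau t (ex M s x) (ex X s v))
      (X (tau t (ex M s x) (ex X s v))) s := by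
    intro s
    have e : (fun s : ℝ => tau t (ex M s x) (ex X s v)) =
        fun s : ℝ => ∑ a, ex M s x a • t a (ex X s v) := by
      funext s
      rw [tau_apply, LinearMap.sum_apply]
      rfl
    rw [e]
    have h1 : ∀ a ∈ (Finset.univ : Finset (Fin n)),
        HasDerivAt (fun s : ℝ => ex M s x a • t a (ex X s v))
        (ex M s x a • t a (X (ex X s v)) + M (ex M s x) a • t a (ex X s v)) s := by
      intro a _
      have h2 : HasDerivAt (fun s : ℝ => ex M (s : ℂ) x a) (M (ex M (s : ℂ) x) a) s :=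
        (hasDerivAt_pi.mp (d1 s)) a
      have h3 : HasDerivAt (fun s : ℝ => t a (ex X (s : ℂ) v)) (t a (X (ex X (s : ℂ) v))) s :=
        ((LinearMap.toContinuousLinearMap (t a)).restrictScalars ℝ).hasFDerivAt.comp_hasDerivAt s
          (d0 v s)
      exact h2.smul h3
    refine (HasDerivAt.fun_sum h1).congr_deriv ?_
    rw [Finset.sum_add_distrib]
    have h4 := LinearMap.congr_fun (h (ex M s x)) (ex X s v)
    rw [LinearMap.sub_apply, Module.End.mul_apply, Module.End.mul_apply, sub_eq_iff_eq_add] at h4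
    rw [h4, add_comm]
    congr 1
    · rw [tau_apply, LinearMap.sum_apply]
      rfl
    · rw [tau_apply, LinearMap.sum_apply]
      rfl
  have key := ODE_solution_unique_univ (v := fun _ w => X w) (s := fun _ => Set.univ)
    (K := ‖LinearMap.toContinuousLinearMap X‖₊) (t₀ := 0)
    (f := fun s : ℝ => ex X (s : ℂ) (tau t x v))
    (g := fun s : ℝ => tau t (ex M s x) (ex X s v)) (fun _ => hX.lipschitzOnWith)
    (fun s => ⟨d0 _ s, Set.mem_univ _⟩) (fun s => ⟨d2 s, Set.mem_univ _⟩) (by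
      simp [ex_zero])
  exact congrFun key s

omit [Fintype κ] [DecidableEq κ] in
/-- generalised eigenvectors -/
lemma tau_maxGen {g : Module.End ℂ (κ → ℂ)} {A : Module.End ℂ (Fin n → ℂ)}
    (h : ∀ x, g * tau t x = tau t (A x) * g) {μ ν : ℂ} {x : Fin n → ℂ} {v : κ → ℂ}
    (hx : x ∈ A.maxGenEigenspace μ) (hv : v ∈ g.maxGenEigenspace ν) :
    tau t x v ∈ g.maxGenEigenspace (μ * ν) := by
  have key : ∀ m p q : ℕ, p + q = m → ∀ (x : Fin n → ℂ) (v : κ → ℂ),
      ((A - μ • (1 : Module.End ℂ (Fin n → ℂ))) ^ p) x = 0 →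
      ((g - ν • (1 : Module.End ℂ (κ → ℂ))) ^ q) v = 0 →
      tau t x v ∈ g.maxGenEigenspace (μ * ν) := by
    intro m
    induction m with
    | zero =>
      intro p q hpq x v hx hv
      have h0 : p = 0 := by omega
      rw [h0, pow_zero, Module.End.one_apply] at hx
      rw [hx, map_zero, LinearMap.zero_apply]
      exact Submodule.zero_mem _
    | succ m ih =>
      intro p q hpq x v hx hv
      rcases Nat.eq_zero_or_pos p with h0 | h0
      · rw [h0, pow_zero, Module.End.one_apply] at hx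
        rw [hx, map_zero, LinearMap.zero_apply]
        exact Submodule.zero_mem _
      rcases Nat.eq_zero_or_pos q with h1 | h1
      · rw [h1, pow_zero, Module.End.one_apply] at hv
        rw [hv, map_zero]
        exact Submodule.zero_mem _
      obtain ⟨p, rfl⟩ : ∃ p', p = p' + 1 := ⟨p - 1, by omega⟩
      obtain ⟨q, rfl⟩ : ∃ q', q = q' + 1 := ⟨q - 1, by omega⟩
      have h2 : (g - (μ * ν) • (1 : Module.End ℂ (κ → ℂ))) (tau t x v) =
          tau t ((A - μ • (1 : Module.End ℂ (Fin n → ℂ))) x) (g v) +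
          μ • tau t x ((g - ν • (1 : Module.End ℂ (κ → ℂ))) v) := by
        have h3 := LinearMap.congr_fun (h x) v
        rw [Module.End.mul_apply, Module.End.mul_apply] at h3
        rw [LinearMap.sub_apply, LinearMap.sub_apply, LinearMap.sub_apply, LinearMap.smul_apply,
          LinearMap.smul_apply, LinearMap.smul_apply, Module.End.one_apply, Module.End.one_apply,
          Module.End.one_apply, h3, map_sub, map_smul, map_sub, map_smul, LinearMap.sub_apply,
          LinearMap.smul_apply, smul_sub, smul_smul]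
        abel
      have h4 : (g - (μ * ν) • (1 : Module.End ℂ (κ → ℂ))) (tau t x v) ∈
          g.maxGenEigenspace (μ * ν) := by
        rw [h2]
        refine Submodule.add_mem _ (ih p (q + 1) (by omega) _ _ ?_ ?_)
          (Submodule.smul_mem _ _ (ih (p + 1) q (by omega) _ _ hx ?_))
        · rw [pow_succ, Module.End.mul_apply] at hx
          exact hx
        · have hc : Commute ((g - ν • (1 : Module.End ℂ (κ → ℂ))) ^ (q + 1)) g := by
            refine Commute.pow_left ?_ _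
            exact (Commute.refl g).sub_left ((Commute.one_left g).smul_left ν)
          have h5 := LinearMap.congr_fun hc.eq v
          rw [Module.End.mul_apply, Module.End.mul_apply, hv, map_zero] at h5
          exact h5
        · rw [pow_succ, Module.End.mul_apply] at hv
          exact hv
      obtain ⟨L, hL⟩ := (Module.End.mem_maxGenEigenspace _ _ _).mp h4
      refine (Module.End.mem_maxGenEigenspace _ _ _).mpr ⟨L + 1, ?_⟩
      rw [pow_succ, Module.End.mul_apply]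
      exact hL
  obtain ⟨p, hp⟩ := (Module.End.mem_maxGenEigenspace _ _ _).mp hx
  obtain ⟨q, hq⟩ := (Module.End.mem_maxGenEigenspace _ _ _).mp hv
  exact key _ p q rfl x v hp hq

lemma maxGen_zero {V : Type} [AddCommGroup V] [Module ℂ V] {A : Module.End ℂ V}
    (hA : Function.Injective A) {x : V} (hx : x ∈ A.maxGenEigenspace 0) : x = 0 := by
  obtain ⟨p, hp⟩ := (Module.End.mem_maxGenEigenspace _ _ _).mp hx
  rw [zero_smul, sub_zero] at hp
  induction p generalizing x with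
  | zero => rwa [pow_zero, Module.End.one_apply] at hp
  | succ p ih =>
    rw [pow_succ', Module.End.mul_apply] at hp
    have h1 : (A ^ p) x = 0 := hA (hp.trans (map_zero A).symm)
    exact ih hx h1

lemma hf_bil (x y : Fin n → ℂ) :
    hf ((rm G).map ((↑) : ℝ → ℂ)) x y = bil (rm G) (star x) y := by
  rw [bil_apply, hf, dotProduct]
  refine Finset.sum_congr rfl fun a _ => ?_
  rw [Matrix.mulVec, dotProduct, Finset.mul_sum]
  refine Finset.sum_congr rfl fun b _ => ?_
  rw [Matrix.map_apply, mul_assoc]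

lemma star_cx (x : Fin n → ℝ) : star (cx x) = cx x := by
  funext a
  exact Complex.conj_ofReal _

end one

section two

variable {κ : Type} [Fintype κ] [DecidableEq κ] {ϖ : ℂ} (P : PData κ ϖ) {n : ℕ}
  {G : Matrix (Fin n) (Fin n) ℚ} (t : Fin n → Module.End ℂ (κ → ℂ)) {N k : ℕ}
  (γ : MultilinearMap ℂ (fun _ : Fin (2 * k) => HW (fun _ : Unit => κ) (fun _ => N)) ℂ)

/-- the matrices of the elements of the group -/
noncomputable def grpT : Submonoid (Matrix (Fin n) (Fin n) ℂ) where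
  carrier := {B | ∃ g, IsGrp (fun _ => N) (fun _ : Unit => P) γ g ∧
    ∀ x, g () * tau t x = tau t (B *ᵥ x) * g ()}
  one_mem' := ⟨_, IsGrp.one _ _ γ, fun x => by rw [Matrix.one_mulVec, one_mul, mul_one]⟩
  mul_mem' := by
    rintro B C ⟨g, hg, hB⟩ ⟨h, hh, hC⟩
    refine ⟨_, hg.mul _ _ γ hh, fun x => ?_⟩
    show g () * h () * tau t x = tau t ((B * C) *ᵥ x) * (g () * h ())
    rw [mul_assoc, hC, ← mul_assoc, hB, Matrix.mulVec_mulVec, mul_assoc]

lemma mem_grpT (B : Matrix (Fin n) (Fin n) ℂ) : B ∈ grpT P t γ ↔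
    ∃ g, IsGrp (fun _ => N) (fun _ : Unit => P) γ g ∧
    ∀ x, g () * tau t x = tau t (B *ᵥ x) * g () := Iff.rfl

variable {P t γ}

lemma grpT_inv (hinj : Function.Injective (tau t))
    (hTg : ∀ g, IsGrp (fun _ => N) (fun _ : Unit => P) γ g →
      ∃ A : Module.End ℂ (Fin n → ℂ), ∀ x, g () * tau t x = tau t (A x) * g ())
    (B : Matrix (Fin n) (Fin n) ℂ) (hB : B ∈ grpT P t γ) : ∃ B' ∈ grpT P t γ, B * B' = 1 := by
  obtain ⟨g, hg, hgB⟩ := hB
  obtain ⟨h, hh, h1, -⟩ := hg.exists_inv _ _ γ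
  obtain ⟨A, hA⟩ := hTg h hh
  have hA' : ∀ x, (LinearMap.toMatrix' A) *ᵥ x = A x := fun x => by
    rw [← Matrix.toLin'_apply, Matrix.toLin'_toMatrix']
  refine ⟨LinearMap.toMatrix' A, ⟨h, hh, fun x => ?_⟩, ?_⟩
  · rw [hA', hA]
  · apply Matrix.toLin'.injective
    apply LinearMap.ext
    intro x
    rw [Matrix.toLin'_apply, Matrix.toLin'_one, LinearMap.id_apply, ← Matrix.mulVec_mulVec, hA']
    apply hinj
    have h2 : g () * h () = 1 := LinearMap.ext fun v => h1 () v
    have h3 : g () * h () * tau t x = tau t (B *ᵥ A x) * (g () * h ()) := by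
      rw [mul_assoc, hA, ← mul_assoc, hgB, mul_assoc]
    rw [h2, one_mul, mul_one] at h3
    exact h3.symm

/-- the symmetries act by real operators -/
lemma grp_real (K : KSD P G t) (hinj : Function.Injective (tau t))
    {g : Unit → Module.End ℂ (κ → ℂ)}
    (hg : IsGrp (fun _ => N) (fun _ : Unit => P) γ g) {A : Module.End ℂ (Fin n → ℂ)}
    (hA : ∀ x, g () * tau t x = tau t (A x) * g ()) (x : Fin n → ℂ) :
    A (star x) = star (A x) := by
  obtain ⟨h, -, h1, -⟩ := hg.exists_inv _ _ γ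
  apply hinj
  apply LinearMap.ext
  intro w
  obtain ⟨v, hv⟩ : ∃ v, g () (cB P v) = w :=
    ⟨cB P (h () w), by rw [cB_cB]; exact h1 () w⟩
  have e : ∀ x v, g () (tau t x v) = tau t (A x) (g () v) := fun x v =>
    LinearMap.congr_fun (hA x) v
  rw [← hv, ← e, ← cB_tau K, hg.real, e, cB_tau K, hg.real]

/-- the symmetries preserve the form -/
lemma grp_bil [Nonempty κ] (K : KSD P G t) {g : Unit → Module.End ℂ (κ → ℂ)}
    (hg : IsGrp (fun _ => N) (fun _ : Unit => P) γ g) {A : Module.End ℂ (Fin n → ℂ)}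
    (hA : ∀ x, g () * tau t x = tau t (A x) * g ()) (x y : Fin n → ℂ) :
    bil (rm G) (A x) (A y) = bil (rm G) x y := by
  have h1 := tau_cliff K.cliff x y
  have h2 := tau_cliff K.cliff (A x) (A y)
  have h3 : g () * (tau t x * tau t y + tau t y * tau t x) =
      (tau t (A x) * tau t (A y) + tau t (A y) * tau t (A x)) * g () := by
    rw [mul_add, add_mul, ← mul_assoc, ← mul_assoc, hA, hA, mul_assoc, mul_assoc, hA, hA,
      ← mul_assoc, ← mul_assoc]
  rw [h1, h2, mul_smul_comm, smul_mul_assoc, mul_one, one_mul] at h3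
  obtain ⟨v, hv⟩ := exists_ne (0 : κ → ℂ)
  have h4 : (2 * bil (rm G) x y) • g () v = (2 * bil (rm G) (A x) (A y)) • g () v :=
    LinearMap.congr_fun h3 v
  rw [← sub_eq_zero, ← sub_smul] at h4
  rcases smul_eq_zero.mp h4 with h5 | h5
  · linear_combination (-1 / 2 : ℂ) * h5
  · exact absurd (hg.injective _ _ γ () (h5.trans (map_zero _).symm)) hv

lemma grpT_form [Nonempty κ] (K : KSD P G t) (hinj : Function.Injective (tau t))
    (B : Matrix (Fin n) (Fin n) ℂ) (hB : B ∈ grpT P t γ) :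
    Bᴴ * (rm G).map ((↑) : ℝ → ℂ) * B = (rm G).map ((↑) : ℝ → ℂ) := by
  obtain ⟨g, hg, hA⟩ := hB
  apply eq_of_hf
  intro u v
  rw [hf_conjT, hf_bil, hf_bil]
  have h1 := grp_real K hinj hg (A := Matrix.toLin' B) (fun x => by
    rw [Matrix.toLin'_apply, hA]) u
  have h2 := grp_bil K hg (A := Matrix.toLin' B) (fun x => by
    rw [Matrix.toLin'_apply, hA]) (star u) v
  rw [h1] at h2
  rw [Matrix.toLin'_apply, Matrix.toLin'_apply] at h2
  exact h2

/-- the group acts irreducibly -/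
lemma irr_grp (hϖ : ϖ ≠ 0)
    (hB : ∀ v : Fin (2 * k) → HW (fun _ : Unit => κ) (fun _ => N),
      (∀ r, IsRatP (fun _ => N) (fun _ : Unit => P) (v r)) → ∃ q : ℚ, γ v = ϖ ^ k * q)
    (hT : ∀ X : GG (fun _ : Unit => κ), IsInv (fun _ => N) (fun _ : Unit => P) γ X →
      ∃ M, Act t (X.1 ()) M)
    (hirr : ∀ W : Submodule ℂ (Fin n → ℂ),
      (∀ (X : GG (fun _ : Unit => κ)) (M : Module.End ℂ (Fin n → ℂ)),
        IsInv (fun _ => N) (fun _ : Unit => P) γ X → Act t (X.1 ()) M → ∀ w ∈ W, M w ∈ W) →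
      W = ⊥ ∨ W = ⊤) (W : Submodule ℂ (Fin n → ℂ))
    (hW : ∀ (g : Unit → Module.End ℂ (κ → ℂ)) (A : Module.End ℂ (Fin n → ℂ)),
      IsGrp (fun _ => N) (fun _ : Unit => P) γ g → (∀ x, g () * tau t x = tau t (A x) * g ()) →
      ∀ w ∈ W, A w ∈ W) : W = ⊥ ∨ W = ⊤ := by
  apply hirr
  have hreal : ∀ (Y : GG (fun _ : Unit => κ)) (M : Module.End ℂ (Fin n → ℂ)),
      IsInv (fun _ => N) (fun _ : Unit => P) γ Y → Y.2 = 0 →
      (∀ (i : Unit) v, Y.1 i (cB P v) = cB P (Y.1 i v)) → Act t (Y.1 ()) M →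
      ∀ v ∈ W, M v ∈ W := by
    intro Y M hY hY2 hYr hM
    exact stable_of_ex M W fun s v hv => hW _ (ex M s)
      (isGrp_ex (fun _ => N) (fun _ : Unit => P) γ Y hY hY2 hYr s)
      (fun x => LinearMap.ext fun v => ex_tau hM s x v) v hv
  intro X M hX hM v hv
  obtain ⟨X0, hX0⟩ : ∃ X0 : GG (fun _ : Unit => κ), X0 = X + (-X.2) •
    ((fun _ => (1 / 2 : ℂ) • (1 : Module.End ℂ _), 1) : GG (fun _ : Unit => κ)) := ⟨_, rfl⟩
  have hX0i : IsInv (fun _ => N) (fun _ : Unit => P) γ X0 := by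
    rw [hX0]
    exact hX.add _ _ γ ((isInv_homothety _ _ γ).smul _ _ γ _)
  have hX02 : X0.2 = 0 := by
    rw [hX0]
    show X.2 + (-X.2) * 1 = 0
    ring
  have hM0 : Act t (X0.1 ()) M := by
    intro x
    have e : X0.1 () = X.1 () + (-X.2) • ((1 / 2 : ℂ) • (1 : Module.End ℂ (κ → ℂ))) := by
      rw [hX0]
      rfl
    rw [e, ← hM x, add_mul, mul_add, smul_smul, smul_mul_assoc, mul_smul_comm, one_mul, mul_one]
    abel
  obtain ⟨X', hX', hX'2, -, hX'c⟩ := exists_real (fun _ => N) (fun _ : Unit => P) γ hϖ hB X0 hX0i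
  rw [hX02, map_zero] at hX'2
  obtain ⟨M', hM'⟩ := hT X' hX'
  have h1 := hreal ((1 / 2 : ℂ) • (X0 + X')) ((1 / 2 : ℂ) • (M + M'))
    ((hX0i.add _ _ γ hX').smul _ _ γ _) (by
      show (1 / 2 : ℂ) * (X0.2 + X'.2) = 0
      rw [hX02, hX'2]; ring) (fun j w => by
      show (1 / 2 : ℂ) • (X0.1 j (cB P w) + X'.1 j (cB P w)) =
        cB P ((1 / 2 : ℂ) • (X0.1 j w + X'.1 j w))
      have e : conj (1 / 2 : ℂ) = 1 / 2 := by
        rw [map_div₀, map_one, map_ofNat]
      rw [hX'c, hX'c, cB_smul, cB_add, cB_cB, cB_cB, add_comm, e])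
    ((hM0.add hM').smul _) v hv
  have h2 := hreal ((-Complex.I / 2 : ℂ) • (X0 + (-1 : ℂ) • X'))
    ((-Complex.I / 2 : ℂ) • (M + (-1 : ℂ) • M'))
    ((hX0i.add _ _ γ (hX'.smul _ _ γ _)).smul _ _ γ _) (by
      show (-Complex.I / 2 : ℂ) * (X0.2 + (-1 : ℂ) * X'.2) = 0
      rw [hX02, hX'2]; ring) (fun j w => by
      show (-Complex.I / 2 : ℂ) • (X0.1 j (cB P w) + (-1 : ℂ) • X'.1 j (cB P w)) =
        cB P ((-Complex.I / 2 : ℂ) • (X0.1 j w + (-1 : ℂ) • X'.1 j w))
      rw [hX'c, hX'c, cB_smul, cB_add, cB_smul, cB_cB, cB_cB]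
      have e : conj (-Complex.I / 2 : ℂ) = Complex.I / 2 := by
        rw [map_div₀, map_neg, Complex.conj_I, neg_neg, map_ofNat]
      rw [e, map_neg, map_one, smul_add, smul_add, smul_smul, smul_smul, add_comm]
      congr 1
      · congr 1; ring
      · congr 1; ring) ((hM0.add (hM'.smul _)).smul _) v hv
  have h3 : M v = ((1 / 2 : ℂ) • (M + M')) v +
      Complex.I • ((-Complex.I / 2 : ℂ) • (M + (-1 : ℂ) • M')) v := by
    show _ = (1 / 2 : ℂ) • (M v + M' v) +
      Complex.I • ((-Complex.I / 2 : ℂ) • (M v + (-1 : ℂ) • M' v))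
    rw [smul_smul]
    have e : Complex.I * (-Complex.I / 2) = 1 / 2 := by
      linear_combination (-1 / 2 : ℂ) * Complex.I_sq
    rw [e, ← smul_add]
    have e2 : M v + M' v + (M v + (-1 : ℂ) • M' v) = (2 : ℂ) • M v := by
      rw [neg_one_smul, two_smul]; abel
    rw [e2, smul_smul]
    norm_num
  rw [h3]
  exact W.add_mem h1 (W.smul_mem _ h2)

end two

theorem exists_hyp {κ : Type} [Fintype κ] [DecidableEq κ] [Nonempty κ] {ϖ : ℂ}
    (hϖ : ϖ ≠ 0) (P : PData κ ϖ) {n : ℕ}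
    {G : Matrix (Fin n) (Fin n) ℚ} (hG : Gᵀ = G) (hnd : (bil (rm G)).Nondegenerate)
    (hpos : ∃ x : Fin n → ℝ, 0 < x ⬝ᵥ (rm G *ᵥ x)) (hneg : ∃ x : Fin n → ℝ, x ⬝ᵥ (rm G *ᵥ x) < 0)
    {t : Fin n → Module.End ℂ (κ → ℂ)} (K : KSD P G t) {N k : ℕ}
    (γ : MultilinearMap ℂ (fun _ : Fin (2 * k) => HW (fun _ : Unit => κ) (fun _ => N)) ℂ)
    (hB : ∀ v : Fin (2 * k) → HW (fun _ : Unit => κ) (fun _ => N),
      (∀ r, IsRatP (fun _ => N) (fun _ : Unit => P) (v r)) → ∃ q : ℚ, γ v = ϖ ^ k * q)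
    (hT : ∀ X : GG (fun _ : Unit => κ), IsInv (fun _ => N) (fun _ : Unit => P) γ X →
      ∃ M, Act t (X.1 ()) M)
    (hTg : ∀ g, IsGrp (fun _ => N) (fun _ : Unit => P) γ g →
      ∃ A : Module.End ℂ (Fin n → ℂ), ∀ x, g () * tau t x = tau t (A x) * g ())
    (hirr : ∀ W : Submodule ℂ (Fin n → ℂ),
      (∀ (X : GG (fun _ : Unit => κ)) (M : Module.End ℂ (Fin n → ℂ)),
        IsInv (fun _ => N) (fun _ : Unit => P) γ X → Act t (X.1 ()) M → ∀ w ∈ W, M w ∈ W) →
      W = ⊥ ∨ W = ⊤) :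
    ∃ (Y : GG (fun _ : Unit => κ)) (M : Module.End ℂ (Fin n → ℂ)),
      IsInv (fun _ => N) (fun _ : Unit => P) γ Y ∧ Y.2 = 0 ∧ Act t (Y.1 ()) M ∧ M ≠ 0 ∧
      (∀ v, M (star v) = star (M v)) ∧
      ∀ v, v ∈ Submodule.span ℂ {w | ∃ r : ℝ, M w = (r : ℂ) • w} := by
  have hinj : Function.Injective (tau t) := tau_injective K.cliff hnd
  have hH : ((rm G).map ((↑) : ℝ → ℂ)).IsHermitian := by
    apply Matrix.IsHermitian.ext
    intro a b
    rw [Matrix.map_apply, Matrix.map_apply]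
    have h1 : rm G b a = rm G a b := by
      show ((G b a : ℚ) : ℝ) = ((G a b : ℚ) : ℝ)
      have h2 : G b a = G a b := by
        conv_lhs => rw [← hG]
        rfl
      rw [h2]
    rw [h1]
    exact Complex.conj_ofReal _
  have hre : ∀ x : Fin n → ℝ, (hf ((rm G).map ((↑) : ℝ → ℂ)) (cx x) (cx x)).re =
      x ⬝ᵥ (rm G *ᵥ x) := by
    intro x
    rw [hf_bil, star_cx, bil_cx, Complex.ofReal_re]
  obtain ⟨xp, hxp⟩ := hpos
  obtain ⟨xn, hxn⟩ := hneg
  obtain ⟨B, hBm, μ, v, hv0, hv, hμ⟩ := Helper20.Ball.M3 ((rm G).map ((↑) : ℝ → ℂ)) hH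
    ⟨cx xp, by rw [hre]; exact hxp⟩ ⟨cx xn, by rw [hre]; exact hxn⟩ (grpT P t γ)
    (grpT_inv hinj hTg) (grpT_form K hinj) (fun U hU => by
      refine irr_grp hϖ hB hT hirr U fun g A hg hA w hw => ?_
      have hA' : ∀ x, (LinearMap.toMatrix' A) *ᵥ x = A x := fun x => by
        rw [← Matrix.toLin'_apply, Matrix.toLin'_toMatrix']
      rw [← hA']
      exact hU _ ⟨g, hg, fun x => by rw [hA', hA]⟩ w hw)
  obtain ⟨g, hg, hgB⟩ := hBm
  obtain ⟨A, hAB⟩ : ∃ A : Module.End ℂ (Fin n → ℂ), ∀ x, A x = B *ᵥ x :=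
    ⟨Matrix.toLin' B, fun x => Matrix.toLin'_apply _ _⟩
  have hgA : ∀ x, g () * tau t x = tau t (A x) * g () := fun x => by rw [hAB, hgB]
  rw [← hAB] at hv
  have hginj : Function.Injective (g ()) := hg.injective _ _ γ ()
  have hAinj : Function.Injective A := by
    rw [injective_iff_map_eq_zero]
    intro x hx
    apply hinj
    rw [map_zero]
    apply LinearMap.ext
    intro w
    apply hginj
    have h1 := LinearMap.congr_fun (hgA x) w
    rw [hx, map_zero, zero_mul, LinearMap.zero_apply, Module.End.mul_apply] at h1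
    rw [h1, LinearMap.zero_apply, map_zero]
  obtain ⟨Y, hY, hY2, hr, hl⟩ := Helper65.Ball.M1 _ _ γ g hg
  obtain ⟨M, hM⟩ := hT Y hY
  have hMl : ∀ (μ' : ℂ), ∀ x ∈ A.maxGenEigenspace μ', M x = ((Real.log ‖μ'‖ : ℝ) : ℂ) • x := by
    intro μ' x hx
    by_cases hμ0 : μ' = 0
    · rw [hμ0] at hx
      rw [maxGen_zero hAinj hx, map_zero, smul_zero]
    apply hinj
    rw [← hM x, map_smul]
    refine Helper65.Ball.ext_maxGen (g ()) _ _ fun ν w hw => ?_
    by_cases hν0 : ν = 0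
    · rw [hν0] at hw
      rw [maxGen_zero hginj hw, map_zero, map_zero]
    have h1 := hl () _ _ (tau_maxGen hgA hx hw)
    have h2 := hl () _ _ hw
    rw [LinearMap.sub_apply, Module.End.mul_apply, Module.End.mul_apply, h1, h2, map_smul,
      ← sub_smul, LinearMap.smul_apply, norm_mul, Real.log_mul (norm_ne_zero_iff.mpr hμ0)
        (norm_ne_zero_iff.mpr hν0)]
    congr 1
    push_cast
    ring
  refine ⟨Y, M, hY, hY2, hM, ?_, ?_, ?_⟩
  · intro h0
    have h1 : v ∈ A.maxGenEigenspace μ := by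
      rw [Module.End.mem_maxGenEigenspace]
      refine ⟨1, ?_⟩
      rw [pow_one, LinearMap.sub_apply, LinearMap.smul_apply, Module.End.one_apply, hv, sub_self]
    have h2 := hMl μ v h1
    rw [h0, LinearMap.zero_apply] at h2
    rcases smul_eq_zero.mp h2.symm with h4 | h4
    · have h5 : Real.log ‖μ‖ = 0 := by exact_mod_cast h4
      rcases Real.log_eq_zero.mp h5 with h6 | h6 | h6
      · have h7 : μ = 0 := norm_eq_zero.mp h6
        rw [h7, zero_smul] at hv
        exact hv0 (hAinj (hv.trans (map_zero _).symm))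
      · exact hμ h6
      · have := norm_nonneg μ
        linarith
    · exact hv0 h4
  · intro x
    apply hinj
    apply LinearMap.ext
    intro w
    obtain ⟨u, rfl⟩ : ∃ u, cB P u = w := ⟨cB P w, cB_cB P w⟩
    have h1 := LinearMap.congr_fun (hM (star x)) (cB P u)
    have h2 := LinearMap.congr_fun (hM x) u
    have hr' : ∀ v, Y.1 () (cB P v) = cB P (Y.1 () v) := hr ()
    rw [LinearMap.sub_apply, Module.End.mul_apply, Module.End.mul_apply] at h1 h2
    rw [← h1, ← cB_tau K, hr', hr', ← cB_tau K, ← cB_sub, h2, cB_tau K]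
  · intro x
    have h1 : (⊤ : Submodule ℂ (Fin n → ℂ)) ≤
        Submodule.span ℂ {w | ∃ r : ℝ, M w = (r : ℂ) • w} := by
      rw [← Module.End.iSup_maxGenEigenspace_eq_top A]
      exact iSup_le fun μ' y hy => Submodule.subset_span ⟨Real.log ‖μ'‖, hMl μ' y hy⟩
    exact h1 Submodule.mem_top

end Pool.Agent.KS
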