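import Pool.Agent.KS.Basic

/-!
Module Volume. Bivectors and the volume element of a non-degenerate subspace.

`A = Module.End ℂ V`, `τ = tau t`, `τ x τ y + τ y τ x = 2 q x y`.

Proof of `exists_biv`. Let `u i` be a basis of `Fin n → ℂ` and `u' i` the dual basis for `q`
(`LinearMap.BilinForm.dualBasis`), `s = (1/4) ∑ τ (M (u i)) * τ (u' i)`. Then
`⁅τ (M u_i) τ (u'_i), τ x⁆ = 2 q (u'_i) x τ (M u_i) - 2 q (M u_i) x τ (u'_i)`, the sum over `i` is
`2 τ (M x) + 2 ∑ q (u_i) (M x) τ (u'_i) = 4 τ (M x)`.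
Naturality (`biv_comm`): if `X` acts by `M'` (skew) and `M' M = M M'` then `X` commutes with the same
`s`: `⁅X, s⁆ = (1/4) ∑ (τ (M' M u_i) τ (u'_i) + τ (M u_i) τ (M' u'_i))` and
`∑ u_i ⊗ M' u'_i = - ∑ M' u_i ⊗ u'_i`. Both are stated together in `exists_biv`.

Proof of `volume`. `W` is non-degenerate, so it has an orthogonal basis `w 1, ..., w r`
(`LinearMap.BilinForm.exists_orthogonal_basis`), `g i = q (w i) (w i) ≠ 0`, and `ω = ∏ τ (w i)` (in this
order; `ω = 1` if `r = 0`), invertible. `τ (w i) ω = ε ω τ (w i)` with `ε = (-1) ^ (r - 1)`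
(`ε = -1` if `r = 0`), and `τ y ω = - ε ω τ y` for `y` orthogonal to `W`. So `τ x ω = ω τ (g x)` with
`g = ε (2 P - 1)`, `P` the orthogonal projection on `W`. Let `X` act by a skew `M` with `M W ≤ W`; then
`M` preserves the orthogonal of `W` and commutes with `g`, `s` commutes with `ω` by the same
computation as above, and `X - s` commutes with all `τ x`, so with `ω`.
-/

namespace Pool.Agent.KS

open Module Matrix

variable {V : Type} [AddCommGroup V] [Module ℂ V] {n : ℕ} {t : Fin n → Module.End ℂ V}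

section biv

variable {q : LinearMap.BilinForm ℂ (Fin n → ℂ)}

lemma vol_bracket (hc : ∀ x y, tau t x * tau t y + tau t y * tau t x = (2 * q x y) • 1)
    (a b x : Fin n → ℂ) :
    tau t a * tau t b * tau t x - tau t x * (tau t a * tau t b) =
      (2 * q b x) • tau t a - (2 * q a x) • tau t b := by
  have h1 : tau t b * tau t x = (2 * q b x) • 1 - tau t x * tau t b := by
    rw [← hc b x]; abel
  have h2 : tau t a * tau t x = (2 * q a x) • 1 - tau t x * tau t a := by
    rw [← hc a x]; abel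
  rw [mul_assoc, h1, mul_sub, mul_smul_comm, mul_one, ← mul_assoc, h2, sub_mul, smul_mul_assoc,
    one_mul, mul_assoc]
  abel

lemma vol_dual_left (hnd : q.Nondegenerate) (u : Basis (Fin n) ℂ (Fin n → ℂ)) (x : Fin n → ℂ) :
    ∑ i, q (q.dualBasis hnd u i) x • u i = x := by
  conv_rhs => rw [← u.sum_repr x]
  refine Finset.sum_congr rfl fun i _ => ?_
  congr 1
  conv_lhs => rw [← u.sum_repr x]
  rw [map_sum, Finset.sum_eq_single i]
  · rw [map_smul, LinearMap.BilinForm.apply_dualBasis_left, if_pos rfl, smul_eq_mul, mul_one]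
  · intro j _ hj
    rw [map_smul, LinearMap.BilinForm.apply_dualBasis_left, if_neg hj, smul_zero]
  · intro h; exact absurd (Finset.mem_univ _) h

lemma vol_dual_right (hnd : q.Nondegenerate) (u : Basis (Fin n) ℂ (Fin n → ℂ)) (x : Fin n → ℂ) :
    ∑ i, q x (u i) • q.dualBasis hnd u i = x := by
  conv_rhs => rw [← (q.dualBasis hnd u).sum_repr x]
  refine Finset.sum_congr rfl fun i _ => ?_
  rw [LinearMap.BilinForm.dualBasis_repr_apply]

lemma vol_adj (hnd : q.Nondegenerate) (u : Basis (Fin n) ℂ (Fin n → ℂ))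
    (C A A' : Module.End ℂ (Fin n → ℂ)) (hA : ∀ x y, q (A x) y = q x (A' y)) :
    ∑ i, tau t (C (u i)) * tau t (A (q.dualBasis hnd u i)) =
      ∑ i, tau t (C (A' (u i))) * tau t (q.dualBasis hnd u i) := by
  have h1 : ∀ i, tau t (C (u i)) * tau t (A (q.dualBasis hnd u i)) =
      ∑ j, q (q.dualBasis hnd u i) (A' (u j)) •
        (tau t (C (u i)) * tau t (q.dualBasis hnd u j)) := by
    intro i
    conv_lhs => rw [← vol_dual_right hnd u (A (q.dualBasis hnd u i))]
    rw [map_sum, Finset.mul_sum]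
    refine Finset.sum_congr rfl fun j _ => ?_
    rw [map_smul, mul_smul_comm, hA]
  rw [Finset.sum_congr rfl fun i _ => h1 i, Finset.sum_comm]
  refine Finset.sum_congr rfl fun j _ => ?_
  conv_rhs => rw [← vol_dual_left hnd u (A' (u j))]
  rw [map_sum, map_sum, Finset.sum_mul]
  refine Finset.sum_congr rfl fun i _ => ?_
  rw [map_smul, map_smul, smul_mul_assoc]

/-- the bivector of a skew operator -/
noncomputable def biv (t : Fin n → Module.End ℂ V) (hnd : q.Nondegenerate)
    (u : Basis (Fin n) ℂ (Fin n → ℂ)) (M : Module.End ℂ (Fin n → ℂ)) : Module.End ℂ V :=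
  (1 / 4 : ℂ) • ∑ i, tau t (M (u i)) * tau t (q.dualBasis hnd u i)

lemma biv_act (hs : ∀ x y, q x y = q y x)
    (hc : ∀ x y, tau t x * tau t y + tau t y * tau t x = (2 * q x y) • 1)
    (hnd : q.Nondegenerate) (u : Basis (Fin n) ℂ (Fin n → ℂ)) (M : Module.End ℂ (Fin n → ℂ))
    (hM : ∀ x y, q (M x) y + q x (M y) = 0) : Act t (biv t hnd u M) M := by
  intro x
  have h1 : ∀ i, tau t (M (u i)) * tau t (q.dualBasis hnd u i) * tau t x -
      tau t x * (tau t (M (u i)) * tau t (q.dualBasis hnd u i)) =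
      (2 : ℂ) • (q (q.dualBasis hnd u i) x • tau t (M (u i))) +
        (2 : ℂ) • (q (M x) (u i) • tau t (q.dualBasis hnd u i)) := by
    intro i
    rw [vol_bracket hc, smul_smul, smul_smul]
    have h2 : q (M (u i)) x = - q (M x) (u i) := by
      rw [hs (M x) (u i)]
      exact eq_neg_of_add_eq_zero_left (hM (u i) x)
    rw [h2, mul_neg, neg_smul, sub_neg_eq_add]
  have h3 : ∑ i, q (q.dualBasis hnd u i) x • tau t (M (u i)) = tau t (M x) := by
    conv_rhs => rw [← vol_dual_left hnd u x]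
    rw [map_sum, map_sum]
    refine Finset.sum_congr rfl fun i _ => ?_
    rw [map_smul, map_smul]
  have h4 : ∑ i, q (M x) (u i) • tau t (q.dualBasis hnd u i) = tau t (M x) := by
    conv_rhs => rw [← vol_dual_right hnd u (M x)]
    rw [map_sum]
    refine Finset.sum_congr rfl fun i _ => ?_
    rw [map_smul]
  rw [biv, smul_mul_assoc, mul_smul_comm, ← smul_sub, Finset.sum_mul, Finset.mul_sum,
    ← Finset.sum_sub_distrib, Finset.sum_congr rfl fun i _ => h1 i, Finset.sum_add_distrib,
    ← Finset.smul_sum, ← Finset.smul_sum, h3, h4, ← add_smul, smul_smul]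
  norm_num

lemma biv_comm (hnd : q.Nondegenerate) (u : Basis (Fin n) ℂ (Fin n → ℂ))
    (M : Module.End ℂ (Fin n → ℂ)) (X : Module.End ℂ V) (M' : Module.End ℂ (Fin n → ℂ))
    (hX : Act t X M') (hM' : ∀ x y, q (M' x) y + q x (M' y) = 0) (hMM : M' * M = M * M') :
    X * biv t hnd u M = biv t hnd u M * X := by
  have h1 : ∀ i, X * (tau t (M (u i)) * tau t (q.dualBasis hnd u i)) -
      tau t (M (u i)) * tau t (q.dualBasis hnd u i) * X =
      tau t (M' (M (u i))) * tau t (q.dualBasis hnd u i) +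
        tau t (M (u i)) * tau t (M' (q.dualBasis hnd u i)) := by
    intro i
    rw [← hX, ← hX]
    noncomm_ring
  have h2 : ∑ i, tau t (M (u i)) * tau t (M' (q.dualBasis hnd u i)) =
      ∑ i, tau t (M ((-M') (u i))) * tau t (q.dualBasis hnd u i) := by
    apply vol_adj
    intro x y
    rw [LinearMap.neg_apply, map_neg]
    exact eq_neg_of_add_eq_zero_left (hM' x y)
  rw [← sub_eq_zero, biv, mul_smul_comm, smul_mul_assoc, ← smul_sub, Finset.mul_sum, Finset.sum_mul,
    ← Finset.sum_sub_distrib, Finset.sum_congr rfl fun i _ => h1 i, Finset.sum_add_distrib, h2,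
    ← Finset.sum_add_distrib, Finset.sum_eq_zero, smul_zero]
  intro i _
  have h3 : M' (M (u i)) = M (M' (u i)) := by
    have := congrArg (fun f : Module.End ℂ (Fin n → ℂ) => f (u i)) hMM
    exact this
  rw [LinearMap.neg_apply, map_neg, map_neg, h3, neg_mul, add_neg_cancel]

end biv

theorem exists_biv (q : LinearMap.BilinForm ℂ (Fin n → ℂ)) (hs : ∀ x y, q x y = q y x)
    (hnd : q.Nondegenerate)
    (hc : ∀ x y, tau t x * tau t y + tau t y * tau t x = (2 * q x y) • 1)
    (M : Module.End ℂ (Fin n → ℂ)) (hM : ∀ x y, q (M x) y + q x (M y) = 0) :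
    ∃ s : Module.End ℂ V, Act t s M ∧ s ∈ Submodule.span ℂ {z | ∃ x y, z = tau t x * tau t y} ∧
      ∀ X M', Act t X M' → (∀ x y, q (M' x) y + q x (M' y) = 0) → M' * M = M * M' →
        X * s = s * X := by
  refine ⟨biv t hnd (Pi.basisFun ℂ (Fin n)) M, biv_act hs hc hnd _ M hM, ?_,
    fun X M' hX hM' hMM => biv_comm hnd _ M X M' hX hM' hMM⟩
  refine Submodule.smul_mem _ _ (Submodule.sum_mem _ fun i _ => Submodule.subset_span ?_)
  exact ⟨_, _, rfl⟩

section vol

variable {q : LinearMap.BilinForm ℂ (Fin n → ℂ)}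

lemma om_orth (hc : ∀ x y, tau t x * tau t y + tau t y * tau t x = (2 * q x y) • 1)
    (y : Fin n → ℂ) (l : List (Fin n → ℂ)) (hy : ∀ w ∈ l, q w y = 0) :
    tau t y * (l.map (tau t)).prod = ((-1 : ℂ) ^ l.length) • ((l.map (tau t)).prod * tau t y) := by
  induction l with
  | nil => simp
  | cons a l ih =>
    have h1 := ih fun w hw => hy w (List.mem_cons_of_mem _ hw)
    have h2 : tau t y * tau t a = - (tau t a * tau t y) := by
      have h3 := hc a y
      rw [hy a List.mem_cons_self, mul_zero, zero_smul] at h3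
      exact eq_neg_of_add_eq_zero_right h3
    rw [List.map_cons, List.prod_cons, List.length_cons, ← mul_assoc, h2, neg_mul, mul_assoc, h1,
      mul_smul_comm, pow_succ, mul_neg_one, neg_smul, mul_assoc]

lemma om_mem (hs : ∀ x y, q x y = q y x)
    (hc : ∀ x y, tau t x * tau t y + tau t y * tau t x = (2 * q x y) • 1)
    (w : Fin n → ℂ) (l : List (Fin n → ℂ)) (hp : l.Pairwise fun a b => q a b = 0) (hw : w ∈ l) :
    tau t w * (l.map (tau t)).prod =
      (-(-1 : ℂ) ^ l.length) • ((l.map (tau t)).prod * tau t w) := by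
  induction l with
  | nil => simp at hw
  | cons a l ih =>
    rw [List.pairwise_cons] at hp
    rw [List.map_cons, List.prod_cons, List.length_cons, pow_succ, mul_neg_one, neg_neg]
    rcases List.mem_cons.mp hw with h | h
    · subst h
      have h1 := om_orth hc w l fun v hv => by rw [hs]; exact hp.1 v hv
      conv_lhs => rw [h1, mul_smul_comm]
      rw [mul_assoc]
    · have h1 := ih hp.2 h
      have h2 : tau t w * tau t a = - (tau t a * tau t w) := by
        have h3 := hc a w
        rw [hp.1 w h, mul_zero, zero_smul] at h3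
        exact eq_neg_of_add_eq_zero_right h3
      rw [← mul_assoc, h2, neg_mul, mul_assoc, h1, mul_smul_comm, neg_smul, neg_neg, mul_assoc]

lemma om_comm (Z : Module.End ℂ V) (hZ : ∀ x, Z * tau t x = tau t x * Z)
    (l : List (Fin n → ℂ)) : Z * (l.map (tau t)).prod = (l.map (tau t)).prod * Z := by
  induction l with
  | nil => simp
  | cons a l ih =>
    rw [List.map_cons, List.prod_cons, ← mul_assoc, hZ, mul_assoc, ih, mul_assoc]

lemma om_unit (hc : ∀ x y, tau t x * tau t y + tau t y * tau t x = (2 * q x y) • 1)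
    (l : List (Fin n → ℂ)) (hl : ∀ w ∈ l, q w w ≠ 0) : IsUnit (l.map (tau t)).prod := by
  induction l with
  | nil => simp
  | cons a l ih =>
    rw [List.map_cons, List.prod_cons]
    refine IsUnit.mul ?_ (ih fun w hw => hl w (List.mem_cons_of_mem _ hw))
    have h1 : tau t a * tau t a = q a a • 1 := by
      have h2 := hc a a
      rw [← two_smul ℂ, mul_smul] at h2
      exact smul_right_injective _ (two_ne_zero (α := ℂ)) h2
    have h0 := hl a List.mem_cons_self
    refine ⟨⟨tau t a, (q a a)⁻¹ • tau t a, ?_, ?_⟩, rfl⟩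
    · rw [mul_smul_comm, h1, smul_smul, inv_mul_cancel₀ h0, one_smul]
    · rw [smul_mul_assoc, h1, smul_smul, inv_mul_cancel₀ h0, one_smul]

/-- the part of the proof after the choice of the projection -/
lemma vol_main (hs : ∀ x y, q x y = q y x) (hnd : q.Nondegenerate)
    (hc : ∀ x y, tau t x * tau t y + tau t y * tau t x = (2 * q x y) • 1)
    (W : Submodule ℂ (Fin n → ℂ)) (hW : ∀ x ∈ W, (∀ y ∈ W, q x y = 0) → x = 0)
    (P : Module.End ℂ (Fin n → ℂ)) (hP1 : ∀ x, P x ∈ W) (hP2 : ∀ x, ∀ w ∈ W, q w (x - P x) = 0)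
    (e : ℂ) (he : e * e = 1) (ω : Module.End ℂ V)
    (hω1 : ∀ x ∈ W, tau t x * ω = (-e) • (ω * tau t x))
    (hω2 : ∀ x, (∀ w ∈ W, q w x = 0) → tau t x * ω = e • (ω * tau t x))
    (hω3 : ∀ Z : Module.End ℂ V, (∀ x, Z * tau t x = tau t x * Z) → Z * ω = ω * Z) :
    (∀ X M, Act t X M → (∀ x y, q (M x) y + q x (M y) = 0) → (∀ w ∈ W, M w ∈ W) →
        X * ω = ω * X) ∧
      ∀ x ∈ W, ∀ y, (∀ w ∈ W, q w y = 0) →
        tau t x * tau t y * ω = - (ω * (tau t x * tau t y)) := by
  have hPW : ∀ x ∈ W, P x = x := by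
    intro x hx
    have h1 : x - P x = 0 := by
      apply hW _ (Submodule.sub_mem _ hx (hP1 x))
      intro y hy
      rw [hs]
      exact hP2 x y hy
    exact (sub_eq_zero.mp h1).symm
  have hPO : ∀ x, (∀ w ∈ W, q w x = 0) → P x = 0 := by
    intro x hx
    apply hW _ (hP1 x)
    intro y hy
    have h1 := hP2 x y hy
    rw [map_sub, hx y hy, zero_sub, neg_eq_zero] at h1
    rw [hs, h1]
  have hPadj : ∀ x y, q (P x) y = q x (P y) := by
    intro x y
    have h1 := hP2 y (P x) (hP1 x)
    have h2 := hP2 x (P y) (hP1 y)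
    rw [map_sub, sub_eq_zero] at h1 h2
    rw [h1, hs x (P y), h2, hs]
  have hPP : ∀ x, P (P x) = P x := fun x => hPW _ (hP1 x)
  set g : Module.End ℂ (Fin n → ℂ) := e • (1 - (2 : ℂ) • P) with hg
  have hgx : ∀ x, g x = e • (x - (2 : ℂ) • P x) := fun x => rfl
  have hgadj : ∀ x y, q (g x) y = q x (g y) := by
    intro x y
    rw [hgx, hgx, map_smul, map_smul, map_sub, map_sub, map_smul, map_smul, LinearMap.smul_apply,
      LinearMap.sub_apply, LinearMap.smul_apply, hPadj]
  have hgg : ∀ x, g (g x) = x := by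
    intro x
    rw [hgx (g x), hgx x, map_smul, map_sub, map_smul, hPP]
    rw [smul_comm (2 : ℂ) e, ← smul_sub, smul_smul, he, one_smul]
    module
  have hω : ∀ x, tau t x * ω = ω * tau t (g x) := by
    intro x
    have h1 := hω1 (P x) (hP1 x)
    have h2 := hω2 (x - P x) (hP2 x)
    have h3 : tau t x = tau t (P x) + tau t (x - P x) := by
      rw [← map_add, add_sub_cancel]
    have h4 : g x = (-e) • P x + e • (x - P x) := by
      rw [hgx]
      module
    rw [h3, add_mul, h1, h2, h4, map_add, map_smul, map_smul, mul_add, mul_smul_comm,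
      mul_smul_comm]
  refine ⟨?_, ?_⟩
  · intro X M hX hM hMW
    have hPM : ∀ x, P (M x) = M (P x) := by
      intro x
      have h1 : M x = M (P x) + M (x - P x) := by rw [← map_add, add_sub_cancel]
      have h4 : P (M (x - P x)) = 0 := by
        apply hPO
        intro w hw
        have h2 := hM w (x - P x)
        rw [hP2 x _ (hMW w hw), zero_add] at h2
        exact h2
      rw [h1, map_add, hPW _ (hMW _ (hP1 x)), h4, add_zero]
    have hgM : ∀ x, g (M x) = M (g x) := by
      intro x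
      rw [hgx, hgx, hPM, map_smul, map_sub, map_smul]
    have hs1 : biv t hnd (Pi.basisFun ℂ (Fin n)) M * ω =
        ω * biv t hnd (Pi.basisFun ℂ (Fin n)) M := by
      rw [biv, smul_mul_assoc, mul_smul_comm]
      congr 1
      rw [Finset.sum_mul]
      have h1 : ∀ i, tau t (M (Pi.basisFun ℂ (Fin n) i)) *
          tau t (q.dualBasis hnd (Pi.basisFun ℂ (Fin n)) i) * ω =
          ω * (tau t ((g * M) (Pi.basisFun ℂ (Fin n) i)) *
          tau t (g (q.dualBasis hnd (Pi.basisFun ℂ (Fin n)) i))) := by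
        intro i
        rw [mul_assoc, hω, ← mul_assoc, hω, mul_assoc]
        rfl
      rw [Finset.sum_congr rfl fun i _ => h1 i, ← Finset.mul_sum,
        vol_adj hnd (Pi.basisFun ℂ (Fin n)) (g * M) g g hgadj]
      congr 1
      refine Finset.sum_congr rfl fun i _ => ?_
      congr 2
      show g (M (g _)) = _
      rw [hgM, hgg]
    have hs2 := biv_act hs hc hnd (Pi.basisFun ℂ (Fin n)) M hM
    have h3 := hω3 (X - biv t hnd (Pi.basisFun ℂ (Fin n)) M) (by
      intro x
      rw [sub_mul, mul_sub, sub_eq_sub_iff_sub_eq_sub, hX x, hs2 x])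
    rw [sub_mul, mul_sub, hs1] at h3
    exact sub_left_injective h3
  · intro x hx y hy
    rw [mul_assoc, hω2 y hy, mul_smul_comm, ← mul_assoc, hω1 x hx, smul_mul_assoc, smul_smul,
      mul_neg, he, neg_smul, one_smul, mul_assoc]

end vol

theorem volume (q : LinearMap.BilinForm ℂ (Fin n → ℂ)) (hs : ∀ x y, q x y = q y x)
    (hnd : q.Nondegenerate)
    (hc : ∀ x y, tau t x * tau t y + tau t y * tau t x = (2 * q x y) • 1)
    (W : Submodule ℂ (Fin n → ℂ)) (hW : ∀ x ∈ W, (∀ y ∈ W, q x y = 0) → x = 0) :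
    ∃ ω ω' : Module.End ℂ V, ω * ω' = 1 ∧ ω' * ω = 1 ∧
      (∀ X M, Act t X M → (∀ x y, q (M x) y + q x (M y) = 0) → (∀ w ∈ W, M w ∈ W) →
        X * ω = ω * X) ∧
      ∀ x ∈ W, ∀ y, (∀ w ∈ W, q w y = 0) →
        tau t x * tau t y * ω = - (ω * (tau t x * tau t y)) := by
  have hsym : LinearMap.IsSymm (q.restrict W) := ⟨fun x y => hs x y⟩
  obtain ⟨b, hb⟩ := LinearMap.BilinForm.exists_orthogonal_basis hsym
  have hbo : ∀ i j, i ≠ j → q (b i : Fin n → ℂ) (b j) = 0 := fun i j hij => hb hij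
  have hexp : ∀ x ∈ W, ∃ c : Fin (finrank ℂ W) → ℂ, x = ∑ i, c i • (b i : Fin n → ℂ) := by
    intro x hx
    refine ⟨fun i => b.repr ⟨x, hx⟩ i, ?_⟩
    have h1 := congrArg (W.subtype) (b.sum_repr ⟨x, hx⟩)
    rw [map_sum] at h1
    simp only [map_smul] at h1
    exact h1.symm
  have hbb : ∀ i, q (b i : Fin n → ℂ) (b i) ≠ 0 := by
    intro i h0
    have h1 : (b i : Fin n → ℂ) = 0 := by
      apply hW _ (b i).2
      intro y hy
      obtain ⟨c, rfl⟩ := hexp y hy
      rw [map_sum]
      refine Finset.sum_eq_zero fun j _ => ?_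
      rw [map_smul]
      by_cases hij : i = j
      · subst hij; rw [h0, smul_zero]
      · rw [hbo i j hij, smul_zero]
    exact b.ne_zero i (Subtype.ext h1)
  set l : List (Fin n → ℂ) := List.ofFn fun i => (b i : Fin n → ℂ) with hl
  have hlmem : ∀ w ∈ l, ∃ i, w = b i := by
    intro w hw
    rw [hl, List.mem_ofFn] at hw
    obtain ⟨i, hi⟩ := hw
    exact ⟨i, hi.symm⟩
  have hlmem' : ∀ i, (b i : Fin n → ℂ) ∈ l := by
    intro i
    rw [hl, List.mem_ofFn]
    exact ⟨i, rfl⟩
  have hlp : l.Pairwise fun a b => q a b = 0 := by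
    rw [hl, List.pairwise_ofFn]
    intro i j hij
    exact hbo i j (ne_of_lt hij)
  have hlu : IsUnit (l.map (tau t)).prod := by
    apply om_unit hc
    intro w hw
    obtain ⟨i, rfl⟩ := hlmem w hw
    exact hbb i
  set ω := (l.map (tau t)).prod with hω
  set e : ℂ := (-1) ^ l.length with he
  have hee : e * e = 1 := by
    rw [he, ← mul_pow]; norm_num
  obtain ⟨ω', h1, h2⟩ := isUnit_iff_exists.mp hlu
  refine ⟨ω, ω', h1, h2, ?_⟩
  set P : Module.End ℂ (Fin n → ℂ) :=
    ∑ i, (q (b i : Fin n → ℂ) (b i))⁻¹ • (q (b i : Fin n → ℂ)).smulRight (b i : Fin n → ℂ) with hP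
  have hPx : ∀ x, P x = ∑ i, (q (b i : Fin n → ℂ) (b i))⁻¹ • (q (b i : Fin n → ℂ) x •
      (b i : Fin n → ℂ)) := by
    intro x
    rw [hP, LinearMap.sum_apply]
    rfl
  apply vol_main hs hnd hc W hW P ?_ ?_ e hee ω ?_ ?_ ?_
  · intro x
    rw [hPx]
    exact Submodule.sum_mem _ fun i _ => Submodule.smul_mem _ _ (Submodule.smul_mem _ _ (b i).2)
  · intro x w hw
    obtain ⟨c, rfl⟩ := hexp w hw
    rw [map_sum, LinearMap.sum_apply]
    refine Finset.sum_eq_zero fun j _ => ?_
    rw [map_smul, LinearMap.smul_apply, map_sub, hPx, map_sum, Finset.sum_eq_single j]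
    · rw [map_smul, map_smul, smul_eq_mul, smul_eq_mul, smul_eq_mul]
      have := hbb j
      field_simp
      ring
    · intro i _ hij
      rw [map_smul, map_smul, hbo j i (Ne.symm hij), smul_zero, smul_zero]
    · intro h; exact absurd (Finset.mem_univ _) h
  · intro x hx
    obtain ⟨c, rfl⟩ := hexp x hx
    rw [map_sum, Finset.sum_mul, Finset.mul_sum, Finset.smul_sum]
    refine Finset.sum_congr rfl fun j _ => ?_
    rw [map_smul, smul_mul_assoc, mul_smul_comm, om_mem hs hc _ l hlp (hlmem' j), smul_comm]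
  · intro x hx
    apply om_orth hc
    intro w hw
    obtain ⟨i, rfl⟩ := hlmem w hw
    exact hx _ (b i).2
  · intro Z hZ
    exact om_comm Z hZ l

end Pool.Agent.KS
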