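import Pool.Agent.KS.Iso
import Pool.Agent.KS.Volume
import Pool.Agent.Helper7.Burnside

/-!
Module Irr. The symmetries act irreducibly on `T`.

`q = bil (rm G)`, `τ = tau t`. The relation `τ x τ y + τ y τ x = 2 q x y` is `tau_cliff K.cliff`,
`Act.skew` gives skewness of `M`, `Act.unique` uniqueness (`tau_injective`).

Proof of `no_nondeg` (`W` stable and non-degenerate is `⊥` or `⊤`). Otherwise choose `x ∈ W` with
`q x x ≠ 0` and `y` orthogonal to `W` with `q y y ≠ 0` (a non-zero symmetric form has an anisotropic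
vector; `W` and its orthogonal are non-degenerate and non-zero). Let `ω` be as in `volume`. It commutes
with all symmetries (`hT`, `hW`), so with all `t a * t b` by `comm_products`, so with `τ x τ y`, but
`τ x τ y ω = - ω τ x τ y`; so `2 τ x τ y ω = 0`, impossible: `τ x, τ y, ω` are invertible.

Proof of `irr_T`. Let `𝒮` be the set of the rational matrices `m` such that
`Matrix.toLin' (m.map (↑))` is the action on `T` of some rational symmetry `Y` (`IsInv`, `IsRatl`); for
a rational symmetry the `M` of `hT` is given by a rational matrix (if `X` and the `t a` are rational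
and `⁅X, t b⁆ = ∑ m a b t a` then `m` is rational: the `t a` are linearly independent over `ℂ` with
rational matrix entries). By `mem_span_of_isInv` every action `M` of a symmetry is a complex
combination of elements of `𝒮`. Apply `irr_base` with `K = ℚ`, `σ = Rat.castHom ℂ`:
(irr) `U ≤ ℚ^n` stable under `𝒮`. `U ⊓ U^⊥` is stable (the elements of `𝒮` are skew) and totally
isotropic, so it is `⊥` by `no_isotropic`; so the complex span of `U` is non-degenerate and stable, so
it is `⊥` or `⊤` by `no_nondeg`, and `U` is `⊥` or `⊤`.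
(comm) `φ` a rational matrix commuting with `𝒮`. Its adjoint `φ* = G⁻¹ φᵀ G` commutes with `𝒮` too.
`δ = φ - φ*` is skew, and commutes with all actions `M`. By `exists_biv` there is `s` acting by `δ`,
commuting with all symmetries, so with all `t a * t b` (`comm_products`) and with all `τ x τ y`:
`0 = ⁅s, τ x τ y⁆ = τ (δ x) τ y + τ x τ (δ y)`, and (commutator with `τ z`)
`q y z δ x - q (δ x) z y + q (δ y) z x - q x z δ y = 0` for all `x y z`. Given `x`, choose `z ≠ 0` with
`q x z = q (δ x) z = 0` (`3 ≤ n`) and `y` with `q y z ≠ 0`: `δ x ∈ ℂ x`. So `δ` is scalar and skew, so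
`δ = 0` and `φ` is self-adjoint for `G`. Let `l` be an eigenvalue of `φ` over `ℂ` and `W` its maximal
generalised eigenspace: non-degenerate (generalised eigenspaces of a self-adjoint operator of
different eigenvalues are orthogonal, and their sum is everything), stable, not `⊥`; so `W = ⊤` by
`no_nondeg`. So `φ - l` is nilpotent, `l = trace φ / n` is rational, the kernel of `φ - l` in `ℚ^n` is
stable under `𝒮` and non-zero, so it is `⊤` by (irr), and `φ = l`.
-/

namespace Pool.Agent.KS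

open Module Matrix Pool.Agent.Helper7

section aux

variable {V : Type} [AddCommGroup V] [Module ℂ V] {n : ℕ} {t : Fin n → Module.End ℂ V}

/-- what commutes with the products of two generators commutes with products of two vectors -/
lemma irr_comm_tau {f : Module.End ℂ V} (hf : ∀ a b, f * (t a * t b) = t a * t b * f)
    (x y : Fin n → ℂ) : f * (tau t x * tau t y) = tau t x * tau t y * f := by
  have h : tau t x * tau t y = ∑ a, ∑ b, (x a * y b) • (t a * t b) := by
    rw [tau_apply, tau_apply, Finset.sum_mul_sum]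
    refine Finset.sum_congr rfl fun a _ => Finset.sum_congr rfl fun b _ => ?_
    rw [smul_mul_smul_comm]
  rw [h, Finset.mul_sum, Finset.sum_mul]
  refine Finset.sum_congr rfl fun a _ => ?_
  rw [Finset.mul_sum, Finset.sum_mul]
  refine Finset.sum_congr rfl fun b _ => ?_
  rw [mul_smul_comm, hf, smul_mul_assoc]

lemma irr_aniso (q : LinearMap.BilinForm ℂ (Fin n → ℂ)) (hs : ∀ x y, q x y = q y x)
    (W : Submodule ℂ (Fin n → ℂ)) (h : ∀ x ∈ W, q x x = 0) : ∀ x ∈ W, ∀ y ∈ W, q x y = 0 := by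
  intro x hx y hy
  have h1 := h (x + y) (W.add_mem hx hy)
  have h2 := h x hx
  have h3 := h y hy
  simp only [map_add, LinearMap.add_apply] at h1
  rw [h2, h3, hs y x] at h1
  linear_combination h1 / 2

lemma irr_isCompl (q : LinearMap.BilinForm ℂ (Fin n → ℂ)) (hs : ∀ x y, q x y = q y x)
    (W : Submodule ℂ (Fin n → ℂ)) (hW : ∀ x ∈ W, (∀ y ∈ W, q x y = 0) → x = 0) :
    IsCompl W (q.orthogonal W) := by
  have hrefl : q.IsRefl := by
    intro u v h
    rw [hs, h]
  have hnd : (q.restrict W).Nondegenerate := by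
    apply q.nondegenerate_restrict_of_disjoint_orthogonal hrefl
    rw [Submodule.disjoint_def]
    intro u hu hu'
    rw [LinearMap.BilinForm.mem_orthogonal_iff] at hu'
    apply hW u hu
    intro v hv
    have h1 := hu' v hv
    change q v u = 0 at h1
    rw [hs, h1]
  exact LinearMap.BilinForm.isCompl_orthogonal_of_restrict_nondegenerate hrefl hnd

end aux

variable {κ : Type} [Fintype κ] [DecidableEq κ] [Nonempty κ] {ϖ : ℂ}
    (hϖ : ϖ ≠ 0) (P : PData κ ϖ) (hP : HNd P) {n : ℕ} (hn : 3 ≤ n)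
    {G : Matrix (Fin n) (Fin n) ℚ} (hG : Gᵀ = G) (hnd : (bil (rm G)).Nondegenerate)
    {t : Fin n → Module.End ℂ (κ → ℂ)} (K : KSD P G t) {N k : ℕ}
    (γ : MultilinearMap ℂ (fun _ : Fin (2 * k) => HW (fun _ : Unit => κ) (fun _ => N)) ℂ)
    (hB : ∀ v : Fin (2 * k) → HW (fun _ : Unit => κ) (fun _ => N),
      (∀ r, IsRatP (fun _ => N) (fun _ : Unit => P) (v r)) → ∃ q : ℚ, γ v = ϖ ^ k * q)
    (hA : ∀ v : Fin (2 * k) → HW (fun _ : Unit => κ) (fun _ => N),
      (∀ r i m j, IsAlgebraic ℚ (v r i m j)) → IsAlgebraic ℚ (γ v))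
    (hT : ∀ X : GG (fun _ : Unit => κ), IsInv (fun _ => N) (fun _ : Unit => P) γ X →
      ∃ M, Act t (X.1 ()) M)

include hϖ hG hnd K hB hA hT in
theorem no_nondeg (W : Submodule ℂ (Fin n → ℂ))
    (hW0 : ∀ x ∈ W, (∀ y ∈ W, bil (rm G) x y = 0) → x = 0)
    (hW : ∀ (X : GG (fun _ : Unit => κ)) (M : Module.End ℂ (Fin n → ℂ)),
      IsInv (fun _ => N) (fun _ : Unit => P) γ X → Act t (X.1 ()) M → ∀ w ∈ W, M w ∈ W) :
    W = ⊥ ∨ W = ⊤ := by
  classical
  obtain ⟨q, hq⟩ : ∃ q, q = bil (rm G) := ⟨_, rfl⟩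
  have hGr : (rm G)ᵀ = rm G := by rw [rm, ← Matrix.transpose_map, hG]
  have hs : ∀ x y, q x y = q y x := fun x y => by rw [hq]; exact bil_symm hGr x y
  rw [← hq] at hnd hW0
  have hc : ∀ x y, tau t x * tau t y + tau t y * tau t x = (2 * q x y) • 1 :=
    fun x y => by rw [hq]; exact tau_cliff K.cliff x y
  by_contra hcon
  push Not at hcon
  obtain ⟨hbot, htop⟩ := hcon
  have hcompl := irr_isCompl q hs W hW0
  -- an anisotropic vector in `W`
  obtain ⟨x, hx, hxx⟩ : ∃ x ∈ W, q x x ≠ 0 := by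
    by_contra h
    push Not at h
    apply hbot
    rw [eq_bot_iff]
    intro x hx
    exact hW0 x hx (fun y hy => irr_aniso q hs W h x hx y hy)
  -- an anisotropic vector orthogonal to `W`
  obtain ⟨y, hy, hyy⟩ : ∃ y ∈ q.orthogonal W, q y y ≠ 0 := by
    by_contra h
    push Not at h
    apply htop
    have h1 : q.orthogonal W = ⊥ := by
      rw [eq_bot_iff]
      intro y hy
      apply hnd.1
      intro z
      have hz : z ∈ W ⊔ q.orthogonal W := by rw [hcompl.sup_eq_top]; trivial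
      obtain ⟨a, ha, b, hb, rfl⟩ := Submodule.mem_sup.mp hz
      rw [map_add, irr_aniso q hs _ h y hy b hb, add_zero, hs]
      exact (LinearMap.BilinForm.mem_orthogonal_iff.mp hy) a ha
    have h2 := hcompl.sup_eq_top
    rwa [h1, sup_bot_eq] at h2
  obtain ⟨ω, ω', hω, -, hcomm, hanti⟩ := volume q hs hnd hc W hW0
  have h1 : ∀ a b, ω * (t a * t b) = t a * t b * ω := by
    apply comm_products hϖ P K γ hB hA ω
    intro X hX
    obtain ⟨M, hM⟩ := hT X hX
    refine hcomm (X.1 ()) M hM (fun x y => ?_) (hW X M hX hM)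
    rw [hq]
    exact Act.skew K.cliff hM x y
  have h2 := irr_comm_tau h1 x y
  have h3 := hanti x hx y (fun w hw => (LinearMap.BilinForm.mem_orthogonal_iff.mp hy) w hw)
  rw [h2] at h3
  have h4 : tau t x * tau t y * ω = 0 := by
    have h5 : (2 : ℂ) • (tau t x * tau t y * ω) = 0 := by
      rw [two_smul]
      nth_rewrite 1 [h3]
      exact neg_add_cancel _
    rcases smul_eq_zero.mp h5 with h6 | h6
    · norm_num at h6
    · exact h6
  have h5 : tau t x * tau t y = 0 := by
    have h6 := congrArg (fun z => z * ω') h4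
    simp only [zero_mul] at h6
    rwa [mul_assoc, hω, mul_one] at h6
  have h6 : tau t y = 0 := by
    have h7 := hc x x
    have h8 : tau t x * tau t x = q x x • 1 := by
      have h9 : (2 : ℂ) • (tau t x * tau t x) = (2 : ℂ) • (q x x • (1 : Module.End ℂ (κ → ℂ))) := by
        rw [two_smul, h7, smul_smul]
      exact smul_right_injective _ (by norm_num : (2 : ℂ) ≠ 0) h9
    have h9 := congrArg (fun z => tau t x * z) h5
    simp only [mul_zero] at h9
    rw [← mul_assoc, h8, smul_one_mul] at h9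
    exact (smul_eq_zero.mp h9).resolve_left hxx
  have h7 := hc y y
  rw [h6, mul_zero, add_zero] at h7
  rcases smul_eq_zero.mp h7.symm with h8 | h8
  · apply hyy
    linear_combination h8 / 2
  · exact one_ne_zero h8


/-- a combination of the rational operators `t a` which is rational has rational coefficients -/
lemma irr_rat_coeff (P : PData κ ϖ) {t : Fin n → Module.End ℂ (κ → ℂ)}
    (hrat : ∀ a, ∀ v ∈ P.Q, t a v ∈ P.Q) (hinj : Function.Injective (tau t))
    (Z : Module.End ℂ (κ → ℂ)) (hZ : ∀ v ∈ P.Q, Z v ∈ P.Q) (c : Fin n → ℂ) (hc : Z = tau t c) :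
    ∃ r : Fin n → ℚ, c = fun a => (r a : ℂ) := by
  obtain ⟨f, hf⟩ := exists_retract
  refine ⟨fun a => f (c a), ?_⟩
  apply hinj
  rw [← hc]
  apply P.bB.ext
  intro i
  apply P.bB.repr.injective
  ext j
  have h0 : ∀ c : Fin n → ℂ, P.bB.repr (tau t c (P.bB i)) j =
      ∑ a, c a * P.bB.repr (t a (P.bB i)) j := by
    intro c
    rw [tau_apply, LinearMap.sum_apply, map_sum, Finsupp.finsetSum_apply]
    refine Finset.sum_congr rfl fun a _ => ?_
    rw [LinearMap.smul_apply, map_smul, Finsupp.smul_apply, smul_eq_mul]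
  obtain ⟨z, hz⟩ := P.repr_rat _ (hZ _ (P.basis_mem i)) j
  choose r hr using fun a => P.repr_rat _ (hrat a _ (P.basis_mem i)) j
  rw [h0]
  simp_rw [hr]
  rw [hz]
  have h3 : (z : ℂ) = ∑ a, c a * (r a : ℂ) := by
    rw [← hz, hc, h0]
    simp_rw [hr]
  have h4 : z = ∑ a, f (c a) * r a := by
    have h5 := congrArg f h3
    rw [hf, map_sum] at h5
    rw [h5]
    refine Finset.sum_congr rfl fun a _ => ?_
    have h6 : c a * (r a : ℂ) = r a • c a := by
      rw [Algebra.smul_def, eq_ratCast, mul_comm]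
    rw [h6, map_smul, smul_eq_mul, mul_comm]
  rw [h4]
  push_cast
  rfl

/-- a rational vector as a complex vector -/
def rv (x : Fin n → ℚ) : Fin n → ℂ := fun a => (x a : ℂ)

lemma rv_mulVec (m : Matrix (Fin n) (Fin n) ℚ) (x : Fin n → ℚ) :
    Matrix.toLin' (m.map ((↑) : ℚ → ℂ)) (rv x) = rv (m *ᵥ x) := by
  funext i
  rw [Matrix.toLin'_apply]
  simp only [Matrix.mulVec, dotProduct, rv, Matrix.map_apply]
  push_cast
  rfl

lemma rv_injective {x : Fin n → ℚ} (h : rv x = 0) : x = 0 := by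
  funext i
  have := congrFun h i
  simp only [rv, Pi.zero_apply, Rat.cast_eq_zero] at this
  exact this

lemma rv_add (x y : Fin n → ℚ) : rv (x + y) = rv x + rv y := by
  funext i
  simp [rv]

lemma bil_rv (G : Matrix (Fin n) (Fin n) ℚ) (x y : Fin n → ℚ) :
    bil (rm G) (rv x) (rv y) = ((x ⬝ᵥ (G *ᵥ y) : ℚ) : ℂ) := by
  rw [bil_apply, dotProduct]
  push_cast
  refine Finset.sum_congr rfl fun a _ => ?_
  rw [Matrix.mulVec, dotProduct]
  push_cast
  rw [Finset.mul_sum]
  refine Finset.sum_congr rfl fun b _ => ?_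
  rw [rm, Matrix.map_apply]
  unfold rv
  push_cast
  ring

/-- the rational matrices of the rational symmetries -/
def irrSet (P : PData κ ϖ) (t : Fin n → Module.End ℂ (κ → ℂ))
    (γ : MultilinearMap ℂ (fun _ : Fin (2 * k) => HW (fun _ : Unit => κ) (fun _ => N)) ℂ) :
    Set (Matrix (Fin n) (Fin n) ℚ) :=
  {m | ∃ Y, IsInv (fun _ => N) (fun _ : Unit => P) γ Y ∧ IsRatl (fun _ : Unit => P) Y ∧
    Act t (Y.1 ()) (Matrix.toLin' (m.map ((↑) : ℚ → ℂ)))}

include K in
lemma irr_exists_mat (hinj : Function.Injective (tau t)) (Y : GG (fun _ : Unit => κ))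
    (hY : IsRatl (fun _ : Unit => P) Y) (M : Module.End ℂ (Fin n → ℂ)) (hM : Act t (Y.1 ()) M) :
    ∃ m : Matrix (Fin n) (Fin n) ℚ, M = Matrix.toLin' (m.map ((↑) : ℚ → ℂ)) := by
  have h1 : ∀ b, ∃ r : Fin n → ℚ, M (Pi.single b 1) = fun a => (r a : ℂ) := by
    intro b
    apply irr_rat_coeff P K.rat hinj (Y.1 () * t b - t b * Y.1 ())
    · intro v hv
      exact Submodule.sub_mem _ (hY.1 () _ (K.rat b v hv)) (K.rat b _ (hY.1 () v hv))
    · have h2 := hM (Pi.single b 1)
      rw [tau_single] at h2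
      exact h2
  choose r hr using h1
  refine ⟨Matrix.of fun a b => r b a, ?_⟩
  apply (Pi.basisFun ℂ (Fin n)).ext
  intro b
  rw [Pi.basisFun_apply, hr, Matrix.toLin'_apply, Matrix.mulVec_single_one]
  rfl

include hϖ K hB hT in
lemma irr_all (hinj : Function.Injective (tau t))
    (𝒩 : Submodule ℂ (Module.End ℂ (Fin n → ℂ)))
    (h𝒩 : ∀ m ∈ irrSet P t γ, Matrix.toLin' (m.map ((↑) : ℚ → ℂ)) ∈ 𝒩)
    (X : GG (fun _ : Unit => κ)) (hX : IsInv (fun _ => N) (fun _ : Unit => P) γ X)
    (M : Module.End ℂ (Fin n → ℂ)) (hM : Act t (X.1 ()) M) : M ∈ 𝒩 := by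
  have h1 := mem_span_of_isInv (fun _ => N) (fun _ : Unit => P) γ hϖ hB X hX
  have h2 : ∃ M' ∈ 𝒩, Act t (X.1 ()) M' := by
    refine Submodule.span_induction (p := fun X _ => ∃ M' ∈ 𝒩, Act t (X.1 ()) M') ?_ ?_ ?_ ?_ h1
    · rintro Y ⟨hY, hYr⟩
      obtain ⟨M', hM'⟩ := hT Y hY
      obtain ⟨m, rfl⟩ := irr_exists_mat P K hinj Y hYr M' hM'
      exact ⟨_, h𝒩 m ⟨Y, hY, hYr, hM'⟩, hM'⟩
    · refine ⟨0, 𝒩.zero_mem, fun x => ?_⟩
      show 0 * tau t x - tau t x * 0 = tau t 0
      rw [zero_mul, mul_zero, sub_zero, map_zero]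
    · rintro Y Z _ _ ⟨M1, h1, h2⟩ ⟨M2, h3, h4⟩
      exact ⟨M1 + M2, 𝒩.add_mem h1 h3, h2.add h4⟩
    · rintro c Y _ ⟨M1, h1, h2⟩
      exact ⟨c • M1, 𝒩.smul_mem c h1, h2.smul c⟩
  obtain ⟨M', hM', hA'⟩ := h2
  rwa [Act.unique hinj hM hA']

include K in
/-- the rational matrices of the symmetries are skew -/
lemma irr_skew {m : Matrix (Fin n) (Fin n) ℚ} (hm : m ∈ irrSet P t γ) (x y : Fin n → ℚ) :
    (m *ᵥ x) ⬝ᵥ (G *ᵥ y) + x ⬝ᵥ (G *ᵥ (m *ᵥ y)) = 0 := by
  obtain ⟨Y, -, -, hM⟩ := hm
  have h1 := Act.skew K.cliff hM (rv x) (rv y)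
  rw [rv_mulVec, rv_mulVec, bil_rv, bil_rv] at h1
  exact_mod_cast h1

include hϖ hP hn hG hnd K hB hA hT in
lemma irr_irr (U : Submodule ℚ (Fin n → ℚ))
    (hU : ∀ m ∈ irrSet P t γ, ∀ v ∈ U, m *ᵥ v ∈ U) : U = ⊥ ∨ U = ⊤ := by
  classical
  have hinj : Function.Injective (tau t) := tau_injective K.cliff hnd
  obtain ⟨B, hBd⟩ : ∃ B : LinearMap.BilinForm ℚ (Fin n → ℚ), ∀ x y, B x y = x ⬝ᵥ (G *ᵥ y) :=
    ⟨Matrix.toBilin' G, fun x y => Matrix.toBilin'_apply' _ _ _⟩
  have hBs : ∀ x y, B x y = B y x := by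
    intro x y
    rw [hBd, hBd, Matrix.dotProduct_mulVec, ← Matrix.mulVec_transpose, hG, dotProduct_comm]
  have hrefl : B.IsRefl := by
    intro u v h
    rw [hBs, h]
  -- the orthogonal is stable
  have hU' : ∀ m ∈ irrSet P t γ, ∀ v ∈ B.orthogonal U, m *ᵥ v ∈ B.orthogonal U := by
    intro m hm v hv
    rw [LinearMap.BilinForm.mem_orthogonal_iff] at hv ⊢
    intro u hu
    have h1 := hv _ (hU m hm u hu)
    have h2 := irr_skew P K γ hm u v
    change B (m *ᵥ u) v = 0 at h1
    change B u (m *ᵥ v) = 0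
    rw [hBd] at h1 ⊢
    rwa [h1, zero_add] at h2
  have hU0 : U ⊓ B.orthogonal U = ⊥ := by
    by_contra h0
    refine no_isotropic hϖ P hP hn hG hnd K γ hB hA hT (U ⊓ B.orthogonal U) h0 ?_ ?_
    · intro x hx y hy
      rw [← hBd]
      exact (LinearMap.BilinForm.mem_orthogonal_iff.mp hy.2) x hx.1
    · intro X M hX hM x hx
      have h1 := irr_all hϖ P K γ hB hT hinj
        ((Submodule.span ℂ {z | ∃ y ∈ U ⊓ B.orthogonal U, z = fun a => ((y a : ℚ) : ℂ)}).comap
          (LinearMap.applyₗ (rv x))) (by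
          intro m hm
          rw [Submodule.mem_comap, LinearMap.applyₗ_apply_apply, rv_mulVec]
          exact Submodule.subset_span ⟨_, ⟨hU m hm x hx.1, hU' m hm x hx.2⟩, rfl⟩) X hX M hM
      exact h1
  have hcompl : IsCompl U (B.orthogonal U) := by
    apply LinearMap.BilinForm.isCompl_orthogonal_of_restrict_nondegenerate hrefl
    apply B.nondegenerate_restrict_of_disjoint_orthogonal hrefl
    rw [disjoint_iff, hU0]
  obtain ⟨W, hWd⟩ : ∃ W : Submodule ℂ (Fin n → ℂ), W = Submodule.span ℂ {z | ∃ y ∈ U, z = rv y} :=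
    ⟨_, rfl⟩
  have hrvW : ∀ y ∈ U, rv y ∈ W := fun y hy => by
    rw [hWd]; exact Submodule.subset_span ⟨y, hy, rfl⟩
  -- vectors orthogonal to rational vectors
  have hrat0 : ∀ x : Fin n → ℂ, (∀ r : Fin n → ℚ, bil (rm G) x (rv r) = 0) → x = 0 := by
    intro x hx
    apply hnd.1
    intro z
    rw [pi_eq_sum_univ' z, map_sum]
    refine Finset.sum_eq_zero fun a _ => ?_
    rw [map_smul]
    have h1 := hx (Pi.single a 1)
    have h2 : (rv (Pi.single a 1) : Fin n → ℂ) = Pi.single a 1 := by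
      funext j
      by_cases h : j = a
      · subst h; simp [rv]
      · simp [rv, h]
    rw [h2] at h1
    rw [h1, smul_zero]
  have horth : ∀ x ∈ W, ∀ u' ∈ B.orthogonal U, bil (rm G) x (rv u') = 0 := by
    intro x hx u' hu'
    rw [hWd] at hx
    induction hx using Submodule.span_induction with
    | mem x hx =>
      obtain ⟨y, hy, rfl⟩ := hx
      rw [bil_rv, ← hBd]
      have h1 : B y u' = 0 := (LinearMap.BilinForm.mem_orthogonal_iff.mp hu') y hy
      rw [h1, Rat.cast_zero]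
    | zero => rw [map_zero, LinearMap.zero_apply]
    | add x y _ _ hx hy => rw [map_add, LinearMap.add_apply, hx, hy, add_zero]
    | smul c x _ hx => rw [map_smul, LinearMap.smul_apply, hx, smul_zero]
  have hdec : ∀ r : Fin n → ℚ, ∃ u ∈ U, ∃ u' ∈ B.orthogonal U, u + u' = r := by
    intro r
    have hr : r ∈ U ⊔ B.orthogonal U := by rw [hcompl.sup_eq_top]; trivial
    exact Submodule.mem_sup.mp hr
  have hW : W = ⊥ ∨ W = ⊤ := by
    apply no_nondeg hϖ P hG hnd K γ hB hA hT W
    · intro x hx hxW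
      apply hrat0
      intro r
      obtain ⟨u, hu, u', hu', rfl⟩ := hdec r
      rw [rv_add, map_add, hxW _ (hrvW u hu), horth x hx u' hu', add_zero]
    · intro X M hX hM w hw
      have h1 := irr_all hϖ P K γ hB hT hinj (Submodule.compatibleMaps W W) (by
        intro m hm
        show W ≤ W.comap _
        conv_lhs => rw [hWd]
        rw [Submodule.span_le]
        rintro z ⟨y, hy, rfl⟩
        show Matrix.toLin' (m.map ((↑) : ℚ → ℂ)) (rv y) ∈ W
        rw [rv_mulVec]
        exact hrvW _ (hU m hm y hy)) X hX M hM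
      exact h1 hw
  rcases hW with hW | hW
  · left
    rw [eq_bot_iff]
    intro y hy
    have h1 := hrvW y hy
    rw [hW, Submodule.mem_bot] at h1
    rw [Submodule.mem_bot]
    exact rv_injective h1
  · right
    have h1 : B.orthogonal U = ⊥ := by
      rw [eq_bot_iff]
      intro u' hu'
      rw [Submodule.mem_bot]
      apply rv_injective
      apply hrat0
      intro r
      have hGr : (rm G)ᵀ = rm G := by rw [rm, ← Matrix.transpose_map, hG]
      rw [bil_symm hGr]
      exact horth _ (by rw [hW]; trivial) u' hu'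
    have h2 := hcompl.sup_eq_top
    rwa [h1, sup_bot_eq] at h2


/-- a skew operator commuting with the symmetries is zero -/
lemma irr_delta (hn3 : 3 ≤ n) (hϖ' : ϖ ≠ 0) (hnd' : (bil (rm G)).Nondegenerate) (hG' : Gᵀ = G)
    (K' : KSD P G t)
    (hB' : ∀ v : Fin (2 * k) → HW (fun _ : Unit => κ) (fun _ => N),
      (∀ r, IsRatP (fun _ => N) (fun _ : Unit => P) (v r)) → ∃ q : ℚ, γ v = ϖ ^ k * q)
    (hA' : ∀ v : Fin (2 * k) → HW (fun _ : Unit => κ) (fun _ => N),
      (∀ r i m j, IsAlgebraic ℚ (v r i m j)) → IsAlgebraic ℚ (γ v))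
    (hT' : ∀ X : GG (fun _ : Unit => κ), IsInv (fun _ => N) (fun _ : Unit => P) γ X →
      ∃ M, Act t (X.1 ()) M)
    (δ : Module.End ℂ (Fin n → ℂ))
    (hskew : ∀ x y, bil (rm G) (δ x) y + bil (rm G) x (δ y) = 0)
    (hcomm : ∀ (X : GG (fun _ : Unit => κ)) (M : Module.End ℂ (Fin n → ℂ)),
      IsInv (fun _ => N) (fun _ : Unit => P) γ X → Act t (X.1 ()) M → M * δ = δ * M) :
    δ = 0 := by
  classical
  obtain ⟨q, hq⟩ : ∃ q, q = bil (rm G) := ⟨_, rfl⟩
  have hGr : (rm G)ᵀ = rm G := by rw [rm, ← Matrix.transpose_map, hG']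
  have hs : ∀ x y, q x y = q y x := fun x y => by rw [hq]; exact bil_symm hGr x y
  have hinj : Function.Injective (tau t) := tau_injective K'.cliff hnd'
  rw [← hq] at hnd' hskew
  have hc : ∀ x y, tau t x * tau t y + tau t y * tau t x = (2 * q x y) • 1 :=
    fun x y => by rw [hq]; exact tau_cliff K'.cliff x y
  obtain ⟨s, hs1, -, hs2⟩ := exists_biv q hs hnd' hc δ hskew
  have h1 : ∀ a b, s * (t a * t b) = t a * t b * s := by
    apply comm_products hϖ' P K' γ hB' hA' s
    intro X hX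
    obtain ⟨M, hM⟩ := hT' X hX
    refine hs2 (X.1 ()) M hM (fun x y => ?_) (hcomm X M hX hM)
    rw [hq]
    exact Act.skew K'.cliff hM x y
  have h2 : ∀ x y, tau t (δ x) * tau t y + tau t x * tau t (δ y) = 0 := by
    intro x y
    have h3 := irr_comm_tau h1 x y
    rw [← hs1 x, ← hs1 y]
    have h4 : s * (tau t x * tau t y) - tau t x * tau t y * s = 0 := by rw [h3, sub_self]
    rw [← h4]
    simp only [sub_mul, mul_sub, mul_assoc]
    abel
  -- commutator with a vector
  have hcm : ∀ a b z, tau t a * tau t b * tau t z - tau t z * (tau t a * tau t b) =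
      tau t ((2 * q b z) • a - (2 * q a z) • b) := by
    intro a b z
    have h3 := hc b z
    have h4 := hc a z
    rw [map_sub, map_smul, map_smul]
    have h5 : tau t b * tau t z = (2 * q b z) • 1 - tau t z * tau t b := eq_sub_of_add_eq h3
    have h6 : tau t z * tau t a = (2 * q a z) • 1 - tau t a * tau t z :=
      eq_sub_of_add_eq (by rw [add_comm]; exact h4)
    rw [mul_assoc, h5, ← mul_assoc (tau t z), h6, mul_sub, sub_mul, mul_smul_comm, mul_one,
      smul_mul_assoc, one_mul]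
    noncomm_ring
  have h3 : ∀ x y z, q y z • δ x - q (δ x) z • y + (q (δ y) z • x - q x z • δ y) = 0 := by
    intro x y z
    have h4 := hcm (δ x) y z
    have h5 := hcm x (δ y) z
    have h6 : tau t (((2 * q y z) • δ x - (2 * q (δ x) z) • y) +
        ((2 * q (δ y) z) • x - (2 * q x z) • δ y)) = 0 := by
      rw [map_add, ← h4, ← h5]
      have h7 : (tau t (δ x) * tau t y + tau t x * tau t (δ y)) * tau t z -
        tau t z * (tau t (δ x) * tau t y + tau t x * tau t (δ y)) = 0 := by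
        rw [h2, zero_mul, mul_zero, sub_zero]
      rw [← h7]
      noncomm_ring
    have h8 := hinj (h6.trans (map_zero (tau t)).symm)
    have h9 : (2 : ℂ) • (q y z • δ x - q (δ x) z • y + (q (δ y) z • x - q x z • δ y)) = 0 := by
      rw [← h8]
      simp only [smul_add, smul_sub, smul_smul]
    exact (smul_eq_zero.mp h9).resolve_left (by norm_num)
  -- every vector is an eigenvector
  have h4 : ∀ x, ∃ c : ℂ, δ x = c • x := by
    intro x
    obtain ⟨z, hz0, hz1, hz2⟩ : ∃ z : Fin n → ℂ, z ≠ 0 ∧ q x z = 0 ∧ q (δ x) z = 0 := by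
      let f : (Fin n → ℂ) →ₗ[ℂ] (Fin 2 → ℂ) := LinearMap.pi ![q x, q (δ x)]
      have hf : LinearMap.ker f ≠ ⊥ := by
        apply LinearMap.ker_ne_bot_of_finrank_lt
        rw [Module.finrank_fin_fun, Module.finrank_fin_fun]
        omega
      obtain ⟨z, hz, hz0⟩ := Submodule.exists_mem_ne_zero_of_ne_bot hf
      rw [LinearMap.mem_ker] at hz
      refine ⟨z, hz0, ?_, ?_⟩
      · exact congrFun hz 0
      · exact congrFun hz 1
    obtain ⟨y, hy⟩ : ∃ y, q y z ≠ 0 := by
      by_contra hcon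
      push Not at hcon
      apply hz0
      apply hnd'.1
      intro y
      rw [hs, hcon]
    have h5 := h3 x y z
    rw [hz1, hz2, zero_smul, zero_smul, sub_zero, sub_zero] at h5
    refine ⟨-((q y z)⁻¹ * q (δ y) z), ?_⟩
    have h6 : q y z • δ x = -(q (δ y) z • x) := eq_neg_of_add_eq_zero_left h5
    have h7 := congrArg (fun v => (q y z)⁻¹ • v) h6
    simp only [smul_smul, inv_mul_cancel₀ hy, one_smul, smul_neg] at h7
    rw [h7, neg_smul]
  have h5 : ∀ x, q x x ≠ 0 → δ x = 0 := by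
    intro x hx
    obtain ⟨c, hc'⟩ := h4 x
    have h6 := hskew x x
    rw [hs x (δ x), hc', map_smul, LinearMap.smul_apply, smul_eq_mul] at h6
    have h7 : c * q x x = 0 := by linear_combination h6 / 2
    rw [hc', (mul_eq_zero.mp h7).resolve_right hx, zero_smul]
  obtain ⟨e, he⟩ : ∃ e, q e e ≠ 0 := by
    by_contra hcon
    push Not at hcon
    have h6 := irr_aniso q hs ⊤ (fun x _ => hcon x)
    have h7 : (Pi.single ⟨0, by omega⟩ 1 : Fin n → ℂ) = 0 :=
      hnd'.1 _ fun y => h6 _ trivial y trivial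
    have h8 := congrFun h7 ⟨0, by omega⟩
    rw [Pi.single_eq_same] at h8
    exact one_ne_zero h8
  apply LinearMap.ext
  intro x
  rw [LinearMap.zero_apply]
  by_cases hx : q x x = 0
  · obtain ⟨c, hc'⟩ : ∃ c : ℂ, q (x + c • e) (x + c • e) ≠ 0 := by
      by_contra hcon
      push Not at hcon
      have h6 := hcon 1
      have h7 := hcon (-1)
      simp only [map_add, LinearMap.add_apply, map_smul, LinearMap.smul_apply, smul_eq_mul] at h6 h7
      apply he
      rw [hx] at h6 h7
      linear_combination (h6 + h7) / 2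
    have h6 := h5 _ hc'
    rw [map_add, map_smul, h5 e he, smul_zero, add_zero] at h6
    exact h6
  · exact h5 x hx

include hϖ hP hn hG hnd K hB hA hT in
lemma irr_comm (φ : Matrix (Fin n) (Fin n) ℚ) (hφ : ∀ m ∈ irrSet P t γ, m * φ = φ * m) :
    ∃ c : ℚ, φ = c • 1 := by
  classical
  have hinj : Function.Injective (tau t) := tau_injective K.cliff hnd
  obtain ⟨q, hq⟩ : ∃ q, q = bil (rm G) := ⟨_, rfl⟩
  have hGr : (rm G)ᵀ = rm G := by rw [rm, ← Matrix.transpose_map, hG]
  have hs : ∀ x y, q x y = q y x := fun x y => by rw [hq]; exact bil_symm hGr x y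
  have hnd' : q.Nondegenerate := by rw [hq]; exact hnd
  obtain ⟨Φ, hΦ⟩ : ∃ Φ, Φ = Matrix.toLin' (φ.map ((↑) : ℚ → ℂ)) := ⟨_, rfl⟩
  have hMΦ : ∀ (X : GG (fun _ : Unit => κ)) (M : Module.End ℂ (Fin n → ℂ)),
      IsInv (fun _ => N) (fun _ : Unit => P) γ X → Act t (X.1 ()) M → M * Φ = Φ * M := by
    intro X M hX hM
    have h1 := irr_all hϖ P K γ hB hT hinj (Subalgebra.centralizer ℂ {Φ}).toSubmodule (by
      intro m hm
      rw [Subalgebra.mem_toSubmodule, Subalgebra.mem_centralizer_iff]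
      rintro g hg
      rw [Set.mem_singleton_iff.mp hg, hΦ]
      have h2 := hφ m hm
      have h3 : ∀ a b : Matrix (Fin n) (Fin n) ℚ, Matrix.toLin' (a.map ((↑) : ℚ → ℂ)) *
          Matrix.toLin' (b.map ((↑) : ℚ → ℂ)) = Matrix.toLin' ((a * b).map ((↑) : ℚ → ℂ)) := by
        intro a b
        have h4 : (a * b).map ((↑) : ℚ → ℂ) = a.map ((↑) : ℚ → ℂ) * b.map ((↑) : ℚ → ℂ) :=
          Matrix.map_mul (f := Rat.castHom ℂ)
        rw [h4, Matrix.toLin'_mul]
        rfl
      rw [h3, h3, h2]) X hX M hM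
    rw [Subalgebra.mem_toSubmodule, Subalgebra.mem_centralizer_iff] at h1
    exact (h1 Φ rfl).symm
  have hMs : ∀ (X : GG (fun _ : Unit => κ)) (M : Module.End ℂ (Fin n → ℂ)),
      IsInv (fun _ => N) (fun _ : Unit => P) γ X → Act t (X.1 ()) M →
      ∀ x y, q (M x) y + q x (M y) = 0 := by
    intro X M _ hM x y
    rw [hq]
    exact Act.skew K.cliff hM x y
  obtain ⟨Φs, hΦs⟩ : ∃ Φs : Module.End ℂ (Fin n → ℂ), ∀ x y, q (Φs x) y = q x (Φ y) :=
    ⟨q.leftAdjointOfNondegenerate hnd' Φ,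
      fun x y => q.isAdjointPairLeftAdjointOfNondegenerate hnd' Φ x y⟩
  have hself : Φ - Φs = 0 := by
    refine irr_delta P γ hn hϖ hnd hG K hB hA hT (Φ - Φs) ?_ ?_
    · intro x y
      rw [← hq]
      have h1 := hΦs x y
      have h2 := hΦs y x
      have h3 := hs x (Φs y)
      have h4 := hs y (Φ x)
      simp only [LinearMap.sub_apply, map_sub]
      rw [h1, h3, h2, h4]
      ring
    · intro X M hX hM
      have h1 : M * Φs = Φs * M := by
        apply LinearMap.ext
        intro x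
        rw [← sub_eq_zero]
        apply hnd'.1
        intro y
        show q (M (Φs x) - Φs (M x)) y = 0
        rw [map_sub, LinearMap.sub_apply, hΦs]
        have h2 := hMs X M hX hM (Φs x) y
        have h3 := hMs X M hX hM x (Φ y)
        have h4 : M (Φ y) = Φ (M y) := congrArg (fun f => f y) (hMΦ X M hX hM)
        rw [hΦs, ← h4] at h2
        linear_combination h2 - h3
      rw [mul_sub, sub_mul, h1, hMΦ X M hX hM]
  have hsa : ∀ x y, q (Φ x) y = q x (Φ y) := by
    intro x y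
    rw [← hΦs, sub_eq_zero.mp hself]
  -- an eigenvalue
  have : Nonempty (Fin n) := ⟨⟨0, by omega⟩⟩
  obtain ⟨l, hl⟩ := Module.End.exists_eigenvalue Φ
  obtain ⟨A, hAd⟩ : ∃ A : Module.End ℂ (Fin n → ℂ), A = Φ - l • 1 := ⟨_, rfl⟩
  have hAs : ∀ x y, q (A x) y = q x (A y) := by
    intro x y
    rw [hAd]
    simp only [LinearMap.sub_apply, LinearMap.smul_apply, Module.End.one_apply, map_sub, map_smul]
    rw [hsa]
  have hAp : ∀ (j : ℕ) x y, q ((A ^ j) x) y = q x ((A ^ j) y) := by
    intro j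
    induction j with
    | zero => intro x y; rfl
    | succ j ih =>
      intro x y
      rw [pow_succ, Module.End.mul_apply, ih, hAs]
      rw [← Module.End.mul_apply, ← pow_succ', pow_succ, Module.End.mul_apply]
  obtain ⟨j, hj1, hj⟩ : ∃ j, 1 ≤ j ∧ IsCompl (LinearMap.ker (A ^ j)) (LinearMap.range (A ^ j)) := by
    have h1 := (LinearMap.eventually_isCompl_ker_pow_range_pow A).and
      (Filter.eventually_ge_atTop 1)
    obtain ⟨j, h2, h3⟩ := h1.exists
    exact ⟨j, h3, h2⟩
  have hker : LinearMap.ker (A ^ j) = ⊥ ∨ LinearMap.ker (A ^ j) = ⊤ := by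
    apply no_nondeg hϖ P hG hnd K γ hB hA hT
    · intro x hx hxk
      rw [← hq] at hxk
      apply hnd'.1
      intro z
      have hz : z ∈ LinearMap.ker (A ^ j) ⊔ LinearMap.range (A ^ j) := by
        rw [hj.sup_eq_top]; trivial
      obtain ⟨a, ha, b, ⟨c, rfl⟩, rfl⟩ := Submodule.mem_sup.mp hz
      rw [map_add, hxk a ha, zero_add, ← hAp, LinearMap.mem_ker.mp hx, map_zero,
        LinearMap.zero_apply]
    · intro X M hX hM w hw
      rw [LinearMap.mem_ker] at hw ⊢
      have h1 : Commute M (A ^ j) := by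
        apply Commute.pow_right
        rw [hAd]
        apply Commute.sub_right (hMΦ X M hX hM)
        exact (Commute.one_right M).smul_right l
      have h2 : (A ^ j) (M w) = M ((A ^ j) w) := congrArg (fun f => f w) h1.eq.symm
      rw [h2, hw, map_zero]
  have hAj : A ^ j = 0 := by
    rcases hker with h | h
    · exfalso
      obtain ⟨w, hw⟩ := hl.exists_hasEigenvector
      have h1 : A w = 0 := by
        rw [hAd, LinearMap.sub_apply, LinearMap.smul_apply, Module.End.one_apply, hw.apply_eq_smul,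
          sub_self]
      have h2 : w ∈ LinearMap.ker (A ^ j) := by
        rw [LinearMap.mem_ker]
        obtain ⟨j', rfl⟩ : ∃ j', j = j' + 1 := ⟨j - 1, by omega⟩
        rw [pow_succ, Module.End.mul_apply, h1, map_zero]
      rw [h, Submodule.mem_bot] at h2
      exact hw.2 h2
    · exact LinearMap.ker_eq_top.mp h
  -- the eigenvalue is rational
  have hmat : (φ.map ((↑) : ℚ → ℂ) - l • 1) ^ j = 0 := by
    apply Matrix.toLin'.injective
    rw [Matrix.toLin'_pow, map_zero, map_sub, map_smul, Matrix.toLin'_one, ← hΦ]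
    rw [← hAj, hAd]
    rfl
  have htr : (φ.map ((↑) : ℚ → ℂ) - l • 1).trace = 0 :=
    (Matrix.isNilpotent_trace_of_isNilpotent ⟨j, hmat⟩).eq_zero
  have hn0 : (n : ℂ) ≠ 0 := by
    have : n ≠ 0 := by omega
    exact_mod_cast this
  obtain ⟨r, hr⟩ : ∃ r : ℚ, l = r := by
    refine ⟨φ.trace / n, ?_⟩
    have h1 : (φ.map ((↑) : ℚ → ℂ)).trace = ((φ.trace : ℚ) : ℂ) := by
      simp [Matrix.trace]
    rw [Matrix.trace_sub, Matrix.trace_smul, Matrix.trace_one, h1, Fintype.card_fin,
      smul_eq_mul] at htr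
    push_cast
    rw [eq_div_iff hn0]
    linear_combination -htr
  obtain ⟨ψ, hψ⟩ : ∃ ψ, ψ = φ - r • (1 : Matrix (Fin n) (Fin n) ℚ) := ⟨_, rfl⟩
  have hψj : ψ ^ j = 0 := by
    have h1 : (Rat.castHom ℂ).mapMatrix (ψ ^ j) = 0 := by
      rw [map_pow, ← hmat]
      congr 1
      rw [hψ, map_sub, hr]
      congr 1
      ext a b
      by_cases hab : a = b
      · subst hab
        simp
      · simp [Matrix.one_apply, hab]
    have h2 : Function.Injective ((Rat.castHom ℂ).mapMatrix :
        Matrix (Fin n) (Fin n) ℚ →+* Matrix (Fin n) (Fin n) ℂ) :=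
      Matrix.map_injective (Rat.castHom ℂ).injective
    exact h2 (h1.trans (map_zero _).symm)
  have hU : LinearMap.ker (Matrix.toLin' ψ) = ⊥ ∨ LinearMap.ker (Matrix.toLin' ψ) = ⊤ := by
    apply irr_irr hϖ P hP hn hG hnd K γ hB hA hT
    intro m hm v hv
    rw [LinearMap.mem_ker, Matrix.toLin'_apply] at hv ⊢
    have h1 : ψ * m = m * ψ := by
      rw [hψ, sub_mul, mul_sub, hφ m hm, smul_mul_assoc, one_mul, mul_smul_comm, mul_one]
    rw [Matrix.mulVec_mulVec, h1, ← Matrix.mulVec_mulVec, hv, Matrix.mulVec_zero]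
  rcases hU with hU | hU
  · exfalso
    have h1 : Function.Injective (Matrix.toLin' ψ) := LinearMap.ker_eq_bot.mp hU
    have h2 : Function.Injective ((Matrix.toLin' ψ) ^ j) := by
      rw [Module.End.coe_pow]
      exact h1.iterate j
    have h3 : (Matrix.toLin' ψ) ^ j = 0 := by
      rw [← Matrix.toLin'_pow, hψj, map_zero]
    rw [h3] at h2
    have h4 := h2 (a₁ := fun _ => (1 : ℚ)) (a₂ := 0) rfl
    have h5 := congrFun h4 ⟨0, by omega⟩
    exact one_ne_zero h5
  · refine ⟨r, ?_⟩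
    have h1 : Matrix.toLin' ψ = 0 := LinearMap.ker_eq_top.mp hU
    have h2 : ψ = 0 := Matrix.toLin'.injective (h1.trans (map_zero _).symm)
    rw [hψ] at h2
    exact sub_eq_zero.mp h2

include hϖ hP hn hG hnd K hB hA hT in
theorem irr_T (W : Submodule ℂ (Fin n → ℂ))
    (hW : ∀ (X : GG (fun _ : Unit => κ)) (M : Module.End ℂ (Fin n → ℂ)),
      IsInv (fun _ => N) (fun _ : Unit => P) γ X → Act t (X.1 ()) M → ∀ w ∈ W, M w ∈ W) :
    W = ⊥ ∨ W = ⊤ := by
  apply irr_base (by omega : 0 < n) (irrSet P t γ)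
    (fun U hU => irr_irr hϖ P hP hn hG hnd K γ hB hA hT U hU)
    (fun φ hφ => irr_comm hϖ P hP hn hG hnd K γ hB hA hT φ hφ) (Rat.castHom ℂ) W
  rintro m ⟨Y, hY, -, hM⟩ v hv
  exact hW Y _ hY hM v hv

end Pool.Agent.KS
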