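import Pool.Agent.KS.SOMain2
import Pool.Agent.KS.Irr
import Pool.Agent.KS.Hyp

/-!
The symmetries of a class on a power of a Kuga-Satake variety contain the spin algebra.
-/

namespace Pool.Agent.KS

open Module Matrix Pool.Agent.Helper7 Pool.Agent.Ball Pool.Agent.Helper28.GPC

section biv

variable {V : Type} [AddCommGroup V] [Module ℂ V] {n : ℕ} {t : Fin n → Module.End ℂ V}

/-- the bivector of two vectors acts by the skew operator -/
lemma act_biv (q : LinearMap.BilinForm ℂ (Fin n → ℂ))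
    (hc : ∀ x y, tau t x * tau t y + tau t y * tau t x = (2 * q x y) • 1) (x z : Fin n → ℂ) :
    Act t ((1 / 4 : ℂ) • (tau t x * tau t z - tau t z * tau t x)) (wed q x z) := by
  intro y
  rw [wed_apply, map_sub, map_smul, map_smul]
  have h1 : tau t x * tau t z * tau t y - tau t y * (tau t x * tau t z) =
      (2 * q z y) • tau t x - (2 * q x y) • tau t z := by
    have e1 := congrArg (fun A => tau t x * A) (hc z y)
    have e2 := congrArg (fun A => A * tau t z) (hc x y)
    simp only [mul_smul_comm, mul_one, smul_mul_assoc, one_mul] at e1 e2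
    rw [← e1, ← e2]
    noncomm_ring
  have h2 : tau t z * tau t x * tau t y - tau t y * (tau t z * tau t x) =
      (2 * q x y) • tau t z - (2 * q z y) • tau t x := by
    have e1 := congrArg (fun A => tau t z * A) (hc x y)
    have e2 := congrArg (fun A => A * tau t x) (hc z y)
    simp only [mul_smul_comm, mul_one, smul_mul_assoc, one_mul] at e1 e2
    rw [← e1, ← e2]
    noncomm_ring
  have h3 : (1 / 4 : ℂ) • (tau t x * tau t z - tau t z * tau t x) * tau t y -
      tau t y * (1 / 4 : ℂ) • (tau t x * tau t z - tau t z * tau t x) =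
      (1 / 4 : ℂ) • ((tau t x * tau t z * tau t y - tau t y * (tau t x * tau t z)) -
        (tau t z * tau t x * tau t y - tau t y * (tau t z * tau t x))) := by
    rw [smul_mul_assoc, mul_smul_comm, ← smul_sub]
    congr 1
    noncomm_ring
  rw [h3, h1, h2]
  module

lemma wed_skew' (q : LinearMap.BilinForm ℂ (Fin n → ℂ)) (hs : ∀ x y, q x y = q y x)
    (x z u v : Fin n → ℂ) : q (wed q x z u) v + q u (wed q x z v) = 0 := by
  rw [wed_apply, wed_apply, map_sub, LinearMap.sub_apply, map_sub, map_smul, map_smul, map_smul,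
    map_smul, LinearMap.smul_apply, LinearMap.smul_apply]
  simp only [smul_eq_mul]
  rw [hs u x, hs u z]
  ring

end biv

section final

variable {κ : Type} [Fintype κ] [DecidableEq κ] [Nonempty κ] {ϖ : ℂ}
    (hϖ : ϖ ≠ 0) (P : PData κ ϖ) (hP : HNd P) {n : ℕ} (hn : 3 ≤ n)
    (hn5 : n ≠ 5) {G : Matrix (Fin n) (Fin n) ℚ} (hG : Gᵀ = G) (hsig : Sig2 (rm G) ∨ Sig2 (-(rm G)))
    {t : Fin n → Module.End ℂ (κ → ℂ)} (K : KSD P G t) {N k : ℕ}
    (γ : MultilinearMap ℂ (fun _ : Fin (2 * k) => HW (fun _ : Unit => κ) (fun _ => N)) ℂ)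
    (hB : ∀ v : Fin (2 * k) → HW (fun _ : Unit => κ) (fun _ => N),
      (∀ r, IsRatP (fun _ => N) (fun _ : Unit => P) (v r)) → ∃ q : ℚ, γ v = ϖ ^ k * q)
    (hA : ∀ v : Fin (2 * k) → HW (fun _ : Unit => κ) (fun _ => N),
      (∀ r i m j, IsAlgebraic ℚ (v r i m j)) → IsAlgebraic ℚ (γ v))
    (hT : ∀ X : GG (fun _ : Unit => κ), IsInv (fun _ => N) (fun _ : Unit => P) γ X →
      ∃ M, Act t (X.1 ()) M)
    (hTg : ∀ g, IsGrp (fun _ => N) (fun _ : Unit => P) γ g →
      ∃ A : Module.End ℂ (Fin n → ℂ), ∀ x, g () * tau t x = tau t (A x) * g ())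

lemma rm_symm (hG : Gᵀ = G) : (rm G)ᵀ = rm G := by
  rw [rm, ← Matrix.transpose_map, hG]

lemma sig_pos (hn : 3 ≤ n) (hsig : Sig2 (rm G) ∨ Sig2 (-(rm G))) :
    (∃ x : Fin n → ℝ, 0 < x ⬝ᵥ (rm G *ᵥ x)) ∧ ∃ x : Fin n → ℝ, x ⬝ᵥ (rm G *ᵥ x) < 0 := by
  have key : ∀ H : Matrix (Fin n) (Fin n) ℝ, Sig2 H → (∃ x : Fin n → ℝ, 0 < x ⬝ᵥ (H *ᵥ x)) ∧
      ∃ x : Fin n → ℝ, x ⬝ᵥ (H *ᵥ x) < 0 := by
    rintro H ⟨W, W', h1, h2, h3, h4⟩
    have hW : ∃ x ∈ W, x ≠ 0 := by
      apply Submodule.exists_mem_ne_zero_of_ne_bot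
      rintro rfl
      rw [finrank_bot] at h1
      omega
    have hW' : ∃ x ∈ W', x ≠ 0 := by
      apply Submodule.exists_mem_ne_zero_of_ne_bot
      rintro rfl
      rw [finrank_bot] at h2
      omega
    obtain ⟨x, hx, hx0⟩ := hW
    obtain ⟨y, hy, hy0⟩ := hW'
    exact ⟨⟨x, h3 x hx hx0⟩, ⟨y, h4 y hy hy0⟩⟩
  rcases hsig with h | h
  · exact key _ h
  · obtain ⟨⟨x, hx⟩, ⟨y, hy⟩⟩ := key _ h
    rw [Matrix.neg_mulVec, dotProduct_neg] at hx hy
    exact ⟨⟨y, by linarith⟩, ⟨x, by linarith⟩⟩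

include hϖ hP hn hn5 hG hsig K hB hA hT hTg in
/-- the symmetries act on `T` by all skew operators -/
theorem skew_mem (M : Module.End ℂ (Fin n → ℂ))
    (hM : ∀ u v, bil (rm G) (M u) v + bil (rm G) u (M v) = 0) :
    ∃ X : GG (fun _ : Unit => κ), IsInv (fun _ => N) (fun _ : Unit => P) γ X ∧ X.2 = 0 ∧
      Act t (X.1 ()) M := by
  have hnd := nondeg_of_sig (rm G) (rm_symm hG) hsig
  have hinj := tau_injective K.cliff hnd
  have hirr := irr_T hϖ P hP hn hG hnd K γ hB hA hT
  obtain ⟨hpos, hneg⟩ := sig_pos hn hsig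
  obtain ⟨Y, MB, hY, hY2, hYM, hMB0, hMBr, hMBd⟩ :=
    exists_hyp hϖ P hG hnd hpos hneg K γ hB hT hTg hirr
  let L : Submodule ℂ (Module.End ℂ (Fin n → ℂ)) :=
    { carrier := {M | ∃ X : GG (fun _ : Unit => κ), IsInv (fun _ => N) (fun _ : Unit => P) γ X ∧
        X.2 = 0 ∧ Act t (X.1 ()) M}
      add_mem' := by
        rintro M M' ⟨X, hX, hX2, hXM⟩ ⟨X', hX', hX'2, hXM'⟩
        refine ⟨X + X', hX.add _ _ _ hX', ?_, hXM.add hXM'⟩
        show X.2 + X'.2 = 0
        rw [hX2, hX'2, add_zero]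
      zero_mem' := by
        refine ⟨0, IsInv.zero _ _ _, rfl, ?_⟩
        intro x
        show (0 : Module.End ℂ (κ → ℂ)) * tau t x - tau t x * 0 = tau t 0
        rw [map_zero, zero_mul, mul_zero, sub_zero]
      smul_mem' := by
        rintro c M ⟨X, hX, hX2, hXM⟩
        refine ⟨c • X, hX.smul _ _ _ c, ?_, hXM.smul c⟩
        show c * X.2 = 0
        rw [hX2, mul_zero] }
  suffices h : M ∈ L from h
  refine so_main2' hn hn5 (rm G) (rm_symm hG) hsig L ?_ ?_ ?_ ?_ MB ⟨Y, hY, hY2, hYM⟩ hMB0 hMBr hMBd M hM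
  · rintro M ⟨X, hX, hX2, hXM⟩ M' ⟨X', hX', hX'2, hXM'⟩
    refine ⟨X * X' - X' * X, hX.bracket _ _ _ hX', ?_, hXM.bracket hXM'⟩
    show X.2 * X'.2 - X'.2 * X.2 = 0
    rw [hX2, hX'2]; ring
  · rintro M ⟨X, hX, hX2, hXM⟩ u v
    exact hXM.skew K.cliff u v
  · rintro M ⟨X, hX, hX2, hXM⟩
    obtain ⟨X', hX', hX'2, -, hX'c⟩ := exists_real _ _ γ hϖ hB X hX
    rw [hX2, map_zero] at hX'2
    obtain ⟨M', hM'⟩ := hT X' hX'
    refine ⟨M', ⟨X', hX', hX'2, hM'⟩, ?_⟩
    intro x
    apply hinj
    rw [← hM' x]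
    apply LinearMap.ext
    intro v
    rw [LinearMap.sub_apply, Module.End.mul_apply, Module.End.mul_apply, hX'c, hX'c, cB_tau K]
    have h1 : tau t x (cB P (X.1 () (cB P v))) = cB P (tau t (star x) (X.1 () (cB P v))) := by
      rw [cB_tau K, star_star]
    have h2 := LinearMap.congr_fun (hXM (star x)) (cB P v)
    rw [LinearMap.sub_apply, Module.End.mul_apply, Module.End.mul_apply] at h2
    have h3 : tau t (star (M (star x))) v = cB P (tau t (M (star x)) (cB P v)) := by
      rw [cB_tau K, cB_cB]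
    rw [h1, h3, ← h2, sub_eq_add_neg, sub_eq_add_neg, cB_add, cB_neg]
  · intro W hW
    apply hirr W
    intro X M hX hXM
    apply hW
    refine ⟨X + (-X.2) • ((fun _ => (1 / 2 : ℂ) • (1 : Module.End ℂ _), 1) :
      GG (fun _ : Unit => κ)), hX.add _ _ _ ((Helper98.Ball.isInv_homothety _ _ _).smul _ _ _ _),
      ?_, ?_⟩
    · show X.2 + (-X.2) * 1 = 0
      ring
    · intro x
      show (X.1 () + (-X.2) • ((1 / 2 : ℂ) • (1 : Module.End ℂ (κ → ℂ)))) * tau t x -
        tau t x * (X.1 () + (-X.2) • ((1 / 2 : ℂ) • (1 : Module.End ℂ (κ → ℂ)))) = _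
      rw [← hXM x, add_mul, mul_add, smul_mul_assoc, smul_mul_assoc, mul_smul_comm, mul_smul_comm,
        one_mul, mul_one]
      abel

include hϖ hP hn hn5 hG hsig K hB hA hT hTg in
/-- bivectors of pairs of vectors with an anisotropic orthogonal vector are symmetries -/
theorem biv_inv0 (x y z : Fin n → ℂ) (hz : bil (rm G) z z ≠ 0) (hxz : bil (rm G) x z = 0)
    (hyz : bil (rm G) y z = 0) :
    IsInv (fun _ => N) (fun _ : Unit => P) γ
      ((fun _ => tau t x * tau t y - tau t y * tau t x, 0) : GG (fun _ : Unit => κ)) := by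
  set q := bil (rm G) with hq
  have hs : ∀ x y, q x y = q y x := bil_symm (rm_symm hG)
  have hc : ∀ x y, tau t x * tau t y + tau t y * tau t x = (2 * q x y) • 1 := tau_cliff K.cliff
  have key : ∀ x z, ∃ X : GG (fun _ : Unit => κ), IsInv (fun _ => N) (fun _ : Unit => P) γ X ∧
      X.2 = 0 ∧ (∀ y, (X.1 () - (1 / 4 : ℂ) • (tau t x * tau t z - tau t z * tau t x)) * tau t y =
        tau t y * (X.1 () - (1 / 4 : ℂ) • (tau t x * tau t z - tau t z * tau t x))) := by
    intro x z
    obtain ⟨X, hX, hX2, hXM⟩ := skew_mem hϖ P hP hn hn5 hG hsig K γ hB hA hT hTg (wed q x z)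
      (wed_skew' q hs x z)
    refine ⟨X, hX, hX2, fun y => ?_⟩
    have h1 := hXM y
    rw [← act_biv q hc x z y] at h1
    rw [sub_mul, mul_sub]
    rw [sub_eq_sub_iff_add_eq_add] at h1 ⊢
    rw [h1, add_comm]
  obtain ⟨X, hX, hX2, hXc⟩ := key x z
  obtain ⟨Y, hY, hY2, hYc⟩ := key z y
  have hbr := (hX.bracket _ _ _ hY).smul _ _ _ ((4 : ℂ) / q z z)
  have e1 := hc x z
  have e2 := hc y z
  have e3 := hc z z
  rw [hxz, mul_zero, zero_smul] at e1
  rw [hyz, mul_zero, zero_smul] at e2
  set tx := tau t x with htx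
  set ty := tau t y with hty
  set τ := tau t z with hτ
  set sX := (1 / 4 : ℂ) • (tx * τ - τ * tx) with hsX
  set sY := (1 / 4 : ℂ) • (τ * ty - ty * τ) with hsY
  have hXa : ∀ a b, (X.1 () - sX) * (t a * t b) = t a * t b * (X.1 () - sX) := by
    intro a b
    have h1 := hXc (Pi.single a 1)
    have h2 := hXc (Pi.single b 1)
    rw [tau_single] at h1 h2
    rw [← mul_assoc, h1, mul_assoc, h2, mul_assoc]
  have hcY := comm_of_products P K γ _ hXa Y hY
  have hsXY : sX * (Y.1 () - sY) = (Y.1 () - sY) * sX := by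
    have h1 := hYc x
    have h2 := hYc z
    rw [← hτ] at h2
    rw [← htx] at h1
    have h3 : Commute tx (Y.1 () - sY) := h1.symm
    have h4 : Commute τ (Y.1 () - sY) := h2.symm
    exact ((h3.mul_left h4).sub_left (h4.mul_left h3)).smul_left (1 / 4 : ℂ)
  have h5 : X.1 () * Y.1 () - Y.1 () * X.1 () = sX * sY - sY * sX := by
    have h6 : X.1 () * Y.1 () - Y.1 () * X.1 () = sX * Y.1 () - Y.1 () * sX := by
      have h7 : Y.1 () * X.1 () - Y.1 () * sX = X.1 () * Y.1 () - sX * Y.1 () := by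
        rw [← mul_sub, ← sub_mul, hcY]
      have h8 : (X.1 () * Y.1 () - sX * Y.1 ()) - (Y.1 () * X.1 () - Y.1 () * sX) = 0 := by
        rw [h7, sub_self]
      rw [← sub_eq_zero, ← h8]
      abel
    rw [h6]
    have h7 : sX * Y.1 () - sX * sY = Y.1 () * sX - sY * sX := by
      rw [← mul_sub, ← sub_mul, hsXY]
    have h8 : (sX * Y.1 () - sX * sY) - (Y.1 () * sX - sY * sX) = 0 := by
      rw [h7, sub_self]
    rw [← sub_eq_zero, ← h8]
    abel
  have h8 : sX * sY - sY * sX = (1 / 4 * q z z : ℂ) • (tx * ty - ty * tx) := by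
    have f1 : tx * τ = (-1 : ℂ) • (τ * tx) := by
      calc tx * τ = (tx * τ + τ * tx) + (-1 : ℂ) • (τ * tx) := by module
        _ = _ := by rw [e1, zero_add]
    have f2 : ty * τ = (-1 : ℂ) • (τ * ty) := by
      calc ty * τ = (ty * τ + τ * ty) + (-1 : ℂ) • (τ * ty) := by module
        _ = _ := by rw [e2, zero_add]
    have f3 : τ * τ = (q z z) • (1 : Module.End ℂ (κ → ℂ)) := by
      have h9 : (2 : ℂ) • (τ * τ) = (2 * q z z) • (1 : Module.End ℂ (κ → ℂ)) := by
        rw [← e3, two_smul]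
      rw [mul_smul] at h9
      exact smul_right_injective _ (two_ne_zero (α := ℂ)) h9
    have g1 : sX = (-(1 / 2) : ℂ) • (τ * tx) := by
      rw [hsX, f1]; module
    have g2 : sY = (1 / 2 : ℂ) • (τ * ty) := by
      rw [hsY, f2]; module
    have f4 : ∀ A : Module.End ℂ (κ → ℂ), τ * (τ * A) = (q z z) • A := by
      intro A
      rw [← mul_assoc, f3, smul_mul_assoc, one_mul]
    rw [g1, g2, smul_mul_smul_comm, smul_mul_smul_comm]
    have g3 : τ * tx * (τ * ty) = (-1 : ℂ) • ((q z z) • (tx * ty)) := by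
      rw [mul_assoc, ← mul_assoc tx, f1, smul_mul_assoc, mul_smul_comm, mul_assoc τ, f4]
    have g4 : τ * ty * (τ * tx) = (-1 : ℂ) • ((q z z) • (ty * tx)) := by
      rw [mul_assoc, ← mul_assoc ty, f2, smul_mul_assoc, mul_smul_comm, mul_assoc τ, f4]
    rw [g3, g4]
    module
  have h9 : ((4 / q z z) • (X * Y - Y * X) : GG (fun _ : Unit => κ)) =
      ((fun _ => tx * ty - ty * tx, 0) : GG (fun _ : Unit => κ)) := by
    refine Prod.ext ?_ ?_
    · funext u
      show (4 / q z z : ℂ) • (X.1 () * Y.1 () - Y.1 () * X.1 ()) = _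
      rw [h5, h8, smul_smul]
      have : 4 / q z z * (1 / 4 * q z z) = 1 := by field_simp
      rw [this, one_smul]
    · show (4 / q z z) * (X.2 * Y.2 - Y.2 * X.2) = 0
      rw [hX2, hY2]; ring
  rw [← h9]
  exact hbr

include hϖ hP hn hn5 hG hsig K hB hA hT hTg in
/-- the spin algebra consists of symmetries -/
theorem biv_inv (a b : Fin n) :
    IsInv (fun _ => N) (fun _ : Unit => P) γ
      ((fun _ => t a * t b - t b * t a, 0) : GG (fun _ : Unit => κ)) := by
  have hnd := nondeg_of_sig (rm G) (rm_symm hG) hsig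
  obtain ⟨v, hv⟩ := LinearMap.BilinForm.exists_orthogonal_basis (B := bil (rm G))
    ⟨fun x y => bil_symm (rm_symm hG) x y⟩
  have hv0 := LinearMap.BilinForm.iIsOrtho.not_isOrtho_basis_self_of_nondegenerate
    (B := bil (rm G)) (v := v) hv hnd
  have hfr : finrank ℂ (Fin n → ℂ) = n := by rw [finrank_pi, Fintype.card_fin]
  let S : (Fin n → ℂ) → Submodule ℂ (Fin n → ℂ) := fun x =>
    { carrier := {y | IsInv (fun _ => N) (fun _ : Unit => P) γ
        ((fun _ => tau t x * tau t y - tau t y * tau t x, 0) : GG (fun _ : Unit => κ))}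
      add_mem' := by
        intro y y' hy hy'
        have h1 := IsInv.add _ _ _ hy hy'
        have h2 : (((fun _ => tau t x * tau t y - tau t y * tau t x, 0) : GG (fun _ : Unit => κ)) +
            ((fun _ => tau t x * tau t y' - tau t y' * tau t x, 0) : GG (fun _ : Unit => κ))) =
            ((fun _ => tau t x * tau t (y + y') - tau t (y + y') * tau t x, 0) :
              GG (fun _ : Unit => κ)) := by
          refine Prod.ext ?_ (add_zero (0 : ℂ))
          funext u
          show (tau t x * tau t y - tau t y * tau t x) + (tau t x * tau t y' - tau t y' * tau t x) =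
            tau t x * tau t (y + y') - tau t (y + y') * tau t x
          rw [map_add, mul_add, add_mul]
          abel
        rw [h2] at h1
        exact h1
      zero_mem' := by
        have h2 : (0 : GG (fun _ : Unit => κ)) =
            ((fun _ => tau t x * tau t 0 - tau t 0 * tau t x, 0) : GG (fun _ : Unit => κ)) := by
          refine Prod.ext ?_ rfl
          funext u
          show (0 : Module.End ℂ (κ → ℂ)) = tau t x * tau t 0 - tau t 0 * tau t x
          rw [map_zero, mul_zero, zero_mul, sub_zero]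
        show IsInv _ _ _ _
        rw [← h2]
        exact IsInv.zero _ _ _
      smul_mem' := by
        intro c y hy
        have h1 := IsInv.smul _ _ _ c hy
        have h2 : (c • ((fun _ => tau t x * tau t y - tau t y * tau t x, 0) :
            GG (fun _ : Unit => κ))) =
            ((fun _ => tau t x * tau t (c • y) - tau t (c • y) * tau t x, 0) :
              GG (fun _ : Unit => κ)) := by
          refine Prod.ext ?_ (mul_zero c)
          funext u
          show c • (tau t x * tau t y - tau t y * tau t x) =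
            tau t x * tau t (c • y) - tau t (c • y) * tau t x
          rw [map_smul, mul_smul_comm, smul_mul_assoc, smul_sub]
        rw [h2] at h1
        exact h1 }
  have hswap : ∀ x y, y ∈ S x → x ∈ S y := by
    intro x y hy
    have h1 := IsInv.smul _ _ _ (-1 : ℂ) hy
    have h2 : ((-1 : ℂ) • ((fun _ => tau t x * tau t y - tau t y * tau t x, 0) :
        GG (fun _ : Unit => κ))) =
        ((fun _ => tau t y * tau t x - tau t x * tau t y, 0) : GG (fun _ : Unit => κ)) := by
      refine Prod.ext ?_ (mul_zero _)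
      funext u
      show (-1 : ℂ) • (tau t x * tau t y - tau t y * tau t x) = _
      module
    rw [h2] at h1
    exact h1
  have hbas : ∀ i j, v j ∈ S (v i) := by
    intro i j
    by_cases hij : i = j
    · subst hij
      have h2 : (0 : GG (fun _ : Unit => κ)) =
          ((fun _ => tau t (v i) * tau t (v i) - tau t (v i) * tau t (v i), 0) :
            GG (fun _ : Unit => κ)) := by
        refine Prod.ext ?_ rfl
        funext u
        show (0 : Module.End ℂ (κ → ℂ)) = tau t (v i) * tau t (v i) - tau t (v i) * tau t (v i)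
        rw [sub_self]
      show IsInv _ _ _ _
      rw [← h2]
      exact IsInv.zero _ _ _
    · obtain ⟨l, hl⟩ : ∃ l : Fin (finrank ℂ (Fin n → ℂ)), l ∉ ({i, j} : Finset _) := by
        by_contra hcon
        push Not at hcon
        have h1 : (Finset.univ : Finset (Fin (finrank ℂ (Fin n → ℂ)))) ⊆ {i, j} :=
          fun l _ => hcon l
        have h2 := Finset.card_le_card h1
        rw [Finset.card_univ, Fintype.card_fin] at h2
        have h3 := Finset.card_le_two (a := i) (b := j)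
        omega
      rw [Finset.mem_insert, Finset.mem_singleton, not_or] at hl
      exact biv_inv0 hϖ P hP hn hn5 hG hsig K γ hB hA hT hTg (v i) (v j) (v l) (hv0 l)
        (hv (Ne.symm hl.1)) (hv (Ne.symm hl.2))
  have htop : ∀ x : Fin n → ℂ, (∀ i, v i ∈ S x) → ∀ y, y ∈ S x := by
    intro x hx y
    have h1 : Submodule.span ℂ (Set.range v) ≤ S x := by
      rw [Submodule.span_le]
      rintro _ ⟨i, rfl⟩
      exact hx i
    rw [v.span_eq] at h1
    exact h1 trivial
  have h1 : ∀ i y, y ∈ S (v i) := fun i y => htop _ (hbas i) y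
  have h2 := htop (Pi.single a 1) (fun i => hswap _ _ (h1 i _)) (Pi.single b 1)
  have h3 : IsInv (fun _ => N) (fun _ : Unit => P) γ ((fun _ => tau t (Pi.single a 1) *
    tau t (Pi.single b 1) - tau t (Pi.single b 1) * tau t (Pi.single a 1), 0) :
      GG (fun _ : Unit => κ)) := h2
  rw [tau_single, tau_single] at h3
  exact h3

end final

end Pool.Agent.KS
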