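import Pool.Agent.KS.Cent
import Pool.Agent.Helper7.Irred

/-!
Module Iso. No rational totally isotropic subspace of `T` is stable under the symmetries.

Proof. `q = bil (rm G)`, `τ = tau t`, `rv x : Fin n → ℂ` the complex vector of `x : Fin n → ℚ`,
`NC` the complex span of the `rv x`, `x ∈ U`. Let `S = {v ∈ P.Q | ∀ x ∈ U, τ (rv x) v = 0}`, a
`ℚ`-subspace.
(1) `S ≠ 0`. By induction on a finite list of elements of `U` (a spanning list of `U`): if
`w ∈ P.Q`, `w ≠ 0` is killed by the previous `τ (rv x)` and `x` is the next element, then either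
`τ (rv x) w = 0`, keep `w`, or replace `w` by `τ (rv x) w ≠ 0`, which is killed by `τ (rv x)`
(`τ (rv x)² = q x x = 0`) and by the previous ones (they anticommute with `τ (rv x)`), and is in `P.Q`
(`K.rat`). Start with any non-zero `w ∈ P.Q` (`κ` is non-empty; `P.bB` is a basis).
(2) `S` is stable under the rational symmetries `Y` (`IsInv`, `IsRatl`): `τ (rv x) (Y v) =
Y (τ (rv x) v) - τ (M (rv x)) v = 0` because `M (rv x) ∈ NC` (`hst`) and `τ z v = 0` for `z ∈ NC`.
(3) By `algebraic_of_stable` and `hnd` (`HNd P`) `S` is non-degenerate for `ψ`, and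
`isCompl_of_nondeg` gives a complement `S'` of `S` in `P.Q`, its orthogonal, also stable under rational
symmetries (`IsInv.pol`). Let `p` be the complex linear endomorphism of `κ → ℂ` which is the projector
to `S` along `S'` on `P.Q` (extend by `P.bB.constr`, compare `Helper7/Irred.lean`, where the same is
done): it is rational and commutes with the rational symmetries, so it is de Rham-Betti
(`isDRB_of_rat_comm`) and commutes with all `t a * t b` (`K.cent`), so with all `τ x τ y`.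
(4) Let `v ∈ S`, `v ≠ 0` (so `p v = v`), `u = rv x`, `x ∈ U`, `x ≠ 0`. Choose `y : Fin n → ℚ` with
`G`-product with `x` non-zero (non-degeneracy) and `z : Fin n → ℚ` orthogonal to `x` with
`z ⬝ᵥ (G *ᵥ z) ≠ 0` (the orthogonal of `x` has dimension `n - 1`; a totally isotropic subspace has
dimension at most `n / 2`, and `3 ≤ n`). Then `τ y τ z v = τ y τ z (p v) = p (τ y τ z v)` is in the
complex span of `S`, so `τ u τ y τ z v = 0`; but it is `2 q u y τ z v - τ y τ u τ z v =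
2 q u y τ z v + τ y τ z τ u v = 2 q u y τ z v`, and `τ z` is invertible (`τ z² = q z z ≠ 0`), so
`v = 0`, a contradiction.
-/

namespace Pool.Agent.KS

open Module Matrix Pool.Agent.Helper7

namespace IsoAux

section rv

variable {n : ℕ}

/-- the complex vector of a rational vector -/
def rv (x : Fin n → ℚ) : Fin n → ℂ := fun a => ((x a : ℚ) : ℂ)

lemma rv_add (x y : Fin n → ℚ) : rv (x + y) = rv x + rv y := by
  funext a
  show ((x a + y a : ℚ) : ℂ) = (x a : ℂ) + (y a : ℂ)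
  push_cast; rfl

lemma rv_smul (c : ℚ) (x : Fin n → ℚ) : rv (c • x) = (c : ℂ) • rv x := by
  funext a
  show ((c * x a : ℚ) : ℂ) = (c : ℂ) * (x a : ℂ)
  push_cast; rfl

lemma rv_zero : rv (0 : Fin n → ℚ) = 0 := by
  funext a
  show ((0 : ℚ) : ℂ) = 0
  simp

lemma rm_apply (G : Matrix (Fin n) (Fin n) ℚ) (i j : Fin n) :
    ((rm G i j : ℝ) : ℂ) = ((G i j : ℚ) : ℂ) := by
  rw [rm, Matrix.map_apply]
  norm_cast

lemma bil_rv (G : Matrix (Fin n) (Fin n) ℚ) (x y : Fin n → ℚ) :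
    bil (rm G) (rv x) (rv y) = ((x ⬝ᵥ (G *ᵥ y) : ℚ) : ℂ) := by
  rw [bil_apply, dotProduct]
  push_cast
  refine Finset.sum_congr rfl fun a _ => ?_
  rw [Matrix.mulVec, dotProduct]
  push_cast
  rw [Finset.mul_sum]
  refine Finset.sum_congr rfl fun b _ => ?_
  rw [rm_apply]
  unfold rv
  ring

/-- a rational vector orthogonal to all rational vectors is zero -/
lemma rv_nondeg {G : Matrix (Fin n) (Fin n) ℚ} (hnd : (bil (rm G)).Nondegenerate)
    (x : Fin n → ℚ) (h : ∀ y, x ⬝ᵥ (G *ᵥ y) = 0) : x = 0 := by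
  have h1 : rv x = 0 := by
    apply hnd.1
    intro y
    have h2 : ∀ j, bil (rm G) (rv x) (Pi.single j 1) = 0 := by
      intro j
      have h3 : (Pi.single j 1 : Fin n → ℂ) = rv (Pi.single j 1) := by
        funext a
        unfold rv
        by_cases hj : a = j
        · subst hj; simp
        · rw [Pi.single_eq_of_ne hj, Pi.single_eq_of_ne hj]; simp
      rw [h3, bil_rv, h, Rat.cast_zero]
    have h4 : y = ∑ j, y j • (Pi.single j (1 : ℂ) : Fin n → ℂ) := by
      conv_lhs => rw [← Finset.univ_sum_single y]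
      refine Finset.sum_congr rfl fun j _ => ?_
      funext a
      rw [Pi.smul_apply]
      by_cases hj : a = j
      · subst hj; simp
      · rw [Pi.single_eq_of_ne hj, Pi.single_eq_of_ne hj]; simp
    rw [h4, map_sum]
    refine Finset.sum_eq_zero fun j _ => ?_
    rw [map_smul, h2, smul_zero]
  funext a
  have h2 := congrFun h1 a
  have h3 : ((x a : ℚ) : ℂ) = 0 := h2
  exact_mod_cast h3

/-- the orthogonal of an isotropic vector contains an anisotropic vector -/
lemma exists_aniso {G : Matrix (Fin n) (Fin n) ℚ} (hG : Gᵀ = G)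
    (hnd : (bil (rm G)).Nondegenerate) (hn : 3 ≤ n) (x y : Fin n → ℚ)
    (hxy : x ⬝ᵥ (G *ᵥ y) ≠ 0) : ∃ z, x ⬝ᵥ (G *ᵥ z) = 0 ∧ z ⬝ᵥ (G *ᵥ z) ≠ 0 := by
  have hsymm : ∀ u v : Fin n → ℚ, u ⬝ᵥ (G *ᵥ v) = v ⬝ᵥ (G *ᵥ u) := by
    intro u v
    rw [Matrix.dotProduct_mulVec, ← Matrix.mulVec_transpose, hG, dotProduct_comm]
  by_contra hcon
  push Not at hcon
  -- the orthogonal of `x` is totally isotropic
  have h1 : ∀ u v : Fin n → ℚ, x ⬝ᵥ (G *ᵥ u) = 0 → x ⬝ᵥ (G *ᵥ v) = 0 → u ⬝ᵥ (G *ᵥ v) = 0 := by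
    intro u v hu hv
    have h2 := hcon (u + v) (by rw [Matrix.mulVec_add, dotProduct_add, hu, hv, add_zero])
    rw [Matrix.mulVec_add, dotProduct_add, add_dotProduct, add_dotProduct, hcon u hu, hcon v hv,
      hsymm v u] at h2
    linarith
  -- a vector orthogonal to `x` and `y`
  have hf : LinearMap.ker (LinearMap.pi ![(Matrix.toBilin' G x), (Matrix.toBilin' G y)] :
      (Fin n → ℚ) →ₗ[ℚ] (Fin 2 → ℚ)) ≠ ⊥ := by
    apply LinearMap.ker_ne_bot_of_finrank_lt
    rw [finrank_fin_fun, finrank_fin_fun]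
    omega
  obtain ⟨z, hz, hz0⟩ := Submodule.exists_mem_ne_zero_of_ne_bot hf
  rw [LinearMap.mem_ker] at hz
  have hzx : x ⬝ᵥ (G *ᵥ z) = 0 := by
    have h2 := congrFun hz 0
    have h3 : Matrix.toBilin' G x z = 0 := h2
    rw [Matrix.toBilin'_apply'] at h3
    exact h3
  have hzy : y ⬝ᵥ (G *ᵥ z) = 0 := by
    have h2 := congrFun hz 1
    have h3 : Matrix.toBilin' G y z = 0 := h2
    rw [Matrix.toBilin'_apply'] at h3
    exact h3
  apply hz0
  apply rv_nondeg hnd
  intro w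
  obtain ⟨c, hc⟩ : ∃ c : ℚ, c = (x ⬝ᵥ (G *ᵥ w)) / (x ⬝ᵥ (G *ᵥ y)) := ⟨_, rfl⟩
  have h2 : x ⬝ᵥ (G *ᵥ (w - c • y)) = 0 := by
    rw [Matrix.mulVec_sub, Matrix.mulVec_smul, dotProduct_sub, dotProduct_smul, hc, smul_eq_mul,
      div_mul_cancel₀ _ hxy, sub_self]
  have h3 := h1 z (w - c • y) hzx h2
  rw [Matrix.mulVec_sub, Matrix.mulVec_smul, dotProduct_sub, dotProduct_smul, hsymm z y, hzy,
    smul_zero, sub_zero] at h3
  exact h3

end rv

section

variable {κ : Type} [Fintype κ] [DecidableEq κ] {ϖ : ℂ} {P : PData κ ϖ} {n : ℕ}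
  {G : Matrix (Fin n) (Fin n) ℚ} {t : Fin n → Module.End ℂ (κ → ℂ)}

lemma tau_rat (K : KSD P G t) (x : Fin n → ℚ) (v : κ → ℂ) (hv : v ∈ P.Q) :
    tau t (rv x) v ∈ P.Q := by
  rw [tau_apply, LinearMap.sum_apply]
  refine Submodule.sum_mem _ fun a _ => ?_
  rw [LinearMap.smul_apply]
  exact P.rat_smul_mem (x a) _ (K.rat a v hv)

lemma tau_anti (K : KSD P G t) (x y : Fin n → ℚ) (h : x ⬝ᵥ (G *ᵥ y) = 0) (v : κ → ℂ) :
    tau t (rv x) (tau t (rv y) v) = - tau t (rv y) (tau t (rv x) v) := by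
  have h1 := tau_cliff K.cliff (rv x) (rv y)
  rw [bil_rv, h, Rat.cast_zero, mul_zero, zero_smul] at h1
  have h2 := congrArg (fun f => f v) h1
  have h3 : tau t (rv x) (tau t (rv y) v) + tau t (rv y) (tau t (rv x) v) = 0 := h2
  exact eq_neg_of_add_eq_zero_left h3

lemma tau_sq (K : KSD P G t) (x : Fin n → ℚ) (v : κ → ℂ) :
    tau t (rv x) (tau t (rv x) v) = ((x ⬝ᵥ (G *ᵥ x) : ℚ) : ℂ) • v := by
  have h1 := tau_cliff K.cliff (rv x) (rv x)
  rw [bil_rv] at h1
  have h2 := congrArg (fun f => f v) h1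
  have h3 : tau t (rv x) (tau t (rv x) v) + tau t (rv x) (tau t (rv x) v) =
    (2 * ((x ⬝ᵥ (G *ᵥ x) : ℚ) : ℂ)) • v := h2
  have h4 : (2 : ℂ) • tau t (rv x) (tau t (rv x) v) =
      (2 : ℂ) • (((x ⬝ᵥ (G *ᵥ x) : ℚ) : ℂ) • v) := by
    rw [two_smul, h3, smul_smul]
  exact smul_right_injective _ (two_ne_zero) h4

/-- the common kernel of finitely many pairwise orthogonal isotropic vectors is not zero -/
lemma exists_ker [Nonempty κ] (K : KSD P G t) (U : Submodule ℚ (Fin n → ℚ))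
    (hiso : ∀ x ∈ U, ∀ y ∈ U, x ⬝ᵥ (G *ᵥ y) = 0) :
    ∃ w ∈ P.Q, w ≠ 0 ∧ ∀ x ∈ U, tau t (rv x) w = 0 := by
  classical
  have h0 : ∀ s : Finset (Fin n → ℚ), (∀ x ∈ s, x ∈ U) →
      ∃ w ∈ P.Q, w ≠ 0 ∧ ∀ x ∈ s, tau t (rv x) w = 0 := by
    intro s
    induction s using Finset.induction_on with
    | empty =>
      intro _
      have : Nonempty P.ι := by
        by_contra hne
        rw [not_nonempty_iff] at hne
        have h1 : (Pi.single (Classical.arbitrary κ) 1 : κ → ℂ) = 0 := by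
          rw [← P.bB.sum_repr (Pi.single (Classical.arbitrary κ) 1 : κ → ℂ), Finset.univ_eq_empty,
            Finset.sum_empty]
        have h2 := congrFun h1 (Classical.arbitrary κ)
        rw [Pi.single_eq_same] at h2
        exact one_ne_zero h2
      exact ⟨P.bB (Classical.arbitrary P.ι), P.basis_mem _, P.bB.ne_zero _,
        fun x hx => absurd hx (Finset.notMem_empty x)⟩
    | insert x s _ ih =>
      intro hs
      obtain ⟨w, hw, hw0, hws⟩ := ih (fun y hy => hs y (Finset.mem_insert_of_mem hy))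
      have hx := hs x (Finset.mem_insert_self x s)
      by_cases hxw : tau t (rv x) w = 0
      · refine ⟨w, hw, hw0, fun y hy => ?_⟩
        rcases Finset.mem_insert.mp hy with rfl | hy
        · exact hxw
        · exact hws y hy
      · refine ⟨tau t (rv x) w, tau_rat K x w hw, hxw, fun y hy => ?_⟩
        rcases Finset.mem_insert.mp hy with rfl | hy
        · rw [tau_sq K, hiso _ hx _ hx, Rat.cast_zero, zero_smul]
        · rw [tau_anti K y x (hiso _ (hs y (Finset.mem_insert_of_mem hy)) _ hx), hws y hy, map_zero,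
            neg_zero]
  obtain ⟨s, hs⟩ := (IsNoetherian.noetherian U : U.FG)
  obtain ⟨w, hw, hw0, hws⟩ := h0 s (fun x hx => by rw [← hs]; exact Submodule.subset_span hx)
  refine ⟨w, hw, hw0, fun x hx => ?_⟩
  rw [← hs] at hx
  induction hx using Submodule.span_induction with
  | mem x hx => exact hws x hx
  | zero => rw [rv_zero, map_zero, LinearMap.zero_apply]
  | add x y _ _ hx hy => rw [rv_add, map_add, LinearMap.add_apply, hx, hy, add_zero]
  | smul c x _ hx => rw [rv_smul, map_smul, LinearMap.smul_apply, hx, smul_zero]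

end

end IsoAux

open IsoAux in
theorem no_isotropic {κ : Type} [Fintype κ] [DecidableEq κ] [Nonempty κ] {ϖ : ℂ}
    (hϖ : ϖ ≠ 0) (P : PData κ ϖ) (hP : HNd P) {n : ℕ} (hn : 3 ≤ n)
    {G : Matrix (Fin n) (Fin n) ℚ} (hG : Gᵀ = G) (hnd : (bil (rm G)).Nondegenerate)
    {t : Fin n → Module.End ℂ (κ → ℂ)} (K : KSD P G t) {N k : ℕ}
    (γ : MultilinearMap ℂ (fun _ : Fin (2 * k) => HW (fun _ : Unit => κ) (fun _ => N)) ℂ)
    (hB : ∀ v : Fin (2 * k) → HW (fun _ : Unit => κ) (fun _ => N),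
      (∀ r, IsRatP (fun _ => N) (fun _ : Unit => P) (v r)) → ∃ q : ℚ, γ v = ϖ ^ k * q)
    (hA : ∀ v : Fin (2 * k) → HW (fun _ : Unit => κ) (fun _ => N),
      (∀ r i m j, IsAlgebraic ℚ (v r i m j)) → IsAlgebraic ℚ (γ v))
    (hT : ∀ X : GG (fun _ : Unit => κ), IsInv (fun _ => N) (fun _ : Unit => P) γ X →
      ∃ M, Act t (X.1 ()) M)
    (U : Submodule ℚ (Fin n → ℚ)) (hU0 : U ≠ ⊥) (hiso : ∀ x ∈ U, ∀ y ∈ U, x ⬝ᵥ (G *ᵥ y) = 0)
    (hst : ∀ (X : GG (fun _ : Unit => κ)) (M : Module.End ℂ (Fin n → ℂ)),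
      IsInv (fun _ => N) (fun _ : Unit => P) γ X → Act t (X.1 ()) M → ∀ x ∈ U,
        M (fun a => ((x a : ℚ) : ℂ)) ∈
          Submodule.span ℂ {z | ∃ y ∈ U, z = fun a => ((y a : ℚ) : ℂ)}) : False := by
  classical
  -- the common kernel
  let S : Submodule ℚ (κ → ℂ) :=
    { carrier := {v | v ∈ P.Q ∧ ∀ x ∈ U, tau t (rv x) v = 0}
      zero_mem' := ⟨P.Q.zero_mem, fun x _ => map_zero _⟩
      add_mem' := by
        rintro a b ⟨ha, ha'⟩ ⟨hb, hb'⟩
        exact ⟨P.Q.add_mem ha hb, fun x hx => by rw [map_add, ha' x hx, hb' x hx, add_zero]⟩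
      smul_mem' := by
        rintro c a ⟨ha, ha'⟩
        refine ⟨P.Q.smul_mem c ha, fun x hx => ?_⟩
        have h1 : c • a = (c : ℂ) • a := by
          rw [← algebraMap_smul ℂ c a]; rfl
        rw [h1, map_smul, ha' x hx, smul_zero] }
  have hSmem : ∀ v, v ∈ S ↔ v ∈ P.Q ∧ ∀ x ∈ U, tau t (rv x) v = 0 := fun v => Iff.rfl
  have hSQ : S ≤ P.Q := fun v hv => ((hSmem v).mp hv).1
  have hSspan : ∀ v ∈ Submodule.span ℂ (S : Set (κ → ℂ)), ∀ x ∈ U, tau t (rv x) v = 0 := by
    intro v hv x hx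
    induction hv using Submodule.span_induction with
    | mem v hv => exact ((hSmem v).mp hv).2 x hx
    | zero => rw [map_zero]
    | add a b _ _ ha hb => rw [map_add, ha, hb, add_zero]
    | smul c a _ ha => rw [map_smul, ha, smul_zero]
  have hSst : ∀ Y : GG (fun _ : Unit => κ), IsInv (fun _ => N) (fun _ : Unit => P) γ Y →
      IsRatl (fun _ : Unit => P) Y → ∀ v ∈ S, Y.1 () v ∈ S := by
    intro Y hY hYr v hv
    obtain ⟨M, hM⟩ := hT Y hY
    rw [hSmem] at hv ⊢
    refine ⟨hYr.1 () v hv.1, fun x hx => ?_⟩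
    have h1 := hst Y M hY hM x hx
    have h2 : tau t (M (rv x)) v = 0 := by
      have h3 : ∀ z ∈ Submodule.span ℂ {z : Fin n → ℂ | ∃ y ∈ U, z = fun a => ((y a : ℚ) : ℂ)},
          tau t z v = 0 := by
        intro z hz
        induction hz using Submodule.span_induction with
        | mem z hz =>
          obtain ⟨y, hy, rfl⟩ := hz
          exact hv.2 y hy
        | zero => rw [map_zero, LinearMap.zero_apply]
        | add a b _ _ ha hb => rw [map_add, LinearMap.add_apply, ha, hb, add_zero]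
        | smul c a _ ha => rw [map_smul, LinearMap.smul_apply, ha, smul_zero]
      exact h3 _ h1
    have h3 := congrArg (fun f => f v) (hM (rv x))
    have h4 : Y.1 () (tau t (rv x) v) - tau t (rv x) (Y.1 () v) = tau t (M (rv x)) v := h3
    rw [h2, hv.2 x hx, map_zero, zero_sub, neg_eq_zero] at h4
    exact h4
  have hSnd := hP S hSQ (algebraic_of_stable (fun _ => N) (fun _ : Unit => P) γ hϖ hB hA ()
    (S : Set (κ → ℂ)) (fun v hv => hSQ hv)
    (fun Y hY hYr v hv => Submodule.subset_span (hSst Y hY hYr v hv)))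
  -- the orthogonal complement
  obtain ⟨S', hcompl, hS'⟩ := isCompl_of_nondeg P hϖ (S.comap P.Q.subtype)
    (fun u hu h => by
      apply Subtype.ext
      exact hSnd u hu (fun v hv => h ⟨v, hSQ hv⟩ hv))
  obtain ⟨pQ, hpQ⟩ : ∃ pQ : Module.End ℚ P.Q, pQ = (S.comap P.Q.subtype).projection S' hcompl :=
    ⟨_, rfl⟩
  have hpS : ∀ v, ((pQ v : P.Q) : κ → ℂ) ∈ S := fun v => by
    have h1 : pQ v ∈ S.comap P.Q.subtype := by
      rw [hpQ]; exact Submodule.projection_apply_mem hcompl v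
    exact h1
  have hpid : ∀ v : P.Q, (v : κ → ℂ) ∈ S → pQ v = v := fun v hv => by
    rw [hpQ]; exact Submodule.projection_apply_of_mem_left hcompl hv
  have hp0 : ∀ v ∈ S', pQ v = 0 := fun v hv => by
    rw [hpQ]; exact (Submodule.projection_apply_eq_zero_iff hcompl).mpr hv
  have hpx : ∀ v, v - pQ v ∈ S' := by
    intro v
    rw [← Submodule.projection_apply_eq_zero_iff hcompl, ← hpQ, map_sub, hpid _ (hpS v), sub_self]
  -- the complex projector
  obtain ⟨p, hp⟩ : ∃ p : Module.End ℂ (κ → ℂ), p = P.bB.constr ℂ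
      (fun i => ((pQ ⟨P.bB i, P.basis_mem i⟩ : P.Q) : κ → ℂ)) := ⟨_, rfl⟩
  have hpb : ∀ i, p (P.bB i) = ((pQ ⟨P.bB i, P.basis_mem i⟩ : P.Q) : κ → ℂ) := by
    intro i; rw [hp]; exact Basis.constr_basis _ _ _ _
  have hpv : ∀ v : P.Q, p v = ((pQ v : P.Q) : κ → ℂ) := by
    rintro ⟨v, hv⟩
    have hv' : v ∈ Submodule.span ℚ (Set.range P.bB) := hv
    have key : ∀ v ∈ Submodule.span ℚ (Set.range P.bB), ∀ hv : v ∈ P.Q,
        p v = ((pQ ⟨v, hv⟩ : P.Q) : κ → ℂ) := by
      intro v hv'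
      induction hv' using Submodule.span_induction with
      | mem x hx =>
        obtain ⟨i, rfl⟩ := hx
        intro hv
        exact hpb i
      | zero =>
        intro hv
        rw [map_zero]
        have h1 : (⟨0, hv⟩ : P.Q) = 0 := rfl
        rw [h1, map_zero]; rfl
      | add x y hx' hy' hx hy =>
        intro hv
        rw [map_add, hx hx', hy hy']
        have h1 : (⟨x + y, hv⟩ : P.Q) = ⟨x, hx'⟩ + ⟨y, hy'⟩ := rfl
        rw [h1, map_add]; rfl
      | smul c x hx' hx =>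
        intro hv
        have h2 : ∀ w : κ → ℂ, c • w = (c : ℂ) • w := by
          intro w
          rw [← algebraMap_smul ℂ c w]; rfl
        have h3 : p (c • x) = c • p x := by rw [h2, h2, map_smul]
        have h1 : pQ (⟨c • x, hv⟩ : P.Q) = c • pQ ⟨x, hx'⟩ := by
          rw [← map_smul]; rfl
        rw [h3, h1, hx hx']; rfl
    exact key v hv' hv
  have hprat : ∀ v ∈ P.Q, p v ∈ P.Q := fun v hv => by
    rw [hpv ⟨v, hv⟩]; exact (pQ ⟨v, hv⟩).2
  have hpspan : ∀ v, p v ∈ Submodule.span ℂ (S : Set (κ → ℂ)) := by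
    intro v
    rw [← P.bB.sum_repr v, map_sum]
    refine Submodule.sum_mem _ fun i _ => ?_
    rw [map_smul, hpb]
    exact Submodule.smul_mem _ _ (Submodule.subset_span (hpS _))
  have hpc : ∀ Y : GG (fun _ : Unit => κ), IsInv (fun _ => N) (fun _ : Unit => P) γ Y →
      IsRatl (fun _ : Unit => P) Y → ∀ v, Y.1 () (p v) = p (Y.1 () v) := by
    intro Y hY hYr
    have h1 : Y.1 () ∘ₗ p = p ∘ₗ Y.1 () := by
      apply P.bB.ext
      intro i
      rw [LinearMap.comp_apply, LinearMap.comp_apply]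
      obtain ⟨v, hv⟩ : ∃ v : P.Q, v = ⟨P.bB i, P.basis_mem i⟩ := ⟨_, rfl⟩
      have hvi : P.bB i = (v : κ → ℂ) := by rw [hv]
      obtain ⟨b, hb⟩ : ∃ b : P.Q, b = v - pQ v := ⟨_, rfl⟩
      have hbS' : b ∈ S' := by rw [hb]; exact hpx v
      have hYb : (⟨Y.1 () b, hYr.1 () _ b.2⟩ : P.Q) ∈ S' := by
        rw [hS']
        intro u hu
        have h2 := hY.pol () (u : κ → ℂ) (b : κ → ℂ)
        have h3 : P.ψ (Y.1 () (u : κ → ℂ)) (b : κ → ℂ) = 0 :=
          (hS' b).mp hbS' ⟨Y.1 () u, hYr.1 () _ u.2⟩ (hSst Y hY hYr u hu)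
        have h4 : P.ψ (u : κ → ℂ) (b : κ → ℂ) = 0 := (hS' b).mp hbS' u hu
        rw [h3, h4, zero_add, mul_zero] at h2
        exact h2
      have hYa := hSst Y hY hYr _ (hpS v)
      have h5 : (v : κ → ℂ) = (pQ v : P.Q) + (b : κ → ℂ) := by
        rw [hb]
        show (v : κ → ℂ) = (pQ v : P.Q) + ((v : κ → ℂ) - (pQ v : P.Q))
        abel
      have h6 : p (Y.1 () (b : κ → ℂ)) = 0 := by
        have h7 := hpv ⟨Y.1 () b, hYr.1 () _ b.2⟩
        rw [hp0 _ hYb] at h7
        exact h7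
      have h8 : p (Y.1 () ((pQ v : P.Q) : κ → ℂ)) = Y.1 () ((pQ v : P.Q) : κ → ℂ) := by
        have h9 := hpv ⟨Y.1 () ((pQ v : P.Q) : κ → ℂ), hSQ hYa⟩
        rw [hpid ⟨Y.1 () ((pQ v : P.Q) : κ → ℂ), hSQ hYa⟩ hYa] at h9
        exact h9
      rw [hvi, hpv v]
      conv_rhs => rw [h5, map_add, map_add, h6, h8, add_zero]
    exact fun v => congrArg (fun g => g v) h1
  have hpdrb : IsDRB P P p :=
    isDRB_of_rat_comm (fun _ => N) (fun _ : Unit => P) γ hϖ hB hA () () p hprat hpc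
  have hpt := ((K.cent p).mp hpdrb).2
  have hptau : ∀ x y : Fin n → ℂ, ∀ v, p (tau t x (tau t y v)) = tau t x (tau t y (p v)) := by
    intro x y v
    have h1 : p * (tau t x * tau t y) = tau t x * tau t y * p := by
      rw [tau_apply, tau_apply, Finset.sum_mul_sum, Finset.mul_sum, Finset.sum_mul]
      refine Finset.sum_congr rfl fun a _ => ?_
      rw [Finset.mul_sum, Finset.sum_mul]
      refine Finset.sum_congr rfl fun b _ => ?_
      rw [smul_mul_smul_comm, mul_smul_comm, smul_mul_assoc, hpt]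
    exact congrArg (fun f => f v) h1
  -- the contradiction
  obtain ⟨v, hvQ, hv0, hvU⟩ := exists_ker K U hiso
  have hvS : v ∈ S := (hSmem v).mpr ⟨hvQ, hvU⟩
  have hpvv : p v = v := by
    have h1 := hpv ⟨v, hvQ⟩
    rw [hpid _ hvS] at h1
    exact h1
  obtain ⟨x, hxU, hx0⟩ := Submodule.exists_mem_ne_zero_of_ne_bot hU0
  obtain ⟨y, hy⟩ : ∃ y, x ⬝ᵥ (G *ᵥ y) ≠ 0 := by
    by_contra hcon
    push Not at hcon
    exact hx0 (rv_nondeg hnd x hcon)
  obtain ⟨z, hxz, hzz⟩ := exists_aniso hG hnd hn x y hy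
  have h1 : tau t (rv y) (tau t (rv z) v) ∈ Submodule.span ℂ (S : Set (κ → ℂ)) := by
    have h2 := hptau (rv y) (rv z) v
    rw [hpvv] at h2
    rw [← h2]
    exact hpspan _
  have h2 := hSspan _ h1 x hxU
  have h3 := congrArg (fun f => f (tau t (rv z) v)) (tau_cliff K.cliff (rv x) (rv y))
  have h4 : tau t (rv x) (tau t (rv y) (tau t (rv z) v)) +
      tau t (rv y) (tau t (rv x) (tau t (rv z) v)) =
      (2 * bil (rm G) (rv x) (rv y)) • tau t (rv z) v := h3
  rw [h2, tau_anti K x z hxz, hvU x hxU, map_zero, neg_zero, map_zero, add_zero, bil_rv] at h4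
  have h5 : tau t (rv z) v = 0 := by
    rcases smul_eq_zero.mp h4.symm with h6 | h6
    · exfalso
      rcases mul_eq_zero.mp h6 with h7 | h7
      · exact two_ne_zero h7
      · exact hy (by exact_mod_cast h7)
    · exact h6
  have h6 := tau_sq K z v
  rw [h5, map_zero] at h6
  rcases smul_eq_zero.mp h6.symm with h7 | h7
  · exact hzz (by exact_mod_cast h7)
  · exact hv0 h7

end Pool.Agent.KS
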