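import Pool.Agent.KS.Grade
import Pool.Agent.GP.Core2

/-!
Module Kill. In an irreducible Lie algebra of traceless operators the eigenvalues of `ad B` come in
pairs.

Proof. Let `L' : LieSubalgebra ℂ (Module.End ℂ V)` be `L` with the bracket `X * Y - Y * X` (compare
`GP.opL` in GP/Core2). It acts irreducibly on `V` (`LieModule.IsIrreducible`, compare `GP.opL_irr`),
so it is a Killing Lie algebra (`GP.isKilling_of_irr`, GP/A-files or GP/C0; traces vanish): its
Killing form is nondegenerate and invariant. Suppose that the eigenspace of `-λ` in `L` is zero. For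
`Y ∈ L` with `⁅B, Y⁆ = μ • Y`, `μ ≠ -λ`: `(λ + μ) κ(X, Y) = κ(⁅B, X⁆, Y) + κ(X, ⁅B, Y⁆) = 0`, so
`κ(X, Y) = 0`. By `grade` `κ(X, Y) = 0` for all `Y ∈ L`, so `X = 0`, a contradiction.
-/

namespace Pool.Agent.KS

open Module Matrix

attribute [local instance 100] LieRing.ofAssociativeRing

/-- the Lie algebra of operators of a space of operators closed under commutators -/
noncomputable def kilL {V : Type} [AddCommGroup V] [Module ℂ V]
    (L : Submodule ℂ (Module.End ℂ V)) (hbr : ∀ X ∈ L, ∀ Y ∈ L, X * Y - Y * X ∈ L) :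
    LieSubalgebra ℂ (Module.End ℂ V) where
  __ := L
  lie_mem' := by
    intro X Y hX hY
    exact hbr X hX Y hY

lemma kilL_irr {V : Type} [AddCommGroup V] [Module ℂ V] [FiniteDimensional ℂ V]
    (hV : 0 < finrank ℂ V) (L : Submodule ℂ (Module.End ℂ V))
    (hbr : ∀ X ∈ L, ∀ Y ∈ L, X * Y - Y * X ∈ L)
    (hirr : ∀ W : Submodule ℂ V, (∀ X ∈ L, ∀ w ∈ W, X w ∈ W) → W = ⊥ ∨ W = ⊤) :
    LieModule.IsIrreducible ℂ (kilL L hbr) V := by
  have hnt : Nontrivial V := Module.finrank_pos_iff.mp hV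
  have hnt' : Nontrivial (LieSubmodule ℂ (kilL L hbr) V) :=
    (LieSubmodule.nontrivial_iff ℂ (kilL L hbr) V).mpr hnt
  refine IsSimpleOrder.mk fun N => ?_
  rcases hirr N.toSubmodule (fun X hX w hw => N.lie_mem (x := ⟨X, hX⟩) hw) with h | h
  · left
    exact (LieSubmodule.toSubmodule_eq_bot N).mp h
  · right
    exact (LieSubmodule.toSubmodule_eq_top (N := N)).mp h

theorem killing_pair {V : Type} [AddCommGroup V] [Module ℂ V] [FiniteDimensional ℂ V]
    (hV : 0 < finrank ℂ V) (L : Submodule ℂ (Module.End ℂ V))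
    (hbr : ∀ X ∈ L, ∀ Y ∈ L, X * Y - Y * X ∈ L) (htr : ∀ X ∈ L, LinearMap.trace ℂ V X = 0)
    (hirr : ∀ W : Submodule ℂ V, (∀ X ∈ L, ∀ w ∈ W, X w ∈ W) → W = ⊥ ∨ W = ⊤)
    (B : Module.End ℂ V) (hB : B ∈ L)
    (hBd : ∀ v : V, v ∈ Submodule.span ℂ {w | ∃ r : ℂ, B w = r • w})
    (X : Module.End ℂ V) (hX : X ∈ L) (hX0 : X ≠ 0) (l : ℂ) (hl : l ≠ 0)
    (h : B * X - X * B = l • X) : ∃ Y ∈ L, Y ≠ 0 ∧ B * Y - Y * B = (-l) • Y := by
  classical
  by_contra hne
  push Not at hne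
  have hirr' := kilL_irr hV L hbr hirr
  have hK : LieAlgebra.IsKilling ℂ (kilL L hbr) := Pool.Agent.GP.isKilling_of_irr (kilL L hbr) htr
  let b : kilL L hbr := ⟨B, hB⟩
  let x : kilL L hbr := ⟨X, hX⟩
  have hbx : ⁅b, x⁆ = l • x := Subtype.ext h
  have key : ∀ Y (hY : Y ∈ L), killingForm ℂ (kilL L hbr) x ⟨Y, hY⟩ = 0 := by
    have step : ∀ Y (hY : Y ∈ L) (μ : ℂ), B * Y - Y * B = μ • Y →
        killingForm ℂ (kilL L hbr) x ⟨Y, hY⟩ = 0 := by
      intro Y hY μ hμ
      by_cases hY0 : Y = 0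
      · have : (⟨Y, hY⟩ : kilL L hbr) = 0 := Subtype.ext hY0
        rw [this, map_zero]
      have hne' : μ ≠ -l := by
        rintro rfl
        exact hne Y hY hY0 hμ
      have hby : ⁅b, (⟨Y, hY⟩ : kilL L hbr)⁆ = μ • (⟨Y, hY⟩ : kilL L hbr) := Subtype.ext hμ
      have hinv := LieModule.traceForm_apply_lie_apply ℂ (kilL L hbr) (kilL L hbr) x b
        (⟨Y, hY⟩ : kilL L hbr)
      have h1 : ⁅x, b⁆ = -(l • x) := by rw [← lie_skew, hbx]
      rw [h1, hby, map_neg, map_smul, map_smul, LinearMap.neg_apply, LinearMap.smul_apply,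
        smul_eq_mul, smul_eq_mul] at hinv
      have h2 : (l + μ) * killingForm ℂ (kilL L hbr) x ⟨Y, hY⟩ = 0 := by
        have : killingForm ℂ (kilL L hbr) x ⟨Y, hY⟩ =
          LieModule.traceForm ℂ (kilL L hbr) (kilL L hbr) x ⟨Y, hY⟩ := rfl
        rw [this]
        linear_combination -hinv
      rcases mul_eq_zero.mp h2 with h3 | h3
      · exact absurd (by linear_combination h3) hne'
      · exact h3
    intro Y hY
    have hsp := grade L B (fun X hX => hbr B hB X hX) hBd Y hY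
    have : ∀ Z ∈ Submodule.span ℂ {Y | Y ∈ L ∧ ∃ μ : ℂ, B * Y - Y * B = μ • Y},
        ∃ hZ : Z ∈ L, killingForm ℂ (kilL L hbr) x ⟨Z, hZ⟩ = 0 := by
      intro Z hZ
      induction hZ using Submodule.span_induction with
      | mem w hw =>
        obtain ⟨hw1, μ, hμ⟩ := hw
        exact ⟨hw1, step w hw1 μ hμ⟩
      | zero => exact ⟨L.zero_mem, map_zero _⟩
      | add u w _ _ hu hw =>
        obtain ⟨hu1, hu2⟩ := hu
        obtain ⟨hw1, hw2⟩ := hw
        refine ⟨L.add_mem hu1 hw1, ?_⟩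
        have : (⟨u + w, L.add_mem hu1 hw1⟩ : kilL L hbr) =
          (⟨u, hu1⟩ : kilL L hbr) + (⟨w, hw1⟩ : kilL L hbr) := rfl
        rw [this, map_add, hu2, hw2, add_zero]
      | smul a w _ hw =>
        obtain ⟨hw1, hw2⟩ := hw
        refine ⟨L.smul_mem a hw1, ?_⟩
        have : (⟨a • w, L.smul_mem a hw1⟩ : kilL L hbr) =
          a • (⟨w, hw1⟩ : kilL L hbr) := rfl
        rw [this, map_smul, hw2, smul_zero]
    exact (this Y hsp).2
  have hx : x ∈ LieIdeal.killingCompl ℂ (kilL L hbr) ⊤ := by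
    rw [LieIdeal.mem_killingCompl]
    intro y _
    rw [LieModule.traceForm_comm]
    exact key y.1 y.2
  rw [LieAlgebra.IsKilling.killingCompl_top_eq_bot, LieSubmodule.mem_bot] at hx
  exact hX0 (congrArg Subtype.val hx)

end Pool.Agent.KS
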