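import Pool.Agent.KS.Defs

/-!
Module Witt. The shape of a real diagonalisable skew operator for a form of signature `(2, n - 2)`.

`q = bil G`. `B` commutes with `star`, so it is given by a real operator `wop B`, skew for `G`, and
`ℝ^n` is spanned by eigenvectors of it. Eigenvectors of eigenvalues `r, s` with `r + s ≠ 0` are
orthogonal. An invariant subspace spanned by eigenvectors with nondegenerate form and nonzero operator
contains a hyperbolic pair of eigenvectors (`wpair`), and the orthogonal of the pair has the same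
properties (`wgood_perp`). After two pairs the form is negative definite on the orthogonal: otherwise
`e1 + f1`, `e2 + f2`, `x` span a subspace of dimension 3 on which the form is `≥ 0`.
-/

set_option autoImplicit false

namespace Pool.Agent.KS

open Module Matrix

namespace WittAux

section real

variable {V : Type} [AddCommGroup V] [Module ℝ V]

/-- an invariant subspace spanned by eigenvectors on which the form is nondegenerate -/
structure WGood (g : LinearMap.BilinForm ℝ V) (B : Module.End ℝ V) (U : Submodule ℝ V) : Prop where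
  sp : ∀ x ∈ U, x ∈ Submodule.span ℝ {w | w ∈ U ∧ ∃ r : ℝ, B w = r • w}
  nd : ∀ x ∈ U, (∀ y ∈ U, g x y = 0) → x = 0

variable {g : LinearMap.BilinForm ℝ V} {B : Module.End ℝ V}

lemma wsum (hsk : ∀ x y, g (B x) y + g x (B y) = 0) {x y : V} {r s : ℝ} (hx : B x = r • x)
    (hy : B y = s • y) : (r + s) * g x y = 0 := by
  have := hsk x y
  rw [hx, hy] at this
  simp only [map_smul, LinearMap.smul_apply, smul_eq_mul] at this
  linarith

lemma wpair (hs : ∀ x y, g x y = g y x) (hsk : ∀ x y, g (B x) y + g x (B y) = 0)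
    {U : Submodule ℝ V} (hU : WGood g B U) (hB : ∃ x ∈ U, B x ≠ 0) :
    ∃ e ∈ U, ∃ f ∈ U, ∃ a : ℝ, 0 < a ∧ B e = a • e ∧ B f = -(a • f) ∧ g e e = 0 ∧ g f f = 0 ∧
      g e f = 1 := by
  have h1 : ∃ w ∈ U, ∃ r : ℝ, B w = r • w ∧ B w ≠ 0 := by
    by_contra hcon
    push Not at hcon
    obtain ⟨x, hxU, hx⟩ := hB
    apply hx
    have := hU.sp x hxU
    have hle : Submodule.span ℝ {w | w ∈ U ∧ ∃ r : ℝ, B w = r • w} ≤ LinearMap.ker B := by
      rw [Submodule.span_le]
      rintro w ⟨hw, r, hr⟩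
      exact hcon w hw r hr
    exact hle this
  obtain ⟨w, hwU, r, hr, hBw⟩ := h1
  have hr0 : r ≠ 0 := by
    rintro rfl
    rw [zero_smul] at hr
    exact hBw hr
  have hw0 : w ≠ 0 := by
    rintro rfl
    exact hBw (map_zero B)
  have h2 : ∃ y ∈ U, ∃ s : ℝ, B y = s • y ∧ g w y ≠ 0 := by
    by_contra hcon
    push Not at hcon
    apply hw0
    apply hU.nd w hwU
    intro y hy
    have hle : Submodule.span ℝ {w | w ∈ U ∧ ∃ r : ℝ, B w = r • w} ≤ LinearMap.ker (g w) := by
      rw [Submodule.span_le]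
      rintro z ⟨hz, s, hs'⟩
      exact hcon z hz s hs'
    exact hle (hU.sp y hy)
  obtain ⟨y, hyU, s, hBy, hwy⟩ := h2
  have hrs : r + s = 0 := by
    have := wsum hsk hr hBy
    rcases mul_eq_zero.1 this with h | h
    · exact h
    · exact absurd h hwy
  have hww : g w w = 0 := by
    have := wsum hsk hr hr
    rcases mul_eq_zero.1 this with h | h
    · exact absurd (by linarith) hr0
    · exact h
  have hyy : g y y = 0 := by
    have := wsum hsk hBy hBy
    rcases mul_eq_zero.1 this with h | h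
    · exact absurd (by linarith) hr0
    · exact h
  set f : V := (g w y)⁻¹ • y with hf
  have hfU : f ∈ U := U.smul_mem _ hyU
  have hBf : B f = -(r • f) := by
    have hs' : s = -r := by linarith
    rw [hf, map_smul, hBy, hs', smul_comm, neg_smul]
  have hff : g f f = 0 := by
    rw [hf]
    simp only [map_smul, LinearMap.smul_apply, smul_eq_mul, hyy, mul_zero]
  have hwf : g w f = 1 := by
    rw [hf, map_smul, smul_eq_mul, inv_mul_cancel₀ hwy]
  rcases lt_or_gt_of_ne hr0 with h | h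
  · refine ⟨f, hfU, w, hwU, -r, by linarith, ?_, ?_, hff, hww, ?_⟩
    · rw [hBf, neg_smul]
    · rw [neg_smul, neg_neg, hr]
    · rw [hs, hwf]
  · exact ⟨w, hwU, f, hfU, r, h, hr, hBf, hww, hff, hwf⟩

/-- the orthogonal of a pair -/
def wperp (g : LinearMap.BilinForm ℝ V) (U : Submodule ℝ V) (e f : V) : Submodule ℝ V :=
  U ⊓ (LinearMap.ker (g e) ⊓ LinearMap.ker (g f))

lemma mem_wperp {U : Submodule ℝ V} {e f x : V} :
    x ∈ wperp g U e f ↔ x ∈ U ∧ g e x = 0 ∧ g f x = 0 := by
  unfold wperp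
  simp only [Submodule.mem_inf, LinearMap.mem_ker]

/-- the projection to the orthogonal of a pair -/
noncomputable def wproj (g : LinearMap.BilinForm ℝ V) (e f : V) : V →ₗ[ℝ] V :=
  LinearMap.id - (g f).smulRight e - (g e).smulRight f

lemma wproj_apply (e f x : V) : wproj g e f x = x - g f x • e - g e x • f := rfl

lemma wproj_mem (hs : ∀ x y, g x y = g y x) {U : Submodule ℝ V} {e f : V} (he : e ∈ U)
    (hf : f ∈ U) (hee : g e e = 0) (hff : g f f = 0) (hef : g e f = 1) {x : V} (hx : x ∈ U) :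
    wproj g e f x ∈ wperp g U e f := by
  rw [mem_wperp, wproj_apply]
  refine ⟨U.sub_mem (U.sub_mem hx (U.smul_mem _ he)) (U.smul_mem _ hf), ?_, ?_⟩
  · simp only [map_sub, map_smul, smul_eq_mul, hee, hef, mul_zero, mul_one, sub_zero, sub_self]
  · have hfe : g f e = 1 := by rw [hs, hef]
    simp only [map_sub, map_smul, smul_eq_mul, hff, hfe, mul_zero, mul_one, sub_self]

lemma wproj_eigen (hsk : ∀ x y, g (B x) y + g x (B y) = 0) {e f : V} {a : ℝ}
    (hBe : B e = a • e) (hBf : B f = -(a • f)) {w : V} {r : ℝ} (hw : B w = r • w) :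
    B (wproj g e f w) = r • wproj g e f w := by
  have h1 := wsum hsk hBe hw
  have h2 : ((-a) + r) * g f w = 0 := wsum hsk (by rw [hBf, neg_smul]) hw
  have h3 : g f w * a = r * g f w := by linarith
  have h4 : g e w * a = -(r * g e w) := by linarith
  rw [wproj_apply, map_sub, map_sub, map_smul, map_smul, hw, hBe, hBf, smul_sub, smul_sub,
    smul_smul, smul_neg, smul_smul, smul_smul, smul_smul, h3, h4, neg_smul, neg_neg]

lemma wgood_perp (hs : ∀ x y, g x y = g y x) (hsk : ∀ x y, g (B x) y + g x (B y) = 0)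
    {U : Submodule ℝ V} (hU : WGood g B U) {e f : V} {a : ℝ} (he : e ∈ U)
    (hf : f ∈ U) (hBe : B e = a • e) (hBf : B f = -(a • f)) (hee : g e e = 0) (hff : g f f = 0)
    (hef : g e f = 1) : WGood g B (wperp g U e f) := by
  refine ⟨?_, ?_⟩
  · intro x hx
    have hx' := mem_wperp.1 hx
    have hpx : wproj g e f x = x := by
      rw [wproj_apply, hx'.2.1, hx'.2.2, zero_smul, zero_smul, sub_zero, sub_zero]
    have h1 : wproj g e f x ∈
        (Submodule.span ℝ {w | w ∈ U ∧ ∃ r : ℝ, B w = r • w}).map (wproj g e f) :=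
      Submodule.mem_map_of_mem (hU.sp x hx'.1)
    rw [hpx, Submodule.map_span] at h1
    refine Submodule.span_mono ?_ h1
    rintro _ ⟨w, ⟨hwU, r, hr⟩, rfl⟩
    exact ⟨wproj_mem hs he hf hee hff hef hwU, r, wproj_eigen hsk hBe hBf hr⟩
  · intro x hx h0
    have hx' := mem_wperp.1 hx
    apply hU.nd x hx'.1
    intro y hy
    have h1 := h0 _ (wproj_mem hs he hf hee hff hef hy)
    rw [wproj_apply, map_sub, map_sub, map_smul, map_smul, hs x e, hs x f, hx'.2.1, hx'.2.2,
      smul_zero, smul_zero, sub_zero, sub_zero] at h1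
    exact h1

lemma wrep (e f x : V) : x = g f x • e + g e x • f + wproj g e f x := by
  rw [wproj_apply]
  abel

theorem wreal [FiniteDimensional ℝ V] (hs : ∀ x y, g x y = g y x)
    (hpos : ∀ U : Submodule ℝ V, (∀ x ∈ U, 0 ≤ g x x) → finrank ℝ U ≤ 2)
    (hnd : ∀ x, (∀ y, g x y = 0) → x = 0) (hB0 : B ≠ 0)
    (hsk : ∀ x y, g (B x) y + g x (B y) = 0)
    (hsp : ∀ x, x ∈ Submodule.span ℝ {w | ∃ r : ℝ, B w = r • w}) :
    (∃ (e f : V) (a : ℝ), g e e = 0 ∧ g f f = 0 ∧ g e f = 1 ∧ a ≠ 0 ∧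
      ∀ x, B x = a • (g f x • e - g e x • f)) ∨
    ∃ (e1 e2 f1 f2 : V) (a b : ℝ), g e1 e1 = 0 ∧ g e1 e2 = 0 ∧
      g e2 e2 = 0 ∧ g f1 f1 = 0 ∧ g f1 f2 = 0 ∧
      g f2 f2 = 0 ∧ g e1 f1 = 1 ∧ g e1 f2 = 0 ∧
      g e2 f1 = 0 ∧ g e2 f2 = 1 ∧
      (∀ x : V, g e1 x = 0 → g e2 x = 0 → g f1 x = 0 →
        g f2 x = 0 → x ≠ 0 → g x x < 0) ∧ 0 < b ∧ b ≤ a ∧
      ∀ x, B x = a • (g f1 x • e1 - g e1 x • f1) + b • (g f2 x • e2 - g e2 x • f2) := by
  have hT : WGood g B ⊤ := by
    refine ⟨fun x _ => ?_, fun x _ h => hnd x (fun y => h y Submodule.mem_top)⟩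
    have := hsp x
    simpa only [Submodule.mem_top, true_and] using this
  have hBx : ∃ x ∈ (⊤ : Submodule ℝ V), B x ≠ 0 := by
    by_contra hcon
    push Not at hcon
    exact hB0 (LinearMap.ext fun x => hcon x Submodule.mem_top)
  obtain ⟨e1, he1, f1, hf1, a, ha, hBe1, hBf1, hee1, hff1, hef1⟩ := wpair hs hsk hT hBx
  set U1 := wperp g ⊤ e1 f1 with hU1
  have hG1 : WGood g B U1 := wgood_perp hs hsk hT he1 hf1 hBe1 hBf1 hee1 hff1 hef1
  by_cases hz : ∀ x ∈ U1, B x = 0
  · left
    refine ⟨e1, f1, a, hee1, hff1, hef1, ha.ne', fun x => ?_⟩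
    have hp := hz _ (wproj_mem hs he1 hf1 hee1 hff1 hef1 (Submodule.mem_top (x := x)))
    conv_lhs => rw [wrep (g := g) e1 f1 x]
    rw [map_add, map_add, map_smul, map_smul, hp, hBe1, hBf1, add_zero, smul_sub, smul_neg,
      smul_comm a, smul_comm a, sub_eq_add_neg]
  · right
    push Not at hz
    obtain ⟨e2, he2, f2, hf2, b, hb, hBe2, hBf2, hee2, hff2, hef2⟩ := wpair hs hsk hG1 hz
    have he2' := mem_wperp.1 he2
    have hf2' := mem_wperp.1 hf2
    set U2 := wperp g U1 e2 f2 with hU2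
    have hG2 : WGood g B U2 := wgood_perp hs hsk hG1 he2 hf2 hBe2 hBf2 hee2 hff2 hef2
    have hneg : ∀ x : V, g e1 x = 0 → g e2 x = 0 → g f1 x = 0 → g f2 x = 0 → x ≠ 0 →
        g x x < 0 := by
      intro x h1 h2 h3 h4 hx
      by_contra hcon
      push Not at hcon
      have hfe1 : g f1 e1 = 1 := by rw [hs, hef1]
      have hfe2 : g f2 e2 = 1 := by rw [hs, hef2]
      have h12 : g e1 e2 = 0 := he2'.2.1
      have h12' : g f1 e2 = 0 := he2'.2.2
      have h13 : g e1 f2 = 0 := hf2'.2.1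
      have h13' : g f1 f2 = 0 := hf2'.2.2
      have h21 : g e2 e1 = 0 := by rw [hs]; exact h12
      have h21' : g e2 f1 = 0 := by rw [hs]; exact h12'
      have h31 : g f2 e1 = 0 := by rw [hs]; exact h13
      have h31' : g f2 f1 = 0 := by rw [hs]; exact h13'
      have hx1 : g x e1 = 0 := by rw [hs]; exact h1
      have hx2 : g x e2 = 0 := by rw [hs]; exact h2
      have hx3 : g x f1 = 0 := by rw [hs]; exact h3
      have hx4 : g x f2 = 0 := by rw [hs]; exact h4
      have hli : LinearIndependent ℝ ![e1 + f1, e2 + f2, x] := by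
        rw [Fintype.linearIndependent_iff]
        intro c hc
        rw [Fin.sum_univ_three] at hc
        simp only [Matrix.cons_val_zero, Matrix.cons_val_one, Matrix.cons_val_two,
          Matrix.head_cons, Matrix.tail_cons] at hc
        have k1 := congrArg (g e1) hc
        have k2 := congrArg (g e2) hc
        simp only [map_add, map_smul, smul_eq_mul, map_zero, hee1, hef1, h12, h13, h1, hee2, hef2,
          h21, h21', h2] at k1 k2
        have c0 : c 0 = 0 := by linarith
        have c1 : c 1 = 0 := by linarith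
        rw [c0, c1, zero_smul, zero_smul, zero_add, zero_add] at hc
        have c2 : c 2 = 0 := by
          rcases smul_eq_zero.1 hc with h | h
          · exact h
          · exact absurd h hx
        intro i
        fin_cases i
        · exact c0
        · exact c1
        · exact c2
      have hcard := finrank_span_eq_card hli
      have hle := hpos (Submodule.span ℝ (Set.range ![e1 + f1, e2 + f2, x])) (by
        intro y hy
        obtain ⟨c, rfl⟩ := (Submodule.mem_span_range_iff_exists_fun ℝ).1 hy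
        rw [Fin.sum_univ_three]
        simp only [Matrix.cons_val_zero, Matrix.cons_val_one, Matrix.cons_val_two,
          Matrix.head_cons, Matrix.tail_cons]
        simp only [map_add, map_smul, smul_eq_mul, LinearMap.add_apply, LinearMap.smul_apply, hee1,
          hef1, h12, h13, h1, hee2, hef2, h21, h21', h2, hff1, hff2, hfe1, hfe2, h12', h13', h31,
          h31', h3, h4, hx1, hx2, hx3, hx4]
        have q1 := mul_self_nonneg (c 0)
        have q2 := mul_self_nonneg (c 1)
        have q3 := mul_nonneg (mul_self_nonneg (c 2)) hcon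
        nlinarith [q1, q2, q3])
      rw [hcard] at hle
      simp at hle
    have hz2 : ∀ x ∈ U2, B x = 0 := by
      intro x hx
      have hle : Submodule.span ℝ {w | w ∈ U2 ∧ ∃ r : ℝ, B w = r • w} ≤ LinearMap.ker B := by
        rw [Submodule.span_le]
        rintro w ⟨hw, r, hr⟩
        show B w = 0
        by_cases hw0 : w = 0
        · rw [hw0, map_zero]
        · have hw' := mem_wperp.1 hw
          have hw'' := mem_wperp.1 hw'.1
          have hn := hneg w hw''.2.1 hw'.2.1 hw''.2.2 hw'.2.2 hw0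
          have := wsum hsk hr hr
          rcases mul_eq_zero.1 this with h | h
          · have hr0 : r = 0 := by linarith
            rw [hr, hr0, zero_smul]
          · rw [h] at hn
            exact absurd hn (lt_irrefl _)
      exact hle (hG2.sp x hx)
    have hform : ∀ x, B x = a • (g f1 x • e1 - g e1 x • f1) + b • (g f2 x • e2 - g e2 x • f2) := by
      intro x
      set y := wproj g e1 f1 x with hy
      have hyU : y ∈ U1 := wproj_mem hs he1 hf1 hee1 hff1 hef1 (Submodule.mem_top (x := x))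
      have hp := hz2 _ (wproj_mem hs he2 hf2 hee2 hff2 hef2 hyU)
      have hfe1 : g f1 e1 = 1 := by rw [hs, hef1]
      have hgy1 : g f2 y = g f2 x := by
        have h31 : g f2 e1 = 0 := by rw [hs]; exact hf2'.2.1
        have h31' : g f2 f1 = 0 := by rw [hs]; exact hf2'.2.2
        rw [hy, wproj_apply, map_sub, map_sub, map_smul, map_smul, h31, h31', smul_zero, smul_zero,
          sub_zero, sub_zero]
      have hgy2 : g e2 y = g e2 x := by
        have h21 : g e2 e1 = 0 := by rw [hs]; exact he2'.2.1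
        have h21' : g e2 f1 = 0 := by rw [hs]; exact he2'.2.2
        rw [hy, wproj_apply, map_sub, map_sub, map_smul, map_smul, h21, h21', smul_zero, smul_zero,
          sub_zero, sub_zero]
      have hBy : B y = b • (g f2 x • e2 - g e2 x • f2) := by
        conv_lhs => rw [wrep (g := g) e2 f2 y]
        rw [map_add, map_add, map_smul, map_smul, hp, hBe2, hBf2, add_zero, smul_sub, smul_neg,
          smul_comm b, smul_comm b, sub_eq_add_neg, hgy1, hgy2]
      conv_lhs => rw [wrep (g := g) e1 f1 x]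
      rw [map_add, map_add, map_smul, map_smul, ← hy, hBy, hBe1, hBf1, smul_sub a, smul_neg,
        smul_comm a (g f1 x), smul_comm a (g e1 x), sub_eq_add_neg (g f1 x • a • e1)]
    have h12 : g e1 e2 = 0 := he2'.2.1
    have h12' : g f1 e2 = 0 := he2'.2.2
    have h13 : g e1 f2 = 0 := hf2'.2.1
    have h13' : g f1 f2 = 0 := hf2'.2.2
    rcases le_total b a with hab | hab
    · exact ⟨e1, e2, f1, f2, a, b, hee1, h12, hee2, hff1, h13', hff2, hef1, h13,
        by rw [hs]; exact h12', hef2, hneg, hb, hab, hform⟩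
    · refine ⟨e2, e1, f2, f1, b, a, hee2, by rw [hs]; exact h12, hee1, hff2,
        by rw [hs]; exact h13', hff1, hef2, by rw [hs]; exact h12', h13, hef1, ?_, ha, hab, ?_⟩
      · intro x h1 h2 h3 h4 hx
        exact hneg x h2 h1 h4 h3 hx
      · intro x
        rw [hform x, add_comm]

end real

section cplx

variable {n : ℕ}

/-- the real bilinear form of a real matrix -/
noncomputable def wbil (G : Matrix (Fin n) (Fin n) ℝ) : LinearMap.BilinForm ℝ (Fin n → ℝ) :=
  Matrix.toBilin' G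

lemma wbil_apply (G : Matrix (Fin n) (Fin n) ℝ) (x y : Fin n → ℝ) :
    wbil G x y = x ⬝ᵥ (G *ᵥ y) := Matrix.toBilin'_apply' _ _ _

lemma wbil_symm (G : Matrix (Fin n) (Fin n) ℝ) (hG : Gᵀ = G) (x y : Fin n → ℝ) :
    wbil G x y = wbil G y x := by
  rw [wbil_apply, wbil_apply, dotProduct_comm, ← Matrix.vecMul_transpose, hG,
    ← Matrix.dotProduct_mulVec]

lemma bil_cx (G : Matrix (Fin n) (Fin n) ℝ) (x y : Fin n → ℝ) :
    bil G (cx x) (cx y) = ((wbil G x y : ℝ) : ℂ) := by
  rw [bil_apply]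
  unfold wbil cx
  rw [Matrix.toBilin'_apply]
  push_cast
  rfl

/-- real part -/
def rev (v : Fin n → ℂ) : Fin n → ℝ := fun i => (v i).re

/-- imaginary part -/
def imv (v : Fin n → ℂ) : Fin n → ℝ := fun i => (v i).im

lemma rev_imv (v : Fin n → ℂ) : v = cx (rev v) + Complex.I • cx (imv v) := by
  funext i
  simp only [cx, rev, imv, Pi.add_apply, Pi.smul_apply, smul_eq_mul]
  rw [mul_comm]
  exact (Complex.re_add_im (v i)).symm

lemma rev_add (u v : Fin n → ℂ) : rev (u + v) = rev u + rev v := by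
  funext i; simp [rev]

lemma imv_add (u v : Fin n → ℂ) : imv (u + v) = imv u + imv v := by
  funext i; simp [imv]

lemma rev_smul (c : ℂ) (v : Fin n → ℂ) : rev (c • v) = c.re • rev v - c.im • imv v := by
  funext i; simp [rev, imv]

lemma imv_smul (c : ℂ) (v : Fin n → ℂ) : imv (c • v) = c.re • imv v + c.im • rev v := by
  funext i; simp [rev, imv]

lemma rev_cx (x : Fin n → ℝ) : rev (cx x) = x := by
  funext i; simp [rev, cx]

lemma cx_add (x y : Fin n → ℝ) : cx (x + y) = cx x + cx y := by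
  funext i; simp [cx]

lemma cx_sub (x y : Fin n → ℝ) : cx (x - y) = cx x - cx y := by
  funext i; simp [cx]

lemma cx_smul (r : ℝ) (x : Fin n → ℝ) : cx (r • x) = (r : ℂ) • cx x := by
  funext i; simp [cx]

lemma star_cx (x : Fin n → ℝ) : star (cx x) = cx x := by
  funext i; simp [cx]

lemma cx_rev_of_star {v : Fin n → ℂ} (h : star v = v) : cx (rev v) = v := by
  funext i
  have := congrFun h i
  simp only [Pi.star_apply, RCLike.star_def] at this
  exact (Complex.conj_eq_iff_re.1 this)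

/-- the real operator of a complex operator -/
def wop (B : Module.End ℂ (Fin n → ℂ)) : Module.End ℝ (Fin n → ℝ) where
  toFun x := rev (B (cx x))
  map_add' x y := by rw [cx_add, map_add, rev_add]
  map_smul' r x := by
    rw [cx_smul, map_smul, rev_smul]
    simp

lemma wop_apply (B : Module.End ℂ (Fin n → ℂ)) (x : Fin n → ℝ) : wop B x = rev (B (cx x)) := rfl

lemma cx_wop {B : Module.End ℂ (Fin n → ℂ)} (hBr : ∀ v, B (star v) = star (B v))
    (x : Fin n → ℝ) : cx (wop B x) = B (cx x) := by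
  rw [wop_apply]
  apply cx_rev_of_star
  rw [← hBr, star_cx]

lemma wop_rev {B : Module.End ℂ (Fin n → ℂ)} (hBr : ∀ v, B (star v) = star (B v))
    (v : Fin n → ℂ) : wop B (rev v) = rev (B v) := by
  conv_rhs => rw [rev_imv v]
  rw [map_add, map_smul, rev_add, rev_smul, ← cx_wop hBr, rev_cx, ← cx_wop hBr]
  have : imv (cx (wop B (imv v))) = 0 := by
    funext i; simp [imv, cx]
  rw [this]
  simp

lemma wop_imv {B : Module.End ℂ (Fin n → ℂ)} (hBr : ∀ v, B (star v) = star (B v))
    (v : Fin n → ℂ) : wop B (imv v) = imv (B v) := by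
  conv_rhs => rw [rev_imv v]
  rw [map_add, map_smul, imv_add, imv_smul, ← cx_wop hBr, ← cx_wop hBr, rev_cx]
  have h1 : ∀ w : Fin n → ℝ, imv (cx w) = 0 := by
    intro w
    funext i; simp [imv, cx]
  rw [h1, h1]
  simp

lemma cx_ext {A B : Module.End ℂ (Fin n → ℂ)} (h : ∀ x : Fin n → ℝ, A (cx x) = B (cx x)) :
    A = B := by
  apply LinearMap.ext
  intro v
  rw [rev_imv v, map_add, map_add, map_smul, map_smul, h, h]

lemma sig2_dim {G : Matrix (Fin n) (Fin n) ℝ} (h : Sig2 G) (U : Submodule ℝ (Fin n → ℝ))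
    (hU : ∀ x ∈ U, 0 ≤ wbil G x x) : finrank ℝ U ≤ 2 := by
  obtain ⟨W, W', -, h2, -, h4⟩ := h
  have hinf : U ⊓ W' = ⊥ := by
    rw [Submodule.eq_bot_iff]
    intro x hx
    by_contra hx0
    have h5 := h4 x hx.2 hx0
    have h6 := hU x hx.1
    rw [wbil_apply] at h6
    linarith
  have h7 := Submodule.finrank_sup_add_finrank_inf_eq U W'
  rw [hinf, finrank_bot, add_zero] at h7
  have h8 : finrank ℝ ↥(U ⊔ W') ≤ n := by
    have := Submodule.finrank_le (U ⊔ W')
    rwa [Module.finrank_fin_fun] at this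
  omega

lemma sig2_rad {G : Matrix (Fin n) (Fin n) ℝ} (hG : Gᵀ = G) (h : Sig2 G) (x : Fin n → ℝ)
    (hx : ∀ y, wbil G x y = 0) : x = 0 := by
  by_contra hx0
  obtain ⟨W, W', h1, h2, h3, h4⟩ := id h
  have hxW : x ∉ W := by
    intro hxW
    have := h3 x hxW hx0
    rw [← wbil_apply, hx] at this
    exact lt_irrefl _ this
  have hdim := sig2_dim h (W ⊔ Submodule.span ℝ {x}) (by
    intro z hz
    obtain ⟨w, hw, y, hy, rfl⟩ := Submodule.mem_sup.1 hz
    obtain ⟨c, rfl⟩ := Submodule.mem_span_singleton.1 hy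
    have hwx : wbil G w x = 0 := by rw [wbil_symm G hG, hx]
    simp only [map_add, map_smul, LinearMap.add_apply, LinearMap.smul_apply, smul_eq_mul, hx, hwx,
      mul_zero, add_zero]
    by_cases hw0 : w = 0
    · rw [hw0]; simp
    · rw [wbil_apply]; exact (h3 w hw hw0).le)
  have hinf : W ⊓ Submodule.span ℝ {x} = ⊥ := by
    rw [Submodule.eq_bot_iff]
    rintro z ⟨hz1, hz2⟩
    obtain ⟨c, rfl⟩ := Submodule.mem_span_singleton.1 hz2
    by_cases hc : c = 0
    · rw [hc, zero_smul]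
    · exfalso
      apply hxW
      have := W.smul_mem c⁻¹ hz1
      rwa [smul_smul, inv_mul_cancel₀ hc, one_smul] at this
  have h7 := Submodule.finrank_sup_add_finrank_inf_eq W (Submodule.span ℝ {x})
  rw [hinf, finrank_bot, add_zero, finrank_span_singleton hx0, h1] at h7
  omega

lemma bil_symm' (G : Matrix (Fin n) (Fin n) ℝ) (hG : Gᵀ = G) (u v : Fin n → ℂ) :
    bil G u v = bil G v u := by
  rw [bil_apply, bil_apply, Finset.sum_comm]
  refine Finset.sum_congr rfl fun i _ => Finset.sum_congr rfl fun j _ => ?_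
  have : G i j = G j i := by
    conv_lhs => rw [← hG]
    rfl
  rw [this]
  ring

end cplx

end WittAux

open WittAux

theorem sig2_nondeg {n : ℕ} (G : Matrix (Fin n) (Fin n) ℝ) (hG : Gᵀ = G) (h : Sig2 G) :
    (bil G).Nondegenerate := by
  have key : ∀ u : Fin n → ℂ, (∀ v, bil G u v = 0) → u = 0 := by
    intro u hu
    have h1 : ∀ y : Fin n → ℝ, wbil G (rev u) y = 0 ∧ wbil G (imv u) y = 0 := by
      intro y
      have h2 := hu (cx y)
      rw [rev_imv u, map_add, map_smul, LinearMap.add_apply, LinearMap.smul_apply, bil_cx,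
        bil_cx, smul_eq_mul] at h2
      have h3 := congrArg Complex.re h2
      have h4 := congrArg Complex.im h2
      simp at h3 h4
      exact ⟨h3, h4⟩
    have h5 := sig2_rad hG h (rev u) fun y => (h1 y).1
    have h6 := sig2_rad hG h (imv u) fun y => (h1 y).2
    rw [rev_imv u, h5, h6]
    funext i
    simp [cx]
  refine ⟨fun u hu => key u hu, fun u hu => key u fun v => ?_⟩
  rw [bil_symm' G hG]
  exact hu v

theorem witt {n : ℕ} (G : Matrix (Fin n) (Fin n) ℝ) (hG : Gᵀ = G) (h : Sig2 G)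
    (B : Module.End ℂ (Fin n → ℂ)) (hB0 : B ≠ 0)
    (hsk : ∀ u v, bil G (B u) v + bil G u (B v) = 0) (hBr : ∀ v, B (star v) = star (B v))
    (hBd : ∀ v, v ∈ Submodule.span ℂ {w | ∃ r : ℝ, B w = (r : ℂ) • w}) :
    (∃ (e f : Fin n → ℝ) (a : ℝ), e ⬝ᵥ (G *ᵥ e) = 0 ∧ f ⬝ᵥ (G *ᵥ f) = 0 ∧ e ⬝ᵥ (G *ᵥ f) = 1 ∧
      a ≠ 0 ∧ B = (a : ℂ) • wed (bil G) (cx e) (cx f)) ∨
    ∃ (e1 e2 f1 f2 : Fin n → ℝ) (a b : ℝ), e1 ⬝ᵥ (G *ᵥ e1) = 0 ∧ e1 ⬝ᵥ (G *ᵥ e2) = 0 ∧
      e2 ⬝ᵥ (G *ᵥ e2) = 0 ∧ f1 ⬝ᵥ (G *ᵥ f1) = 0 ∧ f1 ⬝ᵥ (G *ᵥ f2) = 0 ∧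
      f2 ⬝ᵥ (G *ᵥ f2) = 0 ∧ e1 ⬝ᵥ (G *ᵥ f1) = 1 ∧ e1 ⬝ᵥ (G *ᵥ f2) = 0 ∧
      e2 ⬝ᵥ (G *ᵥ f1) = 0 ∧ e2 ⬝ᵥ (G *ᵥ f2) = 1 ∧
      (∀ x : Fin n → ℝ, e1 ⬝ᵥ (G *ᵥ x) = 0 → e2 ⬝ᵥ (G *ᵥ x) = 0 → f1 ⬝ᵥ (G *ᵥ x) = 0 →
        f2 ⬝ᵥ (G *ᵥ x) = 0 → x ≠ 0 → x ⬝ᵥ (G *ᵥ x) < 0) ∧ 0 < b ∧ b ≤ a ∧
      B = (a : ℂ) • wed (bil G) (cx e1) (cx f1) + (b : ℂ) • wed (bil G) (cx e2) (cx f2) := by
  have hsk0 : ∀ x y, wbil G (wop B x) y + wbil G x (wop B y) = 0 := by
    intro x y
    have := hsk (cx x) (cx y)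
    rw [← cx_wop hBr, ← cx_wop hBr, bil_cx, bil_cx, ← Complex.ofReal_add,
      Complex.ofReal_eq_zero] at this
    exact this
  have hw0 : wop B ≠ 0 := by
    intro h0
    apply hB0
    apply cx_ext
    intro x
    rw [← cx_wop hBr, h0]
    funext i
    simp [cx]
  have hsp : ∀ x, x ∈ Submodule.span ℝ {w | ∃ r : ℝ, wop B w = r • w} := by
    intro x
    have hc := hBd (cx x)
    have key : ∀ v ∈ Submodule.span ℂ {w | ∃ r : ℝ, B w = (r : ℂ) • w},
        rev v ∈ Submodule.span ℝ {w | ∃ r : ℝ, wop B w = r • w} ∧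
        imv v ∈ Submodule.span ℝ {w | ∃ r : ℝ, wop B w = r • w} := by
      intro v hv
      induction hv using Submodule.span_induction with
      | mem w hw =>
        obtain ⟨r, hr⟩ := hw
        refine ⟨Submodule.subset_span ⟨r, ?_⟩, Submodule.subset_span ⟨r, ?_⟩⟩
        · rw [wop_rev hBr, hr, rev_smul]
          simp
        · rw [wop_imv hBr, hr, imv_smul]
          simp
      | zero =>
        have h1 : rev (0 : Fin n → ℂ) = 0 := by funext i; simp [rev]
        have h2 : imv (0 : Fin n → ℂ) = 0 := by funext i; simp [imv]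
        rw [h1, h2]
        exact ⟨Submodule.zero_mem _, Submodule.zero_mem _⟩
      | add u v _ _ hu hv =>
        rw [rev_add, imv_add]
        exact ⟨Submodule.add_mem _ hu.1 hv.1, Submodule.add_mem _ hu.2 hv.2⟩
      | smul c v _ hv =>
        rw [rev_smul, imv_smul]
        exact ⟨Submodule.sub_mem _ (Submodule.smul_mem _ _ hv.1) (Submodule.smul_mem _ _ hv.2),
          Submodule.add_mem _ (Submodule.smul_mem _ _ hv.2) (Submodule.smul_mem _ _ hv.1)⟩
    have := (key _ hc).1
    rwa [rev_cx] at this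
  have hform : ∀ (e f x : Fin n → ℝ) (a : ℝ),
      cx (a • (wbil G f x • e - wbil G e x • f)) =
        ((a : ℂ) • wed (bil G) (cx e) (cx f)) (cx x) := by
    intro e f x a
    rw [cx_smul, cx_sub, cx_smul, cx_smul, LinearMap.smul_apply, wed_apply, bil_cx, bil_cx]
  rcases wreal (B := wop B) (wbil_symm G hG) (fun U hU => sig2_dim h U hU) (sig2_rad hG h) hw0 hsk0
    hsp with ⟨e, f, a, h1, h2, h3, h4, h5⟩ |
    ⟨e1, e2, f1, f2, a, b, h1, h2, h3, h4, h5, h6, h7, h8, h9, h10, h11, h12, h13, h14⟩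
  · left
    refine ⟨e, f, a, ?_, ?_, ?_, h4, ?_⟩
    · rw [← wbil_apply]; exact h1
    · rw [← wbil_apply]; exact h2
    · rw [← wbil_apply]; exact h3
    · apply cx_ext
      intro x
      rw [← cx_wop hBr, h5, hform]
  · right
    simp only [wbil_apply] at h1 h2 h3 h4 h5 h6 h7 h8 h9 h10 h11
    refine ⟨e1, e2, f1, f2, a, b, h1, h2, h3, h4, h5, h6, h7, h8, h9, h10, h11, h12, h13, ?_⟩
    apply cx_ext
    intro x
    rw [← cx_wop hBr, h14, cx_add, hform, hform, LinearMap.add_apply]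

end Pool.Agent.KS
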