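import Pool.Agent.KS.Small

/-!
An irreducible real Lie algebra of skew operators for a form of signature `(2, n - 2)`, `n ≥ 3`,
`n ≠ 5`, which contains a non-zero hyperbolic element consists of all skew operators.
-/

namespace Pool.Agent.KS

open Module Matrix

theorem so_main2 {n : ℕ} (hn : 3 ≤ n) (hn5 : n ≠ 5) (G : Matrix (Fin n) (Fin n) ℝ) (hG : Gᵀ = G)
    (hsig : Sig2 G) (L : Submodule ℂ (Module.End ℂ (Fin n → ℂ)))
    (hbr : ∀ X ∈ L, ∀ Y ∈ L, X * Y - Y * X ∈ L)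
    (hsk : ∀ X ∈ L, ∀ u v, bil G (X u) v + bil G u (X v) = 0)
    (hconj : ∀ X ∈ L, ∃ X' ∈ L, ∀ v, X' v = star (X (star v)))
    (hirr : ∀ W : Submodule ℂ (Fin n → ℂ), (∀ X ∈ L, ∀ w ∈ W, X w ∈ W) → W = ⊥ ∨ W = ⊤)
    (B : Module.End ℂ (Fin n → ℂ)) (hB : B ∈ L) (hB0 : B ≠ 0)
    (hBr : ∀ v, B (star v) = star (B v))
    (hBd : ∀ v, v ∈ Submodule.span ℂ {w | ∃ r : ℝ, B w = (r : ℂ) • w})
    (X : Module.End ℂ (Fin n → ℂ)) (hX : ∀ u v, bil G (X u) v + bil G u (X v) = 0) : X ∈ L := by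
  have hnd := sig2_nondeg G hG hsig
  have key : ∀ e f : Fin n → ℝ, e ⬝ᵥ (G *ᵥ e) = 0 → f ⬝ᵥ (G *ᵥ f) = 0 → e ⬝ᵥ (G *ᵥ f) = 1 →
      wed (bil G) (cx e) (cx f) ∈ L → X ∈ L := by
    intro e f h1 h2 h3 h4
    exact caseA (bil G) hnd (bil_symm hG) L hbr hsk hirr (cx e) (cx f)
      (by rw [bil_cx, h1, Complex.ofReal_zero]) (by rw [bil_cx, h2, Complex.ofReal_zero])
      (by rw [bil_cx, h3, Complex.ofReal_one]) h4 X hX
  rcases witt G hG hsig B hB0 (hsk B hB) hBr hBd with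
    ⟨e, f, a, h1, h2, h3, ha, hBe⟩ | ⟨e1, e2, f1, f2, a, b, h11, h12, h22, k11, k12, k22, m11, m12,
      m21, m22, hdef, hb, hab, hBe⟩
  · refine key e f h1 h2 h3 ?_
    have h4 := L.smul_mem ((a : ℂ)⁻¹) hB
    rw [hBe, smul_smul, inv_mul_cancel₀ (by exact_mod_cast ha), one_smul] at h4
    exact h4
  · have hs := bil_symm hG
    have z : ∀ {x y : Fin n → ℝ}, x ⬝ᵥ (G *ᵥ y) = 0 → bil G (cx x) (cx y) = 0 := by
      intro x y h
      rw [bil_cx, h, Complex.ofReal_zero]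
    have o : ∀ {x y : Fin n → ℝ}, x ⬝ᵥ (G *ᵥ y) = 1 → bil G (cx x) (cx y) = 1 := by
      intro x y h
      rw [bil_cx, h, Complex.ofReal_one]
    have fr : CCx.CFr (bil G) (cx e1) (cx e2) (cx f1) (cx f2) :=
      ⟨hs, z h11, z h12, by rw [hs]; exact z h12, z h22, z k11, z k12, by rw [hs]; exact z k12,
        z k22, o m11, z m12, z m21, o m22, by rw [hs]; exact o m11, by rw [hs]; exact z m21,
        by rw [hs]; exact z m12, by rw [hs]; exact o m22⟩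
    have h4n : 4 ≤ n := by
      have := Small.four_le fr
      rwa [finrank_pi, Fintype.card_fin] at this
    rcases hab.lt_or_eq with h | h
    · rcases Nat.lt_or_ge 5 n with h6 | h6
      · rcases caseC h6 G hG hnd L hbr hsk hconj hirr e1 e2 f1 f2 h11 h12 h22 k11 k12 k22 m11 m12
          m21 m22 hdef a b hb h (hBe ▸ hB) with h4 | h4
        · exact key e1 f1 h11 k11 m11 h4
        · exact key e2 f2 h22 k22 m22 h4
      · have h4 : n = 4 := by omega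
        refine key e1 f1 h11 k11 m11 (Small.case4 (by rw [finrank_pi, Fintype.card_fin, h4]) fr L
          hbr hsk hirr (a := (a : ℂ)) (b := (b : ℂ)) ?_ ?_ ?_ ?_ (hBe ▸ hB))
        · exact_mod_cast (hb.trans h).ne'
        · exact_mod_cast hb.ne'
        · exact_mod_cast (add_pos (hb.trans h) hb).ne'
        · exact_mod_cast (sub_pos.mpr h).ne'
    · subst h
      refine key e1 f1 h11 k11 m11 (caseB G hG hnd L hbr hsk hconj hirr e1 e2 f1 f2 h11 h12 h22 k11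
        k12 k22 m11 m12 m21 m22 hdef ?_)
      have h4 := L.smul_mem ((b : ℂ)⁻¹) hB
      rw [hBe, ← smul_add, smul_smul, inv_mul_cancel₀ (by exact_mod_cast hb.ne'), one_smul] at h4
      exact h4

/-- the same, up to sign -/
theorem so_main2' {n : ℕ} (hn : 3 ≤ n) (hn5 : n ≠ 5) (G : Matrix (Fin n) (Fin n) ℝ) (hG : Gᵀ = G)
    (hsig : Sig2 G ∨ Sig2 (-G)) (L : Submodule ℂ (Module.End ℂ (Fin n → ℂ)))
    (hbr : ∀ X ∈ L, ∀ Y ∈ L, X * Y - Y * X ∈ L)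
    (hsk : ∀ X ∈ L, ∀ u v, bil G (X u) v + bil G u (X v) = 0)
    (hconj : ∀ X ∈ L, ∃ X' ∈ L, ∀ v, X' v = star (X (star v)))
    (hirr : ∀ W : Submodule ℂ (Fin n → ℂ), (∀ X ∈ L, ∀ w ∈ W, X w ∈ W) → W = ⊥ ∨ W = ⊤)
    (B : Module.End ℂ (Fin n → ℂ)) (hB : B ∈ L) (hB0 : B ≠ 0)
    (hBr : ∀ v, B (star v) = star (B v))
    (hBd : ∀ v, v ∈ Submodule.span ℂ {w | ∃ r : ℝ, B w = (r : ℂ) • w})
    (X : Module.End ℂ (Fin n → ℂ)) (hX : ∀ u v, bil G (X u) v + bil G u (X v) = 0) : X ∈ L := by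
  rcases hsig with h | h
  · exact so_main2 hn hn5 G hG h L hbr hsk hconj hirr B hB hB0 hBr hBd X hX
  · have hn' : ∀ Y : Module.End ℂ (Fin n → ℂ), (∀ u v, bil G (Y u) v + bil G u (Y v) = 0) →
        ∀ u v, bil (-G) (Y u) v + bil (-G) u (Y v) = 0 := by
      intro Y hY u v
      rw [bil_neg, bil_neg]
      linear_combination -(hY u v)
    exact so_main2 hn hn5 (-G) (by rw [Matrix.transpose_neg, hG]) h L hbr
      (fun Y hY => hn' Y (hsk Y hY)) hconj hirr B hB hB0 hBr hBd X (hn' X hX)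

end Pool.Agent.KS
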