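import Pool.Agent.KS.SOMain

/-!
The case of dimensions three and four.
-/

namespace Pool.Agent.KS.Small

open Module Matrix CCx

section alg

variable {V : Type} [AddCommGroup V] [Module ℂ V] [FiniteDimensional ℂ V]
  {q : LinearMap.BilinForm ℂ V} {E1 E2 F1 F2 : V}

/-- a frame has four independent vectors -/
lemma four_le (h : CFr q E1 E2 F1 F2) : 4 ≤ finrank ℂ V := by
  have hli : LinearIndependent ℂ ![E1, E2, F1, F2] := by
    rw [Fintype.linearIndependent_iff]
    intro c hc
    simp only [Fin.sum_univ_four, Matrix.cons_val_zero, Matrix.cons_val_one, Matrix.cons_val] at hc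
    have e1 := congrArg (q F1) hc
    have e2 := congrArg (q F2) hc
    have e3 := congrArg (q E1) hc
    have e4 := congrArg (q E2) hc
    simp only [map_add, map_smul, smul_eq_mul, map_zero, h.e11, h.e12, h.e21, h.e22, h.f11, h.f12,
      h.f21, h.f22, h.m11, h.m12, h.m21, h.m22, h.n11, h.n12, h.n21, h.n22, mul_zero, mul_one,
      add_zero, zero_add] at e1 e2 e3 e4
    intro i
    fin_cases i
    · exact e1
    · exact e2
    · exact e3
    · exact e4
  have := hli.fintype_card_le_finrank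
  rwa [Fintype.card_fin] at this

/-- in dimension four nothing is orthogonal to a frame -/
lemma ct_zero (h4 : finrank ℂ V = 4) (h : CFr q E1 E2 F1 F2) {x : V}
    (hx : CT q E1 E2 F1 F2 x) : x = 0 := by
  by_contra hx0
  obtain ⟨k1, k2, k3, k4⟩ := hx
  have hli : LinearIndependent ℂ ![E1, E2, F1, F2, x] := by
    rw [Fintype.linearIndependent_iff]
    intro c hc
    simp only [Fin.sum_univ_five, Matrix.cons_val_zero, Matrix.cons_val_one, Matrix.cons_val] at hc
    have e1 := congrArg (q F1) hc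
    have e2 := congrArg (q F2) hc
    have e3 := congrArg (q E1) hc
    have e4 := congrArg (q E2) hc
    simp only [map_add, map_smul, smul_eq_mul, map_zero, h.e11, h.e12, h.e21, h.e22, h.f11, h.f12,
      h.f21, h.f22, h.m11, h.m12, h.m21, h.m22, h.n11, h.n12, h.n21, h.n22, mul_zero, mul_one,
      add_zero, zero_add, k1, k2, k3, k4] at e1 e2 e3 e4
    rw [e1, e2, e3, e4, zero_smul, zero_smul, zero_smul, zero_smul, zero_add, zero_add, zero_add,
      zero_add] at hc
    have e5 := (smul_eq_zero.mp hc).resolve_right hx0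
    intro i
    fin_cases i
    · exact e1
    · exact e2
    · exact e3
    · exact e4
    · exact e5
  have := hli.fintype_card_le_finrank
  rw [Fintype.card_fin, h4] at this
  omega

lemma expand4 (h4 : finrank ℂ V = 4) (h : CFr q E1 E2 F1 F2) (x : V) :
    x = q F1 x • E1 + q F2 x • E2 + q E1 x • F1 + q E2 x • F2 := by
  have h1 := cpi_exp (q := q) (E1 := E1) (E2 := E2) (F1 := F1) (F2 := F2) x
  rw [ct_zero h4 h (cpi_mem h x), add_zero] at h1
  exact h1

omit [FiniteDimensional ℂ V] in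
lemma pair {B X : Module.End ℂ V} (hB : CSk q B) {μ r s : ℂ} (hμ : B * X - X * B = μ • X)
    {v w : V} (hv : B v = r • v) (hw : B w = s • w) : (μ + r + s) * q (X v) w = 0 := by
  have h1 := congrArg (fun T : Module.End ℂ V => q (T v) w) hμ
  simp only [LinearMap.sub_apply, Module.End.mul_apply, LinearMap.smul_apply, hv, map_smul,
    map_sub, smul_eq_mul] at h1
  have h2 := hB (X v) w
  rw [hw, map_smul, smul_eq_mul] at h2
  linear_combination -h1 + h2

/-- raising operators -/
lemma raise (h4 : finrank ℂ V = 4) (h : CFr q E1 E2 F1 F2)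
    (L : Submodule ℂ (Module.End ℂ V)) (hsk : ∀ X ∈ L, CSk q X)
    (hirr : ∀ W : Submodule ℂ V, (∀ X ∈ L, ∀ w ∈ W, X w ∈ W) → W = ⊥ ∨ W = ⊤)
    {B : Module.End ℂ V} (hBs : CSk q B)
    (hgr : ∀ X ∈ L, X ∈ Submodule.span ℂ {Y | Y ∈ L ∧ ∃ μ : ℂ, B * Y - Y * B = μ • Y})
    {a b : ℂ} (ha : a ≠ 0) (hb : b ≠ 0) (hab : a + b ≠ 0) (hab' : a - b ≠ 0)
    (b1 : B E1 = a • E1) (b2 : B E2 = b • E2) (b3 : B F1 = (-a) • F1) (b4 : B F2 = (-b) • F2) :
    wed q E1 E2 ∈ L := by
  have hself : ∀ X ∈ L, ∀ u, q (X u) u = 0 := fun X hX u => by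
    have h1 := hsk X hX u u
    rw [h.s u (X u)] at h1
    linear_combination (1 / 2) * h1
  have hex : ∃ X ∈ L, q (X F1) F2 ≠ 0 := by
    by_contra hcon
    push Not at hcon
    have h1 : ∀ X ∈ L, ∀ w ∈ Submodule.span ℂ {F1, F2}, X w ∈ Submodule.span ℂ {F1, F2} := by
      intro X hX w hw
      have hF1 : F1 ∈ Submodule.span ℂ {F1, F2} := Submodule.subset_span (by simp)
      have hF2 : F2 ∈ Submodule.span ℂ {F1, F2} := Submodule.subset_span (by simp)
      have k1 : X F1 ∈ Submodule.span ℂ {F1, F2} := by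
        rw [expand4 h4 h (X F1), h.s F1, h.s F2, hself X hX, hcon X hX, zero_smul, zero_smul,
          zero_add, zero_add]
        exact Submodule.add_mem _ (Submodule.smul_mem _ _ hF1) (Submodule.smul_mem _ _ hF2)
      have k2 : X F2 ∈ Submodule.span ℂ {F1, F2} := by
        have h2 := hsk X hX F1 F2
        rw [hcon X hX, zero_add] at h2
        rw [expand4 h4 h (X F2), h2, h.s F2, hself X hX, zero_smul, zero_smul,
          zero_add, zero_add]
        exact Submodule.add_mem _ (Submodule.smul_mem _ _ hF1) (Submodule.smul_mem _ _ hF2)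
      rw [Submodule.mem_span_pair] at hw
      obtain ⟨c, d, rfl⟩ := hw
      rw [map_add, map_smul, map_smul]
      exact Submodule.add_mem _ (Submodule.smul_mem _ _ k1) (Submodule.smul_mem _ _ k2)
    rcases hirr _ h1 with h2 | h2
    · have h3 : F1 ∈ Submodule.span ℂ {F1, F2} := Submodule.subset_span (by simp)
      rw [h2, Submodule.mem_bot] at h3
      have := h.m11
      rw [h3, map_zero] at this
      exact zero_ne_one this
    · have h3 : E1 ∈ Submodule.span ℂ {F1, F2} := by rw [h2]; trivial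
      rw [Submodule.mem_span_pair] at h3
      obtain ⟨c, d, h3⟩ := h3
      have h4 := h.n11
      rw [← h3, map_add, map_smul, map_smul, h.f11, h.f12] at h4
      simp at h4
  obtain ⟨X, hX, hX0⟩ := hex
  have hY : ∃ Y ∈ L, (∃ μ : ℂ, B * Y - Y * B = μ • Y) ∧ q (Y F1) F2 ≠ 0 := by
    by_contra hcon
    push Not at hcon
    apply hX0
    have h1 := hgr X hX
    have h2 : ∀ Z ∈ Submodule.span ℂ {Y | Y ∈ L ∧ ∃ μ : ℂ, B * Y - Y * B = μ • Y},
        q (Z F1) F2 = 0 := by
      intro Z hZ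
      induction hZ using Submodule.span_induction with
      | mem Y hY => exact hcon Y hY.1 hY.2
      | zero => simp
      | add Y Z _ _ h3 h4 =>
        rw [LinearMap.add_apply, map_add, LinearMap.add_apply, h3, h4, add_zero]
      | smul c Y _ h3 =>
        rw [LinearMap.smul_apply, map_smul, LinearMap.smul_apply, h3, smul_zero]
    exact h2 X h1
  obtain ⟨Y, hY, ⟨μ, hμ⟩, hY0⟩ := hY
  have hμ1 : μ = a + b := by
    have h1 := (mul_eq_zero.mp (pair hBs hμ b3 b4)).resolve_right hY0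
    linear_combination h1
  subst hμ1
  have z2 : q (Y E1) E2 = 0 := by
    refine (mul_eq_zero.mp (pair hBs hμ b1 b2)).resolve_left fun h1 => hab ?_
    linear_combination h1 / 2
  have z3 : q (Y F1) E2 = 0 := by
    refine (mul_eq_zero.mp (pair hBs hμ b3 b2)).resolve_left fun h1 => hb ?_
    linear_combination h1 / 2
  have z4 : q (Y E1) F2 = 0 := by
    refine (mul_eq_zero.mp (pair hBs hμ b1 b4)).resolve_left fun h1 => ha ?_
    linear_combination h1 / 2
  have z5 : q (Y F1) E1 = 0 := by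
    refine (mul_eq_zero.mp (pair hBs hμ b3 b1)).resolve_left fun h1 => hab ?_
    linear_combination h1
  have z6 : q (Y F2) E2 = 0 := by
    refine (mul_eq_zero.mp (pair hBs hμ b4 b2)).resolve_left fun h1 => hab ?_
    linear_combination h1
  have h1 := sk_expand h (hsk Y hY)
  have c0 : ∀ x, cpi q E1 E2 F1 F2 x = 0 := fun x => ct_zero h4 h (cpi_mem h x)
  have c1 : cpi q E1 E2 F1 F2 * Y * cpi q E1 E2 F1 F2 = 0 := by
    apply LinearMap.ext
    intro x
    rw [Module.End.mul_apply, Module.End.mul_apply, c0 x, map_zero, map_zero]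
    rfl
  rw [z2, z3, z4, z5, z6, c0, c0, c0, c0, c1, neg_zero, neg_zero, wed_zero_right, wed_zero_right,
    wed_zero_right, wed_zero_right, zero_smul, zero_smul, zero_smul, zero_smul, zero_smul,
    add_zero, add_zero, add_zero, add_zero, add_zero, add_zero, add_zero, add_zero, add_zero,
    add_zero] at h1
  obtain ⟨c, hc⟩ : ∃ c, c = -q (Y F1) F2 := ⟨_, rfl⟩
  have hc0 : c ≠ 0 := by rw [hc]; exact neg_ne_zero.mpr hY0
  rw [← hc] at h1
  have h2 := L.smul_mem c⁻¹ hY
  rw [h1, smul_smul, inv_mul_cancel₀ hc0, one_smul] at h2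
  exact h2

theorem case4 (h4 : finrank ℂ V = 4) (h : CFr q E1 E2 F1 F2)
    (L : Submodule ℂ (Module.End ℂ V))
    (hbr : ∀ X ∈ L, ∀ Y ∈ L, X * Y - Y * X ∈ L) (hsk : ∀ X ∈ L, CSk q X)
    (hirr : ∀ W : Submodule ℂ V, (∀ X ∈ L, ∀ w ∈ W, X w ∈ W) → W = ⊥ ∨ W = ⊤)
    {a b : ℂ} (ha : a ≠ 0) (hb : b ≠ 0) (hab : a + b ≠ 0) (hab' : a - b ≠ 0)
    (hB : a • wed q E1 F1 + b • wed q E2 F2 ∈ L) : wed q E1 F1 ∈ L := by
  obtain ⟨B, hBd⟩ : ∃ B, B = a • wed q E1 F1 + b • wed q E2 F2 := ⟨_, rfl⟩
  rw [← hBd] at hB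
  have b1 : B E1 = a • E1 := by
    rw [hBd]
    simp only [LinearMap.add_apply, LinearMap.smul_apply, wed_apply, h.e11, h.e21, h.n11, h.n21]
    module
  have b2 : B E2 = b • E2 := by
    rw [hBd]
    simp only [LinearMap.add_apply, LinearMap.smul_apply, wed_apply, h.e12, h.e22, h.n12, h.n22]
    module
  have b3 : B F1 = (-a) • F1 := by
    rw [hBd]
    simp only [LinearMap.add_apply, LinearMap.smul_apply, wed_apply, h.m11, h.m21, h.f11, h.f21]
    module
  have b4 : B F2 = (-b) • F2 := by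
    rw [hBd]
    simp only [LinearMap.add_apply, LinearMap.smul_apply, wed_apply, h.m12, h.m22, h.f12, h.f22]
    module
  have hBdiag : ∀ v : V, v ∈ Submodule.span ℂ {w | ∃ r : ℂ, B w = r • w} := by
    intro v
    rw [expand4 h4 h v]
    refine Submodule.add_mem _ (Submodule.add_mem _ (Submodule.add_mem _ ?_ ?_) ?_) ?_
    · exact Submodule.smul_mem _ _ (Submodule.subset_span ⟨_, b1⟩)
    · exact Submodule.smul_mem _ _ (Submodule.subset_span ⟨_, b2⟩)
    · exact Submodule.smul_mem _ _ (Submodule.subset_span ⟨_, b3⟩)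
    · exact Submodule.smul_mem _ _ (Submodule.subset_span ⟨_, b4⟩)
  have hBs := hsk B hB
  have hgr := fun X hX => grade L B (fun X hX => hbr B hB X hX) hBdiag X hX
  have h2 : CFr q F1 F2 E1 E2 := h.symm
  have h3 : CFr q E1 F2 F1 E2 := ⟨h.s, h.e11, h.m12, h.n21, h.f22, h.f11, h.n12, h.m21, h.e22,
    h.m11, h.e12, h.f21, h.n22, h.n11, h.f12, h.e21, h.m22⟩
  have h5 : CFr q F1 E2 E1 F2 := h3.symm
  have r1 := raise h4 h L hsk hirr hBs hgr ha hb hab hab' b1 b2 b3 b4
  have r2 := raise h4 h2 L hsk hirr hBs hgr (neg_ne_zero.mpr ha) (neg_ne_zero.mpr hb)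
    (fun h6 => hab (by linear_combination -h6)) (fun h6 => hab' (by linear_combination -h6))
    b3 b4 (by rw [b1, neg_neg]) (by rw [b2, neg_neg])
  have r3 := raise h4 h3 L hsk hirr hBs hgr ha (neg_ne_zero.mpr hb)
    (fun h6 => hab' (by linear_combination h6)) (fun h6 => hab (by linear_combination h6))
    b1 b4 b3 (by rw [b2, neg_neg])
  have r4 := raise h4 h5 L hsk hirr hBs hgr (neg_ne_zero.mpr ha) hb
    (fun h6 => hab' (by linear_combination -h6)) (fun h6 => hab (by linear_combination -h6))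
    b3 b2 (by rw [b1, neg_neg]) b4
  have k1 := hbr _ r1 _ r2
  have k2 := hbr _ r3 _ r4
  rw [wed_comm (wed_skew h.s E1 E2)] at k1
  rw [wed_comm (wed_skew h.s E1 F2)] at k2
  have k3 := L.smul_mem (-(1 / 2) : ℂ) (L.add_mem k1 k2)
  have k4 : wed q E1 F1 = (-(1 / 2) : ℂ) • (wed q (wed q E1 E2 F1) F2 + wed q F1 (wed q E1 E2 F2) +
      (wed q (wed q E1 F2 F1) E2 + wed q F1 (wed q E1 F2 E2))) := by
    apply LinearMap.ext
    intro z
    simp only [LinearMap.add_apply, LinearMap.smul_apply, wed_apply, h.m11, h.m12, h.m21, h.m22,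
      h.f21, h.n22, h.e12, map_sub, map_smul, LinearMap.sub_apply, LinearMap.smul_apply,
      smul_eq_mul]
    module
  rw [k4]
  exact k3

end alg

end Pool.Agent.KS.Small
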