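import Pool.Agent.Helper8.D.Types

/-!
Abelian varieties of Kuga-Satake type.
-/

open scoped ComplexConjugate

namespace Pool.Agent.GPC

/-- The quadratic form on `ℝ^n` with matrix `G` has signature `(2, n - 2)`: it is positive definite
on a subspace of dimension `2` and negative definite on a subspace of dimension `n - 2`. -/
def HasSignatureTwo {n : ℕ} (G : Matrix (Fin n) (Fin n) ℝ) : Prop :=
  ∃ W W' : Submodule ℝ (Fin n → ℝ), Module.finrank ℝ W = 2 ∧ Module.finrank ℝ W' + 2 = n ∧
    (∀ w ∈ W, w ≠ 0 → 0 < w ⬝ᵥ G.mulVec w) ∧ ∀ w ∈ W', w ≠ 0 → w ⬝ᵥ G.mulVec w < 0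

/-- A Kuga-Satake structure on `A`: an action `t` on `H_1(A)` of the Clifford algebra of a rational
quadratic space `T` of dimension `n` with basis `e_1, ..., e_n` and Gram matrix `G`, of signature
`(2, n - 2)` or `(n - 2, 2)`. The operators `t a` of the basis vectors are linear, respect the Betti
structure (`betti`), satisfy the Clifford relations (`clifford`), and there is a basis of
`T ⊗ ℂ` (the vectors `∑ c a b e_a`) which acts by operators respecting the de Rham structure
(`deRham`). The Hodge structure on `H_1(A)` is the one given by a Hodge structure of K3 type on `T`: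
there is a vector `x` of `T ⊗ ℂ`, not orthogonal to its complex conjugate, which maps `H_1(A, ℂ)` to
`F^0` and `F^0` to zero (`hodge`). The endomorphisms of `A` (tensor `ℚ`) are the operators of
`H_1(A, ℚ)` which commute with the even Clifford algebra (`endo`). -/
structure AbVar.KugaSatake (A : AbVar) (n : ℕ) where
  G : Matrix (Fin n) (Fin n) ℚ
  t : Fin n → A.H1 → A.H1
  symm : G.transpose = G
  signature : HasSignatureTwo (G.map ((↑) : ℚ → ℝ)) ∨ HasSignatureTwo (-(G.map ((↑) : ℚ → ℝ)))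
  linear : ∀ a, IsLinearMap ℂ (t a)
  betti : ∀ a v, A.IsBetti v → A.IsBetti (t a v)
  clifford : ∀ a b v, t a (t b v) + t b (t a v) = (2 * (G a b : ℂ)) • v
  deRham : ∃ c : Matrix (Fin n) (Fin n) ℂ, IsUnit c ∧
    ∀ b v, A.IsDeRham v → A.IsDeRham (∑ a, c a b • t a v)
  hodge : ∃ x : Fin n → ℂ, ∑ a, ∑ b, x a * (G a b : ℂ) * conj (x b) ≠ 0 ∧
    (∀ v, A.IsFil (∑ a, x a • t a v)) ∧ ∀ v, A.IsFil v → ∑ a, x a • t a v = 0
  endo : ∀ f : A.H1 → A.H1, A.IsEnd f ↔ IsLinearMap ℂ f ∧
    (∀ v, A.IsBetti v → A.IsBetti (f v)) ∧ ∀ a b v, f (t a (t b v)) = t a (t b (f v))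

end Pool.Agent.GPC
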